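import Pool.Agent.J4H11.GQ.N9

/-!
# Powers of families of curves
-/

set_option autoImplicit false
set_option linter.unusedSectionVars false

open Finset Module Pool.Agent.J4H11.RC Pool.Agent.J4H11.SC Pool.Agent.H901R3.MS
  WeierstrassCurve Pool.Agent.J4H11.GN Pool.Agent.J4H11.GP

namespace Pool.Agent.J4H11.GQ

theorem exists_ind (n : ℕ) : ∃ x : Fin n → ℂ, AlgebraicIndependent ℚ x := by
  induction n with
  | zero =>
    refine ⟨fun i => i.elim0, ?_⟩
    rw [algebraicIndependent_empty_type_iff]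
    exact (algebraMap ℚ ℂ).injective
  | succ n ih =>
    obtain ⟨x, hx⟩ := ih
    obtain ⟨z, hz⟩ : ∃ z : ℂ, ¬ IsAlgebraic (Algebra.adjoin ℚ (Set.range x)) z := by
      by_contra h
      push Not at h
      exact not_countable_complex ((ctbl x).mono fun z _ => h z)
    have h1 : AlgebraicIndependent ℚ (fun o : Option (Fin n) => o.elim z x) :=
      (hx.option_iff_transcendental z).2 hz
    exact ⟨_, h1.comp (finSuccEquiv n) (finSuccEquiv n).injective⟩

section
variable {r s : ℕ}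

theorem exists_gen_pts (m : ℕ) (a b : Fin r → ℤ) (hDQ : ∀ j, Disc (a j : ℚ) (b j : ℚ)) :
    ∃ P : Fin m → (j : Fin r) → Pt (a j : ℂ) (b j : ℂ),
      AlgebraicIndependent ℚ (fun p : Fin m × Fin r => (crd (P p.1 p.2)).1) := by
  obtain ⟨x, hx⟩ := exists_ind (m * r)
  have hy : ∀ (p : Fin m × Fin r), ∃ Q : Pt (a p.2 : ℂ) (b p.2 : ℂ),
      (crd Q).1 = x (finProdFinEquiv p) := by
    intro p
    obtain ⟨y, hy⟩ := IsAlgClosed.exists_pow_nat_eq (x (finProdFinEquiv p) ^ 3 +
      (a p.2 : ℂ) * x (finProdFinEquiv p) + (b p.2 : ℂ)) (n := 2) two_pos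
    exact ⟨Affine.Point.some _ _ ((nonsingular_iff
      (disc_of (Rat.castHom ℂ) _ _ (hDQ p.2))).2 hy), rfl⟩
  choose Q hQ using hy
  refine ⟨fun i j => Q (i, j), ?_⟩
  have h : (fun p : Fin m × Fin r => (crd (Q (p.1, p.2))).1) = x ∘ finProdFinEquiv :=
    funext fun p => hQ p
  rw [h]
  exact hx.comp _ finProdFinEquiv.injective

/-- the point of the power -/
def pwP {F : Type} [Field F] {a b : Fin r → ℤ} {m : ℕ}
    (P : Fin m → (j : Fin r) → Pt (a j : F) (b j : F)) (v : Fin (m * r)) :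
    Pt ((a (finProdFinEquiv.symm v).2 : ℤ) : F) ((b (finProdFinEquiv.symm v).2 : ℤ) : F) :=
  P (finProdFinEquiv.symm v).1 (finProdFinEquiv.symm v).2

theorem pwP_surj {F : Type} [Field F] {a b : Fin r → ℤ} {m : ℕ}
    (R : (v : Fin (m * r)) → Pt ((a (finProdFinEquiv.symm v).2 : ℤ) : F)
      ((b (finProdFinEquiv.symm v).2 : ℤ) : F)) :
    ∃ P : Fin m → (j : Fin r) → Pt (a j : F) (b j : F), pwP P = R := by
  obtain ⟨f, hf⟩ := (Equiv.piCongrLeft' (fun p : Fin m × Fin r => Pt (a p.2 : F) (b p.2 : F))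
    finProdFinEquiv).surjective R
  refine ⟨fun i j => f (i, j), ?_⟩
  rw [← hf]
  funext v
  rfl

/-- a function of the coordinates of the power -/
theorem pw_at {F T : Type} [Field F] {a b : Fin r → ℤ} {m : ℕ}
    (P : Fin m → (j : Fin r) → Pt (a j : F) (b j : F)) (f : (j : Fin r) → Pt (a j : F) (b j : F) → T)
    (i : Fin m) (j : Fin r) :
    f (finProdFinEquiv.symm (finProdFinEquiv (i, j))).2 (pwP P (finProdFinEquiv (i, j))) =
      f j (P i j) :=
  congrArg (fun p : Fin m × Fin r => f p.2 (P p.1 p.2)) (Equiv.symm_apply_apply _ (i, j))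

theorem evf_pw {F : Type} [Field F] {a b : Fin r → ℤ} {m : ℕ}
    (P : Fin m → (j : Fin r) → Pt (a j : F) (b j : F)) (i : Fin m) :
    (evf (a := fun v => a (finProdFinEquiv.symm v).2) (b := fun v => b (finProdFinEquiv.symm v).2)
      (pwP P)).comp (MvPolynomial.rename (fun v : Fin r × Fin 2 =>
        ((finProdFinEquiv (i, v.1) : Fin (m * r)), v.2))).toRingHom = evf (P i) := by
  apply MvPolynomial.ringHom_ext
  · intro n
    rw [← RingHom.comp_apply, ← RingHom.comp_apply]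
    congr 1
    exact RingHom.ext_int _ _
  · rintro ⟨j, e⟩
    rw [RingHom.comp_apply]
    change evf _ (MvPolynomial.rename _ (MvPolynomial.X (j, e))) = _
    rw [MvPolynomial.rename_X]
    unfold evf
    rcases fin2 e with rfl | rfl
    · rw [evp_x, evp_x]
      exact pw_at P (fun j Q => (crd Q).1) i j
    · rw [evp_y, evp_y]
      exact pw_at P (fun j Q => (crd Q).2) i j

/-- the equations of the power -/
noncomputable def pwG (m : ℕ) (𝒢 : Set (MvPolynomial (Fin s) (MvPolynomial (Fin r × Fin 2) ℤ))) :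
    Set (MvPolynomial (Fin (m * s)) (MvPolynomial (Fin (m * r) × Fin 2) ℤ)) :=
  {G' | ∃ i : Fin m, ∃ G ∈ 𝒢, G' = MvPolynomial.rename (fun t => finProdFinEquiv (i, t))
    (MvPolynomial.map (MvPolynomial.rename (fun v : Fin r × Fin 2 =>
      ((finProdFinEquiv (i, v.1) : Fin (m * r)), v.2))).toRingHom G)}

theorem pwG_iff {F A : Type} [Field F] [CommRing A] {a b : Fin r → ℤ} {m : ℕ}
    (𝒢 : Set (MvPolynomial (Fin s) (MvPolynomial (Fin r × Fin 2) ℤ))) (φ : F →+* A)
    (P : Fin m → (j : Fin r) → Pt (a j : F) (b j : F)) (z : Fin (m * s) → A) :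
    (∀ G ∈ pwG m 𝒢, MvPolynomial.eval₂ (φ.comp (evf
      (a := fun v => a (finProdFinEquiv.symm v).2) (b := fun v => b (finProdFinEquiv.symm v).2)
      (pwP P))) z G = 0) ↔
    ∀ i, ∀ G ∈ 𝒢, MvPolynomial.eval₂ (φ.comp (evf (P i)))
      (fun t => z (finProdFinEquiv (i, t))) G = 0 := by
  have key : ∀ (i : Fin m) (G : MvPolynomial (Fin s) (MvPolynomial (Fin r × Fin 2) ℤ)),
      MvPolynomial.eval₂ (φ.comp (evf
        (a := fun v => a (finProdFinEquiv.symm v).2) (b := fun v => b (finProdFinEquiv.symm v).2)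
        (pwP P))) z (MvPolynomial.rename (fun t => finProdFinEquiv (i, t))
        (MvPolynomial.map (MvPolynomial.rename (fun v : Fin r × Fin 2 =>
          ((finProdFinEquiv (i, v.1) : Fin (m * r)), v.2))).toRingHom G)) =
      MvPolynomial.eval₂ (φ.comp (evf (P i))) (fun t => z (finProdFinEquiv (i, t))) G := by
    intro i G
    rw [MvPolynomial.eval₂_rename, MvPolynomial.eval₂_map, RingHom.comp_assoc, evf_pw]
    rfl
  constructor
  · intro h i G hG
    rw [← key]
    exact h _ ⟨i, G, hG, rfl⟩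
  · rintro h _ ⟨i, G, hG, rfl⟩
    rw [key]
    exact h i G hG

theorem pwG_fin {a b : Fin r → ℤ} {m : ℕ}
    (𝒢 : Set (MvPolynomial (Fin s) (MvPolynomial (Fin r × Fin 2) ℤ)))
    (P : Fin m → (j : Fin r) → Pt (a j : ℂ) (b j : ℂ))
    (hF : ∀ i, {ζ : Fin s → ℂ | ∀ G ∈ 𝒢, MvPolynomial.eval₂ (evf (P i)) ζ G = 0}.Finite) :
    {ζ : Fin (m * s) → ℂ | ∀ G ∈ pwG m 𝒢, MvPolynomial.eval₂ (evf
      (a := fun v => a (finProdFinEquiv.symm v).2) (b := fun v => b (finProdFinEquiv.symm v).2)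
      (pwP P)) ζ G = 0}.Finite := by
  refine Set.Finite.of_injOn (f := fun z i t => z (finProdFinEquiv (i, t))) ?_ ?_
    (Set.Finite.pi hF)
  · intro z hz i _ G hG
    exact (pwG_iff 𝒢 (RingHom.id ℂ) P z).1 hz i G hG
  · intro z _ z' _ h
    funext v
    have h2 := congrFun (congrFun h (finProdFinEquiv.symm v).1) (finProdFinEquiv.symm v).2
    simpa only [Prod.mk.eta, Equiv.apply_symm_apply] using h2

end

end Pool.Agent.J4H11.GQ
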