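import Pool.Agent.J4H11.GQ.N9

/-!
# Degrees of several points
-/

set_option autoImplicit false
set_option linter.unusedSectionVars false

open Finset Module

namespace Pool.Agent.J4H11.GQ

/-- several points of bounded degree -/
theorem SD_prod (F : Subfield ℂ) {m s : ℕ} (z : Fin m → Fin s → ℂ) (d : ℕ)
    (h : ∀ i, SD F (z i) d) :
    ∃ L : IntermediateField F ℂ, FiniteDimensional F L ∧ finrank F L ≤ d ^ m ∧
      ∀ i t, z i t ∈ L := by
  classical
  have key : ∀ I : Finset (Fin m), ∃ L : IntermediateField F ℂ, FiniteDimensional F L ∧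
      finrank F L ≤ d ^ I.card ∧ ∀ i ∈ I, ∀ t, z i t ∈ L := by
    intro I
    induction I using Finset.induction_on with
    | empty =>
      refine ⟨⊥, inferInstance, ?_, fun i hi => absurd hi (Finset.notMem_empty i)⟩
      rw [IntermediateField.finrank_bot, card_empty, pow_zero]
    | insert i I hi ih =>
      obtain ⟨L, h1, h2, h3⟩ := ih
      obtain ⟨L', h1', h2', h3'⟩ := (SD_iff _ _ _).1 (h i)
      refine ⟨L ⊔ L', inferInstance, ?_, fun i' hi' t => ?_⟩
      · refine (IntermediateField.finrank_sup_le L L').trans ?_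
        rw [card_insert_of_notMem hi, pow_succ]
        exact Nat.mul_le_mul h2 h2'
      · rcases mem_insert.1 hi' with rfl | hi'
        · exact (le_sup_right : L' ≤ L ⊔ L') (h3' t)
        · exact (le_sup_left : L ≤ L ⊔ L') (h3 i' hi' t)
  obtain ⟨L, h1, h2, h3⟩ := key univ
  rw [card_univ, Fintype.card_fin] at h2
  exact ⟨L, h1, h2, fun i t => h3 i (mem_univ i) t⟩

/-- the field generated by the first points -/
noncomputable def Fz (F : Subfield ℂ) {m s : ℕ} (z : Fin m → Fin s → ℂ) (k : ℕ) : Subfield ℂ :=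
  F ⊔ Subfield.closure {x | ∃ i : Fin m, (i : ℕ) < k ∧ ∃ t, x = z i t}

theorem Fz_mono (F : Subfield ℂ) {m s : ℕ} (z : Fin m → Fin s → ℂ) (k k' : ℕ) (h : k ≤ k') :
    Fz F z k ≤ Fz F z k' := by
  refine sup_le_sup_left (Subfield.closure_mono ?_) F
  rintro x ⟨i, hi, t, rfl⟩
  exact ⟨i, hi.trans_le h, t, rfl⟩

theorem Fz_le (F : Subfield ℂ) {m s : ℕ} (z : Fin m → Fin s → ℂ) (k : ℕ) (L : Subfield ℂ)
    (hF : F ≤ L) (hz : ∀ i t, z i t ∈ L) : Fz F z k ≤ L := by
  refine sup_le hF (Subfield.closure_le.2 ?_)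
  rintro x ⟨i, -, t, rfl⟩
  exact hz i t

/-- the degree of the field of several points from below -/
theorem tower_low (F : Subfield ℂ) {m s : ℕ} (z : Fin m → Fin s → ℂ) (d : ℕ) (L : Subfield ℂ)
    (hF : F ≤ L) (h0 : 0 < F.relfinrank L) (hz : ∀ i t, z i t ∈ L)
    (h : ∀ i : Fin m, ¬ SD (Fz F z i) (z i) d) : (d + 1) ^ m ≤ F.relfinrank L := by
  have hF0 : ∀ k, F ≤ Fz F z k := fun k => le_sup_left
  have hpos : ∀ k, 0 < F.relfinrank (Fz F z k) ∧ 0 < (Fz F z k).relfinrank L := by
    intro k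
    have h1 := Subfield.relfinrank_mul_relfinrank (hF0 k) (Fz_le F z k L hF hz)
    rw [← h1] at h0
    exact ⟨Nat.pos_of_mul_pos_right h0, Nat.pos_of_mul_pos_left h0⟩
  have key : ∀ k : ℕ, k ≤ m → (d + 1) ^ k ≤ F.relfinrank (Fz F z k) := by
    intro k
    induction k with
    | zero =>
      intro _
      rw [pow_zero]
      exact (hpos 0).1
    | succ k ih =>
      intro hk
      have h1 := ih ((Nat.le_succ k).trans hk)
      have h2 := Subfield.relfinrank_mul_relfinrank (hF0 k) (Fz_mono F z k (k + 1) (Nat.le_succ k))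
      have h3 := Subfield.relfinrank_mul_relfinrank (Fz_mono F z k (k + 1) (Nat.le_succ k))
        (Fz_le F z (k + 1) L hF hz)
      have h4 : 0 < (Fz F z k).relfinrank (Fz F z (k + 1)) := by
        have h5 := (hpos k).2
        rw [← h3] at h5
        exact Nat.pos_of_mul_pos_right h5
      have h5 : d + 1 ≤ (Fz F z k).relfinrank (Fz F z (k + 1)) := by
        by_contra hcon
        refine h ⟨k, hk⟩ ⟨Fz F z (k + 1), Fz_mono F z k (k + 1) (Nat.le_succ k), h4,
          Nat.le_of_lt_succ (not_le.1 hcon), fun t => ?_⟩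
        exact (le_sup_right : _ ≤ Fz F z (k + 1))
          (Subfield.subset_closure ⟨⟨k, hk⟩, Nat.lt_succ_self k, t, rfl⟩)
      rw [← h2, pow_succ]
      exact Nat.mul_le_mul h1 h5
  refine (key m le_rfl).trans ?_
  have h1 := Subfield.relfinrank_mul_relfinrank (hF0 m) (Fz_le F z m L hF hz)
  rw [← h1]
  exact Nat.le_mul_of_pos_right _ (hpos m).2

/-- a power which is big enough -/
theorem exists_pow (D d : ℕ) : ∃ m : ℕ, 1 ≤ m ∧ D * d ^ m < (d + 1) ^ m := by
  rcases Nat.eq_zero_or_pos d with rfl | hd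
  · exact ⟨1, le_rfl, by simp⟩
  · -- Bernoulli
    refine ⟨D * d + 1, Nat.succ_le_succ (Nat.zero_le _), ?_⟩
    have h1 : ∀ k : ℕ, (k + d) * d ^ k ≤ d * (d + 1) ^ k := by
      intro k
      induction k with
      | zero => simp
      | succ k ih =>
        have h2 : (k + 1 + d) * d ^ (k + 1) ≤ (k + d) * d ^ k * (d + 1) := by
          have : (k + 1 + d) * d ≤ (k + d) * (d + 1) := by nlinarith
          calc (k + 1 + d) * d ^ (k + 1) = (k + 1 + d) * d * d ^ k := by ring
            _ ≤ (k + d) * (d + 1) * d ^ k := Nat.mul_le_mul_right _ this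
            _ = (k + d) * d ^ k * (d + 1) := by ring
        calc (k + 1 + d) * d ^ (k + 1) ≤ (k + d) * d ^ k * (d + 1) := h2
          _ ≤ d * (d + 1) ^ k * (d + 1) := Nat.mul_le_mul_right _ ih
          _ = d * (d + 1) ^ (k + 1) := by ring
    have h2 := h1 (D * d + 1)
    have h3 : d * (D * d ^ (D * d + 1)) < d * (d + 1) ^ (D * d + 1) := by
      refine lt_of_lt_of_le ?_ h2
      have h4 : 0 < d ^ (D * d + 1) := pow_pos hd _
      nlinarith
    exact Nat.lt_of_mul_lt_mul_left h3

end Pool.Agent.J4H11.GQ
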