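import Pool.Agent.J4H11.GQ.K1
import Pool.Agent.J4H11.GQ.K2

/-!
# Algebraic independence over the fields of the other factors
-/

set_option autoImplicit false
set_option linter.unusedSectionVars false

open Finset Module Pool.Agent.J4H11.RC Pool.Agent.J4H11.SC Pool.Agent.H901R3.MS
  WeierstrassCurve Pool.Agent.J4H11.GN Pool.Agent.J4H11.GP

namespace Pool.Agent.J4H11.GQ

/-- the algebraic closure of the field generated by the coordinates of the other factors -/
noncomputable def Kc {r m : ℕ} (x : Fin m × Fin r → ℂ) (i : Fin m) : Subfield ℂ :=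
  (algebraicClosure (IntermediateField.adjoin ℚ (x '' {p | p.1 ≠ i})) ℂ).toSubfield

theorem kc_closed {r m : ℕ} (x : Fin m × Fin r → ℂ) (i : Fin m) : IsAlgClosed (Kc x i) :=
  (inferInstance : IsAlgClosure (IntermediateField.adjoin ℚ (x '' {p | p.1 ≠ i}))
    (algebraicClosure (IntermediateField.adjoin ℚ (x '' {p | p.1 ≠ i})) ℂ)).isAlgClosed

theorem kc_x {r m : ℕ} (x : Fin m × Fin r → ℂ) (i i' : Fin m) (h : i' ≠ i) (j : Fin r) :
    x (i', j) ∈ Kc x i := by
  refine mem_algebraicClosure_iff.2 ?_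
  exact isAlgebraic_algebraMap (⟨x (i', j), IntermediateField.subset_adjoin ℚ _ ⟨(i', j), h, rfl⟩⟩ :
    IntermediateField.adjoin ℚ (x '' {p | p.1 ≠ i}))

theorem kc_ind {r m : ℕ} (x : Fin m × Fin r → ℂ) (hx : AlgebraicIndependent ℚ x) (i : Fin m)
    (k : Subfield ℂ) (hk : k ≤ Kc x i) : AlgebraicIndependent k (fun j => x (i, j)) := by
  have h1 : AlgebraicIndependent (Algebra.adjoin ℚ (x '' {p | p.1 ≠ i}))
      (fun j : Fin r => x (i, j)) := by
    have h2 := hx.adjoin_of_disjoint (s := {p | p.1 ≠ i}) (t := {p | p.1 = i}) (by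
      rw [Set.disjoint_left]
      intro p h h'
      exact h h')
    exact h2.comp (fun j : Fin r => (⟨(i, j), rfl⟩ : {p : Fin m × Fin r | p.1 = i}))
      (fun j j' h => (Prod.mk.inj (Subtype.mk.inj h)).2)
  have h2 : AlgebraicIndependent (IntermediateField.adjoin ℚ (x '' {p | p.1 ≠ i}))
      (fun j : Fin r => x (i, j)) := IntermediateField.algebraicIndependent_adjoin_iff.2 h1
  have h3 := h2.algebraicClosure
  have h4 : AlgebraicIndependent (Kc x i) (fun j : Fin r => x (i, j)) := h3
  let _ : Algebra k (Kc x i) := (Subfield.inclusion hk).toAlgebra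
  have : IsScalarTower k (Kc x i) ℂ := IsScalarTower.of_algebraMap_eq fun _ => rfl
  exact h4.restrictScalars (Subfield.inclusion hk).injective

end Pool.Agent.J4H11.GQ
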