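import Pool.Agent.J4H11.GQ.K3

/-!
# The degree of several points over the powers
-/

set_option autoImplicit false
set_option linter.unusedSectionVars false

open Polynomial Module Pool.Agent.J4H11.RC Pool.Agent.J4H11.SC Pool.Agent.H901R3.MS
  WeierstrassCurve Pool.Agent.J4H11.GN Pool.Agent.J4H11.GP

attribute [local instance 5000] Classical.propDecidable

namespace Pool.Agent.J4H11.GQ

section
variable {r s m : ℕ}

theorem kc_alg (x : Fin m × Fin r → ℂ) (i : Fin m) (u : ℂ) (h : IsAlgebraic (Kc x i) u) :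
    u ∈ Kc x i := by
  have := kc_closed x i
  obtain ⟨c, hc⟩ := alg_mem (k := Kc x i) h
  rw [← hc]
  exact c.2

theorem kc_pt (a b : Fin r → ℤ) (x : Fin m × Fin r → ℂ) (i : Fin m) (j : Fin r)
    (P : Pt (a j : ℂ) (b j : ℂ)) (h : (crd P).1 ∈ Kc x i) : (crd P).2 ∈ Kc x i := by
  by_cases h0 : P = 0
  · rw [h0]
    exact (Kc x i).zero_mem
  · apply kc_alg
    have hE := crd_eqn' P h0
    have h1 : (crd P).2 ^ 2 ∈ Kc x i := by
      have h2 : (crd P).2 ^ 2 = (crd P).1 ^ 3 + (a j : ℂ) * (crd P).1 + (b j : ℂ) := hE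
      rw [h2]
      exact Subfield.add_mem _ (Subfield.add_mem _ (Subfield.pow_mem _ h 3)
        (Subfield.mul_mem _ (intCast_mem _ _) h)) (intCast_mem _ _)
    refine IsAlgebraic.of_pow (n := 2) (by norm_num) ?_
    exact isAlgebraic_algebraMap (⟨_, h1⟩ : Kc x i)

theorem kc_div (a b : Fin r → ℤ) (hDQ : ∀ j, Disc (a j : ℚ) (b j : ℚ))
    (hnt : ∀ j, NT (a j) (b j)) (x : Fin m × Fin r → ℂ) (i : Fin m) (j : Fin r)
    (P R S : Pt (a j : ℂ) (b j : ℂ)) (h : (crd P).1 ∈ Kc x i) (n : ℕ) (hn : 1 ≤ n)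
    (h1 : linC n R S = P) (h2 : IsRatP S) : (crd R).1 ∈ Kc x i ∧ (crd R).2 ∈ Kc x i := by
  have hD : ∀ j, Disc (a j : ℂ) (b j : ℂ) := fun j => disc_of (Rat.castHom ℂ) _ _ (hDQ j)
  obtain ⟨R0, hR0⟩ := rat_lift (hDQ j) (hD j) S h2
  have := kc_closed x i
  refine crd_div (Kc x i) (hnt j) (hD j) P R h (kc_pt a b x i j P h) n hn R0 ?_
  rw [hR0, ← lin_cl (fun a b => Classical.propDecidable (a = b)), linC_lin]
  exact h1

theorem kc_fin (a b : Fin r → ℤ) (x : Fin m × Fin r → ℂ) (i : Fin m)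
    (P : (j : Fin r) → Pt (a j : ℂ) (b j : ℂ)) (h : ∀ j, (crd (P j)).1 ∈ Kc x i)
    (𝒢 : Set (MvPolynomial (Fin s) (MvPolynomial (Fin r × Fin 2) ℤ)))
    (hF : {ζ : Fin s → ℂ | ∀ G ∈ 𝒢, MvPolynomial.eval₂ (evf P) ζ G = 0}.Finite)
    (ζ : Fin s → ℂ) (hζ : ∀ G ∈ 𝒢, MvPolynomial.eval₂ (evf P) ζ G = 0) (t : Fin s) :
    ζ t ∈ Kc x i := by
  have hx0 : ∀ G, evf P G ∈ Kc x i := by
    intro G
    induction G using MvPolynomial.induction_on with
    | C c =>
      have : evf P (MvPolynomial.C c) = (c : ℂ) := by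
        rw [show (MvPolynomial.C c : MvPolynomial (Fin r × Fin 2) ℤ) = ((c : ℤ) :
          MvPolynomial (Fin r × Fin 2) ℤ) from (map_intCast MvPolynomial.C c), map_intCast]
      rw [this]
      exact intCast_mem _ c
    | add p q hp hq =>
      rw [map_add]
      exact add_mem hp hq
    | mul_X p v hp =>
      rw [map_mul]
      refine mul_mem hp ?_
      obtain ⟨j, e⟩ := v
      unfold evf
      rcases fin2 e with rfl | rfl
      · rw [evp_x]
        exact h j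
      · rw [evp_y]
        exact kc_pt a b x i j (P j) (h j)
  let ε : MvPolynomial (Fin r × Fin 2) ℤ →+* Kc x i := (evf P).codRestrict (Kc x i) hx0
  have hε : ∀ (w : Fin s → ℂ) (G : MvPolynomial (Fin s) (MvPolynomial (Fin r × Fin 2) ℤ)),
      MvPolynomial.aeval w (MvPolynomial.map ε G) = MvPolynomial.eval₂ (evf P) w G := by
    intro w G
    rw [MvPolynomial.aeval_def, MvPolynomial.eval₂_map]
    rfl
  let I : Ideal (MvPolynomial (Fin s) (Kc x i)) := Ideal.span (MvPolynomial.map ε '' 𝒢)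
  have hI : ∀ w : Fin s → ℂ, w ∈ MvPolynomial.zeroLocus ℂ I ↔
      ∀ G ∈ 𝒢, MvPolynomial.eval₂ (evf P) w G = 0 := by
    intro w
    constructor
    · intro hw G hG
      rw [← hε]
      exact hw _ (Ideal.subset_span ⟨G, hG, rfl⟩)
    · intro hw p hp
      have h1 : I ≤ RingHom.ker (MvPolynomial.aeval w : MvPolynomial (Fin s) (Kc x i) →ₐ[Kc x i] ℂ) := by
        refine Ideal.span_le.2 ?_
        rintro _ ⟨G, hG, rfl⟩
        rw [SetLike.mem_coe, RingHom.mem_ker, hε]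
        exact hw G hG
      exact h1 hp
  have hI2 : MvPolynomial.zeroLocus ℂ I =
      {ζ : Fin s → ℂ | ∀ G ∈ 𝒢, MvPolynomial.eval₂ (evf P) ζ G = 0} := Set.ext hI
  exact kc_alg x i _ (alg_fin (Kc x i) I (by rw [hI2]; exact hF) ζ ((hI ζ).2 hζ) t)

theorem pw_low (a b : Fin r → ℤ) (hDQ : ∀ j, Disc (a j : ℚ) (b j : ℚ))
    (hnt : ∀ j, NT (a j) (b j))
    (𝒢 : Set (MvPolynomial (Fin s) (MvPolynomial (Fin r × Fin 2) ℤ)))
    (P : Fin m → (j : Fin r) → Pt (a j : ℂ) (b j : ℂ))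
    (hind : AlgebraicIndependent ℚ (fun p : Fin m × Fin r => (crd (P p.1 p.2)).1))
    (hF : ∀ i, {ζ : Fin s → ℂ | ∀ G ∈ 𝒢, MvPolynomial.eval₂ (evf (P i)) ζ G = 0}.Finite) (d : ℕ)
    (hnd : ∀ (k : Subfield ℂ) (P : (j : Fin r) → Pt (a j : ℂ) (b j : ℂ)),
      AlgebraicIndependent k (fun j => (crd (P j)).1) → ∀ n : ℕ, 1 ≤ n →
      ∀ R S : (j : Fin r) → Pt (a j : ℂ) (b j : ℂ), (∀ j, linC n (R j) (S j) = P j) →
      (∀ j, IsRatP (S j)) → ∀ ζ : Fin s → ℂ,
      (∀ G ∈ 𝒢, MvPolynomial.eval₂ (evf P) ζ G = 0) → ¬ SD (k ⊔ fld R) ζ d)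
    (n : ℕ) (hn : 1 ≤ n) (R S : Fin m → (j : Fin r) → Pt (a j : ℂ) (b j : ℂ))
    (h1 : ∀ i j, linC n (R i j) (S i j) = P i j) (h2 : ∀ i j, IsRatP (S i j))
    (z : Fin m → Fin s → ℂ) (hz : ∀ i, ∀ G ∈ 𝒢, MvPolynomial.eval₂ (evf (P i)) (z i) G = 0)
    (F L : Subfield ℂ)
    (hFR : F = Subfield.closure {u | ∃ i j, u = (crd (R i j)).1 ∨ u = (crd (R i j)).2})
    (hL : F ≤ L) (hL0 : 0 < F.relfinrank L) (hzL : ∀ i t, z i t ∈ L) :
    (d + 1) ^ m ≤ F.relfinrank L := by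
  refine tower_low F z d L hL hL0 hzL fun i => ?_
  set x : Fin m × Fin r → ℂ := fun p => (crd (P p.1 p.2)).1 with hx
  set k : Subfield ℂ := Subfield.closure
    ({u | ∃ i', i' ≠ i ∧ ∃ j, u = (crd (R i' j)).1 ∨ u = (crd (R i' j)).2} ∪
      {u | ∃ i' : Fin m, (i' : ℕ) < i ∧ ∃ t, u = z i' t}) with hk
  have hkc : k ≤ Kc x i := by
    rw [hk, Subfield.closure_le]
    rintro u (⟨i', hi', j, hu⟩ | ⟨i', hi', t, rfl⟩)
    · have h3 := kc_div a b hDQ hnt x i j (P i' j) (R i' j) (S i' j) (kc_x x i i' hi' j) n hn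
        (h1 i' j) (h2 i' j)
      rcases hu with rfl | rfl
      · exact h3.1
      · exact h3.2
    · have hi : i' ≠ i := fun h => by
        rw [h] at hi'
        exact lt_irrefl _ hi'
      exact kc_fin a b x i (P i') (fun j => kc_x x i i' hi j) 𝒢 (hF i') (z i') (hz i') t
  have h3 := hnd k (P i) (kc_ind x hind i k hkc) n hn (R i) (S i) (h1 i) (h2 i) (z i) (hz i)
  have h4 : Fz F z i = k ⊔ fld (R i) := by
    refine le_antisymm (sup_le ?_ ?_) (sup_le ?_ ?_)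
    · rw [hFR, Subfield.closure_le]
      rintro u ⟨i', j, hu⟩
      by_cases hi : i' = i
      · subst hi
        refine (le_sup_right : fld (R i') ≤ k ⊔ fld (R i')) ?_
        rcases hu with rfl | rfl
        · exact Subfield.subset_closure (Or.inl ⟨j, rfl⟩)
        · exact Subfield.subset_closure (Or.inr ⟨j, rfl⟩)
      · exact (le_sup_left : k ≤ k ⊔ fld (R i)) (Subfield.subset_closure (Or.inl ⟨i', hi, j, hu⟩))
    · rw [Subfield.closure_le]
      rintro u hu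
      exact (le_sup_left : k ≤ k ⊔ fld (R i)) (Subfield.subset_closure (Or.inr hu))
    · rw [hk, Subfield.closure_le]
      rintro u (⟨i', hi', j, hu⟩ | hu)
      · refine (le_sup_left : F ≤ Fz F z i) ?_
        rw [hFR]
        exact Subfield.subset_closure ⟨i', j, hu⟩
      · exact (le_sup_right : _ ≤ Fz F z i) (Subfield.subset_closure hu)
    · refine le_trans ?_ (le_sup_left : F ≤ Fz F z i)
      unfold fld
      rw [hFR, Subfield.closure_le]
      rintro u (⟨j, rfl⟩ | ⟨j, rfl⟩)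
      · exact Subfield.subset_closure ⟨i, j, Or.inl rfl⟩
      · exact Subfield.subset_closure ⟨i, j, Or.inr rfl⟩
  rw [h4]
  exact h3

end

end Pool.Agent.J4H11.GQ
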