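import Pool.Agent.J4H11.GQ.K4

/-!
# Few points over all the number fields of bounded degree
-/

set_option autoImplicit false
set_option linter.unusedSectionVars false

open Finset Module Pool.Agent.J4H11.RC Pool.Agent.J4H11.SC Pool.Agent.H901R3.MS
  WeierstrassCurve Pool.Agent.J4H11.GN Pool.Agent.J4H11.GP

namespace Pool.Agent.J4H11.GQ

theorem sum_pw {r : ℕ} (m : ℕ) (f : Fin r → ℕ) :
    ∑ v : Fin (m * r), f (finProdFinEquiv.symm v).2 = m * ∑ j, f j := by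
  rw [Equiv.sum_comp finProdFinEquiv.symm (fun p : Fin m × Fin r => f p.2),
    Fintype.sum_prod_type]
  simp only [sum_const, card_univ, Fintype.card_fin, smul_eq_mul]

theorem root_bound (m : ℕ) (hm : 1 ≤ m) (N : ℕ) (C T γ : ℝ) (ρ : ℕ) (hC : 0 ≤ C) (hT : 2 ≤ T)
    (h : ((N ^ m : ℕ) : ℝ) ≤ C * T ^ (m * ρ) * Real.log T ^ (-(m * γ))) :
    (N : ℝ) ≤ (C + 1) * T ^ ρ * Real.log T ^ (-γ) := by
  have hl : 0 < Real.log T := Real.log_pos (by linarith)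
  have h1 : (Real.log T ^ (-γ)) ^ m = Real.log T ^ (-(m * γ)) := by
    rw [← Real.rpow_natCast, ← Real.rpow_mul hl.le]
    congr 1
    ring
  have h0 : 0 ≤ Real.log T ^ (-γ) := Real.rpow_nonneg hl.le _
  have h2 : (N : ℝ) ^ m ≤ ((C + 1) * T ^ ρ * Real.log T ^ (-γ)) ^ m := by
    rw [mul_pow, mul_pow, h1, ← pow_mul, mul_comm ρ m]
    refine le_trans (by exact_mod_cast h) ?_
    apply mul_le_mul_of_nonneg_right _ (Real.rpow_nonneg hl.le _)
    apply mul_le_mul_of_nonneg_right _ (by positivity)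
    have h3 : C + 1 ≤ (C + 1) ^ m := le_self_pow₀ (by linarith) (by omega)
    linarith
  exact le_of_pow_le_pow_left₀ (by omega) (by positivity) h2

section
variable {r s : ℕ}

/-- the points over a number field, on the power -/
theorem deg_pw {m : ℕ} (K : IntermediateField ℚ ℂ) [FiniteDimensional ℚ K] (d e : ℕ)
    (z : Fin m → Fin s → ℂ) (h : ∀ i, SD K.toSubfield (z i) d) (he : finrank ℚ K * d ^ m ≤ e) :
    PtDeg ℚ (fun v : Fin (m * s) => z (finProdFinEquiv.symm v).1 (finProdFinEquiv.symm v).2) e := by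
  obtain ⟨L, h1, h2, h3⟩ := SD_prod K.toSubfield z d h
  obtain ⟨h4, h5⟩ := relfin_toSub K.toSubfield L
  have h6 := relfin_bot K
  have h7 := Subfield.relfinrank_mul_relfinrank bot_le h4
  rw [h5, h6] at h7
  refine (SD_bot _ _).1 ⟨L.toSubfield, bot_le, ?_, ?_, fun v => h3 _ _⟩
  · rw [← h7]
    exact Nat.mul_pos finrank_pos finrank_pos
  · rw [← h7]
    exact (Nat.mul_le_mul_left _ h2).trans he

theorem uni_K (hr : 1 ≤ r) (a b : Fin r → ℤ) (hDQ : ∀ j, Disc (a j : ℚ) (b j : ℚ))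
    (hrk : ∀ j, 3 ≤ finrank ℤ (Pt (a j : ℚ) (b j : ℚ)))
    (𝒢 : Set (MvPolynomial (Fin s) (MvPolynomial (Fin r × Fin 2) ℤ)))
    (hF : ∀ P : (j : Fin r) → Pt (a j : ℂ) (b j : ℂ),
      AlgebraicIndependent ℚ (fun j => (crd (P j)).1) →
      {ζ : Fin s → ℂ | ∀ G ∈ 𝒢, MvPolynomial.eval₂ (evf P) ζ G = 0}.Finite)
    (d : ℕ) (hd : 1 ≤ d)
    (hnd : ∀ (k : Subfield ℂ) (P : (j : Fin r) → Pt (a j : ℂ) (b j : ℂ)),
      AlgebraicIndependent k (fun j => (crd (P j)).1) → ∀ n : ℕ, 1 ≤ n →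
      ∀ R S : (j : Fin r) → Pt (a j : ℂ) (b j : ℂ), (∀ j, n • R j + S j = P j) →
      (∀ j, IsRatP (S j)) → ∀ ζ : Fin s → ℂ,
      (∀ G ∈ 𝒢, MvPolynomial.eval₂ (evf P) ζ G = 0) → ¬ SD (k ⊔ fld R) ζ d) (D : ℕ) :
    ∃ γ C : ℝ, 0 < γ ∧ 0 ≤ C ∧ ∀ (K : IntermediateField ℚ ℂ) [FiniteDimensional ℚ K],
      finrank ℚ K ≤ D → ∀ (T : ℝ), 2 ≤ T → ∀ c : (j : Fin r) → Pt (a j : ℚ) (b j : ℚ),
      {Q : (j : Fin r) → Pt (a j : ℚ) (b j : ℚ) | (∀ j, hx (Q j - c j) ≤ T ^ 2) ∧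
        ((∀ j, Q j ≠ 0) → ∃ z : Fin s → ℂ, (∀ G ∈ 𝒢,
          MvPolynomial.eval₂ ((algebraMap ℚ ℂ).comp (evf Q)) z G = 0) ∧
          SD K.toSubfield z d)}.Finite ∧
      ({Q : (j : Fin r) → Pt (a j : ℚ) (b j : ℚ) | (∀ j, hx (Q j - c j) ≤ T ^ 2) ∧
        ((∀ j, Q j ≠ 0) → ∃ z : Fin s → ℂ, (∀ G ∈ 𝒢,
          MvPolynomial.eval₂ ((algebraMap ℚ ℂ).comp (evf Q)) z G = 0) ∧
          SD K.toSubfield z d)}.ncard : ℝ) ≤
        C * T ^ (∑ j, finrank ℤ (Pt (a j : ℚ) (b j : ℚ))) * Real.log T ^ (-γ) := by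
  classical
  obtain ⟨m, hm, hpow⟩ := exists_pow (D + 1) d
  obtain ⟨P, hP⟩ := exists_gen_pts m a b hDQ
  have hnt : ∀ j, NT (a j) (b j) := fun j => nt_of_rank (a j) (b j) (by
    have := hrk j
    omega)
  have hPi : ∀ i, AlgebraicIndependent ℚ (fun j => (crd (P i j)).1) := fun i =>
    hP.comp (fun j => (i, j)) (fun j j' h => (Prod.mk.inj h).2)
  have hB := (dich_deg (r := m * r) (Nat.mul_pos hm hr) (fun v => a (finProdFinEquiv.symm v).2)
    (fun v => b (finProdFinEquiv.symm v).2) (fun v => hDQ _) (fun v => hrk _) (pwP P)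
    (hP.comp _ finProdFinEquiv.symm.injective) (pwG m 𝒢) (pwG_fin 𝒢 P fun i => hF _ (hPi i))
    ((D + 1) * d ^ m) (Nat.mul_pos (Nat.succ_pos D) (pow_pos hd m))).1 (by
      intro n hn R' S' h1 h2 ζ hζ hcon
      obtain ⟨R, rfl⟩ := pwP_surj (a := a) (b := b) R'
      obtain ⟨S, rfl⟩ := pwP_surj (a := a) (b := b) S'
      have h1' : ∀ p : Fin m × Fin r, n • R p.1 p.2 + S p.1 p.2 = P p.1 p.2 := fun p => by
        obtain ⟨v, rfl⟩ := (finProdFinEquiv (m := m) (n := r)).symm.surjective p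
        exact h1 v
      have h2' : ∀ p : Fin m × Fin r, IsRatP (S p.1 p.2) := fun p => by
        obtain ⟨v, rfl⟩ := (finProdFinEquiv (m := m) (n := r)).symm.surjective p
        exact h2 v
      obtain ⟨L, hL1, hL2, hL3, hL4⟩ := (SD_iff _ _ _).2 hcon
      have h5 := pw_low a b hDQ hnt 𝒢 P hP (fun i => hF _ (hPi i)) d hnd n hn R S
        (fun i j => h1' (i, j)) (fun i j => h2' (i, j)) (fun i t => ζ (finProdFinEquiv (i, t)))
        ((pwG_iff 𝒢 (RingHom.id ℂ) P ζ).1 hζ) _ L (by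
          unfold fld
          congr 1
          ext u
          constructor
          · rintro (⟨v, rfl⟩ | ⟨v, rfl⟩)
            · exact ⟨_, _, Or.inl rfl⟩
            · exact ⟨_, _, Or.inr rfl⟩
          · rintro ⟨i, j, rfl | rfl⟩
            · exact Or.inl ⟨finProdFinEquiv (i, j), pw_at R (fun j Q => (crd Q).1) i j⟩
            · exact Or.inr ⟨finProdFinEquiv (i, j), pw_at R (fun j Q => (crd Q).2) i j⟩)
        hL1 hL2 (fun i t => hL4 _)
      exact absurd (h5.trans hL3) (not_le.2 hpow))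
  obtain ⟨γ0, hγ0, hB⟩ := hB
  obtain ⟨f, hf⟩ := ind3_exists a b hrk
  obtain ⟨γ1, hγ1, hB1⟩ := ball_zero hDQ f hf
  have hm0 : (0 : ℝ) < m := by exact_mod_cast hm
  have hγ : 0 < min (γ0 / m) γ1 := lt_min (div_pos hγ0 hm0) hγ1
  have hmγ : (m : ℝ) * min (γ0 / m) γ1 ≤ γ0 := by
    have := min_le_left (γ0 / m) γ1
    rwa [le_div_iff₀ hm0, mul_comm] at this
  obtain ⟨C0, hC0, h0⟩ := hB (m * min (γ0 / m) γ1) (mul_pos hm0 hγ) hmγ
  obtain ⟨C1, hC1, h1⟩ := hB1 (min (γ0 / m) γ1) hγ (min_le_right _ _)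
  refine ⟨min (γ0 / m) γ1, C0 + 1 + C1, hγ, by positivity, fun K _ hK T hT c => ?_⟩
  set E : Set ((j : Fin r) → Pt (a j : ℚ) (b j : ℚ)) :=
    {Q | (∀ j, hx (Q j - c j) ≤ T ^ 2) ∧ ∃ z : Fin s → ℂ, (∀ G ∈ 𝒢,
      MvPolynomial.eval₂ ((algebraMap ℚ ℂ).comp (evf Q)) z G = 0) ∧ SD K.toSubfield z d} with hE
  obtain ⟨k1, k2⟩ := h0 T hT (pwP fun _ => c)
  have hmem : ∀ Q : Fin m → (j : Fin r) → Pt (a j : ℚ) (b j : ℚ), (∀ i, Q i ∈ E) →
      pwP Q ∈ {P : (v : Fin (m * r)) → Pt ((a (finProdFinEquiv.symm v).2 : ℤ) : ℚ)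
        ((b (finProdFinEquiv.symm v).2 : ℤ) : ℚ) |
        (∀ j, hx (P j - pwP (fun _ => c) j) ≤ T ^ 2) ∧ ((∀ j, P j ≠ 0) →
          ∃ z : Fin (m * s) → ℂ, (∀ G ∈ pwG m 𝒢,
            MvPolynomial.eval₂ ((algebraMap ℚ ℂ).comp (evf
              (a := fun v => a (finProdFinEquiv.symm v).2)
              (b := fun v => b (finProdFinEquiv.symm v).2) P)) z G = 0) ∧
            PtDeg ℚ z ((D + 1) * d ^ m))} := by
    intro Q hQ
    refine ⟨fun v => (hQ _).1 _, fun _ => ?_⟩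
    choose z hz hzd using fun i => (hQ i).2
    refine ⟨fun v => z (finProdFinEquiv.symm v).1 (finProdFinEquiv.symm v).2, ?_,
      deg_pw K d _ z hzd (Nat.mul_le_mul_right _ (hK.trans (Nat.le_succ D)))⟩
    refine (pwG_iff 𝒢 (algebraMap ℚ ℂ) Q _).2 fun i G hG => ?_
    have h2 : (fun t : Fin s => z (finProdFinEquiv.symm (finProdFinEquiv (i, t))).1
        (finProdFinEquiv.symm (finProdFinEquiv (i, t))).2) = z i := by
      funext t
      rw [Equiv.symm_apply_apply]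
    rw [h2]
    exact hz i G hG
  have hinj : Function.Injective (pwP (F := ℚ) (a := a) (b := b) (m := m)) := by
    intro Q Q' h
    funext i j
    have h2 : ∀ p : Fin m × Fin r, Q p.1 p.2 = Q' p.1 p.2 := fun p => by
      obtain ⟨v, rfl⟩ := (finProdFinEquiv (m := m) (n := r)).symm.surjective p
      exact congrFun h v
    exact h2 (i, j)
  have hEf : E.Finite := by
    refine Set.Finite.of_injOn (f := fun Q => pwP (m := m) fun _ => Q)
      (fun Q hQ => hmem _ fun _ => hQ) ?_ k1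
    intro Q _ Q' _ h
    exact congrFun (hinj h) ⟨0, hm⟩
  have hcard : (E.ncard ^ m : ℕ) ≤ {P : (v : Fin (m * r)) →
      Pt ((a (finProdFinEquiv.symm v).2 : ℤ) : ℚ) ((b (finProdFinEquiv.symm v).2 : ℤ) : ℚ) |
        (∀ j, hx (P j - pwP (fun _ => c) j) ≤ T ^ 2) ∧ ((∀ j, P j ≠ 0) →
          ∃ z : Fin (m * s) → ℂ, (∀ G ∈ pwG m 𝒢,
            MvPolynomial.eval₂ ((algebraMap ℚ ℂ).comp (evf
              (a := fun v => a (finProdFinEquiv.symm v).2)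
              (b := fun v => b (finProdFinEquiv.symm v).2) P)) z G = 0) ∧
            PtDeg ℚ z ((D + 1) * d ^ m))}.ncard := by
    have h2 : E.ncard ^ m = (Fintype.piFinset (fun _ : Fin m => hEf.toFinset)).card := by
      rw [Fintype.card_piFinset, prod_const, card_univ, Fintype.card_fin,
        Set.ncard_eq_toFinset_card E hEf]
    rw [h2, Set.ncard_eq_toFinset_card _ k1]
    refine card_le_card_of_injOn pwP ?_ (hinj.injOn)
    intro Q hQ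
    rw [Set.Finite.coe_toFinset]
    refine hmem Q fun i => ?_
    exact hEf.mem_toFinset.1 (Fintype.mem_piFinset.1 (mem_coe.1 hQ) i)
  have hEn : (E.ncard : ℝ) ≤ (C0 + 1) * T ^ (∑ j, finrank ℤ (Pt (a j : ℚ) (b j : ℚ))) *
      Real.log T ^ (-(min (γ0 / m) γ1)) := by
    refine root_bound m hm _ C0 T _ _ hC0 hT (le_trans (Nat.cast_le.2 hcard) (k2.trans_eq ?_))
    rw [sum_pw m (fun j => finrank ℤ (Pt (a j : ℚ) (b j : ℚ)))]
  obtain ⟨g1, g2⟩ := h1 T hT c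
  have hsub : {Q : (j : Fin r) → Pt (a j : ℚ) (b j : ℚ) | (∀ j, hx (Q j - c j) ≤ T ^ 2) ∧
        ((∀ j, Q j ≠ 0) → ∃ z : Fin s → ℂ, (∀ G ∈ 𝒢,
          MvPolynomial.eval₂ ((algebraMap ℚ ℂ).comp (evf Q)) z G = 0) ∧
          SD K.toSubfield z d)} ⊆ E ∪ {Q : (j : Fin r) → Pt (a j : ℚ) (b j : ℚ) |
            (∀ j, hx (Q j - c j) ≤ T ^ 2) ∧ ∃ j, Q j = 0} := by
    rintro Q ⟨hQ1, hQ2⟩
    by_cases h : ∀ j, Q j ≠ 0
    · exact Or.inl ⟨hQ1, hQ2 h⟩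
    · push Not at h
      exact Or.inr ⟨hQ1, h⟩
  refine ⟨(hEf.union g1).subset hsub, ?_⟩
  have h5 := (Set.ncard_le_ncard hsub (hEf.union g1)).trans (Set.ncard_union_le _ _)
  have h6 : ({Q : (j : Fin r) → Pt (a j : ℚ) (b j : ℚ) | (∀ j, hx (Q j - c j) ≤ T ^ 2) ∧
        ((∀ j, Q j ≠ 0) → ∃ z : Fin s → ℂ, (∀ G ∈ 𝒢,
          MvPolynomial.eval₂ ((algebraMap ℚ ℂ).comp (evf Q)) z G = 0) ∧
          SD K.toSubfield z d)}.ncard : ℝ) ≤ (E.ncard : ℝ) +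
          ({Q : (j : Fin r) → Pt (a j : ℚ) (b j : ℚ) |
            (∀ j, hx (Q j - c j) ≤ T ^ 2) ∧ ∃ j, Q j = 0}.ncard : ℝ) := by
    exact_mod_cast h5
  refine h6.trans ((add_le_add hEn g2).trans (le_of_eq ?_))
  ring

end

end Pool.Agent.J4H11.GQ
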