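import Pool.Agent.J4H11.GP.G3

/-!
# Extension of a homomorphism to `ℚ` to a place of `ℂ`
-/

set_option autoImplicit false

open Polynomial Pool.Agent.J4H11.RC Pool.Agent.J4H11.SC Pool.Agent.H901R3.MS WeierstrassCurve
  Pool.Agent.J4H11.GP

namespace Pool.Agent.J4H11.GQ

section
variable {K : Type} [Field K]

theorem res_zero (B : ValuationSubring K) (x : B) :
    IsLocalRing.residue B x = 0 ↔ (x : K) ∈ B.nonunits := by
  rw [IsLocalRing.residue_eq_zero_iff, ValuationSubring.coe_mem_nonunits_iff]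

/-- the place of a valuation ring -/
noncomputable def plc (B : ValuationSubring K) : Place K (IsLocalRing.ResidueField B) where
  A := B.toSubring
  ρ := IsLocalRing.residue B
  inv_of_notMem := by
    intro x hx
    have hx' : x ∉ B := hx
    have h1 : x⁻¹ ∈ B := (B.mem_or_inv_mem x).resolve_left hx'
    exact ⟨h1, (res_zero B ⟨x⁻¹, h1⟩).2 (B.inv_mem_nonunits_iff.2 (Or.inr hx'))⟩
  inv_of_ne := by
    intro x hx
    have h1 : (x : K) ∉ B.nonunits := fun h => hx ((res_zero B x).2 h)
    by_contra h2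
    apply h1
    have h3 : ((x : K)⁻¹)⁻¹ ∈ B.nonunits := B.inv_mem_nonunits_iff.2 (Or.inr h2)
    rwa [inv_inv] at h3

/-- the valuation ring of a place -/
noncomputable def vsP {k : Type} [Field k] (v : Place K k) : ValuationSubring K :=
  ValuationSubring.ofSubring v.A (fun x => by
    by_cases hx : x ∈ v.A
    · exact Or.inl hx
    · exact Or.inr (v.inv_of_notMem x hx).1)

theorem mem_vsP {k : Type} [Field k] (v : Place K k) (x : K) : x ∈ vsP v ↔ x ∈ v.A :=
  ValuationSubring.mem_ofSubring _ _ _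

end

theorem place_ext {D : Type} [CommRing D] [IsDomain D] (ι : D →+* ℂ)
    (hι : Function.Injective ι) (ψ : D →+* ℚ) : ∃ (Ω : Type) (_ : Field Ω) (_ : CharZero Ω)
    (v : Place ℂ Ω), ∀ d, ι d ∈ v.A ∧ v.r (ι d) = ((ψ d : ℚ) : Ω) := by
  have hpr : (RingHom.ker ψ).IsPrime := RingHom.ker_isPrime ψ
  let L := Localization.AtPrime (RingHom.ker ψ)
  have hmem : ∀ y : (RingHom.ker ψ).primeCompl, ψ y ≠ 0 := fun y h => y.2 h
  have hy0 : ∀ y : (RingHom.ker ψ).primeCompl, (y : D) ≠ 0 := by
    intro y h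
    apply hmem y
    rw [h, map_zero]
  have hu1 : ∀ y : (RingHom.ker ψ).primeCompl, IsUnit (ι y) := fun y =>
    isUnit_iff_ne_zero.2 (fun h => hy0 y (hι (by rw [h, map_zero])))
  have hu2 : ∀ y : (RingHom.ker ψ).primeCompl, IsUnit (ψ y) := fun y =>
    isUnit_iff_ne_zero.2 (hmem y)
  let j : L →+* ℂ := IsLocalization.lift hu1
  let χ : L →+* ℚ := IsLocalization.lift hu2
  have hjc : ∀ c, j (algebraMap D L c) = ι c := fun c => IsLocalization.lift_eq hu1 c
  have hχc : ∀ c, χ (algebraMap D L c) = ψ c := fun c => IsLocalization.lift_eq hu2 c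
  have hunit : ∀ y : (RingHom.ker ψ).primeCompl, IsUnit (algebraMap D L y) := fun y =>
    IsLocalization.map_units L y
  have hjinj : Function.Injective j := by
    rw [injective_iff_map_eq_zero]
    intro z hz
    obtain ⟨⟨u, s⟩, hu⟩ := IsLocalization.surj (RingHom.ker ψ).primeCompl z
    have h1 := congrArg j hu
    rw [map_mul, hz, zero_mul, hjc] at h1
    have h2 : u = 0 := hι (by rw [← h1, map_zero])
    simp only at hu
    rw [h2, map_zero] at hu
    exact (hunit s).mul_left_eq_zero.1 hu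
  set e := (RingEquiv.ofBijective j.rangeRestrict
    ⟨fun x y h => hjinj (congrArg Subtype.val h), j.rangeRestrict_surjective⟩) with he
  set I : Ideal j.range := RingHom.ker (χ.comp (e.symm : j.range →+* _)) with hI
  have hItop : I ≠ ⊤ := by
    rw [Ideal.ne_top_iff_one, hI, RingHom.mem_ker, map_one]
    exact one_ne_zero
  obtain ⟨B, hB, hIB⟩ := Ideal.image_subset_nonunits_valuationSubring I hItop
  have hmemB : ∀ z, j z ∈ B := fun z => hB ⟨z, rfl⟩
  have hnu : ∀ z, χ z = 0 → j z ∈ B.nonunits := by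
    intro z hz
    apply hIB
    refine ⟨e z, ?_, rfl⟩
    change e z ∈ I
    rw [hI, RingHom.mem_ker]
    change χ (e.symm (e z)) = 0
    rw [RingEquiv.symm_apply_apply]
    exact hz
  have hn0 : ∀ n : ℕ, n ≠ 0 → ((n : ℕ) : IsLocalRing.ResidueField B) ≠ 0 := by
    intro n hn
    have h1 : ψ (n : D) ≠ 0 := by
      rw [map_natCast]
      exact_mod_cast hn
    obtain ⟨y, hy⟩ := hunit ⟨(n : D), h1⟩
    have h3 : j ((y⁻¹ : Lˣ) : L) * (n : ℂ) = 1 := by
      have h4 : (n : ℂ) = j (algebraMap D L (n : D)) := by rw [hjc, map_natCast]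
      have h5 : algebraMap D L (n : D) = (y : L) := hy.symm
      rw [h4, h5, ← map_mul, Units.inv_mul, map_one]
    have h4 : (⟨j ((y⁻¹ : Lˣ) : L), hmemB _⟩ : B) * ((n : ℕ) : B) = 1 := Subtype.ext h3
    have h5 := congrArg (IsLocalRing.residue B) h4
    rw [map_mul, map_natCast, map_one] at h5
    exact right_ne_zero_of_mul_eq_one h5
  have hcz : CharZero (IsLocalRing.ResidueField B) := charZero_of_inj_zero (fun n hn => by
    by_contra h
    exact hn0 n h hn)
  refine ⟨IsLocalRing.ResidueField B, inferInstance, hcz, plc B, fun d => ?_⟩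
  have hdA : ι d ∈ (plc B).A := by
    rw [← hjc]
    exact hmemB _
  refine ⟨hdA, ?_⟩
  rw [(plc B).r_of hdA]
  set q := ψ d with hq
  have h1 : χ (algebraMap D L ((q.den : D) * d - (q.num : D))) = 0 := by
    rw [hχc, map_sub, map_mul, map_natCast, map_intCast, ← hq, mul_comm, Rat.mul_den_eq_num,
      sub_self]
  have h2 := hnu _ h1
  rw [hjc, map_sub, map_mul, map_natCast, map_intCast] at h2
  have h3 : ((q.den : B) * ⟨ι d, hdA⟩ - (q.num : B) : B) = ⟨(q.den : ℂ) * ι d - (q.num : ℂ), by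
      have := ((q.den : B) * ⟨ι d, hdA⟩ - (q.num : B) : B).2
      push_cast at this
      exact this⟩ := by
    apply Subtype.ext
    push_cast
    rfl
  have h4 : IsLocalRing.residue B ((q.den : B) * ⟨ι d, hdA⟩ - (q.num : B)) = 0 := by
    rw [h3, res_zero]
    exact h2
  rw [map_sub, map_mul, map_natCast, map_intCast, sub_eq_zero] at h4
  change IsLocalRing.residue B ⟨ι d, hdA⟩ = _
  have h5 : (q.den : IsLocalRing.ResidueField B) ≠ 0 := hn0 _ q.den_nz
  rw [Rat.cast_def, eq_div_iff h5, mul_comm]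
  exact h4

end Pool.Agent.J4H11.GQ
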