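import Pool.Agent.J4H11.GQ.K5
import Pool.Agent.J4H11.GQ.Y1
import Pool.Agent.J4H11.SC.FinS

/-!
# Specialization of the constants
-/

set_option autoImplicit false
set_option linter.unusedSectionVars false

open Polynomial Pool.Agent.J4H11.RC Pool.Agent.J4H11.SC Pool.Agent.H901R3.MS
  Pool.Agent.J4H11.GN Pool.Agent.J4H11.GP

namespace Pool.Agent.J4H11.GQ

theorem place_ext2 {D M : Type} [CommRing D] [Field M] (ι : D →+* ℂ)
    (hι : Function.Injective ι) (ψ : D →+* M) (s : M →+* D) (hs : ∀ m, ψ (s m) = m) :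
    ∃ (Ω : Type) (_ : Field Ω) (v : Place ℂ Ω) (j : M →+* Ω),
      ∀ d, ι d ∈ v.A ∧ v.r (ι d) = j (ψ d) := by
  set e := (RingEquiv.ofBijective ι.rangeRestrict
    ⟨fun x y h => hι (congrArg Subtype.val h), ι.rangeRestrict_surjective⟩) with he
  set I : Ideal ι.range := RingHom.ker (ψ.comp (e.symm : ι.range →+* _)) with hI
  have hItop : I ≠ ⊤ := by
    rw [Ideal.ne_top_iff_one, hI, RingHom.mem_ker, map_one]
    exact one_ne_zero
  obtain ⟨B, hB, hIB⟩ := Ideal.image_subset_nonunits_valuationSubring I hItop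
  have hmemB : ∀ z, ι z ∈ B := fun z => hB ⟨z, rfl⟩
  have hnu : ∀ z, ψ z = 0 → ι z ∈ B.nonunits := by
    intro z hz
    apply hIB
    refine ⟨e z, ?_, rfl⟩
    change e z ∈ I
    rw [hI, RingHom.mem_ker]
    change ψ (e.symm (e z)) = 0
    rw [RingEquiv.symm_apply_apply]
    exact hz
  let φ : D →+* B := ι.codRestrict B hmemB
  refine ⟨IsLocalRing.ResidueField B, inferInstance, plc B,
    ((IsLocalRing.residue B).comp φ).comp s, fun d => ?_⟩
  have hdA : ι d ∈ (plc B).A := hmemB d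
  refine ⟨hdA, ?_⟩
  rw [(plc B).r_of hdA]
  change IsLocalRing.residue B (φ d) = IsLocalRing.residue B (φ (s (ψ d)))
  rw [← sub_eq_zero, ← map_sub, ← map_sub, res_zero]
  apply hnu
  rw [map_sub, hs, sub_self]

/-- an element which is algebraic over the ring of the place -/
theorem pl_alg {R Ω : Type} [CommRing R] [Field Ω] (ε : R →+* ℂ) (hε : Function.Injective ε)
    (v : Place ℂ Ω) (hR : ∀ x, ε x ∈ v.A) (p : R[X]) (c : ℂ) (hc : p.eval₂ ε c = 0)
    (hl : v.r (ε p.leadingCoeff) ≠ 0) :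
    c ∈ v.A ∧ ∃ φ : R →+* Ω, (∀ x, φ x = v.r (ε x)) ∧ p.eval₂ φ (v.r c) = 0 := by
  let φA : R →+* v.A := ε.codRestrict v.A hR
  have hφA : Function.Injective φA := fun x y h => hε (congrArg Subtype.val h)
  have hφ : ∀ x, v.ρ (φA x) = v.r (ε x) := fun x => (v.r_of (hR x)).symm
  have hl0 : ε p.leadingCoeff ≠ 0 := fun h => hl (by rw [h, v.r_zero])
  have hinv : (ε p.leadingCoeff)⁻¹ ∈ v.A := v.inv_of_ne (φA p.leadingCoeff) (by rw [hφ]; exact hl)
  let ℓ : v.A := ⟨(ε p.leadingCoeff)⁻¹, hinv⟩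
  have hℓ : ℓ * φA p.leadingCoeff = 1 := Subtype.ext (inv_mul_cancel₀ hl0)
  let g : v.A[X] := C ℓ * p.map φA
  have hg : g.Monic := by
    apply monic_C_mul_of_mul_leadingCoeff_eq_one
    rw [leadingCoeff_map_of_injective hφA]
    exact hℓ
  have hgc : eval₂ v.A.subtype c g = 0 := by
    rw [eval₂_mul, eval₂_C, eval₂_map]
    have h1 : v.A.subtype.comp φA = ε := RingHom.ext fun x => rfl
    rw [h1, hc, mul_zero]
  obtain ⟨hcA, hroot⟩ := place_root v g hg c hgc
  refine ⟨hcA, v.ρ.comp φA, hφ, ?_⟩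
  rw [v.r_of hcA]
  have h2 : (g.map v.ρ).eval (v.ρ ⟨c, hcA⟩) = 0 := hroot
  rw [Polynomial.map_mul, map_C, eval_mul, eval_C, map_map, eval_map] at h2
  rcases mul_eq_zero.1 h2 with h3 | h3
  · have h4 := congrArg v.ρ hℓ
    rw [map_mul, h3, zero_mul, map_one] at h4
    exact absurd h4 zero_ne_one
  · exact h3

theorem eval_ne {σ : Type} [Finite σ] {M : Type} [Field M] [CharZero M] (H : MvPolynomial σ M)
    (hH : H ≠ 0) : ∃ u' : σ → ℤ, MvPolynomial.eval (fun i => (u' i : M)) H ≠ 0 := by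
  by_contra h
  push Not at h
  apply hH
  refine MvPolynomial.funext_set (fun _ => Set.range (fun n : ℤ => (n : M)))
    (fun i => Set.infinite_range_of_injective Int.cast_injective) fun x hx => ?_
  choose u' hu' using fun i => hx i trivial
  have h1 : x = fun i => ((u' i : ℤ) : M) := funext fun i => (hu' i).symm
  rw [h1, h, map_zero]

end Pool.Agent.J4H11.GQ
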