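import Pool.Agent.J4H11.GQ.K6

/-!
# Specialization of the constants: the descent to number fields
-/

set_option autoImplicit false
set_option linter.unusedSectionVars false

open Polynomial Pool.Agent.J4H11.RC Pool.Agent.J4H11.SC Pool.Agent.H901R3.MS
  Pool.Agent.J4H11.GN Pool.Agent.J4H11.GP

namespace Pool.Agent.J4H11.GQ

/-- an algebraic relation over the polynomial ring -/
theorem alg_rel {σ : Type} (F : Type) [Field F] [Algebra F ℂ] (u : σ → ℂ)
    (hu : AlgebraicIndependent F u) (c : ℂ)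
    (hc : IsAlgebraic (IntermediateField.adjoin F (Set.range u)) c) :
    ∃ p : (MvPolynomial σ F)[X], p ≠ 0 ∧
      p.eval₂ (MvPolynomial.aeval u : MvPolynomial σ F →ₐ[F] ℂ).toRingHom c = 0 := by
  rw [IntermediateField.isAlgebraic_adjoin_iff] at hc
  obtain ⟨p, hp, hpc⟩ := hc
  let e : Algebra.adjoin F (Set.range u) →+* MvPolynomial σ F :=
    (hu.aevalEquiv.symm : Algebra.adjoin F (Set.range u) ≃ₐ[F] MvPolynomial σ F).toRingEquiv.toRingHom
  have he : Function.Injective e := hu.aevalEquiv.symm.injective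
  refine ⟨p.map e, ?_, ?_⟩
  · rwa [Ne, Polynomial.map_eq_zero_iff he]
  · rw [eval₂_map]
    have h1 : (MvPolynomial.aeval u : MvPolynomial σ F →ₐ[F] ℂ).toRingHom.comp e =
        algebraMap (Algebra.adjoin F (Set.range u)) ℂ := by
      refine RingHom.ext fun x => ?_
      have h2 := hu.algebraMap_aevalEquiv (hu.aevalEquiv.symm x)
      rw [AlgEquiv.apply_symm_apply] at h2
      exact h2.symm
    rw [h1]
    exact hpc

theorem sp_main {σ : Type} [Finite σ] (M : Subfield ℂ) [IsAlgClosed M] (u : σ → ℂ)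
    (hu : AlgebraicIndependent M u) (F0 : Subfield ℂ) (hF0 : F0 ≤ M) (T : Set ℂ) (hT : T.Finite)
    (hTa : ∀ c ∈ T, IsAlgebraic (IntermediateField.adjoin ℚ (Set.range u)) c) (y : ℂ)
    (hyM : y ∈ M) (hy : y ∈ Subfield.closure (T ∪ F0)) :
    ∃ T' : Set ℂ, T'.Finite ∧ (∀ c ∈ T', IsAlgebraic ℚ c) ∧ y ∈ Subfield.closure (T' ∪ F0) := by
  classical
  obtain ⟨a, ha, b, hb, hab⟩ := Subfield.mem_closure_iff.1 hy
  by_cases hb0 : b = 0
  · refine ⟨∅, Set.finite_empty, fun c hc => absurd hc (Set.notMem_empty c), ?_⟩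
    rw [← hab, hb0, div_zero]
    exact zero_mem _
  have huQ : AlgebraicIndependent ℚ u := hu.restrictScalars (algebraMap ℚ M).injective
  have hbalg : IsAlgebraic (IntermediateField.adjoin M (Set.range u)) b⁻¹ := by
    have h1 : Subfield.closure (T ∪ F0) ≤
        (algebraicClosure (IntermediateField.adjoin M (Set.range u)) ℂ).toSubfield := by
      rw [Subfield.closure_le]
      rintro c (hc | hc)
      · have h2 : AlgS (IntermediateField.adjoin ℚ (Set.range u)).toSubfield c :=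
          algS_iff.2 (hTa c hc)
        have h3 : AlgS (IntermediateField.adjoin M (Set.range u)).toSubfield c := by
          refine algS_mono ?_ h2
          refine Subfield.closure_le.2 ?_
          rintro x (⟨q, rfl⟩ | hx)
          · have h4 : algebraMap ℚ ℂ q = algebraMap M ℂ (algebraMap ℚ M q) :=
              IsScalarTower.algebraMap_apply ℚ M ℂ q
            rw [h4]
            exact (IntermediateField.adjoin M (Set.range u)).algebraMap_mem _
          · exact IntermediateField.subset_adjoin M _ hx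
        exact mem_algebraicClosure_iff.2 (algS_iff.1 h3)
      · refine mem_algebraicClosure_iff.2 ?_
        exact isAlgebraic_algebraMap (⟨c, (IntermediateField.adjoin M
          (Set.range u)).algebraMap_mem ⟨c, hF0 hc⟩⟩ : IntermediateField.adjoin M (Set.range u))
    have h2 : b⁻¹ ∈ (algebraicClosure (IntermediateField.adjoin M (Set.range u)) ℂ).toSubfield :=
      Subfield.inv_mem _ (h1 (Subfield.subring_closure_le _ hb))
    exact mem_algebraicClosure_iff.1 h2
  have hp0 : ∀ c : ℂ, ∃ p : (MvPolynomial σ ℚ)[X], c ∈ T → p ≠ 0 ∧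
      p.eval₂ (MvPolynomial.aeval u : MvPolynomial σ ℚ →ₐ[ℚ] ℂ).toRingHom c = 0 := by
    intro c
    by_cases hc : c ∈ T
    · obtain ⟨p, hp⟩ := alg_rel ℚ u huQ c (hTa c hc)
      exact ⟨p, fun _ => hp⟩
    · exact ⟨0, fun h => absurd h hc⟩
  choose p hp using hp0
  obtain ⟨q, hq0, hq⟩ := alg_rel M u hu b⁻¹ hbalg
  set H : MvPolynomial σ M := (∏ c ∈ hT.toFinset,
    MvPolynomial.map (algebraMap ℚ M) (p c).leadingCoeff) * q.leadingCoeff with hH
  have hminj : Function.Injective (MvPolynomial.map (σ := σ) (algebraMap ℚ M)) :=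
    MvPolynomial.map_injective _ (algebraMap ℚ M).injective
  have hH0 : H ≠ 0 := by
    refine mul_ne_zero (Finset.prod_ne_zero_iff.2 fun c hc h => ?_) (leadingCoeff_ne_zero.2 hq0)
    exact leadingCoeff_ne_zero.2 (hp c (hT.mem_toFinset.1 hc)).1 (hminj (by rw [h, map_zero]))
  obtain ⟨u', hu'⟩ := eval_ne H hH0
  let ι : MvPolynomial σ M →+* ℂ := (MvPolynomial.aeval u : MvPolynomial σ M →ₐ[M] ℂ).toRingHom
  have hι : Function.Injective ι := hu
  let ψ : MvPolynomial σ M →+* M := MvPolynomial.eval (fun i => (u' i : M))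
  have hψ : ∀ h, ψ h ≠ 0 ↔ MvPolynomial.eval (fun i => (u' i : M)) h ≠ 0 := fun h => Iff.rfl
  obtain ⟨Ω, _, v, j, hv⟩ := place_ext2 ι hι ψ MvPolynomial.C (fun m => MvPolynomial.eval_C m)
  have hcz : CharZero Ω := charZero_of_injective_ringHom j.injective
  have hM : ∀ m : M, (m : ℂ) ∈ v.A ∧ v.r (m : ℂ) = j m := by
    intro m
    have h1 := hv (MvPolynomial.C m)
    have h2 : ι (MvPolynomial.C m) = (m : ℂ) := MvPolynomial.aeval_C u m
    have h3 : ψ (MvPolynomial.C m) = m := MvPolynomial.eval_C m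
    rw [h2, h3] at h1
    exact h1
  let ε : MvPolynomial σ ℚ →+* ℂ := (MvPolynomial.aeval u : MvPolynomial σ ℚ →ₐ[ℚ] ℂ).toRingHom
  have hε : ∀ x, ε x = ι (MvPolynomial.map (algebraMap ℚ M) x) := fun x =>
    (MvPolynomial.aeval_map_algebraMap M u x).symm
  have hεinj : Function.Injective ε := huQ
  rw [hH, map_mul, map_prod] at hu'
  have hTv : ∀ c ∈ T, c ∈ v.A ∧ ∃ c' : M, IsAlgebraic ℚ c' ∧ v.r c = j c' := by
    intro c hc
    obtain ⟨hp0, hpc⟩ := hp c hc
    have hlead : MvPolynomial.eval (fun i => (u' i : M))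
        (MvPolynomial.map (algebraMap ℚ M) (p c).leadingCoeff) ≠ 0 :=
      Finset.prod_ne_zero_iff.1 (left_ne_zero_of_mul hu') c (hT.mem_toFinset.2 hc)
    obtain ⟨hcA, φ, hφ, hφc⟩ := pl_alg ε hεinj v (fun x => by rw [hε]; exact (hv _).1) (p c) c hpc
      (by
        rw [hε, (hv _).2]
        exact (map_ne_zero j).2 hlead)
    refine ⟨hcA, ?_⟩
    have hφ2 : φ = (algebraMap ℚ Ω).comp (MvPolynomial.eval (fun i => (u' i : ℚ))) := by
      apply MvPolynomial.ringHom_ext
      · intro q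
        rw [← RingHom.comp_apply, ← RingHom.comp_apply]
        congr 1
        exact RingHom.ext_rat _ _
      · intro i
        rw [hφ, hε, MvPolynomial.map_X, (hv _).2, RingHom.comp_apply, MvPolynomial.eval_X,
          MvPolynomial.eval_X, map_intCast, map_intCast]
    have halg : IsAlgebraic ℚ (v.r c) := by
      rw [hφ2, ← eval₂_map] at hφc
      refine ⟨(p c).map (MvPolynomial.eval (fun i => (u' i : ℚ))), fun h0 => ?_, hφc⟩
      have h1 := congrArg (fun f => f.coeff (p c).natDegree) h0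
      simp only [coeff_map, coeff_zero] at h1
      apply hlead
      have h2 : (p c).coeff (p c).natDegree = (p c).leadingCoeff := rfl
      rw [h2] at h1
      rw [MvPolynomial.eval_map]
      have h3 := MvPolynomial.eval₂_comp_left (algebraMap ℚ M) (RingHom.id ℚ)
        (fun i => (u' i : ℚ)) (p c).leadingCoeff
      have h4 : (algebraMap ℚ M).comp (RingHom.id ℚ) = algebraMap ℚ M := RingHom.comp_id _
      have h5 : (⇑(algebraMap ℚ M) ∘ fun i => (u' i : ℚ)) = fun i => (u' i : M) := by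
        funext i
        simp
      rw [h4, h5] at h3
      rw [← h3]
      have h6 : MvPolynomial.eval₂ (RingHom.id ℚ) (fun i => (u' i : ℚ)) (p c).leadingCoeff = 0 := h1
      rw [h6, map_zero]
    let _ : Algebra M Ω := j.toAlgebra
    obtain ⟨c', hc'⟩ := alg_mem (k := M) (z := v.r c) (halg.tower_top M)
    refine ⟨c', ?_, hc'.symm⟩
    rw [← hc'] at halg
    exact (isAlgebraic_algebraMap_iff j.injective).1 halg
  have hc0 : ∀ c : ℂ, ∃ c' : M, c ∈ T → IsAlgebraic ℚ c' ∧ v.r c = j c' := by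
    intro c
    by_cases hc : c ∈ T
    · obtain ⟨c', h⟩ := (hTv c hc).2
      exact ⟨c', fun _ => h⟩
    · exact ⟨0, fun h => absurd h hc⟩
  choose c' hc' using hc0
  set T' : Set ℂ := (fun c => (c' c : ℂ)) '' T with hT'
  have htr : ∀ z ∈ Subring.closure (T ∪ (F0 : Set ℂ)), z ∈ v.A ∧ ∃ z' : M,
      (z' : ℂ) ∈ Subring.closure (T' ∪ (F0 : Set ℂ)) ∧ v.r z = j z' := by
    intro z hz
    induction hz using Subring.closure_induction with
    | mem x hx =>
      rcases hx with hx | hx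
      · exact ⟨(hTv x hx).1, c' x, Subring.subset_closure (Or.inl ⟨x, hx, rfl⟩), (hc' x hx).2⟩
      · exact ⟨(hM ⟨x, hF0 hx⟩).1, ⟨x, hF0 hx⟩, Subring.subset_closure (Or.inr hx),
          (hM ⟨x, hF0 hx⟩).2⟩
    | zero => exact ⟨v.A.zero_mem, 0, Subring.zero_mem _, by rw [v.r_zero, map_zero]⟩
    | one => exact ⟨v.A.one_mem, 1, Subring.one_mem _, by rw [v.r_one, map_one]⟩
    | add x y _ _ hx hy =>
      obtain ⟨h1, x', h2, h3⟩ := hx
      obtain ⟨g1, y', g2, g3⟩ := hy
      exact ⟨v.A.add_mem h1 g1, x' + y', Subring.add_mem _ h2 g2, by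
        rw [v.r_add h1 g1, h3, g3, map_add]⟩
    | neg x _ hx =>
      obtain ⟨h1, x', h2, h3⟩ := hx
      exact ⟨v.A.neg_mem h1, -x', Subring.neg_mem _ h2, by rw [v.r_neg h1, h3, map_neg]⟩
    | mul x y _ _ hx hy =>
      obtain ⟨h1, x', h2, h3⟩ := hx
      obtain ⟨g1, y', g2, g3⟩ := hy
      exact ⟨v.A.mul_mem h1 g1, x' * y', Subring.mul_mem _ h2 g2, by
        rw [v.r_mul h1 g1, h3, g3, map_mul]⟩
  obtain ⟨haA, a', ha', haj⟩ := htr a ha
  obtain ⟨hbA, b', hb', hbj⟩ := htr b hb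
  have hbinv : b⁻¹ ∈ v.A := (pl_alg ι hι v (fun x => (hv x).1) q b⁻¹ hq (by
    rw [(hv _).2]
    exact (map_ne_zero j).2 (right_ne_zero_of_mul hu'))).1
  have hrb : v.r b ≠ 0 := by
    intro h0
    have h1 := v.r_mul hbA hbinv
    rw [mul_inv_cancel₀ hb0, v.r_one, h0, zero_mul] at h1
    exact one_ne_zero h1
  have hby : b * y = a := by
    rw [← hab, mul_div_cancel₀ _ hb0]
  have h1 := v.r_mul hbA (hM ⟨y, hyM⟩).1
  rw [show b * ((⟨y, hyM⟩ : M) : ℂ) = a from hby, haj, hbj, (hM ⟨y, hyM⟩).2, ← map_mul] at h1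
  have h2 : a' = b' * ⟨y, hyM⟩ := j.injective h1
  have hb'0 : (b' : ℂ) ≠ 0 := by
    intro h0
    have h3 : b' = 0 := Subtype.ext h0
    rw [hbj, h3, map_zero] at hrb
    exact hrb rfl
  refine ⟨T', hT.image _, ?_, Subfield.mem_closure_iff.2 ⟨a', ha', b', hb', ?_⟩⟩
  · rintro _ ⟨c, hc, rfl⟩
    exact (hc' c hc).1.algebraMap
  · rw [h2]
    change ((b' : ℂ) * y) / (b' : ℂ) = y
    rw [mul_div_cancel_left₀ _ hb'0]

end Pool.Agent.J4H11.GQ
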