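import Pool.Agent.J4H11.GQ.K7

/-!
# Domination over big fields and over number fields
-/

set_option autoImplicit false
set_option linter.unusedSectionVars false

open Polynomial Module Pool.Agent.J4H11.RC Pool.Agent.J4H11.SC Pool.Agent.H901R3.MS
  WeierstrassCurve Pool.Agent.J4H11.GN Pool.Agent.J4H11.GP

attribute [local instance 5000] Classical.propDecidable

namespace Pool.Agent.J4H11.GQ

section
variable {r s : ℕ} (M : Subfield ℂ) [IsAlgClosed M]

theorem s_alg (u : ℂ) (h : IsAlgebraic M u) : u ∈ M := by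
  obtain ⟨c, hc⟩ := alg_mem (k := M) h
  rw [← hc]
  exact c.2

theorem s_pt {a b : ℤ} (P : Pt (a : ℂ) (b : ℂ)) (h : (crd P).1 ∈ M) : (crd P).2 ∈ M := by
  by_cases h0 : P = 0
  · rw [h0]
    exact M.zero_mem
  · apply s_alg
    have hE := crd_eqn' P h0
    have h1 : (crd P).2 ^ 2 ∈ M := by
      have h2 : (crd P).2 ^ 2 = (crd P).1 ^ 3 + (a : ℂ) * (crd P).1 + (b : ℂ) := hE
      rw [h2]
      exact Subfield.add_mem _ (Subfield.add_mem _ (Subfield.pow_mem _ h 3)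
        (Subfield.mul_mem _ (intCast_mem _ _) h)) (intCast_mem _ _)
    refine IsAlgebraic.of_pow (n := 2) (by norm_num) ?_
    exact isAlgebraic_algebraMap (⟨_, h1⟩ : M)

theorem s_div {a b : ℤ} (hDQ : Disc (a : ℚ) (b : ℚ)) (hnt : NT a b)
    (P R S : Pt (a : ℂ) (b : ℂ)) (h : (crd P).1 ∈ M) (n : ℕ) (hn : 1 ≤ n)
    (h1 : linC n R S = P) (h2 : IsRatP S) : (crd R).1 ∈ M ∧ (crd R).2 ∈ M := by
  have hD : Disc (a : ℂ) (b : ℂ) := disc_of (Rat.castHom ℂ) _ _ hDQ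
  obtain ⟨R0, hR0⟩ := rat_lift hDQ hD S h2
  refine crd_div M hnt hD P R h (s_pt M P h) n hn R0 ?_
  rw [hR0, ← lin_cl (fun a b => Classical.propDecidable (a = b)), linC_lin]
  exact h1

theorem s_fin {a b : Fin r → ℤ} (P : (j : Fin r) → Pt (a j : ℂ) (b j : ℂ))
    (h : ∀ j, (crd (P j)).1 ∈ M)
    (𝒢 : Set (MvPolynomial (Fin s) (MvPolynomial (Fin r × Fin 2) ℤ)))
    (hF : {ζ : Fin s → ℂ | ∀ G ∈ 𝒢, MvPolynomial.eval₂ (evf P) ζ G = 0}.Finite)
    (ζ : Fin s → ℂ) (hζ : ∀ G ∈ 𝒢, MvPolynomial.eval₂ (evf P) ζ G = 0) (t : Fin s) :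
    ζ t ∈ M := by
  have hx0 : ∀ G, evf P G ∈ M := by
    intro G
    induction G using MvPolynomial.induction_on with
    | C c =>
      have : evf P (MvPolynomial.C c) = (c : ℂ) := by
        rw [show (MvPolynomial.C c : MvPolynomial (Fin r × Fin 2) ℤ) = ((c : ℤ) :
          MvPolynomial (Fin r × Fin 2) ℤ) from (map_intCast MvPolynomial.C c), map_intCast]
      rw [this]
      exact intCast_mem _ c
    | add p q hp hq =>
      rw [map_add]
      exact add_mem hp hq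
    | mul_X p v hp =>
      rw [map_mul]
      refine mul_mem hp ?_
      obtain ⟨j, e⟩ := v
      unfold evf
      rcases fin2 e with rfl | rfl
      · rw [evp_x]
        exact h j
      · rw [evp_y]
        exact s_pt M (P j) (h j)
  let ε : MvPolynomial (Fin r × Fin 2) ℤ →+* M := (evf P).codRestrict M hx0
  have hε : ∀ (w : Fin s → ℂ) (G : MvPolynomial (Fin s) (MvPolynomial (Fin r × Fin 2) ℤ)),
      MvPolynomial.aeval w (MvPolynomial.map ε G) = MvPolynomial.eval₂ (evf P) w G := by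
    intro w G
    rw [MvPolynomial.aeval_def, MvPolynomial.eval₂_map]
    rfl
  let I : Ideal (MvPolynomial (Fin s) M) := Ideal.span (MvPolynomial.map ε '' 𝒢)
  have hI : ∀ w : Fin s → ℂ, w ∈ MvPolynomial.zeroLocus ℂ I ↔
      ∀ G ∈ 𝒢, MvPolynomial.eval₂ (evf P) w G = 0 := by
    intro w
    constructor
    · intro hw G hG
      rw [← hε]
      exact hw _ (Ideal.subset_span ⟨G, hG, rfl⟩)
    · intro hw p hp
      have h1 : I ≤ RingHom.ker (MvPolynomial.aeval w : MvPolynomial (Fin s) M →ₐ[M] ℂ) := by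
        refine Ideal.span_le.2 ?_
        rintro _ ⟨G, hG, rfl⟩
        rw [SetLike.mem_coe, RingHom.mem_ker, hε]
        exact hw G hG
      exact h1 hp
  have hI2 : MvPolynomial.zeroLocus ℂ I =
      {ζ : Fin s → ℂ | ∀ G ∈ 𝒢, MvPolynomial.eval₂ (evf P) ζ G = 0} := Set.ext hI
  exact s_alg M _ (alg_fin M I (by rw [hI2]; exact hF) ζ ((hI ζ).2 hζ) t)

/-- the descent of a point of bounded degree to a number field -/
theorem desc_nf {a b : Fin r → ℤ} {σ : Type} [Finite σ] (u : σ → ℂ)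
    (hu : AlgebraicIndependent M u) (hDQ : ∀ j, Disc (a j : ℚ) (b j : ℚ))
    (hnt : ∀ j, NT (a j) (b j)) (P : (j : Fin r) → Pt (a j : ℂ) (b j : ℂ))
    (h : ∀ j, (crd (P j)).1 ∈ M)
    (𝒢 : Set (MvPolynomial (Fin s) (MvPolynomial (Fin r × Fin 2) ℤ)))
    (hF : {ζ : Fin s → ℂ | ∀ G ∈ 𝒢, MvPolynomial.eval₂ (evf P) ζ G = 0}.Finite)
    (n : ℕ) (hn : 1 ≤ n) (R S : (j : Fin r) → Pt (a j : ℂ) (b j : ℂ))
    (h1 : ∀ j, linC n (R j) (S j) = P j) (h2 : ∀ j, IsRatP (S j))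
    (T : Set ℂ) (hT : T.Finite)
    (hTa : ∀ c ∈ T, IsAlgebraic (IntermediateField.adjoin ℚ (Set.range u)) c) (z : Fin s → ℂ)
    (hz : ∀ G ∈ 𝒢, MvPolynomial.eval₂ (evf P) z G = 0) (d : ℕ)
    (hd : SD (Subfield.closure T ⊔ fld R) z d) :
    ∃ K : IntermediateField ℚ ℂ, FiniteDimensional ℚ K ∧ ∃ z' : Fin s → ℂ,
      (∀ G ∈ 𝒢, MvPolynomial.eval₂ (evf P) z' G = 0) ∧ SD (K.toSubfield ⊔ fld R) z' d := by
  obtain ⟨ε0, hε0⟩ := evf_fld a b hDQ P n R S h1 h2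
  have hFR : fld R ≤ M := by
    unfold fld
    rw [Subfield.closure_le]
    rintro x (⟨j, rfl⟩ | ⟨j, rfl⟩)
    · exact (s_div M (hDQ j) (hnt j) (P j) (R j) (S j) (h j) n hn (h1 j) (h2 j)).1
    · exact (s_div M (hDQ j) (hnt j) (P j) (R j) (S j) (h j) n hn (h1 j) (h2 j)).2
  have hsup : Subfield.closure T ⊔ fld R = Subfield.closure (T ∪ (fld R : Set ℂ)) := by
    rw [Subfield.closure_union, Subfield.closure_eq]
  have hin : ∀ F : Subfield ℂ, fld R ≤ F → ∃ ε : MvPolynomial (Fin r × Fin 2) ℤ →+* F,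
      (algebraMap F ℂ).comp ε = evf P := fun F hF =>
    ⟨(Subfield.inclusion hF).comp ε0, by rw [← hε0]; exact RingHom.ext fun x => rfl⟩
  obtain ⟨ε, hε⟩ := hin (Subfield.closure T ⊔ fld R) le_sup_right
  obtain ⟨e, x, he1, he2, -, y, hy⟩ := Y_of_pt (Ω := ℂ) ε 𝒢 z d ((SD_iff _ _ _).1 hd) (by
    rw [hε]
    exact hz)
  have hy2 : ∀ c ∈ YR e x 𝒢, MvPolynomial.eval₂ (evf P)
      (fun v => (y (finProdFinEquiv.symm v) : ℂ)) c = 0 := by
    rw [← hε]
    refine (YR_sub e x 𝒢 _ ε (fun v => y (finProdFinEquiv.symm v))).2 ?_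
    simpa only [Equiv.symm_apply_apply] using hy
  have hyM : ∀ v, (y v : ℂ) ∈ M := by
    intro v
    have h3 := s_fin M P h (YR e x 𝒢) (YR_fin e x 𝒢 _ hF) _ hy2 (finProdFinEquiv v)
    rwa [Equiv.symm_apply_apply] at h3
  have hsp := fun v => sp_main M u hu (fld R) hFR T hT hTa (y v) (hyM v)
    (by rw [← hsup]; exact (y v).2)
  choose T' hT'f hT'a hT'y using hsp
  have hfin : (⋃ v, T' v).Finite := Set.finite_iUnion hT'f
  have hfd : FiniteDimensional ℚ (IntermediateField.adjoin ℚ (⋃ v, T' v)) := by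
    have : Finite (⋃ v, T' v : Set ℂ) := hfin
    refine IntermediateField.finiteDimensional_adjoin fun c hc => ?_
    obtain ⟨v, hv⟩ := Set.mem_iUnion.1 hc
    exact (hT'a v c hv).isIntegral
  refine ⟨IntermediateField.adjoin ℚ (⋃ v, T' v), hfd, ?_⟩
  set K := IntermediateField.adjoin ℚ (⋃ v, T' v) with hK
  obtain ⟨ε', hε'⟩ := hin (K.toSubfield ⊔ fld R) le_sup_right
  have hyK : ∀ v, (y v : ℂ) ∈ K.toSubfield ⊔ fld R := by
    intro v
    have h3 : Subfield.closure (T' v ∪ (fld R : Set ℂ)) ≤ K.toSubfield ⊔ fld R := by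
      rw [Subfield.closure_le]
      rintro c (hc | hc)
      · exact (le_sup_left : K.toSubfield ≤ K.toSubfield ⊔ fld R)
          (IntermediateField.subset_adjoin ℚ _ (Set.mem_iUnion.2 ⟨v, hc⟩))
      · exact (le_sup_right : fld R ≤ K.toSubfield ⊔ fld R) hc
    exact h3 (hT'y v)
  let y' : Fin (s + 2) × Fin e → ↥(K.toSubfield ⊔ fld R) := fun v => ⟨y v, hyK v⟩
  have hy' : IsY ε' x 𝒢 y' := by
    have h3 := (YR_sub e x 𝒢 _ ε' (fun v => y' (finProdFinEquiv.symm v))).1 (by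
      rw [hε']
      exact hy2)
    simpa only [Equiv.symm_apply_apply] using h3
  obtain ⟨z', hz', L, hL1, hL2, hL3⟩ := pt_of_Y (Ω := ℂ) ε' x 𝒢 y' he1 hy'
  rw [hε'] at hz'
  exact ⟨z', hz', (SD_iff _ _ _).2 ⟨L, hL1, hL2.trans he2, hL3⟩⟩

end

end Pool.Agent.J4H11.GQ
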