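import Pool.Agent.J4H11.GQ.K8

/-!
# Uniformity over the number fields of bounded degree from the number fields
-/

set_option autoImplicit false
set_option linter.unusedSectionVars false

open Finset Module Pool.Agent.J4H11.RC Pool.Agent.J4H11.SC Pool.Agent.H901R3.MS
  WeierstrassCurve Pool.Agent.J4H11.GN Pool.Agent.J4H11.GP

namespace Pool.Agent.J4H11.GQ

theorem ind_compl {ι : Type} (x : ι → ℂ) (hx : AlgebraicIndependent ℚ x) (s : Set ι) :
    AlgebraicIndependent (algebraicClosure (IntermediateField.adjoin ℚ (x '' s)) ℂ).toSubfield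
      (fun p : ↥sᶜ => x p) := by
  have h1 : AlgebraicIndependent (Algebra.adjoin ℚ (x '' s)) (fun p : ↥sᶜ => x p) :=
    hx.adjoin_of_disjoint (s := s) (t := sᶜ) disjoint_compl_right
  have h2 : AlgebraicIndependent (IntermediateField.adjoin ℚ (x '' s)) (fun p : ↥sᶜ => x p) :=
    IntermediateField.algebraicIndependent_adjoin_iff.2 h1
  exact h2.algebraicClosure

theorem cl_mem (T : Set ℂ) (c : ℂ) (h : c ∈ T) :
    c ∈ (algebraicClosure (IntermediateField.adjoin ℚ T) ℂ).toSubfield :=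
  mem_algebraicClosure_iff.2 (isAlgebraic_algebraMap (⟨c, IntermediateField.subset_adjoin ℚ _ h⟩ :
    IntermediateField.adjoin ℚ T))

theorem cl_closed (T : Set ℂ) :
    IsAlgClosed (algebraicClosure (IntermediateField.adjoin ℚ T) ℂ).toSubfield :=
  (inferInstance : IsAlgClosure (IntermediateField.adjoin ℚ T)
    (algebraicClosure (IntermediateField.adjoin ℚ T) ℂ)).isAlgClosed

section
variable {r s m : ℕ}

theorem pw_low2 (a b : Fin r → ℤ) (hDQ : ∀ j, Disc (a j : ℚ) (b j : ℚ))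
    (hnt : ∀ j, NT (a j) (b j))
    (𝒢 : Set (MvPolynomial (Fin s) (MvPolynomial (Fin r × Fin 2) ℤ)))
    (P : Fin m → (j : Fin r) → Pt (a j : ℂ) (b j : ℂ))
    (hind : AlgebraicIndependent ℚ (fun p : Fin m × Fin r => (crd (P p.1 p.2)).1))
    (hF : ∀ i, {ζ : Fin s → ℂ | ∀ G ∈ 𝒢, MvPolynomial.eval₂ (evf (P i)) ζ G = 0}.Finite) (d : ℕ)
    (hnd : ∀ (K : IntermediateField ℚ ℂ), FiniteDimensional ℚ K → ∀ i : Fin m, ∀ n : ℕ, 1 ≤ n →
      ∀ R S : (j : Fin r) → Pt (a j : ℂ) (b j : ℂ), (∀ j, n • R j + S j = P i j) →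
      (∀ j, IsRatP (S j)) → ∀ ζ : Fin s → ℂ,
      (∀ G ∈ 𝒢, MvPolynomial.eval₂ (evf (P i)) ζ G = 0) → ¬ SD (K.toSubfield ⊔ fld R) ζ d)
    (n : ℕ) (hn : 1 ≤ n) (R S : Fin m → (j : Fin r) → Pt (a j : ℂ) (b j : ℂ))
    (h1 : ∀ i j, n • R i j + S i j = P i j) (h2 : ∀ i j, IsRatP (S i j))
    (z : Fin m → Fin s → ℂ) (hz : ∀ i, ∀ G ∈ 𝒢, MvPolynomial.eval₂ (evf (P i)) (z i) G = 0)
    (F L : Subfield ℂ)
    (hFR : F = Subfield.closure {u | ∃ i j, u = (crd (R i j)).1 ∨ u = (crd (R i j)).2})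
    (hL : F ≤ L) (hL0 : 0 < F.relfinrank L) (hzL : ∀ i t, z i t ∈ L) :
    (d + 1) ^ m ≤ F.relfinrank L := by
  refine tower_low F z d L hL hL0 hzL fun i => ?_
  set x : Fin m × Fin r → ℂ := fun p => (crd (P p.1 p.2)).1 with hx
  set T : Set ℂ := {u | ∃ i', i' ≠ i ∧ ∃ j, u = (crd (R i' j)).1 ∨ u = (crd (R i' j)).2} ∪
      {u | ∃ i' : Fin m, (i' : ℕ) < i ∧ ∃ t, u = z i' t} with hT
  have hTf : T.Finite := by
    have h3 : T ⊆ (Set.range (fun p : Fin m × Fin r => (crd (R p.1 p.2)).1) ∪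
        Set.range (fun p : Fin m × Fin r => (crd (R p.1 p.2)).2)) ∪
        Set.range (fun p : Fin m × Fin s => z p.1 p.2) := by
      rintro u (⟨i', -, j, rfl | rfl⟩ | ⟨i', -, t, rfl⟩)
      · exact Or.inl (Or.inl ⟨(i', j), rfl⟩)
      · exact Or.inl (Or.inr ⟨(i', j), rfl⟩)
      · exact Or.inr ⟨(i', t), rfl⟩
    exact (((Set.finite_range _).union (Set.finite_range _)).union (Set.finite_range _)).subset h3
  have hkc : ∀ c ∈ T, c ∈ Kc x i := by
    rintro u (⟨i', hi', j, hu⟩ | ⟨i', hi', t, rfl⟩)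
    · have h3 := kc_div a b hDQ hnt x i j (P i' j) (R i' j) (S i' j) (kc_x x i i' hi' j) n hn
        (h1 i' j) (h2 i' j)
      rcases hu with rfl | rfl
      · exact h3.1
      · exact h3.2
    · have hi : i' ≠ i := fun h => by
        rw [h] at hi'
        exact lt_irrefl _ hi'
      exact kc_fin a b x i (P i') (fun j => kc_x x i i' hi j) 𝒢 (hF i') (z i') (hz i') t
  have h4 : Fz F z i = Subfield.closure T ⊔ fld (R i) := by
    refine le_antisymm (sup_le ?_ ?_) (sup_le ?_ ?_)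
    · rw [hFR, Subfield.closure_le]
      rintro u ⟨i', j, hu⟩
      by_cases hi : i' = i
      · subst hi
        refine (le_sup_right : fld (R i') ≤ Subfield.closure T ⊔ fld (R i')) ?_
        rcases hu with rfl | rfl
        · exact Subfield.subset_closure (Or.inl ⟨j, rfl⟩)
        · exact Subfield.subset_closure (Or.inr ⟨j, rfl⟩)
      · exact (le_sup_left : Subfield.closure T ≤ Subfield.closure T ⊔ fld (R i))
          (Subfield.subset_closure (Or.inl ⟨i', hi, j, hu⟩))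
    · rw [Subfield.closure_le]
      rintro u hu
      exact (le_sup_left : Subfield.closure T ≤ Subfield.closure T ⊔ fld (R i))
        (Subfield.subset_closure (Or.inr hu))
    · rw [hT, Subfield.closure_le]
      rintro u (⟨i', hi', j, hu⟩ | hu)
      · refine (le_sup_left : F ≤ Fz F z i) ?_
        rw [hFR]
        exact Subfield.subset_closure ⟨i', j, hu⟩
      · exact (le_sup_right : _ ≤ Fz F z i) (Subfield.subset_closure hu)
    · refine le_trans ?_ (le_sup_left : F ≤ Fz F z i)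
      unfold fld
      rw [hFR, Subfield.closure_le]
      rintro u (⟨j, rfl⟩ | ⟨j, rfl⟩)
      · exact Subfield.subset_closure ⟨i, j, Or.inl rfl⟩
      · exact Subfield.subset_closure ⟨i, j, Or.inr rfl⟩
  rw [h4]
  intro hcon
  have hcl := cl_closed (x '' {p : Fin m × Fin r | p.1 = i})
  obtain ⟨K, hK, z', hz', hzd⟩ := desc_nf
    (algebraicClosure (IntermediateField.adjoin ℚ (x '' {p : Fin m × Fin r | p.1 = i})) ℂ).toSubfield
    (fun p : ↥({p : Fin m × Fin r | p.1 = i}ᶜ) => x p)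
    (ind_compl x hind {p | p.1 = i}) hDQ hnt (P i)
    (fun j => cl_mem _ _ ⟨(i, j), rfl, rfl⟩) 𝒢 (hF i) n hn (R i) (S i) (h1 i) (h2 i) T hTf
    (fun c hc => by
      have h5 : Set.range (fun p : ↥({p : Fin m × Fin r | p.1 = i}ᶜ) => x p) =
          x '' {p : Fin m × Fin r | p.1 ≠ i} := (Set.image_eq_range _ _).symm
      rw [h5]
      exact mem_algebraicClosure_iff.1 (hkc c hc)) (z i) (hz i) d hcon
  exact hnd K hK i n hn (R i) (S i) (h1 i) (h2 i) z' hz' hzd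

end

section
variable {r s : ℕ}

theorem uni_K2 (hr : 1 ≤ r) (a b : Fin r → ℤ) (hDQ : ∀ j, Disc (a j : ℚ) (b j : ℚ))
    (hrk : ∀ j, 3 ≤ finrank ℤ (Pt (a j : ℚ) (b j : ℚ)))
    (𝒢 : Set (MvPolynomial (Fin s) (MvPolynomial (Fin r × Fin 2) ℤ)))
    (hF : ∀ P : (j : Fin r) → Pt (a j : ℂ) (b j : ℂ),
      AlgebraicIndependent ℚ (fun j => (crd (P j)).1) →
      {ζ : Fin s → ℂ | ∀ G ∈ 𝒢, MvPolynomial.eval₂ (evf P) ζ G = 0}.Finite)
    (d : ℕ) (hd : 1 ≤ d)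
    (hnd : ∀ (K : IntermediateField ℚ ℂ), FiniteDimensional ℚ K →
      ∀ (P : (j : Fin r) → Pt (a j : ℂ) (b j : ℂ)),
      AlgebraicIndependent ℚ (fun j => (crd (P j)).1) → ∀ n : ℕ, 1 ≤ n →
      ∀ R S : (j : Fin r) → Pt (a j : ℂ) (b j : ℂ), (∀ j, n • R j + S j = P j) →
      (∀ j, IsRatP (S j)) → ∀ ζ : Fin s → ℂ,
      (∀ G ∈ 𝒢, MvPolynomial.eval₂ (evf P) ζ G = 0) → ¬ SD (K.toSubfield ⊔ fld R) ζ d) (D : ℕ) :
    ∃ γ C : ℝ, 0 < γ ∧ 0 ≤ C ∧ ∀ (K : IntermediateField ℚ ℂ) [FiniteDimensional ℚ K],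
      finrank ℚ K ≤ D → ∀ (T : ℝ), 2 ≤ T → ∀ c : (j : Fin r) → Pt (a j : ℚ) (b j : ℚ),
      {Q : (j : Fin r) → Pt (a j : ℚ) (b j : ℚ) | (∀ j, hx (Q j - c j) ≤ T ^ 2) ∧
        ((∀ j, Q j ≠ 0) → ∃ z : Fin s → ℂ, (∀ G ∈ 𝒢,
          MvPolynomial.eval₂ ((algebraMap ℚ ℂ).comp (evf Q)) z G = 0) ∧
          SD K.toSubfield z d)}.Finite ∧
      ({Q : (j : Fin r) → Pt (a j : ℚ) (b j : ℚ) | (∀ j, hx (Q j - c j) ≤ T ^ 2) ∧
        ((∀ j, Q j ≠ 0) → ∃ z : Fin s → ℂ, (∀ G ∈ 𝒢,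
          MvPolynomial.eval₂ ((algebraMap ℚ ℂ).comp (evf Q)) z G = 0) ∧
          SD K.toSubfield z d)}.ncard : ℝ) ≤
        C * T ^ (∑ j, finrank ℤ (Pt (a j : ℚ) (b j : ℚ))) * Real.log T ^ (-γ) := by
  classical
  obtain ⟨m, hm, hpow⟩ := exists_pow (D + 1) d
  obtain ⟨P, hP⟩ := exists_gen_pts m a b hDQ
  have hnt : ∀ j, NT (a j) (b j) := fun j => nt_of_rank (a j) (b j) (by
    have := hrk j
    omega)
  have hPi : ∀ i, AlgebraicIndependent ℚ (fun j => (crd (P i j)).1) := fun i =>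
    hP.comp (fun j => (i, j)) (fun j j' h => (Prod.mk.inj h).2)
  have hB := (dich_deg (r := m * r) (Nat.mul_pos hm hr) (fun v => a (finProdFinEquiv.symm v).2)
    (fun v => b (finProdFinEquiv.symm v).2) (fun v => hDQ _) (fun v => hrk _) (pwP P)
    (hP.comp _ finProdFinEquiv.symm.injective) (pwG m 𝒢) (pwG_fin 𝒢 P fun i => hF _ (hPi i))
    ((D + 1) * d ^ m) (Nat.mul_pos (Nat.succ_pos D) (pow_pos hd m))).1 (by
      intro n hn R' S' h1 h2 ζ hζ hcon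
      obtain ⟨R, rfl⟩ := pwP_surj (a := a) (b := b) R'
      obtain ⟨S, rfl⟩ := pwP_surj (a := a) (b := b) S'
      have h1' : ∀ p : Fin m × Fin r, n • R p.1 p.2 + S p.1 p.2 = P p.1 p.2 := fun p => by
        obtain ⟨v, rfl⟩ := (finProdFinEquiv (m := m) (n := r)).symm.surjective p
        exact h1 v
      have h2' : ∀ p : Fin m × Fin r, IsRatP (S p.1 p.2) := fun p => by
        obtain ⟨v, rfl⟩ := (finProdFinEquiv (m := m) (n := r)).symm.surjective p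
        exact h2 v
      obtain ⟨L, hL1, hL2, hL3, hL4⟩ := (SD_iff _ _ _).2 hcon
      have h5 := pw_low2 a b hDQ hnt 𝒢 P hP (fun i => hF _ (hPi i)) d
        (fun K hK i => hnd K hK (P i) (hPi i)) n hn R S
        (fun i j => h1' (i, j)) (fun i j => h2' (i, j)) (fun i t => ζ (finProdFinEquiv (i, t)))
        ((pwG_iff 𝒢 (RingHom.id ℂ) P ζ).1 hζ) _ L (by
          unfold fld
          congr 1
          ext u
          constructor
          · rintro (⟨v, rfl⟩ | ⟨v, rfl⟩)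
            · exact ⟨_, _, Or.inl rfl⟩
            · exact ⟨_, _, Or.inr rfl⟩
          · rintro ⟨i, j, rfl | rfl⟩
            · exact Or.inl ⟨finProdFinEquiv (i, j), pw_at R (fun j Q => (crd Q).1) i j⟩
            · exact Or.inr ⟨finProdFinEquiv (i, j), pw_at R (fun j Q => (crd Q).2) i j⟩)
        hL1 hL2 (fun i t => hL4 _)
      exact absurd (h5.trans hL3) (not_le.2 hpow))
  obtain ⟨γ0, hγ0, hB⟩ := hB
  obtain ⟨f, hf⟩ := ind3_exists a b hrk
  obtain ⟨γ1, hγ1, hB1⟩ := ball_zero hDQ f hf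
  have hm0 : (0 : ℝ) < m := by exact_mod_cast hm
  have hγ : 0 < min (γ0 / m) γ1 := lt_min (div_pos hγ0 hm0) hγ1
  have hmγ : (m : ℝ) * min (γ0 / m) γ1 ≤ γ0 := by
    have := min_le_left (γ0 / m) γ1
    rwa [le_div_iff₀ hm0, mul_comm] at this
  obtain ⟨C0, hC0, h0⟩ := hB (m * min (γ0 / m) γ1) (mul_pos hm0 hγ) hmγ
  obtain ⟨C1, hC1, h1⟩ := hB1 (min (γ0 / m) γ1) hγ (min_le_right _ _)
  refine ⟨min (γ0 / m) γ1, C0 + 1 + C1, hγ, by positivity, fun K _ hK T hT c => ?_⟩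
  set E : Set ((j : Fin r) → Pt (a j : ℚ) (b j : ℚ)) :=
    {Q | (∀ j, hx (Q j - c j) ≤ T ^ 2) ∧ ∃ z : Fin s → ℂ, (∀ G ∈ 𝒢,
      MvPolynomial.eval₂ ((algebraMap ℚ ℂ).comp (evf Q)) z G = 0) ∧ SD K.toSubfield z d} with hE
  obtain ⟨k1, k2⟩ := h0 T hT (pwP fun _ => c)
  have hmem : ∀ Q : Fin m → (j : Fin r) → Pt (a j : ℚ) (b j : ℚ), (∀ i, Q i ∈ E) →
      pwP Q ∈ {P : (v : Fin (m * r)) → Pt ((a (finProdFinEquiv.symm v).2 : ℤ) : ℚ)
        ((b (finProdFinEquiv.symm v).2 : ℤ) : ℚ) |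
        (∀ j, hx (P j - pwP (fun _ => c) j) ≤ T ^ 2) ∧ ((∀ j, P j ≠ 0) →
          ∃ z : Fin (m * s) → ℂ, (∀ G ∈ pwG m 𝒢,
            MvPolynomial.eval₂ ((algebraMap ℚ ℂ).comp (evf
              (a := fun v => a (finProdFinEquiv.symm v).2)
              (b := fun v => b (finProdFinEquiv.symm v).2) P)) z G = 0) ∧
            PtDeg ℚ z ((D + 1) * d ^ m))} := by
    intro Q hQ
    refine ⟨fun v => (hQ _).1 _, fun _ => ?_⟩
    choose z hz hzd using fun i => (hQ i).2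
    refine ⟨fun v => z (finProdFinEquiv.symm v).1 (finProdFinEquiv.symm v).2, ?_,
      deg_pw K d _ z hzd (Nat.mul_le_mul_right _ (hK.trans (Nat.le_succ D)))⟩
    refine (pwG_iff 𝒢 (algebraMap ℚ ℂ) Q _).2 fun i G hG => ?_
    have h2 : (fun t : Fin s => z (finProdFinEquiv.symm (finProdFinEquiv (i, t))).1
        (finProdFinEquiv.symm (finProdFinEquiv (i, t))).2) = z i := by
      funext t
      rw [Equiv.symm_apply_apply]
    rw [h2]
    exact hz i G hG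
  have hinj : Function.Injective (pwP (F := ℚ) (a := a) (b := b) (m := m)) := by
    intro Q Q' h
    funext i j
    have h2 : ∀ p : Fin m × Fin r, Q p.1 p.2 = Q' p.1 p.2 := fun p => by
      obtain ⟨v, rfl⟩ := (finProdFinEquiv (m := m) (n := r)).symm.surjective p
      exact congrFun h v
    exact h2 (i, j)
  have hEf : E.Finite := by
    refine Set.Finite.of_injOn (f := fun Q => pwP (m := m) fun _ => Q)
      (fun Q hQ => hmem _ fun _ => hQ) ?_ k1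
    intro Q _ Q' _ h
    exact congrFun (hinj h) ⟨0, hm⟩
  have hcard : (E.ncard ^ m : ℕ) ≤ {P : (v : Fin (m * r)) →
      Pt ((a (finProdFinEquiv.symm v).2 : ℤ) : ℚ) ((b (finProdFinEquiv.symm v).2 : ℤ) : ℚ) |
        (∀ j, hx (P j - pwP (fun _ => c) j) ≤ T ^ 2) ∧ ((∀ j, P j ≠ 0) →
          ∃ z : Fin (m * s) → ℂ, (∀ G ∈ pwG m 𝒢,
            MvPolynomial.eval₂ ((algebraMap ℚ ℂ).comp (evf
              (a := fun v => a (finProdFinEquiv.symm v).2)
              (b := fun v => b (finProdFinEquiv.symm v).2) P)) z G = 0) ∧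
            PtDeg ℚ z ((D + 1) * d ^ m))}.ncard := by
    have h2 : E.ncard ^ m = (Fintype.piFinset (fun _ : Fin m => hEf.toFinset)).card := by
      rw [Fintype.card_piFinset, prod_const, card_univ, Fintype.card_fin,
        Set.ncard_eq_toFinset_card E hEf]
    rw [h2, Set.ncard_eq_toFinset_card _ k1]
    refine card_le_card_of_injOn pwP ?_ (hinj.injOn)
    intro Q hQ
    rw [Set.Finite.coe_toFinset]
    refine hmem Q fun i => ?_
    exact hEf.mem_toFinset.1 (Fintype.mem_piFinset.1 (mem_coe.1 hQ) i)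
  have hEn : (E.ncard : ℝ) ≤ (C0 + 1) * T ^ (∑ j, finrank ℤ (Pt (a j : ℚ) (b j : ℚ))) *
      Real.log T ^ (-(min (γ0 / m) γ1)) := by
    refine root_bound m hm _ C0 T _ _ hC0 hT (le_trans (Nat.cast_le.2 hcard) (k2.trans_eq ?_))
    rw [sum_pw m (fun j => finrank ℤ (Pt (a j : ℚ) (b j : ℚ)))]
  obtain ⟨g1, g2⟩ := h1 T hT c
  have hsub : {Q : (j : Fin r) → Pt (a j : ℚ) (b j : ℚ) | (∀ j, hx (Q j - c j) ≤ T ^ 2) ∧
        ((∀ j, Q j ≠ 0) → ∃ z : Fin s → ℂ, (∀ G ∈ 𝒢,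
          MvPolynomial.eval₂ ((algebraMap ℚ ℂ).comp (evf Q)) z G = 0) ∧
          SD K.toSubfield z d)} ⊆ E ∪ {Q : (j : Fin r) → Pt (a j : ℚ) (b j : ℚ) |
            (∀ j, hx (Q j - c j) ≤ T ^ 2) ∧ ∃ j, Q j = 0} := by
    rintro Q ⟨hQ1, hQ2⟩
    by_cases h : ∀ j, Q j ≠ 0
    · exact Or.inl ⟨hQ1, hQ2 h⟩
    · push Not at h
      exact Or.inr ⟨hQ1, h⟩
  refine ⟨(hEf.union g1).subset hsub, ?_⟩
  have h5 := (Set.ncard_le_ncard hsub (hEf.union g1)).trans (Set.ncard_union_le _ _)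
  have h6 : ({Q : (j : Fin r) → Pt (a j : ℚ) (b j : ℚ) | (∀ j, hx (Q j - c j) ≤ T ^ 2) ∧
        ((∀ j, Q j ≠ 0) → ∃ z : Fin s → ℂ, (∀ G ∈ 𝒢,
          MvPolynomial.eval₂ ((algebraMap ℚ ℂ).comp (evf Q)) z G = 0) ∧
          SD K.toSubfield z d)}.ncard : ℝ) ≤ (E.ncard : ℝ) +
          ({Q : (j : Fin r) → Pt (a j : ℚ) (b j : ℚ) |
            (∀ j, hx (Q j - c j) ≤ T ^ 2) ∧ ∃ j, Q j = 0}.ncard : ℝ) := by
    exact_mod_cast h5
  refine h6.trans ((add_le_add hEn g2).trans (le_of_eq ?_))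
  ring

end

end Pool.Agent.J4H11.GQ
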