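import Mathlib

/-!
# The number of the points of a lattice in a shell
-/

set_option autoImplicit false

open Finset

namespace Pool.Agent.J4H11.GQ

section
variable {G V : Type} [AddCommGroup G] [NormedAddCommGroup V] [InnerProductSpace ℝ V]

theorem shell_half (ψ : G →+ V) (u : G) (hu : ψ u ≠ 0)
    (hfin : ∀ T : ℝ, {g | ‖ψ g‖ ≤ T}.Finite) (ρ : ℕ) (c : ℝ) (hc : 0 ≤ c)
    (hF : ∀ T : ℝ, 2 ≤ T → ({g | ‖ψ g‖ ≤ T}.ncard : ℝ) ≤ c * T ^ ρ) (c0 : ℝ) (hc0 : 0 ≤ c0) :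
    ∃ C : ℝ, 0 ≤ C ∧ ∀ T : ℝ, 2 ≤ T →
      ({g | T - c0 ≤ ‖ψ g‖ ∧ ‖ψ g‖ ≤ T + c0 ∧ 0 ≤ inner ℝ (ψ g) (ψ u)}.ncard : ℝ) ≤
        C * (T ^ ρ / √T) := by
  classical
  have hw : 0 < ‖ψ u‖ := norm_pos_iff.2 hu
  set w := ‖ψ u‖ with hwdef
  set c3 : ℝ := 1 + c0 + w with hc3
  have hc3pos : 1 ≤ c3 := by linarith
  set c5 : ℝ := √(4 * c0 + 4 * c0 ^ 2) / w + 1 with hc5
  have hc5pos : 0 ≤ c5 := by positivity
  refine ⟨c5 * (c * c3 ^ ρ), by positivity, fun T hT => ?_⟩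
  have hT0 : 0 < T := by linarith
  set S : Set G := {g | T - c0 ≤ ‖ψ g‖ ∧ ‖ψ g‖ ≤ T + c0 ∧ 0 ≤ inner ℝ (ψ g) (ψ u)} with hS
  have hSf : S.Finite := (hfin (T + c0)).subset fun g hg => hg.2.1
  set K : ℕ := ⌊√(4 * T * c0 + 4 * c0 ^ 2) / w⌋₊ with hK
  -- two points of a line
  have claim1 : ∀ g ∈ S, ∀ k : ℕ, g + k • u ∈ S → k ≤ K := by
    intro g hg k hgk
    apply Nat.le_floor
    rw [le_div_iff₀ hw]
    apply Real.le_sqrt_of_sq_le
    have h1 : ‖ψ (g + k • u)‖ ^ 2 = ‖ψ g‖ ^ 2 + 2 * ((k : ℝ) * inner ℝ (ψ g) (ψ u)) +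
        (k : ℝ) ^ 2 * w ^ 2 := by
      have h2 : ψ (g + k • u) = ψ g + (k : ℝ) • ψ u := by
        rw [map_add, map_nsmul, Nat.cast_smul_eq_nsmul]
      rw [h2, norm_add_sq_real, inner_smul_right, norm_smul, Real.norm_eq_abs, mul_pow, sq_abs]
    have h3 : ‖ψ (g + k • u)‖ ≤ T + c0 := hgk.2.1
    have h4 : ‖ψ (g + k • u)‖ ^ 2 ≤ (T + c0) ^ 2 := pow_le_pow_left₀ (norm_nonneg _) h3 2
    have h5 : 0 ≤ (k : ℝ) * inner ℝ (ψ g) (ψ u) := mul_nonneg (Nat.cast_nonneg _) hg.2.2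
    have h6 : (T + c0) ^ 2 - ‖ψ g‖ ^ 2 ≤ 4 * T * c0 + 4 * c0 ^ 2 := by
      have h7 : T - c0 ≤ ‖ψ g‖ := hg.1
      by_cases h8 : 0 ≤ T - c0
      · have h9 : (T - c0) ^ 2 ≤ ‖ψ g‖ ^ 2 := pow_le_pow_left₀ h8 h7 2
        nlinarith
      · push Not at h8
        have h9 : 0 ≤ ‖ψ g‖ ^ 2 := sq_nonneg _
        nlinarith
    nlinarith
  set S0 : Set G := {g | g ∈ S ∧ ∀ k : ℕ, 1 ≤ k → g - k • u ∉ S} with hS0
  have hS0f : S0.Finite := hSf.subset fun g hg => hg.1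
  -- the points of the shell
  have claim2 : S.ncard ≤ S0.ncard * (K + 1) := by
    rw [Set.ncard_eq_toFinset_card S hSf, Set.ncard_eq_toFinset_card S0 hS0f]
    have h1 : hSf.toFinset ⊆ (hS0f.toFinset ×ˢ range (K + 1)).image
        (fun x : G × ℕ => x.1 + x.2 • u) := by
      intro g hg
      rw [Set.Finite.mem_toFinset] at hg
      rw [mem_image]
      set k := Nat.findGreatest (fun k => g - k • u ∈ S) K with hk
      have h2 : g - k • u ∈ S := Nat.findGreatest_spec (P := fun k => g - k • u ∈ S)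
        (Nat.zero_le K) (by simpa using hg)
      refine ⟨(g - k • u, k), ?_, by simp⟩
      rw [mem_product, Set.Finite.mem_toFinset, mem_range]
      refine ⟨⟨h2, fun k' hk' hcon => ?_⟩, Nat.lt_succ_of_le (Nat.findGreatest_le K)⟩
      have h3 : g - (k + k') • u ∈ S := by
        have h4 : g - (k + k') • u = g - k • u - k' • u := by
          rw [add_smul]
          abel
        rw [h4]
        exact hcon
      have h5 : k + k' ≤ K := claim1 _ h3 (k + k') (by simpa using hg)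
      have h6 : k < k + k' := by omega
      exact Nat.findGreatest_is_greatest (P := fun k => g - k • u ∈ S) h6 h5 h3
    refine (card_le_card h1).trans (card_image_le.trans ?_)
    rw [card_product, card_range]
  -- the number of the lines
  have claim3 : S0.ncard * (⌊T⌋₊ + 1) ≤ {g | ‖ψ g‖ ≤ c3 * T}.ncard := by
    have hf3 := hfin (c3 * T)
    rw [Set.ncard_eq_toFinset_card S0 hS0f, Set.ncard_eq_toFinset_card _ hf3]
    have h1 : hS0f.toFinset.card * (⌊T⌋₊ + 1) = (hS0f.toFinset ×ˢ range (⌊T⌋₊ + 1)).card := by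
      rw [card_product, card_range]
    rw [h1]
    refine card_le_card_of_injOn (fun x : G × ℕ => x.1 + x.2 • u) ?_ ?_
    · rintro ⟨g, t⟩ hx
      rw [mem_coe, mem_product, Set.Finite.mem_toFinset, mem_range] at hx
      rw [mem_coe, Set.Finite.mem_toFinset]
      change ‖ψ (g + t • u)‖ ≤ c3 * T
      obtain ⟨hg, ht⟩ := hx
      have h2 : ψ (g + t • u) = ψ g + (t : ℝ) • ψ u := by
        rw [map_add, map_nsmul, Nat.cast_smul_eq_nsmul]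
      rw [h2]
      refine (norm_add_le _ _).trans ?_
      rw [norm_smul, Real.norm_eq_abs, abs_of_nonneg (Nat.cast_nonneg t)]
      have h3 : ‖ψ g‖ ≤ T + c0 := hg.1.2.1
      have h4 : (t : ℝ) ≤ T := (Nat.cast_le.2 (Nat.lt_succ_iff.1 ht)).trans
        (Nat.floor_le hT0.le)
      have h5 : (t : ℝ) * w ≤ T * w := mul_le_mul_of_nonneg_right h4 hw.le
      have h6 : c0 ≤ c0 * T := by nlinarith
      rw [hc3]
      nlinarith
    · have key : ∀ g ∈ S0, ∀ g' ∈ S0, ∀ t t' : ℕ, t' < t → g + t • u = g' + t' • u → False := by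
        intro g hg g' hg' t t' htt h
        have h2 : g' - (t - t') • u = g := by
          have h3 : (t - t') • u = t • u - t' • u := by
            rw [eq_sub_iff_add_eq, ← add_smul, Nat.sub_add_cancel htt.le]
          rw [h3, sub_eq_iff_eq_add, eq_comm]
          have h4 : g' = g + t • u - t' • u := by rw [h, add_sub_cancel_right]
          rw [h4]
          abel
        exact hg'.2 (t - t') (by omega) (by rw [h2]; exact hg.1)
      rintro ⟨g, t⟩ hx ⟨g', t'⟩ hx' h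
      rw [mem_coe, mem_product, Set.Finite.mem_toFinset, mem_range] at hx hx'
      have h1 : g + t • u = g' + t' • u := h
      rcases lt_trichotomy t t' with h2 | h2 | h2
      · exact (key g' hx'.1 g hx.1 t' t h2 h1.symm).elim
      · subst h2
        rw [add_left_inj] at h1
        rw [h1]
      · exact (key g hx.1 g' hx'.1 t t' h2 h1).elim
  have hF3 := hF (c3 * T) (by nlinarith)
  have h1 : (S0.ncard : ℝ) * T ≤ c * (c3 * T) ^ ρ := by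
    refine le_trans ?_ hF3
    refine le_trans ?_ (Nat.cast_le.2 claim3)
    push_cast
    exact mul_le_mul_of_nonneg_left (Nat.lt_floor_add_one T).le (Nat.cast_nonneg _)
  have h2 : ((K : ℝ) + 1) ≤ c5 * √T := by
    have h3 : (K : ℝ) ≤ √(4 * T * c0 + 4 * c0 ^ 2) / w := Nat.floor_le (by positivity)
    have h4 : √(4 * T * c0 + 4 * c0 ^ 2) ≤ √(4 * c0 + 4 * c0 ^ 2) * √T := by
      rw [← Real.sqrt_mul (by positivity)]
      apply Real.sqrt_le_sqrt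
      nlinarith [sq_nonneg c0]
    have h5 : √(4 * T * c0 + 4 * c0 ^ 2) / w ≤ √(4 * c0 + 4 * c0 ^ 2) / w * √T := by
      rw [div_mul_eq_mul_div]
      exact div_le_div_of_nonneg_right h4 hw.le
    have h6 : (1 : ℝ) ≤ √T := by
      rw [Real.one_le_sqrt]
      linarith
    rw [hc5, add_mul, one_mul]
    linarith
  have h3 : (S.ncard : ℝ) ≤ (S0.ncard : ℝ) * ((K : ℝ) + 1) := by exact_mod_cast claim2
  have hsq : √T * √T = T := Real.mul_self_sqrt hT0.le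
  have hsq0 : 0 < √T := Real.sqrt_pos.2 hT0
  have h4 : (S.ncard : ℝ) * √T ≤ c5 * (c * c3 ^ ρ) * T ^ ρ := by
    calc (S.ncard : ℝ) * √T ≤ (S0.ncard : ℝ) * ((K : ℝ) + 1) * √T :=
          mul_le_mul_of_nonneg_right h3 hsq0.le
      _ ≤ (S0.ncard : ℝ) * (c5 * √T) * √T := by
          apply mul_le_mul_of_nonneg_right _ hsq0.le
          exact mul_le_mul_of_nonneg_left h2 (Nat.cast_nonneg _)
      _ = c5 * ((S0.ncard : ℝ) * (√T * √T)) := by ring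
      _ = c5 * ((S0.ncard : ℝ) * T) := by rw [hsq]
      _ ≤ c5 * (c * (c3 * T) ^ ρ) := mul_le_mul_of_nonneg_left h1 hc5pos
      _ = c5 * (c * c3 ^ ρ) * T ^ ρ := by
          rw [mul_pow]
          ring
  rw [← mul_div_assoc, le_div_iff₀ hsq0]
  exact h4

theorem shell (ψ : G →+ V) (u : G) (hu : ψ u ≠ 0)
    (hfin : ∀ T : ℝ, {g | ‖ψ g‖ ≤ T}.Finite) (ρ : ℕ) (c : ℝ) (hc : 0 ≤ c)
    (hF : ∀ T : ℝ, 2 ≤ T → ({g | ‖ψ g‖ ≤ T}.ncard : ℝ) ≤ c * T ^ ρ) (c0 : ℝ) (hc0 : 0 ≤ c0) :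
    ∃ C : ℝ, 0 ≤ C ∧ ∀ T : ℝ, 2 ≤ T →
      ({g | T - c0 ≤ ‖ψ g‖ ∧ ‖ψ g‖ ≤ T + c0}.ncard : ℝ) ≤ C * (T ^ ρ / √T) := by
  obtain ⟨C1, h1, h1'⟩ := shell_half ψ u hu hfin ρ c hc hF c0 hc0
  obtain ⟨C2, h2, h2'⟩ := shell_half ψ (-u) (by rw [map_neg]; exact neg_ne_zero.2 hu) hfin ρ c hc
    hF c0 hc0
  refine ⟨C1 + C2, by linarith, fun T hT => ?_⟩
  have h3 : {g | T - c0 ≤ ‖ψ g‖ ∧ ‖ψ g‖ ≤ T + c0} ⊆
      {g | T - c0 ≤ ‖ψ g‖ ∧ ‖ψ g‖ ≤ T + c0 ∧ 0 ≤ inner ℝ (ψ g) (ψ u)} ∪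
      {g | T - c0 ≤ ‖ψ g‖ ∧ ‖ψ g‖ ≤ T + c0 ∧ 0 ≤ inner ℝ (ψ g) (ψ (-u))} := by
    rintro g ⟨k1, k2⟩
    rcases le_total 0 (inner ℝ (ψ g) (ψ u)) with h | h
    · exact Or.inl ⟨k1, k2, h⟩
    · refine Or.inr ⟨k1, k2, ?_⟩
      rw [map_neg, inner_neg_right]
      linarith
  have hf : ({g | T - c0 ≤ ‖ψ g‖ ∧ ‖ψ g‖ ≤ T + c0 ∧ 0 ≤ inner ℝ (ψ g) (ψ u)} ∪
      {g | T - c0 ≤ ‖ψ g‖ ∧ ‖ψ g‖ ≤ T + c0 ∧ 0 ≤ inner ℝ (ψ g) (ψ (-u))}).Finite :=
    ((hfin (T + c0)).subset fun g hg => hg.2.1).union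
      ((hfin (T + c0)).subset fun g hg => hg.2.1)
  have h4 := (Set.ncard_le_ncard h3 hf).trans (Set.ncard_union_le _ _)
  have h5 : ({g | T - c0 ≤ ‖ψ g‖ ∧ ‖ψ g‖ ≤ T + c0}.ncard : ℝ) ≤ _ := Nat.cast_le.2 h4
  refine h5.trans ?_
  push_cast
  have h6 := h1' T hT
  have h7 := h2' T hT
  linarith

end

end Pool.Agent.J4H11.GQ
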