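import Pool.Agent.J4H11.GQ.M6

/-!
# The structure theorem
-/

set_option autoImplicit false
set_option linter.unusedSectionVars false

open Finset Module Pool.Agent.J4H11.RC Pool.Agent.J4H11.SC Pool.Agent.H901R3.MS
  WeierstrassCurve Pool.Agent.J4H11.GN Pool.Agent.J4H11.GP

namespace Pool.Agent.J4H11.GQ

section
variable {r s : ℕ}

theorem str_all (hr : 1 ≤ r) (a b : Fin r → ℤ) (hDQ : ∀ j, Disc (a j : ℚ) (b j : ℚ))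
    (hrk : ∀ j, 3 ≤ finrank ℤ (Pt (a j : ℚ) (b j : ℚ)))
    (P : (j : Fin r) → Pt (a j : ℂ) (b j : ℂ))
    (hind : AlgebraicIndependent ℚ (fun j => (crd (P j)).1))
    (𝒢 : Set (MvPolynomial (Fin s) (MvPolynomial (Fin r × Fin 2) ℤ)))
    (hF : {ζ : Fin s → ℂ | ∀ G ∈ 𝒢, MvPolynomial.eval₂ (evf P) ζ G = 0}.Finite)
    (K : IntermediateField ℚ ℂ) [FiniteDimensional ℚ K] (d : ℕ) (hd : 1 ≤ d) :
    ∃ N : ℕ, 1 ≤ N ∧ BallG (a := a) (b := b)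
      (fun Q => (∀ j, Q j ≠ 0) → ¬ ((∃ z : Fin s → ℂ, (∀ G ∈ 𝒢,
        MvPolynomial.eval₂ ((algebraMap ℚ ℂ).comp (evf Q)) z G = 0) ∧ SD K.toSubfield z d) ↔
          GoodZ P 𝒢 (fun F ζ => SD (K.toSubfield ⊔ F) ζ d) N Q)) ∧
    ((∃ n : ℕ, 1 ≤ n ∧ ∃ R S : (j : Fin r) → Pt (a j : ℂ) (b j : ℂ),
      (∀ j, n • R j + S j = P j) ∧ (∀ j, IsRatP (S j)) ∧ ∃ ζ : Fin s → ℂ,
      (∀ G ∈ 𝒢, MvPolynomial.eval₂ (evf P) ζ G = 0) ∧ SD (K.toSubfield ⊔ fld R) ζ d) →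
      ∃ Q, GoodZ P 𝒢 (fun F ζ => SD (K.toSubfield ⊔ F) ζ d) N Q) := by
  obtain ⟨N, hN, h⟩ := str_K hr a b hDQ hrk P hind 𝒢 hF K d
  have hB := h N hN dvd_rfl
  refine ⟨N, hN, hB, fun hdom => ?_⟩
  by_contra hno
  push Not at hno
  obtain ⟨κ, hκ, T0, hT⟩ := (dich_K hr a b hDQ hrk P hind 𝒢 hF K d hd).2 hdom
  obtain ⟨γ, hγ, hB1⟩ := hB
  obtain ⟨C, hC, hB2⟩ := hB1 γ hγ le_rfl
  obtain ⟨T1, hT1⟩ := log_small C γ (κ / 2) hγ (by linarith)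
  set T : ℝ := max 2 (max T0 T1) with hTdef
  have t2 : (2 : ℝ) ≤ T := le_max_left _ _
  have t0 : T0 ≤ T := (le_max_left _ _).trans (le_max_right _ _)
  have t1 : T1 ≤ T := (le_max_right _ _).trans (le_max_right _ _)
  obtain ⟨hf1, hf2⟩ := hB2 T t2 (fun _ => 0)
  have h1 := hT T t0
  have h2 := hT1 T t1
  have hsub : {Q : (j : Fin r) → Pt (a j : ℚ) (b j : ℚ) | (∀ j, hx (Q j) ≤ T ^ 2) ∧
          ((∀ j, Q j ≠ 0) ∧ ∃ z : Fin s → ℂ, (∀ G ∈ 𝒢,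
            MvPolynomial.eval₂ ((algebraMap ℚ ℂ).comp (evf Q)) z G = 0) ∧
            SD K.toSubfield z d)} ⊆ {Q : (j : Fin r) → Pt (a j : ℚ) (b j : ℚ) |
      (∀ j, hx (Q j - (fun _ => 0 : (j : Fin r) → Pt (a j : ℚ) (b j : ℚ)) j) ≤ T ^ 2) ∧
      ((∀ j, Q j ≠ 0) → ¬ ((∃ z : Fin s → ℂ, (∀ G ∈ 𝒢,
        MvPolynomial.eval₂ ((algebraMap ℚ ℂ).comp (evf Q)) z G = 0) ∧ SD K.toSubfield z d) ↔
          GoodZ P 𝒢 (fun F ζ => SD (K.toSubfield ⊔ F) ζ d) N Q))} := by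
    rintro Q ⟨hQ1, hQ2, hQ3⟩
    refine ⟨fun j => ?_, fun _ hiff => hno Q (hiff.1 hQ3)⟩
    rw [sub_zero]
    exact hQ1 j
  have h3 := Set.ncard_le_ncard hsub hf1
  have h4 : (({Q : (j : Fin r) → Pt (a j : ℚ) (b j : ℚ) | (∀ j, hx (Q j) ≤ T ^ 2) ∧
          ((∀ j, Q j ≠ 0) ∧ ∃ z : Fin s → ℂ, (∀ G ∈ 𝒢,
            MvPolynomial.eval₂ ((algebraMap ℚ ℂ).comp (evf Q)) z G = 0) ∧
            SD K.toSubfield z d)}.ncard : ℕ) : ℝ) ≤ _ := Nat.cast_le.2 h3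
  have h5 := h1.trans (h4.trans hf2)
  have hTρ : 0 < T ^ (∑ j, finrank ℤ (Pt (a j : ℚ) (b j : ℚ))) := pow_pos (by linarith) _
  have h6 : C * T ^ (∑ j, finrank ℤ (Pt (a j : ℚ) (b j : ℚ))) * Real.log T ^ (-γ) ≤
      κ / 2 * T ^ (∑ j, finrank ℤ (Pt (a j : ℚ) (b j : ℚ))) := by
    calc C * T ^ (∑ j, finrank ℤ (Pt (a j : ℚ) (b j : ℚ))) * Real.log T ^ (-γ)
        = C * Real.log T ^ (-γ) * T ^ (∑ j, finrank ℤ (Pt (a j : ℚ) (b j : ℚ))) := by ring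
      _ ≤ _ := mul_le_mul_of_nonneg_right h2 hTρ.le
  have h7 := h5.trans h6
  nlinarith

end

end Pool.Agent.J4H11.GQ
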