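import Pool.Agent.J4H11.GQ.L1
import Pool.Agent.J4H11.GQ.M7

/-!
# Translations of the balls
-/

set_option autoImplicit false
set_option linter.unusedSectionVars false

open Finset Module Pool.Agent.J4H11.RC Pool.Agent.J4H11.SC Pool.Agent.H901R3.MS
  WeierstrassCurve Pool.Agent.J4H11.GN Pool.Agent.J4H11.GP

namespace Pool.Agent.J4H11.GQ

theorem up_one (a b : ℤ) (hD : Disc (a : ℚ) (b : ℚ)) : ∃ C : ℝ, 0 ≤ C ∧ ∀ T : ℝ, 2 ≤ T →
    ({P : Pt (a : ℚ) (b : ℚ) | hx P ≤ T ^ 2}.ncard : ℝ) ≤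
      C * T ^ (finrank ℤ (Pt (a : ℚ) (b : ℚ))) := by
  obtain ⟨C, hC, h⟩ := up_all (r := 1) (a := fun _ => a) (b := fun _ => b) (fun _ => hD)
  refine ⟨C, hC, fun T hT => ?_⟩
  have h1 := h T hT
  rw [Fin.sum_univ_one] at h1
  refine le_trans (Nat.cast_le.2 ?_) h1
  have hf : {P : Fin 1 → Pt (a : ℚ) (b : ℚ) | ∀ j, hx (P j) ≤ T ^ 2}.Finite := by
    have h2 := northcott (a : ℚ) (b : ℚ) (T ^ 2)
    refine (Set.Finite.pi' (fun _ : Fin 1 => h2)).subset fun P hP j => hP j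
  refine Set.ncard_le_ncard_of_injOn (fun P _ => P) (fun P hP j => hP) ?_ hf
  intro P _ P' _ h
  exact congrFun h 0

theorem shift_one (a b : ℤ) (hD : Disc (a : ℚ) (b : ℚ))
    (hrk : 1 ≤ finrank ℤ (Pt (a : ℚ) (b : ℚ))) (v : Pt (a : ℚ) (b : ℚ)) :
    ∃ C : ℝ, 0 ≤ C ∧ ∀ T : ℝ, 2 ≤ T →
      ({P : Pt (a : ℚ) (b : ℚ) | hx P ≤ T ^ 2 ∧ T ^ 2 < hx (P + v)}.ncard : ℝ) ≤
        C * (T ^ (finrank ℤ (Pt (a : ℚ) (b : ℚ))) / √T) := by
  obtain ⟨m, ψ, C, hC0, hC⟩ := embE a b hD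
  obtain ⟨D, hD0, hup⟩ := up_one a b hD
  have hfin : ∀ T : ℝ, {g | ‖ψ g‖ ≤ T}.Finite := by
    intro T
    refine (northcott (a : ℚ) (b : ℚ) (T ^ 2 + C)).subset fun g hg => ?_
    have h1 := (abs_le.1 (hC g)).1
    have h2 : ‖ψ g‖ ^ 2 ≤ T ^ 2 := pow_le_pow_left₀ (norm_nonneg _) hg 2
    change hx g ≤ T ^ 2 + C
    linarith
  obtain ⟨f, hf⟩ := exists_linearIndependent_of_le_finrank hrk
  have hu : ψ (f 0) ≠ 0 := by
    intro h0
    have hinj : Function.Injective (fun k : ℤ => k • f 0) := by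
      intro k k' h
      have h1 : (k - k') • f 0 = 0 := by
        rw [sub_smul, sub_eq_zero]
        exact h
      rw [linearIndependent_iff'] at hf
      have h2 := hf univ (fun _ => k - k') (by
        rw [Fin.sum_univ_one]
        exact h1) 0 (mem_univ _)
      exact sub_eq_zero.1 h2
    have h1 : (Set.range (fun k : ℤ => k • f 0)).Finite := by
      refine (hfin 0).subset ?_
      rintro _ ⟨k, rfl⟩
      change ‖ψ (k • f 0)‖ ≤ 0
      rw [map_zsmul, h0, smul_zero, norm_zero]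
    exact Set.infinite_range_of_injective hinj h1
  have hF : ∀ T : ℝ, 2 ≤ T → ({g | ‖ψ g‖ ≤ T}.ncard : ℝ) ≤
      (D * (1 + C) ^ (finrank ℤ (Pt (a : ℚ) (b : ℚ)))) *
        T ^ (finrank ℤ (Pt (a : ℚ) (b : ℚ))) := by
    intro T hT
    have h1 := hup ((1 + C) * T) (by nlinarith)
    rw [mul_pow (1 + C) T (finrank ℤ (Pt (a : ℚ) (b : ℚ))), ← mul_assoc] at h1
    refine le_trans (Nat.cast_le.2 (Set.ncard_le_ncard (fun g hg => ?_) (northcott _ _ _))) h1
    have h2 := (abs_le.1 (hC g)).1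
    have h3 : ‖ψ g‖ ^ 2 ≤ T ^ 2 := pow_le_pow_left₀ (norm_nonneg _) hg 2
    change hx g ≤ ((1 + C) * T) ^ 2
    have hT2 : 1 ≤ T ^ 2 := by nlinarith
    have h5 : C ≤ C * T ^ 2 := le_mul_of_one_le_right hC0 hT2
    have h6 : ((1 + C) * T) ^ 2 = T ^ 2 + 2 * (C * T ^ 2) + C ^ 2 * T ^ 2 := by ring
    have h7 : 0 ≤ C ^ 2 * T ^ 2 := by positivity
    linarith
  obtain ⟨C', hC', hsh⟩ := shell ψ (f 0) hu hfin _ _ (by positivity) hF (C + ‖ψ v‖) (by positivity)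
  refine ⟨C', hC', fun T hT => ?_⟩
  refine le_trans (Nat.cast_le.2 (Set.ncard_le_ncard (fun g hg => ?_)
    ((hfin (T + (C + ‖ψ v‖))).subset fun g hg => hg.2))) (hsh T hT)
  obtain ⟨h1, h2⟩ := hg
  have h3 := abs_le.1 (hC g)
  have h4 := abs_le.1 (hC (g + v))
  have hv : 0 ≤ ‖ψ v‖ := norm_nonneg _
  constructor
  · have h5 : ‖ψ (g + v)‖ ≤ ‖ψ g‖ + ‖ψ v‖ := by
      rw [map_add]
      exact norm_add_le _ _
    have h6 : T - C ≤ ‖ψ (g + v)‖ := by
      by_contra hcon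
      push Not at hcon
      have h7 : ‖ψ (g + v)‖ ^ 2 ≤ (T - C) ^ 2 := pow_le_pow_left₀ (norm_nonneg _) hcon.le 2
      have h8 : 0 < T - C := lt_of_le_of_lt (norm_nonneg _) hcon
      nlinarith
    linarith
  · have h5 : ‖ψ g‖ ≤ T + C := by
      by_contra hcon
      push Not at hcon
      have h7 : (T + C) ^ 2 ≤ ‖ψ g‖ ^ 2 := pow_le_pow_left₀ (by linarith) hcon.le 2
      have h8 : (T + C) ^ 2 < ‖ψ g‖ ^ 2 := by
        apply pow_lt_pow_left₀ hcon (by linarith)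
        norm_num
      nlinarith
    linarith

section
variable {r : ℕ} {a b : Fin r → ℤ}

theorem shift_all (hD : ∀ j, Disc (a j : ℚ) (b j : ℚ))
    (hrk : ∀ j, 1 ≤ finrank ℤ (Pt (a j : ℚ) (b j : ℚ)))
    (v : (j : Fin r) → Pt (a j : ℚ) (b j : ℚ)) :
    ∃ C : ℝ, 0 ≤ C ∧ ∀ T : ℝ, 2 ≤ T →
      ({P : (j : Fin r) → Pt (a j : ℚ) (b j : ℚ) | (∀ j, hx (P j) ≤ T ^ 2) ∧
        ¬ ∀ j, hx (P j + v j) ≤ T ^ 2}.ncard : ℝ) ≤
        C * (T ^ (∑ j, finrank ℤ (Pt (a j : ℚ) (b j : ℚ))) / √T) := by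
  classical
  choose C1 hC1 h1 using fun j => up_one (a j) (b j) (hD j)
  choose C2 hC2 h2 using fun j => shift_one (a j) (b j) (hD j) (hrk j) (v j)
  set D : Fin r → ℝ := fun j => C1 j + C2 j with hDdef
  have hD0 : ∀ j, 0 ≤ D j := fun j => add_nonneg (hC1 j) (hC2 j)
  refine ⟨∑ _i : Fin r, ∏ j, D j, sum_nonneg fun _ _ => prod_nonneg fun j _ => hD0 j,
    fun T hT => ?_⟩
  have hT0 : 0 < T := by linarith
  have hB : ∀ j, {P : Pt (a j : ℚ) (b j : ℚ) | hx P ≤ T ^ 2}.Finite := fun j => northcott _ _ _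
  have hS : ∀ j, {P : Pt (a j : ℚ) (b j : ℚ) | hx P ≤ T ^ 2 ∧ T ^ 2 < hx (P + v j)}.Finite :=
    fun j => (hB j).subset fun P hP => hP.1
  let F : Fin r → Finset ((j : Fin r) → Pt (a j : ℚ) (b j : ℚ)) := fun i =>
    Fintype.piFinset (fun j => if j = i then (hS j).toFinset else (hB j).toFinset)
  have hsub : {P : (j : Fin r) → Pt (a j : ℚ) (b j : ℚ) | (∀ j, hx (P j) ≤ T ^ 2) ∧
        ¬ ∀ j, hx (P j + v j) ≤ T ^ 2} ⊆ ((univ.biUnion F : Finset _) :
          Set ((j : Fin r) → Pt (a j : ℚ) (b j : ℚ))) := by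
    rintro P ⟨k1, k2⟩
    push Not at k2
    obtain ⟨i, hi⟩ := k2
    rw [mem_coe, mem_biUnion]
    refine ⟨i, mem_univ i, ?_⟩
    rw [Fintype.mem_piFinset]
    intro j
    by_cases h : j = i
    · subst h
      rw [if_pos rfl, Set.Finite.mem_toFinset]
      exact ⟨k1 j, hi⟩
    · rw [if_neg h, Set.Finite.mem_toFinset]
      exact k1 j
  have h3 := Set.ncard_le_ncard hsub (finite_toSet _)
  rw [Set.ncard_coe_finset] at h3
  have h4 : (((univ.biUnion F).card : ℕ) : ℝ) ≤ ∑ i, ((F i).card : ℝ) := by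
    exact_mod_cast card_biUnion_le
  refine (Nat.cast_le.2 h3).trans (h4.trans ?_)
  rw [sum_mul]
  refine sum_le_sum fun i _ => ?_
  have h5 : ((F i).card : ℝ) ≤ ∏ j, (D j * T ^ (finrank ℤ (Pt (a j : ℚ) (b j : ℚ))) *
      (if j = i then 1 / √T else 1)) := by
    change (((Fintype.piFinset (fun j => if j = i then (hS j).toFinset else
      (hB j).toFinset)).card : ℕ) : ℝ) ≤ _
    rw [Fintype.card_piFinset]
    push_cast
    refine prod_le_prod (fun j _ => Nat.cast_nonneg _) fun j _ => ?_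
    by_cases h : j = i
    · rw [if_pos h, if_pos h]
      have h6 := h2 j T hT
      rw [Set.ncard_eq_toFinset_card _ (hS j)] at h6
      refine h6.trans ?_
      have h7 : 0 ≤ T ^ (finrank ℤ (Pt (a j : ℚ) (b j : ℚ))) / √T := by positivity
      calc C2 j * (T ^ (finrank ℤ (Pt (a j : ℚ) (b j : ℚ))) / √T)
          ≤ D j * (T ^ (finrank ℤ (Pt (a j : ℚ) (b j : ℚ))) / √T) := by
            apply mul_le_mul_of_nonneg_right _ h7
            rw [hDdef]
            have := hC1 j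
            simp only
            linarith
        _ = _ := by ring
    · rw [if_neg h, if_neg h, mul_one]
      have h6 := h1 j T hT
      rw [Set.ncard_eq_toFinset_card _ (hB j)] at h6
      refine h6.trans ?_
      apply mul_le_mul_of_nonneg_right _ (by positivity)
      rw [hDdef]
      have := hC2 j
      simp only
      linarith
  refine h5.trans (le_of_eq ?_)
  rw [prod_mul_distrib, prod_mul_distrib, prod_pow_eq_pow_sum, prod_ite_eq' univ i,
    if_pos (mem_univ i)]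
  ring

end

end Pool.Agent.J4H11.GQ
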