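import Mathlib

/-!
# The average over a system of representatives of a subgroup of finite index
-/

set_option autoImplicit false
set_option linter.unusedSectionVars false

open Finset

namespace Pool.Agent.J4H11.GQ

open Classical in
theorem avg_cosets {A : Type} [AddCommGroup A] (H : AddSubgroup A) [Finite (A ⧸ H)]
    (Gd : Set A) (hG : ∀ x ∈ Gd, ∀ h ∈ H, x + h ∈ Gd) :
    ∃ g : ℕ, g ≤ Nat.card (A ⧸ H) ∧ (g = 0 ↔ Gd = ∅) ∧ ∀ (B : Finset A) (κ : ℝ),
      (∀ q : A ⧸ H, ((B.filter (fun x => x + q.out ∉ B)).card : ℝ) ≤ κ ∧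
        ((B.filter (fun x => x - q.out ∉ B)).card : ℝ) ≤ κ) →
      |(Nat.card (A ⧸ H) : ℝ) * ((B.filter (fun x => x ∈ Gd)).card : ℝ) - g * (B.card : ℝ)| ≤
        (Nat.card (A ⧸ H) : ℝ) * κ := by
  have : Fintype (A ⧸ H) := Fintype.ofFinite _
  have hper : ∀ x y : A, (x : A ⧸ H) = (y : A ⧸ H) → x ∈ Gd → y ∈ Gd := by
    intro x y h hx
    have h1 := QuotientAddGroup.eq.1 h
    have h2 := hG x hx _ h1
    rwa [add_neg_cancel_left] at h2
  have hout : ∀ q : A ⧸ H, ((q.out : A) : A ⧸ H) = q := fun q => Quotient.out_eq q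
  set Gb : Finset (A ⧸ H) := univ.filter (fun q => q.out ∈ Gd) with hGb
  have hmem : ∀ x : A, x ∈ Gd ↔ (x : A ⧸ H) ∈ Gb := by
    intro x
    rw [hGb, mem_filter]
    constructor
    · exact fun h => ⟨mem_univ _, hper _ _ (hout _).symm h⟩
    · exact fun h => hper _ _ (hout _) h.2
  refine ⟨Gb.card, ?_, ?_, fun B κ hκ => ?_⟩
  · rw [Nat.card_eq_fintype_card]
    exact card_le_univ _
  · rw [card_eq_zero]
    constructor
    · intro h
      rw [Set.eq_empty_iff_forall_notMem]
      intro x hx
      have h1 := (hmem x).1 hx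
      rw [h] at h1
      exact notMem_empty _ h1
    · intro h
      rw [eq_empty_iff_forall_notMem]
      intro q hq
      have h1 := (mem_filter.1 hq).2
      rw [h] at h1
      exact h1
  · set n := (B.filter (fun x => x ∈ Gd)).card with hn
    set nq : A ⧸ H → ℕ := fun q => (B.filter (fun x => x + q.out ∈ Gd)).card with hnq
    have hsum : ∑ q, nq q = Gb.card * B.card := by
      rw [hnq]
      simp only [card_filter]
      rw [sum_comm]
      have h1 : ∀ x ∈ B, ∑ q : A ⧸ H, (if x + q.out ∈ Gd then 1 else 0) = Gb.card := by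
        intro x _
        rw [← card_filter]
        refine card_bij (fun q _ => (x : A ⧸ H) + q) ?_ ?_ ?_
        · intro q hq
          have h2 := (hmem _).1 (mem_filter.1 hq).2
          rw [QuotientAddGroup.mk_add, hout] at h2
          exact h2
        · intro q _ q' _ h
          exact add_left_cancel h
        · intro q hq
          refine ⟨-(x : A ⧸ H) + q, ?_, add_neg_cancel_left _ _⟩
          rw [mem_filter]
          refine ⟨mem_univ _, ?_⟩
          rw [hmem, QuotientAddGroup.mk_add, hout, add_neg_cancel_left]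
          exact hq
      rw [sum_congr rfl h1, sum_const, smul_eq_mul, mul_comm]
    have hdiff : ∀ q, |(n : ℝ) - nq q| ≤ κ := by
      intro q
      obtain ⟨k1, k2⟩ := hκ q
      have h1 : nq q ≤ n + (B.filter (fun x => x + q.out ∉ B)).card := by
        have h2 : B.filter (fun x => x + q.out ∈ Gd) ⊆
            (B.filter (fun x => x + q.out ∈ Gd ∧ x + q.out ∈ B)) ∪
              B.filter (fun x => x + q.out ∉ B) := by
          intro x hx
          rw [mem_filter] at hx
          rw [mem_union, mem_filter, mem_filter]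
          by_cases h : x + q.out ∈ B
          · exact Or.inl ⟨hx.1, hx.2, h⟩
          · exact Or.inr ⟨hx.1, h⟩
        refine (card_le_card h2).trans ((card_union_le _ _).trans ?_)
        apply Nat.add_le_add_right
        refine card_le_card_of_injOn (fun x => x + q.out) ?_ (fun x _ y _ h => add_right_cancel h)
        intro x hx
        rw [mem_coe, mem_filter] at hx
        rw [mem_coe, mem_filter]
        exact ⟨hx.2.2, hx.2.1⟩
      have h2 : n ≤ nq q + (B.filter (fun x => x - q.out ∉ B)).card := by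
        have h2 : B.filter (fun x => x ∈ Gd) ⊆
            (B.filter (fun x => x ∈ Gd ∧ x - q.out ∈ B)) ∪
              B.filter (fun x => x - q.out ∉ B) := by
          intro x hx
          rw [mem_filter] at hx
          rw [mem_union, mem_filter, mem_filter]
          by_cases h : x - q.out ∈ B
          · exact Or.inl ⟨hx.1, hx.2, h⟩
          · exact Or.inr ⟨hx.1, h⟩
        refine (card_le_card h2).trans ((card_union_le _ _).trans ?_)
        apply Nat.add_le_add_right
        refine card_le_card_of_injOn (fun x => x - q.out) ?_ (fun x _ y _ h => sub_left_injective h)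
        intro x hx
        rw [mem_coe, mem_filter] at hx
        rw [mem_coe, mem_filter]
        beta_reduce
        rw [sub_add_cancel]
        exact ⟨hx.2.2, hx.2.1⟩
      have h3 : (nq q : ℝ) ≤ n + (B.filter (fun x => x + q.out ∉ B)).card := by exact_mod_cast h1
      have h4 : (n : ℝ) ≤ nq q + (B.filter (fun x => x - q.out ∉ B)).card := by exact_mod_cast h2
      rw [abs_le]
      constructor <;> linarith
    have h1 : (Nat.card (A ⧸ H) : ℝ) * (n : ℝ) - (Gb.card : ℝ) * (B.card : ℝ) =
        ∑ q, ((n : ℝ) - nq q) := by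
      rw [sum_sub_distrib, sum_const, card_univ, nsmul_eq_mul, Nat.card_eq_fintype_card]
      have h2 : (∑ q, (nq q : ℝ)) = (Gb.card : ℝ) * (B.card : ℝ) := by exact_mod_cast hsum
      rw [h2]
    rw [h1]
    refine (abs_sum_le_sum_abs _ _).trans ((sum_le_sum fun q _ => hdiff q).trans (le_of_eq ?_))
    rw [sum_const, card_univ, nsmul_eq_mul, Nat.card_eq_fintype_card]

open Classical in
theorem avg_set {A : Type} [AddCommGroup A] (H : AddSubgroup A) [Finite (A ⧸ H)]
    (Gd : Set A) (hG : ∀ x ∈ Gd, ∀ h ∈ H, x + h ∈ Gd) :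
    ∃ g : ℕ, g ≤ Nat.card (A ⧸ H) ∧ (g = 0 ↔ Gd = ∅) ∧ ∀ (B : Set A), B.Finite → ∀ (κ : ℝ),
      (∀ q : A ⧸ H, ({x | x ∈ B ∧ x + q.out ∉ B}.ncard : ℝ) ≤ κ ∧
        ({x | x ∈ B ∧ x + -q.out ∉ B}.ncard : ℝ) ≤ κ) →
      |(Nat.card (A ⧸ H) : ℝ) * ({x | x ∈ B ∧ x ∈ Gd}.ncard : ℝ) - g * (B.ncard : ℝ)| ≤
        (Nat.card (A ⧸ H) : ℝ) * κ := by
  obtain ⟨g, h1, h2, h3⟩ := avg_cosets H Gd hG
  refine ⟨g, h1, h2, fun B hB κ hκ => ?_⟩
  have hc : ∀ (P : A → Prop) (i : DecidablePred P),
      (@Finset.filter A P i hB.toFinset).card = {x | x ∈ B ∧ P x}.ncard := by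
    intro P i
    rw [← Set.ncard_coe_finset]
    congr 1
    ext x
    simp
  have h4 := h3 hB.toFinset κ (fun q => by
    obtain ⟨k1, k2⟩ := hκ q
    rw [hc, hc]
    simp only [Set.Finite.mem_toFinset, sub_eq_add_neg]
    exact ⟨k1, k2⟩)
  rw [hc] at h4
  rw [Set.ncard_eq_toFinset_card B hB]
  exact h4

end Pool.Agent.J4H11.GQ
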