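import Pool.Agent.J4H11.GQ.L2
import Pool.Agent.J4H11.GQ.L3

/-!
# The density of a union of cosets
-/

set_option autoImplicit false
set_option linter.unusedSectionVars false

open Finset Module Pool.Agent.J4H11.RC Pool.Agent.J4H11.SC Pool.Agent.H901R3.MS
  WeierstrassCurve Pool.Agent.J4H11.GN Pool.Agent.J4H11.GP

namespace Pool.Agent.J4H11.GQ

/-- the rational points of the product -/
abbrev AQ {r : ℕ} (a b : Fin r → ℤ) : Type := (j : Fin r) → Pt (a j : ℚ) (b j : ℚ)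

section
variable {r : ℕ} {a b : Fin r → ℤ}

theorem dens_periodic (hD : ∀ j, Disc (a j : ℚ) (b j : ℚ))
    (hrk : ∀ j, 1 ≤ finrank ℤ (Pt (a j : ℚ) (b j : ℚ))) (N : ℕ) (hN : 1 ≤ N)
    (Gd : Set ((j : Fin r) → Pt (a j : ℚ) (b j : ℚ)))
    (hG : ∀ Q Q' : (j : Fin r) → Pt (a j : ℚ) (b j : ℚ), Q ∈ Gd →
      (fun j => N • Q' j + Q j) ∈ Gd) :
    ∃ δ : ℚ, 0 ≤ δ ∧ δ ≤ 1 ∧ (δ = 0 ↔ Gd = ∅) ∧ ∃ C : ℝ, 0 ≤ C ∧ ∀ T : ℝ, 2 ≤ T →
      |(({Q : (j : Fin r) → Pt (a j : ℚ) (b j : ℚ) | (∀ j, hx (Q j) ≤ T ^ 2) ∧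
          Q ∈ Gd}.ncard : ℕ) : ℝ) - (δ : ℝ) * (({Q : (j : Fin r) → Pt (a j : ℚ) (b j : ℚ) |
          ∀ j, hx (Q j) ≤ T ^ 2}.ncard : ℕ) : ℝ)| ≤
        C * (T ^ (∑ j, finrank ℤ (Pt (a j : ℚ) (b j : ℚ))) / √T) := by
  classical
  set H : AddSubgroup (AQ a b) := (nsmulAddMonoidHom (α := AQ a b) N).range with hH
  have hq : ∀ j : Fin r, ∃ 𝒯 : Set (Pt (a j : ℚ) (b j : ℚ)), 𝒯.Finite ∧
      ∀ Q, ∃ R0 ∈ 𝒯, ∃ Q', N • Q' + R0 = Q := fun j => finite_quot (a j) (b j) (hD j) N hN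
  choose 𝒯 h𝒯f h𝒯 using hq
  have hTf : (Set.pi Set.univ 𝒯).Finite := (Set.Finite.pi' h𝒯f).subset (by
    intro x hx j
    exact hx j (Set.mem_univ j))
  have hfin : Finite (AQ a b ⧸ H) := by
    have h1 : Finite (Set.pi Set.univ 𝒯 : Set (AQ a b)) := hTf
    refine Finite.of_surjective (fun x : (Set.pi Set.univ 𝒯 : Set (AQ a b)) => ((x : AQ a b) : AQ a b ⧸ H)) ?_
    intro q
    obtain ⟨Q, rfl⟩ := QuotientAddGroup.mk_surjective q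
    have h4 : ∀ j : Fin r, ∃ R0 ∈ 𝒯 j, ∃ Q', N • Q' + R0 = Q j := fun j => h𝒯 j (Q j)
    choose R0 hR0 Q' hQ' using h4
    refine ⟨⟨R0, fun j _ => hR0 j⟩, ?_⟩
    change ((R0 : AQ a b) : AQ a b ⧸ H) = (Q : AQ a b ⧸ H)
    rw [QuotientAddGroup.eq]
    refine ⟨Q', ?_⟩
    funext j
    change N • Q' j = - R0 j + Q j
    rw [← hQ' j]
    abel
  obtain ⟨g, hg1, hg2, hg3⟩ := avg_set H Gd (by
    rintro x hx h ⟨Q', rfl⟩
    have h1 := hG x Q' hx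
    have h2 : (fun j => N • Q' j + x j) = x + (nsmulAddMonoidHom (α := AQ a b) N) Q' := by
      funext j
      change N • Q' j + x j = x j + N • Q' j
      exact add_comm _ _
    rw [← h2]
    exact h1)
  obtain ⟨M, hM⟩ : ∃ M : ℕ, M = Nat.card (AQ a b ⧸ H) := ⟨_, rfl⟩
  rw [← hM] at hg1 hg3
  have hMpos : 0 < M := by
    rw [hM]
    exact Nat.card_pos
  have hM0 : (0 : ℝ) < M := Nat.cast_pos.2 hMpos
  choose C1 hC1 h1 using fun v : AQ a b => shift_all hD hrk v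
  have : Fintype (AQ a b ⧸ H) := Fintype.ofFinite _
  obtain ⟨C, hCdef⟩ : ∃ C : ℝ, C = ∑ q : AQ a b ⧸ H, (C1 q.out + C1 (-q.out)) := ⟨_, rfl⟩
  have hC0 : 0 ≤ C := by
    rw [hCdef]
    exact sum_nonneg fun q _ => add_nonneg (hC1 _) (hC1 _)
  have hle : ∀ q : AQ a b ⧸ H, C1 q.out ≤ C ∧ C1 (-q.out) ≤ C := by
    intro q
    have h2 : C1 q.out + C1 (-q.out) ≤ C := by
      rw [hCdef]
      exact single_le_sum (f := fun q : AQ a b ⧸ H => C1 q.out + C1 (-q.out))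
        (fun q _ => add_nonneg (hC1 _) (hC1 _)) (mem_univ q)
    have h3 := hC1 q.out
    have h4 := hC1 (-q.out)
    constructor <;> linarith
  refine ⟨(g : ℚ) / M, by positivity, ?_, ?_, C, hC0, fun T hT => ?_⟩
  · rw [div_le_one (by exact_mod_cast hMpos)]
    exact_mod_cast hg1
  · rw [div_eq_zero_iff]
    constructor
    · rintro (h | h)
      · exact hg2.1 (by exact_mod_cast h)
      · have h2 : M = 0 := by exact_mod_cast h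
        omega
    · intro h
      left
      rw [hg2.2 h]
      simp
  · have hB : {Q : AQ a b | ∀ j, hx (Q j) ≤ T ^ 2}.Finite := by
      refine (Set.Finite.pi' (fun j : Fin r => northcott (a j : ℚ) (b j : ℚ) (T ^ 2))).subset
        fun P hP j => hP j
    have hTT : 0 ≤ T ^ (∑ j, finrank ℤ (Pt (a j : ℚ) (b j : ℚ))) / √T := by
      have : 0 ≤ T := by linarith
      positivity
    have h5 := hg3 {Q : AQ a b | ∀ j, hx (Q j) ≤ T ^ 2} hB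
      (C * (T ^ (∑ j, finrank ℤ (Pt (a j : ℚ) (b j : ℚ))) / √T)) (fun q =>
        ⟨(h1 q.out T hT).trans (mul_le_mul_of_nonneg_right (hle q).1 hTT),
          (h1 (-q.out) T hT).trans (mul_le_mul_of_nonneg_right (hle q).2 hTT)⟩)
    have h6 : ∀ x y : ℝ, |(M : ℝ) * x - g * y| ≤
        M * (C * (T ^ (∑ j, finrank ℤ (Pt (a j : ℚ) (b j : ℚ))) / √T)) →
        |x - g / M * y| ≤ C * (T ^ (∑ j, finrank ℤ (Pt (a j : ℚ) (b j : ℚ))) / √T) := by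
      intro x y h
      have h7 : (M : ℝ) * x - g * y = M * (x - g / M * y) := by
        field_simp
      rw [h7, abs_mul, abs_of_pos hM0] at h
      exact le_of_mul_le_mul_left h hM0
    push_cast
    exact h6 _ _ h5

theorem dens_lim (hD : ∀ j, Disc (a j : ℚ) (b j : ℚ)) (Gd Lf : Set ((j : Fin r) → Pt (a j : ℚ) (b j : ℚ)))
    (δ : ℝ) (C : ℝ) (h1 : ∀ T : ℝ, 2 ≤ T →
      |(({Q : (j : Fin r) → Pt (a j : ℚ) (b j : ℚ) | (∀ j, hx (Q j) ≤ T ^ 2) ∧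
          Q ∈ Gd}.ncard : ℕ) : ℝ) - δ * (({Q : (j : Fin r) → Pt (a j : ℚ) (b j : ℚ) |
          ∀ j, hx (Q j) ≤ T ^ 2}.ncard : ℕ) : ℝ)| ≤
        C * (T ^ (∑ j, finrank ℤ (Pt (a j : ℚ) (b j : ℚ))) / √T))
    (Z : ((j : Fin r) → Pt (a j : ℚ) (b j : ℚ)) → Prop) (hZ : BallG Z)
    (hZ' : ∀ Q, ¬ Z Q → (Q ∈ Lf ↔ Q ∈ Gd)) :
    Filter.Tendsto (fun T : ℝ => (({Q : (j : Fin r) → Pt (a j : ℚ) (b j : ℚ) |
        (∀ j, hx (Q j) ≤ T ^ 2) ∧ Q ∈ Lf}.ncard : ℕ) : ℝ) /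
      (({Q : (j : Fin r) → Pt (a j : ℚ) (b j : ℚ) |
          ∀ j, hx (Q j) ≤ T ^ 2}.ncard : ℕ) : ℝ)) Filter.atTop (nhds δ) := by
  classical
  obtain ⟨κ, hκ, hlow⟩ := low_all (a := a) (b := b) hD
  obtain ⟨γ, hγ, hB1⟩ := hZ
  obtain ⟨C2, hC2, hB2⟩ := hB1 γ hγ le_rfl
  set ρ := ∑ j, finrank ℤ (Pt (a j : ℚ) (b j : ℚ)) with hρ
  have hlim : Filter.Tendsto (fun T : ℝ => (C / κ) * (√T)⁻¹ + (C2 / κ) * Real.log T ^ (-γ))
      Filter.atTop (nhds 0) := by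
    have e1 : Filter.Tendsto (fun T : ℝ => (C / κ) * (√T)⁻¹) Filter.atTop (nhds ((C / κ) * 0)) :=
      (tendsto_inv_atTop_zero.comp Real.tendsto_sqrt_atTop).const_mul _
    have e2 : Filter.Tendsto (fun T : ℝ => (C2 / κ) * Real.log T ^ (-γ)) Filter.atTop
        (nhds ((C2 / κ) * 0)) :=
      ((tendsto_rpow_neg_atTop hγ).comp Real.tendsto_log_atTop).const_mul _
    have e3 := e1.add e2
    rw [mul_zero, mul_zero, add_zero] at e3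
    exact e3
  rw [tendsto_iff_dist_tendsto_zero]
  refine squeeze_zero' (Filter.Eventually.of_forall fun _ => dist_nonneg) ?_ hlim
  filter_upwards [Filter.eventually_ge_atTop 2] with T hT
  have hT0 : 0 < T := by linarith
  obtain ⟨hBf, hBl⟩ := hlow T (by linarith)
  obtain ⟨hZf, hZl⟩ := hB2 T hT (fun _ => 0)
  set Bn : ℝ := (({Q : (j : Fin r) → Pt (a j : ℚ) (b j : ℚ) |
          ∀ j, hx (Q j) ≤ T ^ 2}.ncard : ℕ) : ℝ) with hBn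
  set Ln : ℕ := {Q : (j : Fin r) → Pt (a j : ℚ) (b j : ℚ) |
        (∀ j, hx (Q j) ≤ T ^ 2) ∧ Q ∈ Lf}.ncard with hLn
  set Gn : ℕ := {Q : (j : Fin r) → Pt (a j : ℚ) (b j : ℚ) | (∀ j, hx (Q j) ≤ T ^ 2) ∧
          Q ∈ Gd}.ncard with hGn
  set Zn : ℕ := {P : (j : Fin r) → Pt (a j : ℚ) (b j : ℚ) |
    (∀ j, hx (P j - (fun _ => 0 : (j : Fin r) → Pt (a j : ℚ) (b j : ℚ)) j) ≤ T ^ 2) ∧
      Z P}.ncard with hZn
  have hBpos : 0 < Bn := lt_of_lt_of_le (by positivity) hBl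
  have k1 : Ln ≤ Gn + Zn := by
    refine (Set.ncard_le_ncard (t := {Q : (j : Fin r) → Pt (a j : ℚ) (b j : ℚ) |
      (∀ j, hx (Q j) ≤ T ^ 2) ∧ Q ∈ Gd} ∪ {P : (j : Fin r) → Pt (a j : ℚ) (b j : ℚ) |
    (∀ j, hx (P j - (fun _ => 0 : (j : Fin r) → Pt (a j : ℚ) (b j : ℚ)) j) ≤ T ^ 2) ∧
      Z P}) ?_ ((hBf.subset fun Q hQ => hQ.1).union hZf)).trans (Set.ncard_union_le _ _)
    rintro Q ⟨hQ1, hQ2⟩
    by_cases h : Z Q
    · right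
      refine ⟨fun j => ?_, h⟩
      rw [sub_zero]
      exact hQ1 j
    · exact Or.inl ⟨hQ1, (hZ' Q h).1 hQ2⟩
  have k2 : Gn ≤ Ln + Zn := by
    refine (Set.ncard_le_ncard (t := {Q : (j : Fin r) → Pt (a j : ℚ) (b j : ℚ) |
      (∀ j, hx (Q j) ≤ T ^ 2) ∧ Q ∈ Lf} ∪ {P : (j : Fin r) → Pt (a j : ℚ) (b j : ℚ) |
    (∀ j, hx (P j - (fun _ => 0 : (j : Fin r) → Pt (a j : ℚ) (b j : ℚ)) j) ≤ T ^ 2) ∧
      Z P}) ?_ ((hBf.subset fun Q hQ => hQ.1).union hZf)).trans (Set.ncard_union_le _ _)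
    rintro Q ⟨hQ1, hQ2⟩
    by_cases h : Z Q
    · right
      refine ⟨fun j => ?_, h⟩
      rw [sub_zero]
      exact hQ1 j
    · exact Or.inl ⟨hQ1, (hZ' Q h).2 hQ2⟩
  have k1' : (Ln : ℝ) ≤ Gn + Zn := by exact_mod_cast k1
  have k2' : (Gn : ℝ) ≤ Ln + Zn := by exact_mod_cast k2
  have h3 := h1 T hT
  rw [Real.dist_eq]
  have h4 : (Ln : ℝ) / Bn - δ = (Ln - δ * Bn) / Bn := by
    field_simp
  rw [h4, abs_div, abs_of_pos hBpos, div_le_iff₀ hBpos]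
  have h5 : |(Ln : ℝ) - δ * Bn| ≤ C * (T ^ ρ / √T) + C2 * T ^ ρ * Real.log T ^ (-γ) := by
    have h6 := abs_le.1 h3
    rw [abs_le]
    constructor <;> linarith [hZl, h6.1, h6.2]
  refine h5.trans ?_
  have hlog : 0 ≤ Real.log T ^ (-γ) := Real.rpow_nonneg (Real.log_nonneg (by linarith)) _
  have hC' : 0 ≤ C := by
    by_contra hneg
    push Not at hneg
    have h7 : C * (T ^ ρ / √T) < 0 := mul_neg_of_neg_of_pos hneg (by positivity)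
    have h8 := (abs_nonneg _).trans h3
    linarith
  have h6 : 0 ≤ (C / κ) * (√T)⁻¹ + (C2 / κ) * Real.log T ^ (-γ) := by positivity
  calc C * (T ^ ρ / √T) + C2 * T ^ ρ * Real.log T ^ (-γ)
      = ((C / κ) * (√T)⁻¹ + (C2 / κ) * Real.log T ^ (-γ)) * (κ * T ^ ρ) := by
        field_simp
    _ ≤ _ := mul_le_mul_of_nonneg_left hBl h6

end

end Pool.Agent.J4H11.GQ
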