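import Pool.Agent.J4H11.GQ.N9

/-!
# The cosets of the rational points which lift: divisions of the generic points
-/

set_option autoImplicit false
set_option linter.unusedSectionVars false

open Polynomial Pool.Agent.J4H11.RC Pool.Agent.J4H11.SC Pool.Agent.H901R3.MS WeierstrassCurve
  Pool.Agent.J4H11.GP Pool.Agent.J4H11.GN

namespace Pool.Agent.J4H11.GQ

/-- the rational point `Q`, as a complex point -/
def SameP {a b : ℤ} (Q : Pt (a : ℚ) (b : ℚ)) (S : Pt (a : ℂ) (b : ℂ)) : Prop :=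
  (S = 0 ↔ Q = 0) ∧ crd S = (((crd Q).1 : ℂ), ((crd Q).2 : ℂ))

theorem sameP_iff {a b : ℤ} (hD : Disc (a : ℂ) (b : ℂ)) (Q : Pt (a : ℚ) (b : ℚ))
    (S : Pt (a : ℂ) (b : ℂ)) : SameP Q S ↔ pm (Rat.castHom ℂ) hD Q = S := by
  constructor
  · rintro ⟨h1, h2⟩
    by_cases hQ : Q = 0
    · rw [h1.2 hQ, hQ, map_zero]
    · refine pt_ext (pm_ne _ _ hQ) (fun h => hQ (h1.1 h)) ?_
      rw [pm_crd, h2]
      rfl
  · rintro rfl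
    refine ⟨?_, pm_crd _ _ _⟩
    constructor
    · intro h
      exact pm_inj (Rat.castHom ℂ) hD (h.trans (map_zero _).symm)
    · rintro rfl
      exact map_zero _

/-- the coset of `Q` modulo `N` is defined by a point of the generic fibre over a division -/
def GoodL {a b : ℕ → ℤ} {r s : ℕ} (P : (j : ℕ) → Pt (a j : ℂ) (b j : ℂ))
    (𝒢 : Set (MvPolynomial (Fin s) (MvPolynomial (Fin r × Fin 2) ℤ))) (N : ℕ)
    (Q : (j : Fin r) → Pt (a j : ℚ) (b j : ℚ)) : Prop :=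
  ∃ R S : (j : ℕ) → Pt (a j : ℂ) (b j : ℂ), (∀ j : Fin r, linC N (R j) (S j) = P j ∧
    SameP (Q j) (S j)) ∧ ∃ ζ : Fin s → ℂ,
      (∀ G ∈ 𝒢, MvPolynomial.eval₂ (eR r (cx P) (cy P)) ζ G = 0) ∧
      ∀ t, ζ t ∈ k0 (cx R) (cy R) r

end Pool.Agent.J4H11.GQ

attribute [local instance 5000] Classical.propDecidable

namespace Pool.Agent.J4H11.GQ

section
variable {a b : ℕ → ℤ} {r : ℕ}

theorem core2 (hDQ : ∀ j, Disc (a j : ℚ) (b j : ℚ)) (hnt : ∀ j, NT (a j) (b j))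
    (hD : ∀ j, Disc (a j : ℂ) (b j : ℂ))
    (hmw : ∀ j, ∀ m : ℕ, 1 ≤ m → ∃ 𝒯 : Set (Pt (a j : ℚ) (b j : ℚ)), 𝒯.Finite ∧
      ∀ Q, ∃ R0 ∈ 𝒯, ∃ Q', linQ m Q' R0 = Q)
    (P : (j : ℕ) → Pt (a j : ℂ) (b j : ℂ))
    (hP : ∀ j < r, NCr (Kb (cx P) (cy P) j).subtype (P j))
    (Φ : (MvPolynomial (Fin r × Fin 2) ℤ)[X]) (hΦ : Φ.Monic)
    (f : (j : Fin r) → Fin 3 → Pt (a j : ℚ) (b j : ℚ)) (hf : Ind3 f) :
    ∃ 𝒮 : Set ((ℕ → ℕ) × ((j : ℕ) → Pt (a j : ℚ) (b j : ℚ))), 𝒮.Finite ∧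
      (∀ s ∈ 𝒮, ∀ j < r, 1 ≤ s.1 j) ∧
      (∀ Q : (j : ℕ) → Pt (a j : ℚ) (b j : ℚ), ∃ s ∈ 𝒮, ∀ j < r, ∃ Q',
        linQ (s.1 j) Q' (s.2 j) = Q j) ∧
      ∀ s ∈ 𝒮, ∃ R : (j : ℕ) → Pt (a j : ℂ) (b j : ℂ),
        (∀ j < r, linC (s.1 j) (R j) (pm (Rat.castHom ℂ) (hD j) (s.2 j)) = P j) ∧
        ((∃ w : ℂ, (Φ.map (eR r (cx P) (cy P))).IsRoot w ∧ w ∈ k0 (cx R) (cy R) r) ∨
        BoxG (a := fun j : Fin r => a j) (b := fun j : Fin r => b j) f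
        (fun Q => (∀ j, Q j ≠ 0) ∧ (∀ j : Fin r, linQ (s.1 j) (Q j) (s.2 j) ≠ 0) ∧
          ∃ u : ℚ, (Φ.map (eQ (fun j : Fin r => linQ (s.1 j) (Q j) (s.2 j)))).IsRoot u)) := by
  have hmw' : ∀ j, ∀ m : ℕ, 1 ≤ m → ∃ 𝒯 : Set (Pt (a j : ℚ) (b j : ℚ)), 𝒯.Finite ∧
      ∀ Q, ∃ R0 ∈ 𝒯, ∃ Q', m • Q' + R0 = Q := by
    intro j m hm
    obtain ⟨𝒯, h1, h2⟩ := hmw j m hm
    refine ⟨𝒯, h1, fun Q => ?_⟩
    obtain ⟨R0, hR0, Q', hQ'⟩ := h2 Q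
    refine ⟨R0, hR0, Q', ?_⟩
    rw [← linQ_lin _ _ _ (fun a b => Classical.propDecidable (a = b)), lin_cl] at hQ'
    exact hQ'
  set T := {w : ℂ | (Φ.map (eR r (cx P) (cy P))).IsRoot w} with hT
  have hTf : T.Finite := roots_fin _ _ Φ hΦ
  have hTa : ∀ w ∈ T, AlgS (k0 (cx P) (cy P) r) w := fun w hw =>
    root_algS _ _ _ le_rfl Φ hΦ w hw
  obtain ⟨θ, -, hθ2, hθ3⟩ := prim (k0 (cx P) (cy P) r) T hTf hTa
  obtain ⟨𝒮, h𝒮f, h𝒮1, h𝒮2, h𝒮3⟩ := tlemma hDQ hnt hD hmw' P r hP r le_rfl (insert θ T)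
    (hTf.insert θ) (by
      rintro z (rfl | hz)
      · exact hθ3
      · exact hTa z hz)
  refine ⟨𝒮, h𝒮f, h𝒮1, fun Q => ?_, fun s hs => ?_⟩
  · obtain ⟨s, hs, h1⟩ := h𝒮2 Q
    refine ⟨s, hs, fun j hj => ?_⟩
    obtain ⟨Q', hQ'⟩ := h1 j hj
    refine ⟨Q', ?_⟩
    rw [← linQ_lin _ _ _ (fun a b => Classical.propDecidable (a = b)), lin_cl]
    exact hQ'
  · obtain ⟨R, hR, hTw⟩ := h𝒮3 s hs
    refine ⟨R, fun j hj => ?_, ?_⟩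
    · rw [← linC_lin _ _ _ (fun a b => Classical.propDecidable (a = b)), lin_cl]
      exact (hR j hj).2
    · by_cases hw : ∃ w : ℂ, (Φ.map (eR r (cx P) (cy P))).IsRoot w ∧ w ∈ k0 (cx R) (cy R) r
      · exact Or.inl hw
      · refine Or.inr ?_
        push Not at hw
        exact step_box hDQ hnt hD P R s.1 s.2 (h𝒮1 s hs) hR hP Φ hΦ θ (fun w hw => hθ2 hw)
          (fun w hw => hTw w (Or.inr hw)) (hTw θ (Or.inl rfl)) hw f hf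

theorem goodL_of {s : ℕ} (hnt : ∀ j, NT (a j) (b j)) (hD : ∀ j, Disc (a j : ℂ) (b j : ℂ))
    (P : (j : ℕ) → Pt (a j : ℂ) (b j : ℂ))
    (𝒢 : Set (MvPolynomial (Fin s) (MvPolynomial (Fin r × Fin 2) ℤ))) (m : ℕ → ℕ)
    (R : (j : ℕ) → Pt (a j : ℂ) (b j : ℂ)) (R0 : (j : Fin r) → Pt (a j : ℚ) (b j : ℚ))
    (hR : ∀ j : Fin r, linC (m j) (R j) (pm (Rat.castHom ℂ) (hD j) (R0 j)) = P j)
    (N : ℕ) (hN : 1 ≤ N) (hdiv : ∀ j : Fin r, m j ∣ N)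
    (Q Q' : (j : Fin r) → Pt (a j : ℚ) (b j : ℚ))
    (hQ : ∀ j : Fin r, linQ (m j) (Q' j) (R0 j) = Q j)
    (ζ : Fin s → ℂ) (hζ : ∀ G ∈ 𝒢, MvPolynomial.eval₂ (eR r (cx P) (cy P)) ζ G = 0)
    (hζR : ∀ t, ζ t ∈ k0 (cx R) (cy R) r) : GoodL P 𝒢 N Q := by
  have hR' : ∀ j : Fin r, ∃ R' : Pt (a j : ℂ) (b j : ℂ), ∃ k : ℕ, N = m j * k ∧
      k • R' = R j - pm (Rat.castHom ℂ) (hD j) (Q' j) := by
    intro j
    obtain ⟨k, hk⟩ := hdiv j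
    have hk1 : 1 ≤ k := Nat.pos_of_ne_zero fun h0 => Nat.not_succ_le_zero 0 (by
      rw [hk, h0, mul_zero] at hN
      exact hN)
    obtain ⟨R', hR'⟩ := div_pt (hnt j) (hD j) k hk1 (R j - pm (Rat.castHom ℂ) (hD j) (Q' j))
    exact ⟨R', k, hk, hR'⟩
  choose R' k hk hkR using hR'
  refine ⟨exPt R', exPt (fun j => pm (Rat.castHom ℂ) (hD j) (Q j)), fun j => ?_, ζ, hζ, fun t => ?_⟩
  · have e1 : exPt (a := a) (b := b) R' j = R' j := dif_pos j.2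
    have e2 : exPt (a := a) (b := b) (fun j : Fin r => pm (Rat.castHom ℂ) (hD j) (Q j)) j =
      pm (Rat.castHom ℂ) (hD j) (Q j) := dif_pos j.2
    rw [e1, e2]
    refine ⟨?_, (sameP_iff (hD j) _ _).2 rfl⟩
    have h1 := hR j
    have h2 := hQ j
    rw [← linC_lin _ _ _ (fun a b => Classical.propDecidable (a = b)), lin_cl] at h1 ⊢
    rw [← linQ_lin _ _ _ (fun a b => Classical.propDecidable (a = b)), lin_cl] at h2
    rw [hk j, mul_smul, hkR j, smul_sub, ← h2, map_add, map_nsmul, ← h1]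
    abel
  · refine k0_le _ _ _ _ (fun j hj => ?_) (hζR t)
    have e1 : exPt (a := a) (b := b) R' j = R' ⟨j, hj⟩ := dif_pos hj
    have h2 := crd_field (k0 (cx (exPt (a := a) (b := b) R')) (cy (exPt (a := a) (b := b) R')) r)
      (hD j) (R' ⟨j, hj⟩) (by
        have h3 := k0_x (cx (exPt (a := a) (b := b) R')) (cy (exPt (a := a) (b := b) R')) r j hj
        rw [cx_def, e1] at h3
        exact h3) (by
        have h3 := k0_y (cx (exPt (a := a) (b := b) R')) (cy (exPt (a := a) (b := b) R')) r j hj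
        rw [cy_def, e1] at h3
        exact h3) (k ⟨j, hj⟩) (Q' ⟨j, hj⟩)
    have h4 : k ⟨j, hj⟩ • R' ⟨j, hj⟩ + pm (Rat.castHom ℂ) (hD j) (Q' ⟨j, hj⟩) = R j := by
      rw [hkR ⟨j, hj⟩, sub_add_cancel]
    rw [h4] at h2
    exact h2

theorem k0_lin' (hDQ : ∀ j, Disc (a j : ℚ) (b j : ℚ)) (hD : ∀ j, Disc (a j : ℂ) (b j : ℂ))
    (P R : (j : ℕ) → Pt (a j : ℂ) (b j : ℂ)) (m : ℕ → ℕ) (R0 : (j : ℕ) → Pt (a j : ℚ) (b j : ℚ))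
    (h : ∀ j < r, linC (m j) (R j) (pm (Rat.castHom ℂ) (hD j) (R0 j)) = P j) :
    k0 (cx P) (cy P) r ≤ k0 (cx R) (cy R) r := by
  apply k0_le
  intro j hj
  have h3 := crd_field (k0 (cx R) (cy R) r) (hD j) (R j) (k0_x _ _ r j hj)
    (k0_y _ _ r j hj) (m j) (R0 j)
  rw [← lin_cl (fun a b => Classical.propDecidable (a = b)), linC_lin, h j hj] at h3
  exact h3

theorem goodL_per {s : ℕ} (hnt : ∀ j, NT (a j) (b j)) (hD : ∀ j, Disc (a j : ℂ) (b j : ℂ))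
    (P : (j : ℕ) → Pt (a j : ℂ) (b j : ℂ))
    (𝒢 : Set (MvPolynomial (Fin s) (MvPolynomial (Fin r × Fin 2) ℤ))) (N : ℕ) (hN : 1 ≤ N)
    (Q Q' R0 : (j : Fin r) → Pt (a j : ℚ) (b j : ℚ)) (hQ : ∀ j, linQ N (Q' j) (R0 j) = Q j)
    (h : GoodL P 𝒢 N R0) : GoodL P 𝒢 N Q := by
  obtain ⟨R, S, hRS, ζ, hζ, hζR⟩ := h
  refine goodL_of hnt hD P 𝒢 (fun _ => N) R R0 (fun j => ?_) N hN (fun _ => dvd_rfl) Q Q' hQ ζ hζ
    hζR
  obtain ⟨h1, h2⟩ := hRS j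
  rw [(sameP_iff (hD j) _ _).1 h2]
  exact h1

theorem conv_pts2 {s : ℕ} (hDQ : ∀ j, Disc (a j : ℚ) (b j : ℚ)) (hnt : ∀ j, NT (a j) (b j))
    (hD : ∀ j, Disc (a j : ℂ) (b j : ℂ))
    (P : (j : ℕ) → Pt (a j : ℂ) (b j : ℂ))
    (hP : ∀ j < r, NCr (Kb (cx P) (cy P) j).subtype (P j))
    (𝒢 : Set (MvPolynomial (Fin s) (MvPolynomial (Fin r × Fin 2) ℤ)))
    (n : ℕ) (hn : 1 ≤ n) (R : (j : ℕ) → Pt (a j : ℂ) (b j : ℂ))
    (R0 : (j : ℕ) → Pt (a j : ℚ) (b j : ℚ))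
    (hlin' : ∀ j < r, linC n (R j) (pm (Rat.castHom ℂ) (hD j) (R0 j)) = P j) (ζ : Fin s → ℂ)
    (hζ : ∀ G ∈ 𝒢, MvPolynomial.eval₂ (eR r (cx P) (cy P)) ζ G = 0)
    (hζR : ∀ t, ζ t ∈ k0 (cx R) (cy R) r) :
    (∀ j < r, NCr (k0 (cx R) (cy R) j).subtype (R j)) ∧
    ∃ (d : MvPolynomial (Fin r × Fin 2) ℤ),
      eR r (cx R) (cy R) d ≠ 0 ∧ ∀ Q : (j : Fin r) → Pt (a j : ℚ) (b j : ℚ), (∀ j, Q j ≠ 0) →
      (∀ j, linQ n (Q j) (R0 j) ≠ 0) → eQ Q d ≠ 0 →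
      ∃ z : Fin s → ℚ, ∀ G ∈ 𝒢,
        MvPolynomial.eval₂ (eQ (fun j : Fin r => linQ n (Q j) (R0 j))) z G = 0 := by
  have hlin : ∀ j < r, n • R j + pm (Rat.castHom ℂ) (hD j) (R0 j) = P j := by
    intro j hj
    rw [← lin_cl (fun a b => Classical.propDecidable (a = b)), linC_lin]
    exact hlin' j hj
  have hR : ∀ j < r, R j ≠ 0 ∧ (fun _ : ℕ => n) j • R j + pm (Rat.castHom ℂ) (hD j) (R0 j) =
      P j := by
    intro j hj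
    refine ⟨?_, hlin j hj⟩
    have hcl : IsAlgClosed (Kb (cx P) (cy P) j) := kb_closed _ _ j
    obtain ⟨c, hc⟩ := pm_rat (Kb (cx P) (cy P) j) (hD j) (R0 j)
    have h1 := hlin j hj
    rw [← hc] at h1
    have h2 := (adR_cmp (Kb (cx P) (cy P) j) (hnt j) (hD j) (P j) (P j) (R j) 1 n le_rfl
      (hP j hj) 0 c (by rw [one_smul, map_zero, add_zero]) (by rw [one_mul]; exact h1)).1
    exact h2.1
  have hRn := ncr_div hnt hD P R (fun _ => n) R0 (fun _ _ => hn) hR hP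
  refine ⟨hRn, ?_⟩
  obtain ⟨d, hd, hd2⟩ := den_set (eR r (cx R) (cy R)) (Set.range ζ) (Set.finite_range ζ) (by
    rintro _ ⟨t, rfl⟩
    exact k0_eR _ _ (hζR t))
  refine ⟨d, hd, fun Q hQ hnQ hdQ => ?_⟩
  have hfun : (fun j : Fin r => (fun _ : ℕ => n) j • Q j + R0 j) =
      (fun j : Fin r => linQ n (Q j) (R0 j)) := by
    funext j
    rw [← linQ_lin n (Q j) (R0 j) (fun a b => Classical.propDecidable (a = b))]
    rfl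
  obtain ⟨L, hL1, hL2⟩ := loc_two hDQ hnt hD P R (fun _ => n) R0 hR hRn Q hQ (fun j => by
    have h2 := congrFun hfun j
    exact fun h3 => hnQ j (h2.symm.trans h3))
  rw [hfun] at hL2
  have hζW : ∀ t, ζ t ∈ L.W := by
    intro t
    obtain ⟨u, hu⟩ := hd2 (ζ t) ⟨t, rfl⟩
    exact L.div_mem hL1 d u hdQ (ζ t) hu.symm
  refine ⟨fun t => L.ρ ⟨ζ t, hζW t⟩, fun G hG => ?_⟩
  have hmem : ∀ G, eR r (cx P) (cy P) G ∈ L.W := fun G => (hL2 G).1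
  have h1 : MvPolynomial.eval₂ ((eR r (cx P) (cy P)).codRestrict L.W hmem)
      (fun t => (⟨ζ t, hζW t⟩ : L.W)) G = 0 := by
    apply Subtype.ext
    have h2 := MvPolynomial.eval₂_comp_left L.W.subtype
      ((eR r (cx P) (cy P)).codRestrict L.W hmem) (fun t => (⟨ζ t, hζW t⟩ : L.W)) G
    exact h2.trans (hζ G hG)
  have h2 := MvPolynomial.eval₂_comp_left L.ρ
      ((eR r (cx P) (cy P)).codRestrict L.W hmem) (fun t => (⟨ζ t, hζW t⟩ : L.W)) G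
  rw [h1, map_zero] at h2
  have h3 : L.ρ.comp ((eR r (cx P) (cy P)).codRestrict L.W hmem) =
      eQ (fun j : Fin r => linQ n (Q j) (R0 j)) := by
    refine RingHom.ext fun G => ?_
    exact (hL2 G).2
  rw [h3] at h2
  exact h2.symm

end

end Pool.Agent.J4H11.GQ
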