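import Pool.Agent.J4H11.GQ.M1

/-!
# The cosets of the rational points which lift: the structure of the set
-/

set_option autoImplicit false
set_option linter.unusedSectionVars false

open Finset Module Pool.Agent.J4H11.RC Pool.Agent.J4H11.SC Pool.Agent.H901R3.MS
  WeierstrassCurve Pool.Agent.J4H11.GN Pool.Agent.J4H11.GP

namespace Pool.Agent.J4H11.GQ

theorem str_main {r s : ℕ} (a b : ℕ → ℤ) (hDQ : ∀ j, Disc (a j : ℚ) (b j : ℚ))
    (hrk : ∀ j, 3 ≤ finrank ℤ (Pt (a j : ℚ) (b j : ℚ)))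
    (P : (j : ℕ) → Pt (a j : ℂ) (b j : ℂ))
    (hind : AlgebraicIndependent ℚ (fun j : Fin r => cx P j))
    (𝒢 : Set (MvPolynomial (Fin s) (MvPolynomial (Fin r × Fin 2) ℤ)))
    (hF : {ζ : Fin s → ℂ | ∀ G ∈ 𝒢,
      MvPolynomial.eval₂ (eR r (cx P) (cy P)) ζ G = 0}.Finite) :
    ∃ N0 : ℕ, 1 ≤ N0 ∧ ∀ N : ℕ, 1 ≤ N → N0 ∣ N →
      BallG (a := fun j : Fin r => a j) (b := fun j : Fin r => b j)
        (fun Q => (∀ j, Q j ≠ 0) → ¬ ((∃ z : Fin s → ℚ, ∀ G ∈ 𝒢,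
          MvPolynomial.eval₂ (eQ Q) z G = 0) ↔ GoodL P 𝒢 N Q)) := by
  have hD : ∀ j, Disc (a j : ℂ) (b j : ℂ) := fun j => disc_of (Rat.castHom ℂ) _ _ (hDQ j)
  obtain ⟨f, hf⟩ := ind3_exists (fun j : Fin r => a j) (fun j : Fin r => b j) (fun j => hrk j)
  have hnt : ∀ j, NT (a j) (b j) := fun j => nt_of_rank (a j) (b j) (by
    have := hrk j
    omega)
  have hPn := ncr_ind P hind (pt_ne P hind)
  obtain ⟨Φ, d, hΦ, hd, h1, h2⟩ := red_set (eR r (cx P) (cy P)) (k0 (cx P) (cy P) r)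
    (eR_mem _ _ r) (k0_eR _ _) 𝒢 hF
  have hmw : ∀ j, ∀ m : ℕ, 1 ≤ m → ∃ 𝒯 : Set (Pt (a j : ℚ) (b j : ℚ)), 𝒯.Finite ∧
      ∀ Q, ∃ R0 ∈ 𝒯, ∃ Q', linQ m Q' R0 = Q := fun j m hm => finite_quot (a j) (b j) (hDQ j) m hm
  obtain ⟨𝒮, h𝒮f, h𝒮m, h𝒮c, h𝒮⟩ := core2 hDQ hnt hD hmw P hPn Φ hΦ f hf
  refine ⟨∏ s ∈ h𝒮f.toFinset, ∏ j ∈ range r, s.1 j, ?_, fun N hN hdvd => ?_⟩
  · refine Finset.one_le_prod' fun s hs => Finset.one_le_prod' fun j hj => ?_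
    exact h𝒮m s (h𝒮f.mem_toFinset.1 hs) j (mem_range.1 hj)
  have hdiv : ∀ s ∈ 𝒮, ∀ j : Fin r, s.1 j ∣ N := by
    intro s hs j
    refine (dvd_trans ?_ (dvd_trans (Finset.dvd_prod_of_mem (fun s : (ℕ → ℕ) ×
      ((j : ℕ) → Pt (a j : ℚ) (b j : ℚ)) => ∏ j ∈ range r, s.1 j)
      (h𝒮f.mem_toFinset.2 hs)) hdvd))
    exact Finset.dvd_prod_of_mem (fun j => s.1 j) (mem_range.2 j.2)
  -- the cosets with few points which lift
  have hweak : ∀ s ∈ 𝒮, BallG (a := fun j : Fin r => a j) (b := fun j : Fin r => b j)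
      (fun Q => ((∀ j, Q j ≠ 0) ∧ (∃ u : ℚ, (Φ.map (eQ Q)).IsRoot u) ∧ ¬ GoodL P 𝒢 N Q) ∧
        ∃ Q' : (j : Fin r) → Pt (a j : ℚ) (b j : ℚ), ∀ j : Fin r,
          s.1 j • Q' j + s.2 j = Q j) := by
    intro s hs
    obtain ⟨R, hR, hcase⟩ := h𝒮 s hs
    rcases hcase with ⟨w, hw, hwR⟩ | hbox
    · refine ballG_mono ?_ ballG_false
      rintro Q ⟨⟨-, -, hng⟩, Q', hQ'⟩
      apply hng
      obtain ⟨ζ, hζ1, hζ2⟩ := h2 w hw
      have hk : k0 (cx P) (cy P) r ≤ k0 (cx R) (cy R) r :=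
        k0_lin' hDQ hD P R s.1 s.2 hR
      exact goodL_of hnt hD P 𝒢 s.1 R (fun j => s.2 j) (fun j => hR j j.2) N hN (hdiv s hs) Q Q'
        hQ' ζ hζ1 (fun t => (ad1_le _ _ _ hk hwR) (hζ2 t))
    · have hB := ball_of_box (fun j => hDQ j) f (fun j => s.1 j) (fun j => s.2 j)
        (fun Q => (∃ j, Q j = 0) ∨ ((∀ j, Q j ≠ 0) ∧
          (∀ j : Fin r, linQ (s.1 j) (Q j) (s.2 j) ≠ 0) ∧
            ∃ u : ℚ, (Φ.map (eQ (fun j : Fin r => linQ (s.1 j) (Q j) (s.2 j)))).IsRoot u))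
        (fun Q => (∀ j, Q j ≠ 0) ∧ ∃ u : ℚ, (Φ.map (eQ Q)).IsRoot u)
        (boxG_or f (box_zero (fun j => hDQ j) f hf) hbox) (by
          rintro Q ⟨hQ1, hQ2⟩
          by_cases h : ∀ j, Q j ≠ 0
          · exact Or.inr ⟨h, hQ1, hQ2⟩
          · push Not at h
            exact Or.inl h)
      exact ballG_mono (fun Q hQ => ⟨⟨hQ.1.1, hQ.1.2.1⟩, hQ.2⟩) hB
  -- the good classes
  have hq : ∀ j : Fin r, ∃ 𝒯 : Set (Pt (a j : ℚ) (b j : ℚ)), 𝒯.Finite ∧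
      ∀ Q, ∃ R0 ∈ 𝒯, ∃ Q', N • Q' + R0 = Q := fun j => finite_quot (a j) (b j) (hDQ j) N hN
  choose 𝒯 h𝒯f h𝒯 using hq
  have hgood : ∀ R0 ∈ Set.pi Set.univ 𝒯, BallG (a := fun j : Fin r => a j)
      (b := fun j : Fin r => b j)
      (fun Q => ((∀ j, Q j ≠ 0) ∧ (¬ ∃ z : Fin s → ℚ, ∀ G ∈ 𝒢,
          MvPolynomial.eval₂ (eQ Q) z G = 0) ∧ GoodL P 𝒢 N Q) ∧
        ∃ Q' : (j : Fin r) → Pt (a j : ℚ) (b j : ℚ), ∀ j : Fin r,
          N • Q' j + R0 j = Q j) := by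
    intro R0 _
    by_cases hG : GoodL P 𝒢 N R0
    · obtain ⟨R, S, hRS, ζ, hζ, hζR⟩ := hG
      have hex : ∀ j : Fin r, exPt (a := a) (b := b) R0 j = R0 j := fun j => dif_pos j.2
      obtain ⟨hRn, d', hd', hmain⟩ := conv_pts2 hDQ hnt hD P hPn 𝒢 N hN R (exPt R0) (by
        intro j hj
        obtain ⟨k1, k2⟩ := hRS ⟨j, hj⟩
        have e1 : exPt (a := a) (b := b) R0 j = R0 ⟨j, hj⟩ := dif_pos hj
        rw [e1, (sameP_iff (hD j) _ _).1 k2]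
        exact k1) ζ hζ hζR
      have hbox := bad_box' hDQ hnt R hRn d' hd' f hf
      have hB := ball_of_box (fun j => hDQ j) f (fun _ => N) (fun j => R0 j)
        (fun Q => (∃ j, Q j = 0) ∨ eQ Q d' = 0)
        (fun Q => (∀ j, Q j ≠ 0) ∧ ¬ ∃ z : Fin s → ℚ, ∀ G ∈ 𝒢,
          MvPolynomial.eval₂ (eQ Q) z G = 0)
        (boxG_or f (box_zero (fun j => hDQ j) f hf) hbox) (by
          rintro Q ⟨hQ1, hQ2⟩
          by_contra hcon
          push Not at hcon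
          apply hQ2
          have h3 : (fun j : Fin r => linQ N (Q j) (exPt (a := a) (b := b) R0 j)) =
              (fun j : Fin r => N • Q j + R0 j) := by
            funext j
            rw [hex j]
            rfl
          have h4 := hmain Q hcon.1 (fun j => by
            have h5 := congrFun h3 j
            exact fun h6 => hQ1 j (h5.symm.trans h6)) hcon.2
          rw [h3] at h4
          exact h4)
      exact ballG_mono (fun Q hQ => ⟨⟨hQ.1.1, hQ.1.2.1⟩, hQ.2⟩) hB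
    · refine ballG_mono ?_ ballG_false
      rintro Q ⟨⟨-, -, hg⟩, Q', hQ'⟩
      apply hG
      refine goodL_per hnt hD P 𝒢 N hN R0 (fun j => - Q' j) Q (fun j => ?_) hg
      change N • (- Q' j) + Q j = R0 j
      rw [← hQ' j, smul_neg, neg_add_cancel_left]
  have hb2 := ball_bad a b hDQ hrk P hind d hd
  have hU := ballG_or (ballG_or (ballG_iUnion 𝒮 h𝒮f _ hweak)
    (ballG_iUnion (Set.pi Set.univ 𝒯) (Set.Finite.pi' h𝒯f |>.subset (by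
      intro x hx j
      exact hx j (Set.mem_univ j))) _ hgood)) hb2
  refine ballG_mono (fun Q hQ => ?_) (ballG_or hU (ball_zero (fun j => hDQ j) f hf))
  by_cases h0 : ∀ j, Q j ≠ 0
  · left
    by_cases hdQ : eQ Q d = 0
    · exact Or.inr hdQ
    left
    have hne := hQ h0
    by_cases hl : ∃ z : Fin s → ℚ, ∀ G ∈ 𝒢, MvPolynomial.eval₂ (eQ Q) z G = 0
    · left
      have hng : ¬ GoodL P 𝒢 N Q := fun h => hne ⟨fun _ => h, fun _ => hl⟩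
      obtain ⟨s', hs', h3⟩ := h𝒮c (exPt Q)
      refine ⟨s', hs', ⟨h0, ?_, hng⟩, ?_⟩
      · obtain ⟨z, hz⟩ := hl
        obtain ⟨L, hL⟩ := loc_one hDQ hnt P hPn Q h0
        exact h1 L (eQ Q) hL hdQ z hz
      · have h4 : ∀ j : Fin r, ∃ Q' : Pt (a j : ℚ) (b j : ℚ), s'.1 j • Q' + s'.2 j = Q j := by
          intro j
          obtain ⟨Q', hQ'⟩ := h3 j j.2
          have h5 : exPt Q (j : ℕ) = Q j := dif_pos j.2
          rw [h5] at hQ'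
          exact ⟨Q', hQ'⟩
        choose Q' hQ' using h4
        exact ⟨Q', hQ'⟩
    · right
      have hg : GoodL P 𝒢 N Q := by
        by_contra hng
        exact hne ⟨fun h => absurd h hl, fun h => absurd h hng⟩
      have h4 : ∀ j : Fin r, ∃ R0 ∈ 𝒯 j, ∃ Q', N • Q' + R0 = Q j := fun j => h𝒯 j (Q j)
      choose R0 hR0 Q' hQ' using h4
      exact ⟨R0, fun j _ => hR0 j, ⟨h0, hl, hg⟩, Q', hQ'⟩
  · right
    push Not at h0
    exact h0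

end Pool.Agent.J4H11.GQ
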