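import Pool.Agent.J4H11.GQ.M2

/-!
# The structure of the set of the points which lift, for points of bounded degree
-/

set_option autoImplicit false
set_option linter.unusedSectionVars false

open Finset Module Pool.Agent.J4H11.RC Pool.Agent.J4H11.SC Pool.Agent.H901R3.MS
  WeierstrassCurve Pool.Agent.J4H11.GN Pool.Agent.J4H11.GP

namespace Pool.Agent.J4H11.GQ

section
variable {r s : ℕ}

/-- the coset of `Q` modulo `N` is defined by a point of the generic fibre over a division -/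
def GoodZ {a b : Fin r → ℤ} (P : (j : Fin r) → Pt (a j : ℂ) (b j : ℂ))
    (𝒢 : Set (MvPolynomial (Fin s) (MvPolynomial (Fin r × Fin 2) ℤ)))
    (cond : Subfield ℂ → (Fin s → ℂ) → Prop) (N : ℕ)
    (Q : (j : Fin r) → Pt (a j : ℚ) (b j : ℚ)) : Prop :=
  ∃ R S : (j : Fin r) → Pt (a j : ℂ) (b j : ℂ), (∀ j, N • R j + S j = P j) ∧
    (∀ j, SameP (Q j) (S j)) ∧ ∃ ζ : Fin s → ℂ,
      (∀ G ∈ 𝒢, MvPolynomial.eval₂ (evf P) ζ G = 0) ∧ cond (fld R) ζ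

theorem goodL_iff (a' b' : ℕ → ℤ) (P : (j : Fin r) → Pt (a' j : ℂ) (b' j : ℂ))
    (𝒢 : Set (MvPolynomial (Fin s) (MvPolynomial (Fin r × Fin 2) ℤ))) (N : ℕ)
    (Q : (j : Fin r) → Pt (a' j : ℚ) (b' j : ℚ)) :
    GoodL (a := a') (b := b') (exPt P) 𝒢 N Q ↔
      GoodZ (a := fun j : Fin r => a' j) (b := fun j : Fin r => b' j) P 𝒢
        (fun F ζ => ∀ t, ζ t ∈ F) N Q := by
  unfold GoodL GoodZ
  rw [eR_ex]
  constructor
  · rintro ⟨R, S, h, ζ, hζ, hζR⟩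
    refine ⟨fun j => R j, fun j => S j, fun j => ?_, fun j => (h j).2, ζ, hζ, fun t => ?_⟩
    · have h1 := (h j).1
      rw [exPt_fin] at h1
      exact h1
    · refine k0_le _ _ _ _ (fun j hj => ?_) (hζR t)
      exact ⟨Subfield.subset_closure (Or.inl ⟨⟨j, hj⟩, rfl⟩),
        Subfield.subset_closure (Or.inr ⟨⟨j, hj⟩, rfl⟩)⟩
  · rintro ⟨R, S, h, h', ζ, hζ, hζR⟩
    refine ⟨exPt R, exPt S, fun j => ?_, ζ, hζ, fun t => ?_⟩
    · rw [exPt_fin, exPt_fin, exPt_fin]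
      exact ⟨h j, h' j⟩
    · have hle : fld (a := fun j : Fin r => a' j) (b := fun j : Fin r => b' j) R ≤
          k0 (cx (a := a') (b := b') (exPt (a := a') (b := b') R))
            (cy (a := a') (b := b') (exPt (a := a') (b := b') R)) r := by
        unfold fld
        rw [Subfield.closure_le]
        rintro z (⟨j, rfl⟩ | ⟨j, rfl⟩)
        · have h1 := k0_x (cx (a := a') (b := b') (exPt (a := a') (b := b') R))
            (cy (a := a') (b := b') (exPt (a := a') (b := b') R)) r j j.2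
          have h2 := congrFun (cx_ex (a' := a') (b' := b') R) j
          beta_reduce at h2
          rw [h2] at h1
          exact h1
        · have h1 := k0_y (cx (a := a') (b := b') (exPt (a := a') (b := b') R))
            (cy (a := a') (b := b') (exPt (a := a') (b := b') R)) r j j.2
          have h2 := congrFun (cy_ex (a' := a') (b' := b') R) j
          beta_reduce at h2
          rw [h2] at h1
          exact h1
      exact hle (hζR t)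

theorem str_fin (hr : 1 ≤ r) (a b : Fin r → ℤ) (hDQ : ∀ j, Disc (a j : ℚ) (b j : ℚ))
    (hrk : ∀ j, 3 ≤ finrank ℤ (Pt (a j : ℚ) (b j : ℚ)))
    (P : (j : Fin r) → Pt (a j : ℂ) (b j : ℂ))
    (hind : AlgebraicIndependent ℚ (fun j => (crd (P j)).1))
    (𝒢 : Set (MvPolynomial (Fin s) (MvPolynomial (Fin r × Fin 2) ℤ)))
    (hF : {ζ : Fin s → ℂ | ∀ G ∈ 𝒢, MvPolynomial.eval₂ (evf P) ζ G = 0}.Finite) :
    ∃ N0 : ℕ, 1 ≤ N0 ∧ ∀ N : ℕ, 1 ≤ N → N0 ∣ N → BallG (a := a) (b := b)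
      (fun Q => (∀ j, Q j ≠ 0) → ¬ ((∃ z : Fin s → ℚ, ∀ G ∈ 𝒢,
        MvPolynomial.eval₂ (evf Q) z G = 0) ↔ GoodZ P 𝒢 (fun F ζ => ∀ t, ζ t ∈ F) N Q)) := by
  obtain ⟨a', b', rfl, rfl, hext⟩ := ext_fam hr a b
  have hDQ' : ∀ j, Disc (a' j : ℚ) (b' j : ℚ) := by
    intro j
    obtain ⟨i, h1, h2⟩ := hext j
    rw [h1, h2]
    exact hDQ i
  have hrk' : ∀ j, 3 ≤ finrank ℤ (Pt (a' j : ℚ) (b' j : ℚ)) := by
    intro j
    obtain ⟨i, h1, h2⟩ := hext j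
    rw [h1, h2]
    exact hrk i
  have hind' : AlgebraicIndependent ℚ (fun j : Fin r =>
      cx (a := a') (b := b') (exPt (a := a') (b := b') P) j) := by
    rw [cx_ex]
    exact hind
  obtain ⟨N0, hN0, h⟩ := str_main a' b' hDQ' hrk' (exPt P) hind' 𝒢 (by rw [eR_ex]; exact hF)
  refine ⟨N0, hN0, fun N hN hdvd => ballG_mono (fun Q hQ h0 => ?_) (h N hN hdvd)⟩
  have h1 := hQ h0
  rw [← goodL_iff] at h1
  exact h1

theorem str_deg (hr : 1 ≤ r) (a b : Fin r → ℤ) (hDQ : ∀ j, Disc (a j : ℚ) (b j : ℚ))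
    (hrk : ∀ j, 3 ≤ finrank ℤ (Pt (a j : ℚ) (b j : ℚ)))
    (P : (j : Fin r) → Pt (a j : ℂ) (b j : ℂ))
    (hind : AlgebraicIndependent ℚ (fun j => (crd (P j)).1))
    (𝒢 : Set (MvPolynomial (Fin s) (MvPolynomial (Fin r × Fin 2) ℤ)))
    (hF : {ζ : Fin s → ℂ | ∀ G ∈ 𝒢, MvPolynomial.eval₂ (evf P) ζ G = 0}.Finite)
    (d : ℕ) :
    ∃ N0 : ℕ, 1 ≤ N0 ∧ ∀ N : ℕ, 1 ≤ N → N0 ∣ N → BallG (a := a) (b := b)
      (fun Q => (∀ j, Q j ≠ 0) → ¬ ((∃ z : Fin s → ℂ, (∀ G ∈ 𝒢,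
        MvPolynomial.eval₂ ((algebraMap ℚ ℂ).comp (evf Q)) z G = 0) ∧ PtDeg ℚ z d) ↔
          GoodZ P 𝒢 (fun F ζ => PtDeg F ζ d) N Q)) := by
  classical
  set I : Finset (ℕ × ℕ) := (Finset.Icc 1 d) ×ˢ (Finset.range (s * d + 1)) with hI
  have hY : ∀ i : ℕ × ℕ, ∃ N0 : ℕ, 1 ≤ N0 ∧ ∀ N : ℕ, 1 ≤ N → N0 ∣ N → BallG (a := a) (b := b)
      (fun Q => (∀ j, Q j ≠ 0) → ¬ ((∃ z : Fin ((s + 2) * i.1) → ℚ, ∀ G ∈ YR i.1 i.2 𝒢,
        MvPolynomial.eval₂ (evf Q) z G = 0) ↔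
          GoodZ P (YR i.1 i.2 𝒢) (fun F ζ => ∀ t, ζ t ∈ F) N Q)) := fun i =>
    str_fin hr a b hDQ hrk P hind (YR i.1 i.2 𝒢) (YR_fin i.1 i.2 𝒢 _ hF)
  choose N0 hN0 hY using hY
  -- the index which corresponds to a point
  have key : ∀ N : ℕ, 1 ≤ N → ∀ Q : (j : Fin r) → Pt (a j : ℚ) (b j : ℚ),
      (GoodZ P 𝒢 (fun F ζ => PtDeg F ζ d) N Q ↔
        ∃ i ∈ I, GoodZ P (YR i.1 i.2 𝒢) (fun F ζ => ∀ t, ζ t ∈ F) N Q) := by
    intro N hN Q
    constructor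
    · rintro ⟨R, S, h1, h2, ζ, hζ, hζd⟩
      obtain ⟨ε, hε⟩ := evf_fld a b hDQ P N R S h1 (fun j => ⟨crd (Q j), (h2 j).2⟩)
      obtain ⟨e, x, he1, he2, hx, y, hy⟩ := Y_of_pt ε 𝒢 ζ d hζd (by rw [hε]; exact hζ)
      refine ⟨(e, x), ?_, R, S, h1, h2, fun v => (y (finProdFinEquiv.symm v) : ℂ), ?_,
        fun v => (y _).2⟩
      · rw [hI, Finset.mem_product, Finset.mem_Icc, Finset.mem_range]
        exact ⟨⟨he1, he2⟩, by simpa using Nat.lt_succ_of_le hx⟩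
      · have h3 := (YR_sub e x 𝒢 (fld R) ε (fun v => y (finProdFinEquiv.symm v))).2 (by
          simp only [Equiv.symm_apply_apply]
          exact hy)
        rw [hε] at h3
        exact h3
    · rintro ⟨⟨e, x⟩, hi, R, S, h1, h2, ζ, hζ, hζR⟩
      rw [hI, Finset.mem_product, Finset.mem_Icc, Finset.mem_range] at hi
      obtain ⟨⟨he1, he2⟩, -⟩ := hi
      obtain ⟨ε, hε⟩ := evf_fld a b hDQ P N R S h1 (fun j => ⟨crd (Q j), (h2 j).2⟩)
      let ζ' : Fin ((s + 2) * e) → fld R := fun v => ⟨ζ v, hζR v⟩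
      have h3 : IsY ε x 𝒢 (fun v : Fin (s + 2) × Fin e => ζ' (finProdFinEquiv v)) := by
        rw [← YR_sub, hε]
        exact hζ
      obtain ⟨z, hz1, L, hL1, hL2, hL3⟩ := pt_of_Y (Ω := ℂ) ε x 𝒢 _ he1 h3
      rw [hε] at hz1
      exact ⟨R, S, h1, h2, z, hz1, L, hL1, hL2.trans he2, hL3⟩
  have key2 : ∀ Q : (j : Fin r) → Pt (a j : ℚ) (b j : ℚ),
      ((∃ z : Fin s → ℂ, (∀ G ∈ 𝒢,
        MvPolynomial.eval₂ ((algebraMap ℚ ℂ).comp (evf Q)) z G = 0) ∧ PtDeg ℚ z d) ↔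
        ∃ i ∈ I, ∃ z : Fin ((s + 2) * i.1) → ℚ, ∀ G ∈ YR i.1 i.2 𝒢,
          MvPolynomial.eval₂ (evf Q) z G = 0) := by
    intro Q
    constructor
    · rintro ⟨z, hz, hzd⟩
      obtain ⟨e, x, he1, he2, hx, y, hy⟩ := Y_of_pt (evf Q) 𝒢 z d hzd hz
      refine ⟨(e, x), ?_, ?_⟩
      · rw [hI, Finset.mem_product, Finset.mem_Icc, Finset.mem_range]
        exact ⟨⟨he1, he2⟩, by simpa using Nat.lt_succ_of_le hx⟩
      · refine ⟨fun v => y (finProdFinEquiv.symm v), ?_⟩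
        rw [YR_iff]
        simp only [Equiv.symm_apply_apply]
        exact hy
    · rintro ⟨⟨e, x⟩, hi, w, hw⟩
      rw [hI, Finset.mem_product, Finset.mem_Icc, Finset.mem_range] at hi
      obtain ⟨⟨he1, he2⟩, -⟩ := hi
      rw [YR_iff] at hw
      obtain ⟨z, hz1, L, hL1, hL2, hL3⟩ := pt_of_Y (Ω := ℂ) (evf Q) x 𝒢 _ he1 hw
      exact ⟨z, hz1, L, hL1, hL2.trans he2, hL3⟩
  refine ⟨∏ i ∈ I, N0 i, Finset.one_le_prod' fun i _ => hN0 i, fun N hN hdvd => ?_⟩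
  have hU := ballG_iUnion (a := a) (b := b) (I : Set (ℕ × ℕ)) (Finset.finite_toSet _) _
    (fun i hi => hY i N hN ((Finset.dvd_prod_of_mem N0 (Finset.mem_coe.1 hi)).trans hdvd))
  by_cases hIe : I.Nonempty
  · refine ballG_mono (fun Q hQ => ?_) hU
    by_cases h0 : ∀ j, Q j ≠ 0
    · have h1 := hQ h0
      rw [key N hN Q, key2 Q] at h1
      by_contra hcon
      push Not at hcon
      apply h1
      constructor
      · rintro ⟨i, hi, hz⟩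
        exact ⟨i, hi, (hcon i (Finset.mem_coe.2 hi)).2.1 hz⟩
      · rintro ⟨i, hi, hz⟩
        exact ⟨i, hi, (hcon i (Finset.mem_coe.2 hi)).2.2 hz⟩
    · obtain ⟨i, hi⟩ := hIe
      exact ⟨i, Finset.mem_coe.2 hi, fun h => absurd h h0⟩
  · rw [Finset.not_nonempty_iff_eq_empty] at hIe
    obtain ⟨f, hf⟩ := ind3_exists a b hrk
    refine ballG_mono (fun Q hQ => ?_) (ball_zero hDQ f hf)
    by_contra hcon
    push Not at hcon
    have h1 := hQ hcon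
    rw [key N hN Q, key2 Q, hIe] at h1
    simp at h1

end

end Pool.Agent.J4H11.GQ
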