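import Pool.Agent.J4H11.GQ.M3

/-!
# The structure of the set of the points which lift, over number fields
-/

set_option autoImplicit false
set_option linter.unusedSectionVars false

open Finset Module Polynomial Pool.Agent.J4H11.RC Pool.Agent.J4H11.SC Pool.Agent.H901R3.MS
  WeierstrassCurve Pool.Agent.J4H11.GN Pool.Agent.J4H11.GP

namespace Pool.Agent.J4H11.GQ

section
variable {r s : ℕ}

theorem str_K (hr : 1 ≤ r) (a b : Fin r → ℤ) (hDQ : ∀ j, Disc (a j : ℚ) (b j : ℚ))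
    (hrk : ∀ j, 3 ≤ finrank ℤ (Pt (a j : ℚ) (b j : ℚ)))
    (P : (j : Fin r) → Pt (a j : ℂ) (b j : ℂ))
    (hind : AlgebraicIndependent ℚ (fun j => (crd (P j)).1))
    (𝒢 : Set (MvPolynomial (Fin s) (MvPolynomial (Fin r × Fin 2) ℤ)))
    (hF : {ζ : Fin s → ℂ | ∀ G ∈ 𝒢, MvPolynomial.eval₂ (evf P) ζ G = 0}.Finite)
    (K : IntermediateField ℚ ℂ) [FiniteDimensional ℚ K] (d : ℕ) :
    ∃ N0 : ℕ, 1 ≤ N0 ∧ ∀ N : ℕ, 1 ≤ N → N0 ∣ N → BallG (a := a) (b := b)
      (fun Q => (∀ j, Q j ≠ 0) → ¬ ((∃ z : Fin s → ℂ, (∀ G ∈ 𝒢,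
        MvPolynomial.eval₂ ((algebraMap ℚ ℂ).comp (evf Q)) z G = 0) ∧ SD K.toSubfield z d) ↔
          GoodZ P 𝒢 (fun F ζ => SD (K.toSubfield ⊔ F) ζ d) N Q)) := by
  classical
  obtain ⟨α, hα⟩ := Field.exists_primitive_element ℚ K
  have hθK : IntermediateField.adjoin ℚ {(α : ℂ)} = K := by
    have h1 := congrArg IntermediateField.lift hα
    have h2 := IntermediateField.lift_adjoin_simple (F := ℚ) K α
    have h3 := IntermediateField.lift_top (F := ℚ) K
    exact h2.symm.trans (h1.trans h3)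
  obtain ⟨θ, hθα⟩ : ∃ θ : ℂ, θ = (α : ℂ) := ⟨_, rfl⟩
  rw [← hθα] at hθK
  have hθ : IsIntegral ℚ θ := by
    rw [hθα]
    exact (Algebra.IsIntegral.isIntegral α).map K.val
  have hθmem : θ ∈ K := by
    rw [hθα]
    exact α.2
  have hm : finrank ℚ K = (minpoly ℚ θ).natDegree := by
    have h1 := IntermediateField.adjoin.finrank hθ
    rw [hθK] at h1
    exact h1
  have hmpos : 0 < finrank ℚ K := finrank_pos
  have hrel0 : (⊥ : Subfield ℂ).relfinrank K.toSubfield = finrank ℚ K := relfin_bot K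
  obtain ⟨ν, hν⟩ := int_mult (minpoly ℚ θ)
  have hsub : ∀ R : (j : Fin r) → Pt (a j : ℂ) (b j : ℂ),
      (IntermediateField.adjoin (fld R) {θ}).toSubfield = K.toSubfield ⊔ fld R := by
    intro R
    refine le_antisymm ?_ (sup_le ?_ ?_)
    · refine Subfield.closure_le.2 ?_
      rintro x (⟨y, rfl⟩ | hx)
      · exact (le_sup_right : fld R ≤ K.toSubfield ⊔ fld R) y.2
      · rw [Set.mem_singleton_iff.1 hx]
        exact (le_sup_left : K.toSubfield ≤ K.toSubfield ⊔ fld R) hθmem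
    · rw [← hθK]
      refine Subfield.closure_le.2 ?_
      rintro x (⟨y, rfl⟩ | hx)
      · have : algebraMap ℚ ℂ y = algebraMap (fld R) ℂ (algebraMap ℚ (fld R) y) := by
          rw [← IsScalarTower.algebraMap_apply]
        rw [this]
        exact (IntermediateField.adjoin (fld R) {θ}).algebraMap_mem _
      · rw [Set.mem_singleton_iff.1 hx]
        exact IntermediateField.mem_adjoin_simple_self (fld R) θ
    · intro x hx
      exact (IntermediateField.adjoin (fld R) {θ}).algebraMap_mem ⟨x, hx⟩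
  have hrel : ∀ (n : ℕ), 1 ≤ n → ∀ (R S : (j : Fin r) → Pt (a j : ℂ) (b j : ℂ)),
      (∀ j, n • R j + S j = P j) → (∀ j, IsRatP (S j)) →
      (fld R).relfinrank (K.toSubfield ⊔ fld R) = finrank ℚ K := by
    intro n hn R S h1 h2
    rw [← hsub R, (relfin_toSub _ _).2, IntermediateField.adjoin.finrank hθ.tower_top,
      minpoly_fld hr a b hDQ hrk P hind n hn R S h1 h2 θ hθ, natDegree_map, hm]
  have hF' := addP_fin (minpoly ℚ θ) (minpoly.ne_zero hθ) ν (hν ℂ) 𝒢 _ hF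
  obtain ⟨N0, hN0, hD⟩ := str_deg hr a b hDQ hrk P hind (addP ν 𝒢) hF' (finrank ℚ K * d)
  refine ⟨N0, hN0, fun N hN hdvd => ballG_mono (fun Q hQ h0 => ?_) (hD N hN hdvd)⟩
  have hne := hQ h0
  have e1 : (∃ z : Fin (s + 1) → ℂ, (∀ G ∈ addP ν 𝒢,
      MvPolynomial.eval₂ ((algebraMap ℚ ℂ).comp (evf Q)) z G = 0) ∧
        PtDeg ℚ z (finrank ℚ K * d)) ↔ (∃ z : Fin s → ℂ, (∀ G ∈ 𝒢,
      MvPolynomial.eval₂ ((algebraMap ℚ ℂ).comp (evf Q)) z G = 0) ∧ SD K.toSubfield z d) := by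
    constructor
    · rintro ⟨w, hw, L, hL1, hL2, hL3⟩
      obtain ⟨hw1, hw2⟩ := (addP_iff ν 𝒢 _ w).1 hw
      rw [hν] at hw2
      obtain ⟨z', L', hz', hzL', hθL', hfd, hfr⟩ := conj_ptG (evf Q) 𝒢 (fun t => w t.castSucc)
        (w (Fin.last s)) θ L (fun t => hL3 _) (hL3 _) (conj_rat θ _ hθ hw2) hw1
      refine ⟨z', hz', ?_⟩
      refine SD_down ⊥ K.toSubfield L'.toSubfield bot_le ?_ ?_ z' d ?_ ?_ hzL'
      · rw [hrel0]
        exact hmpos
      · rw [← hθK]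
        exact fun x hx => (IntermediateField.adjoin_simple_le_iff.2 hθL') hx
      · rw [relfin_bot]
        exact finrank_pos
      · rw [relfin_bot, hrel0, hfr]
        exact hL2
    · rintro ⟨z, hz, hzd⟩
      refine ⟨Fin.snoc (α := fun _ => ℂ) z θ, ?_, ?_⟩
      · rw [addP_iff, hν]
        simp only [Fin.snoc_castSucc, Fin.snoc_last]
        exact ⟨hz, minpoly.aeval ℚ θ⟩
      · have h3 := SD_up ⊥ K.toSubfield bot_le (by rw [hrel0]; exact hmpos) z θ hθmem d hzd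
        rw [hrel0] at h3
        exact (SD_bot _ _).1 h3
  have e2 : GoodZ P (addP ν 𝒢) (fun F ζ => PtDeg F ζ (finrank ℚ K * d)) N Q ↔
      GoodZ P 𝒢 (fun F ζ => SD (K.toSubfield ⊔ F) ζ d) N Q := by
    constructor
    · rintro ⟨R, S, h1, h2', ζ, hζ, L, hL1, hL2, hL3⟩
      have h2 : ∀ j, IsRatP (S j) := fun j => ⟨crd (Q j), (h2' j).2⟩
      obtain ⟨hζ1, hζ2⟩ := (addP_iff ν 𝒢 _ ζ).1 hζ
      rw [hν] at hζ2
      obtain ⟨ε, hε⟩ := evf_fld a b hDQ P N R S h1 h2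
      obtain ⟨z', L', hz', hzL', hθL', hfd, hfr⟩ := conj_ptG ε 𝒢 (fun t => ζ t.castSucc)
        (ζ (Fin.last s)) θ L (fun t => hL3 _) (hL3 _)
        (conj_fld hr a b hDQ hrk P hind N hN R S h1 h2 θ hθ _ hζ2) (by rw [hε]; exact hζ1)
      rw [hε] at hz'
      refine ⟨R, S, h1, h2', z', hz', ?_⟩
      obtain ⟨h3, h4⟩ := relfin_toSub (fld R) L'
      refine SD_down (fld R) (K.toSubfield ⊔ fld R) L'.toSubfield le_sup_right ?_ ?_ z' d ?_ ?_
        hzL'
      · rw [hrel N hN R S h1 h2]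
        exact hmpos
      · rw [← hsub R]
        exact fun x hx => (IntermediateField.adjoin_simple_le_iff.2 hθL') hx
      · rw [h4]
        exact finrank_pos
      · rw [h4, hrel N hN R S h1 h2, hfr]
        exact hL2
    · rintro ⟨R, S, h1, h2', ζ, hζ, hζd⟩
      have h2 : ∀ j, IsRatP (S j) := fun j => ⟨crd (Q j), (h2' j).2⟩
      refine ⟨R, S, h1, h2', Fin.snoc (α := fun _ => ℂ) ζ θ, ?_, ?_⟩
      · rw [addP_iff, hν]
        simp only [Fin.snoc_castSucc, Fin.snoc_last]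
        exact ⟨hζ, minpoly.aeval ℚ θ⟩
      · have h3 := SD_up (fld R) (K.toSubfield ⊔ fld R) le_sup_right
          (by rw [hrel N hN R S h1 h2]; exact hmpos) ζ θ
          ((le_sup_left : K.toSubfield ≤ K.toSubfield ⊔ fld R) hθmem) d hζd
        rw [hrel N hN R S h1 h2] at h3
        exact (SD_iff _ _ _).1 h3
  rw [e1, e2]
  exact hne

end

end Pool.Agent.J4H11.GQ
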