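import Pool.Agent.J4H11.GQ.M4

/-!
# Periodicity of the set of the good points
-/

set_option autoImplicit false
set_option linter.unusedSectionVars false

open Polynomial Pool.Agent.J4H11.RC Pool.Agent.J4H11.SC Pool.Agent.H901R3.MS WeierstrassCurve
  Pool.Agent.J4H11.GP Pool.Agent.J4H11.GN

attribute [local instance 5000] Classical.propDecidable

namespace Pool.Agent.J4H11.GQ

theorem per_cl {a b : ℤ} (hD : Disc (a : ℂ) (b : ℂ)) (N : ℕ) (P R S : Pt (a : ℂ) (b : ℂ))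
    (Q Q' Q'' : Pt (a : ℚ) (b : ℚ)) (hQ : linQ N Q' Q = Q'') (h : linC N R S = P)
    (hS : SameP Q S) : ∃ R' S' T T' : Pt (a : ℂ) (b : ℂ), linC N R' S' = P ∧ SameP Q'' S' ∧
      (linC 1 R' T = R ∧ IsRatP T) ∧ (linC 1 R T' = R' ∧ IsRatP T') := by
  rw [sameP_iff hD] at hS
  rw [← linQ_lin _ _ _ (fun a b => Classical.propDecidable (a = b)), lin_cl] at hQ
  rw [← linC_lin _ _ _ (fun a b => Classical.propDecidable (a = b)), lin_cl] at h
  refine ⟨R - pm (Rat.castHom ℂ) hD Q', pm (Rat.castHom ℂ) hD Q'', pm (Rat.castHom ℂ) hD Q',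
    pm (Rat.castHom ℂ) hD (-Q'), ?_, (sameP_iff hD _ _).2 rfl, ⟨?_, crd Q', pm_crd _ _ _⟩,
    ?_, crd (-Q'), pm_crd _ _ _⟩
  · rw [← linC_lin _ _ _ (fun a b => Classical.propDecidable (a = b)), lin_cl, ← hQ, ← h,
      map_add, map_nsmul, smul_sub, ← hS]
    abel
  · rw [← linC_lin _ _ _ (fun a b => Classical.propDecidable (a = b)), lin_cl, one_smul,
      sub_add_cancel]
  · rw [← linC_lin _ _ _ (fun a b => Classical.propDecidable (a = b)), lin_cl, one_smul,
      map_neg, ← sub_eq_add_neg]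

end Pool.Agent.J4H11.GQ
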