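import Pool.Agent.J4H11.GQ.M5

/-!
# Periodicity of the set of the good points, and good points of dominated sets
-/

set_option autoImplicit false
set_option linter.unusedSectionVars false

open Finset Module Pool.Agent.J4H11.RC Pool.Agent.J4H11.SC Pool.Agent.H901R3.MS
  WeierstrassCurve Pool.Agent.J4H11.GN Pool.Agent.J4H11.GP

namespace Pool.Agent.J4H11.GQ

section
variable {r s : ℕ}

theorem goodZ_per (a b : Fin r → ℤ) (hDQ : ∀ j, Disc (a j : ℚ) (b j : ℚ))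
    (P : (j : Fin r) → Pt (a j : ℂ) (b j : ℂ))
    (𝒢 : Set (MvPolynomial (Fin s) (MvPolynomial (Fin r × Fin 2) ℤ)))
    (cond : Subfield ℂ → (Fin s → ℂ) → Prop) (N : ℕ)
    (Q Q' : (j : Fin r) → Pt (a j : ℚ) (b j : ℚ))
    (h : GoodZ P 𝒢 cond N Q) : GoodZ P 𝒢 cond N (fun j => N • Q' j + Q j) := by
  obtain ⟨R, S, h1, h2, ζ, hζ, hc⟩ := h
  have hD : ∀ j, Disc (a j : ℂ) (b j : ℂ) := fun j => disc_of (Rat.castHom ℂ) _ _ (hDQ j)
  have hj := fun j => per_cl (hD j) N (P j) (R j) (S j) (Q j) (Q' j) (N • Q' j + Q j) rfl (h1 j)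
    (h2 j)
  choose R' S' T T' k1 k2 k3 k4 using hj
  have e : fld R' = fld R :=
    le_antisymm (fld_lin hDQ R' R T' 1 k4) (fld_lin hDQ R R' T 1 k3)
  refine ⟨R', S', k1, k2, ζ, hζ, ?_⟩
  rw [e]
  exact hc

end

end Pool.Agent.J4H11.GQ
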