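import Mathlib

/-!
# Points of bounded degree: the algebraic sets of the points over algebras with one generator
-/

set_option autoImplicit false
set_option linter.unusedSectionVars false

open Polynomial

namespace Pool.Agent.J4H11.GQ

section
variable {A : Type} [CommRing A] {s e : ℕ}

/-- the polynomial with the coefficients in the row `k` -/
noncomputable def rowP (y : Fin (s + 2) × Fin e → A) (k : Fin (s + 2)) : A[X] :=
  ∑ i : Fin e, C (y (k, i)) * X ^ (i : ℕ)

/-- the monic polynomial -/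
noncomputable def gP (y : Fin (s + 2) × Fin e → A) : A[X] := X ^ e + rowP y 0

theorem rowP_deg (y : Fin (s + 2) × Fin e → A) (k : Fin (s + 2)) : (rowP y k).degree < e := by
  unfold rowP
  refine (Polynomial.degree_sum_le _ _).trans_lt ?_
  refine (Finset.sup_lt_iff (WithBot.bot_lt_coe e)).2 fun i _ => ?_
  refine (Polynomial.degree_C_mul_X_pow_le _ _).trans_lt ?_
  exact WithBot.coe_lt_coe.2 i.2

theorem gP_monic (y : Fin (s + 2) × Fin e → A) : (gP y).Monic :=
  monic_X_pow_add (rowP_deg y 0)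

theorem gP_natDegree [Nontrivial A] (y : Fin (s + 2) × Fin e → A) : (gP y).natDegree = e := by
  unfold gP
  have h := rowP_deg y 0
  rw [natDegree_add_eq_left_of_degree_lt (by rw [degree_X_pow]; exact h), natDegree_X_pow]

theorem rowP_coeff (y : Fin (s + 2) × Fin e → A) (k : Fin (s + 2)) (i : Fin e) :
    (rowP y k).coeff i = y (k, i) := by
  unfold rowP
  rw [finsetSum_coeff]
  simp only [coeff_C_mul, coeff_X_pow]
  rw [Finset.sum_eq_single i]
  · rw [if_pos rfl, mul_one]
  · intro j _ hj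
    rw [if_neg, mul_zero]
    intro h
    exact hj (Fin.ext h.symm)
  · intro h
    exact absurd (Finset.mem_univ i) h

theorem row_of (p : A[X]) (hp : p.degree < e) (y : Fin (s + 2) × Fin e → A) (k : Fin (s + 2))
    (h : ∀ i : Fin e, y (k, i) = p.coeff i) : rowP y k = p := by
  ext n
  by_cases hn : n < e
  · have := rowP_coeff y k ⟨n, hn⟩
    rw [h] at this
    exact this
  · push Not at hn
    rw [coeff_eq_zero_of_degree_lt ((rowP_deg y k).trans_le (by exact_mod_cast hn)),
      coeff_eq_zero_of_degree_lt (hp.trans_le (by exact_mod_cast hn))]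

variable {M : Type} [CommRing M]

/-- the value of the equation `G` at the polynomials of the point -/
noncomputable def HG (ε : M →+* A) (y : Fin (s + 2) × Fin e → A) (G : MvPolynomial (Fin s) M) :
    A[X] :=
  MvPolynomial.eval₂ ((C : A →+* A[X]).comp ε) (fun t : Fin s => rowP y t.succ.succ) G

/-- the equation which says that the generator is a given linear form -/
noncomputable def Hlam (x : ℕ) (y : Fin (s + 2) × Fin e → A) : A[X] :=
  (∑ t : Fin s, (x : A[X]) ^ (t : ℕ) * rowP y t.succ.succ) - X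

/-- the equation which says that the monic polynomial is separable -/
noncomputable def Hsep (y : Fin (s + 2) × Fin e → A) : A[X] :=
  rowP y 1 * derivative (gP y) - 1

/-- the conditions -/
def IsY (ε : M →+* A) (x : ℕ) (𝒢 : Set (MvPolynomial (Fin s) M))
    (y : Fin (s + 2) × Fin e → A) : Prop :=
  (∀ G ∈ 𝒢, gP y ∣ HG ε y G) ∧ gP y ∣ Hlam x y ∧ gP y ∣ Hsep y

variable {B : Type} [CommRing B]

theorem rowP_map (φ : A →+* B) (y : Fin (s + 2) × Fin e → A) (k : Fin (s + 2)) :
    (rowP y k).map φ = rowP (fun v => φ (y v)) k := by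
  unfold rowP
  rw [Polynomial.map_sum]
  refine Finset.sum_congr rfl fun i _ => ?_
  rw [Polynomial.map_mul, Polynomial.map_pow, map_X, map_C]

theorem gP_map (φ : A →+* B) (y : Fin (s + 2) × Fin e → A) :
    (gP y).map φ = gP (fun v => φ (y v)) := by
  unfold gP
  rw [Polynomial.map_add, Polynomial.map_pow, map_X, rowP_map]

theorem Hlam_map (φ : A →+* B) (x : ℕ) (y : Fin (s + 2) × Fin e → A) :
    (Hlam x y).map φ = Hlam x (fun v => φ (y v)) := by
  unfold Hlam
  rw [Polynomial.map_sub, map_X, Polynomial.map_sum]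
  congr 1
  refine Finset.sum_congr rfl fun t _ => ?_
  rw [Polynomial.map_mul, Polynomial.map_pow, rowP_map, Polynomial.map_natCast]

theorem Hsep_map (φ : A →+* B) (y : Fin (s + 2) × Fin e → A) :
    (Hsep y).map φ = Hsep (fun v => φ (y v)) := by
  unfold Hsep
  rw [Polynomial.map_sub, Polynomial.map_mul, rowP_map, Polynomial.map_one, ← derivative_map,
    gP_map]

theorem HG_map (φ : A →+* B) (ε : M →+* A) (y : Fin (s + 2) × Fin e → A)
    (G : MvPolynomial (Fin s) M) :
    (HG ε y G).map φ = HG (φ.comp ε) (fun v => φ (y v)) G := by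
  unfold HG
  have h := MvPolynomial.eval₂_comp_left (mapRingHom φ) ((C : A →+* A[X]).comp ε)
    (fun t : Fin s => rowP y t.succ.succ) G
  rw [coe_mapRingHom] at h
  rw [h]
  congr 1
  · ext m
    simp
  · funext t
    exact rowP_map φ y _

/-- the equations -/
def YS (e x : ℕ) (𝒢 : Set (MvPolynomial (Fin s) M)) :
    Set (MvPolynomial (Fin (s + 2) × Fin e) M) :=
  {c | (∃ G ∈ 𝒢, ∃ n, c = (HG MvPolynomial.C (MvPolynomial.X (R := M)) G %ₘ
      gP (s := s) (e := e) (MvPolynomial.X (R := M))).coeff n) ∨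
    (∃ n, c = (Hlam x (MvPolynomial.X (R := M)) %ₘ
      gP (s := s) (e := e) (MvPolynomial.X (R := M))).coeff n) ∨
    (∃ n, c = (Hsep (MvPolynomial.X (R := M)) %ₘ
      gP (s := s) (e := e) (MvPolynomial.X (R := M))).coeff n)}

theorem mod_iff (ε : M →+* A) (y : Fin (s + 2) × Fin e → A)
    (H : (MvPolynomial (Fin (s + 2) × Fin e) M)[X]) :
    (∀ n, MvPolynomial.eval₂ ε y ((H %ₘ gP (s := s) (e := e)
      (MvPolynomial.X (R := M))).coeff n) = 0) ↔
      gP y ∣ H.map (MvPolynomial.eval₂Hom ε y) := by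
  have h1 : (gP (s := s) (e := e) (MvPolynomial.X (R := M))).map (MvPolynomial.eval₂Hom ε y) =
      gP y := by
    rw [gP_map]
    congr 1
    funext v
    exact MvPolynomial.eval₂_X _ _ _
  rw [← modByMonic_eq_zero_iff_dvd (gP_monic y), ← h1,
    ← map_modByMonic _ (gP_monic _), Polynomial.ext_iff]
  refine forall_congr' fun n => ?_
  rw [coeff_map, coeff_zero]
  rfl

theorem YS_iff (ε : M →+* A) (x : ℕ) (𝒢 : Set (MvPolynomial (Fin s) M))
    (y : Fin (s + 2) × Fin e → A) :
    (∀ c ∈ YS e x 𝒢, MvPolynomial.eval₂ ε y c = 0) ↔ IsY ε x 𝒢 y := by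
  have hX : (fun v => MvPolynomial.eval₂Hom ε y (MvPolynomial.X (R := M) v)) = y := by
    funext v
    exact MvPolynomial.eval₂_X _ _ _
  have e1 : ∀ G : MvPolynomial (Fin s) M,
      (HG MvPolynomial.C (MvPolynomial.X (R := M)) G).map (MvPolynomial.eval₂Hom ε y) =
        HG ε y G := by
    intro G
    rw [HG_map, hX]
    congr 1
    ext m
    simp
  have e2 : (Hlam x (MvPolynomial.X (R := M))).map (MvPolynomial.eval₂Hom ε y) =
      Hlam x y := by rw [Hlam_map, hX]
  have e3 : (Hsep (MvPolynomial.X (R := M))).map (MvPolynomial.eval₂Hom ε y) =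
      Hsep y := by rw [Hsep_map, hX]
  constructor
  · intro h
    refine ⟨fun G hG => ?_, ?_, ?_⟩
    · rw [← e1, ← mod_iff]
      exact fun n => h _ (Or.inl ⟨G, hG, n, rfl⟩)
    · rw [← e2, ← mod_iff]
      exact fun n => h _ (Or.inr (Or.inl ⟨n, rfl⟩))
    · rw [← e3, ← mod_iff]
      exact fun n => h _ (Or.inr (Or.inr ⟨n, rfl⟩))
  · rintro ⟨h1, h2, h3⟩ c (⟨G, hG, n, rfl⟩ | ⟨n, rfl⟩ | ⟨n, rfl⟩)
    · have := h1 G hG
      rw [← e1, ← mod_iff] at this
      exact this n
    · rw [← e2, ← mod_iff] at h2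
      exact h2 n
    · rw [← e3, ← mod_iff] at h3
      exact h3 n

theorem HG_eval (ε : M →+* A) (φ : A →+* B) (y : Fin (s + 2) × Fin e → A) (τ : B)
    (G : MvPolynomial (Fin s) M) :
    (HG ε y G).eval₂ φ τ = MvPolynomial.eval₂ (φ.comp ε)
      (fun t : Fin s => (rowP y t.succ.succ).eval₂ φ τ) G := by
  unfold HG
  have h := MvPolynomial.eval₂_comp_left (eval₂RingHom φ τ) ((C : A →+* A[X]).comp ε)
    (fun t : Fin s => rowP y t.succ.succ) G
  rw [coe_eval₂RingHom] at h
  rw [h]
  congr 1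
  ext m
  simp

end

end Pool.Agent.J4H11.GQ
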