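import Pool.Agent.J4H11.GQ.N1

/-!
# Points of bounded degree over fields
-/

set_option autoImplicit false
set_option linter.unusedSectionVars false

open Polynomial Module

namespace Pool.Agent.J4H11.GQ

/-- the point has its coordinates in an extension of degree at most `d` -/
def PtDeg (F : Type) {Ω : Type} [Field F] [Field Ω] [Algebra F Ω] {s : ℕ} (z : Fin s → Ω)
    (d : ℕ) : Prop :=
  ∃ L : IntermediateField F Ω, FiniteDimensional F L ∧ finrank F L ≤ d ∧ ∀ t, z t ∈ L

section
variable {F Ω : Type} [Field F] [Field Ω] [Algebra F Ω] {M : Type} [CommRing M] {s e : ℕ}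

theorem pt_of_Y [IsAlgClosed Ω] (ε : M →+* F) (x : ℕ) (𝒢 : Set (MvPolynomial (Fin s) M))
    (y : Fin (s + 2) × Fin e → F) (he : 1 ≤ e) (h : IsY ε x 𝒢 y) :
    ∃ z : Fin s → Ω, (∀ G ∈ 𝒢, MvPolynomial.eval₂ ((algebraMap F Ω).comp ε) z G = 0) ∧
      PtDeg F z e := by
  have hdeg : (gP y).natDegree = e := gP_natDegree y
  have hd0 : (gP y).degree ≠ 0 := by
    rw [degree_eq_natDegree (gP_monic y).ne_zero, hdeg]
    intro h0
    have : e = 0 := by exact_mod_cast h0
    omega
  obtain ⟨τ, hτ⟩ := IsAlgClosed.exists_aeval_eq_zero Ω (gP y) hd0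
  have hτint : IsIntegral F τ := ⟨gP y, gP_monic y, hτ⟩
  refine ⟨fun t => aeval τ (rowP y t.succ.succ), ?_, IntermediateField.adjoin F {τ},
    IntermediateField.adjoin.finiteDimensional hτint, ?_, fun t => ?_⟩
  · intro G hG
    obtain ⟨c, hc⟩ := h.1 G hG
    have h1 := HG_eval ε (algebraMap F Ω) y τ G
    rw [hc, eval₂_mul] at h1
    have h2 : (gP y).eval₂ (algebraMap F Ω) τ = 0 := hτ
    rw [h2, zero_mul] at h1
    exact h1.symm
  · rw [IntermediateField.adjoin.finrank hτint, ← hdeg]
    exact natDegree_le_of_dvd (minpoly.dvd F τ hτ) (gP_monic y).ne_zero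
  · exact IntermediateField.algebra_adjoin_le_adjoin F {τ} (aeval_mem_adjoin_singleton F τ)

/-- the number of bad parameters is at most the degree -/
theorem exists_gen [CharZero F] [IsAlgClosed Ω] (z : Fin s → Ω) (d : ℕ)
    [FiniteDimensional F (IntermediateField.adjoin F (Set.range z))]
    (hd : finrank F (IntermediateField.adjoin F (Set.range z)) ≤ d) :
    ∃ x : ℕ, x ≤ s * d ∧ ∀ t, z t ∈ IntermediateField.adjoin F
      ({∑ t : Fin s, (x : Ω) ^ (t : ℕ) * z t} : Set Ω) := by
  classical
  set E := IntermediateField.adjoin F (Set.range z) with hE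
  have : CharZero Ω := charZero_of_injective_algebraMap (algebraMap F Ω).injective
  have hzE : ∀ t, z t ∈ E := fun t => IntermediateField.subset_adjoin F _ ⟨t, rfl⟩
  let z' : Fin s → E := fun t => ⟨z t, hzE t⟩
  let al : ℕ → E := fun x => ∑ t : Fin s, (x : E) ^ (t : ℕ) * z' t
  have hal : ∀ x, (al x : Ω) = ∑ t : Fin s, (x : Ω) ^ (t : ℕ) * z t := by
    intro x
    simp only [al, z']
    push_cast
    rfl
  have hsplit : ∀ w : E, (((minpoly F w).map (algebraMap F Ω))).Splits := fun w =>
    IsAlgClosed.splits _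
  -- the polynomials
  let p : (E →ₐ[F] Ω) → Polynomial Ω := fun ψ => ∑ t : Fin s, C (z t - ψ (z' t)) * X ^ (t : ℕ)
  have hp : ∀ ψ : E →ₐ[F] Ω, ψ ≠ E.val → p ψ ≠ 0 := by
    intro ψ hψ h0
    apply hψ
    have h1 : ∀ t, ψ (z' t) = z t := by
      intro t
      have h2 : (p ψ).coeff t = z t - ψ (z' t) := by
        simp only [p]
        rw [finsetSum_coeff]
        simp only [coeff_C_mul, coeff_X_pow]
        rw [Finset.sum_eq_single t]
        · rw [if_pos rfl, mul_one]
        · intro j _ hj
          rw [if_neg, mul_zero]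
          intro h
          exact hj (Fin.ext h.symm)
        · intro h
          exact absurd (Finset.mem_univ t) h
      rw [h0, coeff_zero] at h2
      exact (sub_eq_zero.1 h2.symm).symm
    apply AlgHom.ext
    rintro ⟨w, hw⟩
    have key : ∀ (w : Ω) (hw : w ∈ E), ψ ⟨w, hw⟩ = w := by
      intro w hw
      induction hw using IntermediateField.adjoin_induction with
      | mem w hw =>
        obtain ⟨t, rfl⟩ := hw
        exact h1 t
      | algebraMap c =>
        exact ψ.commutes c
      | add a b ha hb h1 h2 =>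
        have : (⟨a + b, add_mem ha hb⟩ : E) = ⟨a, ha⟩ + ⟨b, hb⟩ := rfl
        rw [this, map_add, h1, h2]
      | inv a ha h1 =>
        have : (⟨a⁻¹, inv_mem ha⟩ : E) = (⟨a, ha⟩ : E)⁻¹ := rfl
        rw [this, map_inv₀, h1]
      | mul a b ha hb h1 h2 =>
        have : (⟨a * b, mul_mem ha hb⟩ : E) = ⟨a, ha⟩ * ⟨b, hb⟩ := rfl
        rw [this, map_mul, h1, h2]
    exact key w hw
  have hpd : ∀ ψ : E →ₐ[F] Ω, (p ψ).natDegree ≤ s := by
    intro ψ
    simp only [p]
    refine natDegree_sum_le_of_forall_le _ _ fun t _ => ?_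
    exact (natDegree_C_mul_X_pow_le _ _).trans t.2.le
  have heval : ∀ (ψ : E →ₐ[F] Ω) (x : ℕ), E.val (al x) = ψ (al x) → (p ψ).eval (x : Ω) = 0 := by
    intro ψ x h
    have h1 : ψ (al x) = ∑ t : Fin s, (x : Ω) ^ (t : ℕ) * ψ (z' t) := by
      simp only [al]
      rw [map_sum]
      refine Finset.sum_congr rfl fun t _ => ?_
      rw [map_mul, map_pow, map_natCast]
    have h2 : E.val (al x) = ∑ t : Fin s, (x : Ω) ^ (t : ℕ) * z t := hal x
    simp only [p]
    rw [eval_finsetSum]
    simp only [eval_mul, eval_C, eval_pow, eval_X]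
    rw [h1, h2] at h
    have h3 : ∑ t : Fin s, (z t - ψ (z' t)) * (x : Ω) ^ (t : ℕ) =
        ∑ t : Fin s, (x : Ω) ^ (t : ℕ) * z t - ∑ t : Fin s, (x : Ω) ^ (t : ℕ) * ψ (z' t) := by
      rw [← Finset.sum_sub_distrib]
      refine Finset.sum_congr rfl fun t _ => ?_
      ring
    rw [h3, h, sub_self]
  -- the bad parameters
  let bad : Finset ℕ := (Finset.univ.filter fun ψ : E →ₐ[F] Ω => ψ ≠ E.val).biUnion fun ψ =>
    (Finset.range (s * d + 1)).filter fun x : ℕ => (p ψ).eval (x : Ω) = 0
  have hbad : bad.card ≤ s * d := by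
    refine Finset.card_biUnion_le.trans ?_
    have h1 : ∀ ψ ∈ (Finset.univ.filter fun ψ : E →ₐ[F] Ω => ψ ≠ E.val),
        ((Finset.range (s * d + 1)).filter fun x : ℕ => (p ψ).eval (x : Ω) = 0).card ≤ s := by
      intro ψ hψ
      have hψ' := hp ψ (Finset.mem_filter.1 hψ).2
      have h2 : ((Finset.range (s * d + 1)).filter fun x : ℕ => (p ψ).eval (x : Ω) = 0).card ≤
          (p ψ).roots.toFinset.card := by
        apply Finset.card_le_card_of_injOn (fun x : ℕ => (x : Ω))
        · intro x hx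
          rw [Finset.mem_coe, Multiset.mem_toFinset, mem_roots hψ']
          exact (Finset.mem_filter.1 hx).2
        · intro x _ x' _ h
          exact Nat.cast_injective h
      exact h2.trans ((Multiset.toFinset_card_le _).trans ((card_roots' _).trans (hpd ψ)))
    refine (Finset.sum_le_card_nsmul _ _ s h1).trans ?_
    rw [smul_eq_mul, mul_comm]
    apply Nat.mul_le_mul_left
    refine (Finset.card_filter_le _ _).trans ?_
    rw [Finset.card_univ]
    exact (AlgHom.card F E Ω).le.trans hd
  obtain ⟨x, hx1, hx2⟩ : ∃ x ∈ Finset.range (s * d + 1), x ∉ bad := by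
    by_contra hcon
    push Not at hcon
    have h1 : (Finset.range (s * d + 1)) ⊆ bad := hcon
    have h2 := Finset.card_le_card h1
    rw [Finset.card_range] at h2
    omega
  refine ⟨x, by have := Finset.mem_range.1 hx1; omega, ?_⟩
  have htop : IntermediateField.adjoin F ({al x} : Set E) = ⊤ := by
    rw [Field.primitive_element_iff_algHom_eq_of_eval F Ω hsplit (al x) E.val]
    intro ψ hψ
    by_contra hne
    apply hx2
    simp only [bad, Finset.mem_biUnion, Finset.mem_filter, Finset.mem_univ, true_and]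
    exact ⟨ψ, fun h => hne h.symm, hx1, heval ψ x hψ⟩
  intro t
  have h1 : z' t ∈ IntermediateField.adjoin F ({al x} : Set E) := by
    rw [htop]
    trivial
  have h2 : (z' t : Ω) ∈ (IntermediateField.adjoin F ({al x} : Set E)).map E.val :=
    ⟨z' t, h1, rfl⟩
  rw [IntermediateField.adjoin_map, Set.image_singleton] at h2
  have h3 : E.val (al x) = ∑ t : Fin s, (x : Ω) ^ (t : ℕ) * z t := hal x
  rw [h3] at h2
  exact h2

end

end Pool.Agent.J4H11.GQ
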