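import Pool.Agent.J4H11.GQ.N2

/-!
# Points of bounded degree over fields: existence and finiteness
-/

set_option autoImplicit false
set_option linter.unusedSectionVars false

open Polynomial Module

namespace Pool.Agent.J4H11.GQ

section
variable {F Ω : Type} [Field F] [Field Ω] [Algebra F Ω] {M : Type} [CommRing M] {s e : ℕ}

theorem ptDeg_adjoin {z : Fin s → Ω} {d : ℕ} (h : PtDeg F z d) :
    FiniteDimensional F (IntermediateField.adjoin F (Set.range z)) ∧
      finrank F (IntermediateField.adjoin F (Set.range z)) ≤ d := by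
  obtain ⟨L, h1, h2, h3⟩ := h
  have hle : IntermediateField.adjoin F (Set.range z) ≤ L := by
    rw [IntermediateField.adjoin_le_iff]
    rintro w ⟨t, rfl⟩
    exact h3 t
  have hinj : Function.Injective (IntermediateField.inclusion hle).toLinearMap :=
    IntermediateField.inclusion_injective hle
  refine ⟨FiniteDimensional.of_injective _ hinj, ?_⟩
  exact (LinearMap.finrank_le_finrank_of_injective hinj).trans h2

theorem Y_of_pt [CharZero F] [IsAlgClosed Ω] (ε : M →+* F) (𝒢 : Set (MvPolynomial (Fin s) M))
    (z : Fin s → Ω) (d : ℕ) (hz : PtDeg F z d)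
    (hG : ∀ G ∈ 𝒢, MvPolynomial.eval₂ ((algebraMap F Ω).comp ε) z G = 0) :
    ∃ e x : ℕ, 1 ≤ e ∧ e ≤ d ∧ x ≤ s * d ∧ ∃ y : Fin (s + 2) × Fin e → F, IsY ε x 𝒢 y := by
  obtain ⟨hfd, hd⟩ := ptDeg_adjoin hz
  obtain ⟨x, hx, hgen⟩ := exists_gen z d hd
  set E := IntermediateField.adjoin F (Set.range z) with hE
  set α : Ω := ∑ t : Fin s, (x : Ω) ^ (t : ℕ) * z t with hα
  have hzE : ∀ t, z t ∈ E := fun t => IntermediateField.subset_adjoin F _ ⟨t, rfl⟩
  have hαE : α ∈ E := by
    rw [hα]
    exact sum_mem fun t _ => mul_mem (pow_mem (natCast_mem E x) _) (hzE t)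
  have hαint : IsIntegral F α := by
    have h1 : IsIntegral F (⟨α, hαE⟩ : E) := IsIntegral.of_finite F _
    exact (isIntegral_algebraMap_iff (A := E) (B := Ω) Subtype.val_injective).2 h1
  have hle : IntermediateField.adjoin F ({α} : Set Ω) ≤ E := by
    rw [IntermediateField.adjoin_le_iff]
    rintro w rfl
    exact hαE
  have hfinα : FiniteDimensional F (IntermediateField.adjoin F ({α} : Set Ω)) :=
    IntermediateField.adjoin.finiteDimensional hαint
  set g := minpoly F α with hg
  set e := g.natDegree with he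
  have hgm : g.Monic := minpoly.monic hαint
  have hed : e ≤ d := by
    rw [he, hg, ← IntermediateField.adjoin.finrank hαint]
    have hinj : Function.Injective (IntermediateField.inclusion hle).toLinearMap :=
      IntermediateField.inclusion_injective hle
    exact (LinearMap.finrank_le_finrank_of_injective hinj).trans hd
  have he1 : 1 ≤ e := by
    have := minpoly.natDegree_pos hαint
    exact this
  have hgdeg : g.degree = e := degree_eq_natDegree hgm.ne_zero
  -- the polynomials
  have hu : ∀ t, ∃ p : F[X], aeval α p = z t := by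
    intro t
    have h1 : z t ∈ (IntermediateField.adjoin F ({α} : Set Ω)).toSubalgebra := hgen t
    rw [IntermediateField.adjoin_simple_toSubalgebra_of_isAlgebraic hαint.isAlgebraic,
      Algebra.adjoin_singleton_eq_range_aeval] at h1
    exact h1
  choose p hp using hu
  have hsep : IsCoprime g (derivative g) := (minpoly.irreducible hαint).separable
  obtain ⟨a, b, hab⟩ := hsep
  have hmod : ∀ q : F[X], (q %ₘ g).degree < e := fun q => by
    rw [← hgdeg]
    exact degree_modByMonic_lt q hgm
  let rows : Fin (s + 2) → F[X] :=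
    Fin.cons (g - X ^ e) (Fin.cons (b %ₘ g) (fun t => p t %ₘ g))
  let y : Fin (s + 2) × Fin e → F := fun v => (rows v.1).coeff v.2
  have hg0 : (g - X ^ e).degree < (e : WithBot ℕ) := by
    have h1 : (g - X ^ e).degree < g.degree := by
      refine degree_sub_lt_left ?_ hgm.ne_zero ?_
      · rw [degree_X_pow, hgdeg]
      · rw [hgm.leadingCoeff, leadingCoeff_X_pow]
    rwa [hgdeg] at h1
  have hrow : ∀ k, rowP y k = rows k := by
    intro k
    refine row_of (rows k) ?_ y k fun i => rfl
    refine Fin.cases ?_ (fun k => ?_) k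
    · exact hg0
    · refine Fin.cases ?_ (fun k => ?_) k
      · exact hmod _
      · exact hmod _
  have hgP : gP y = g := by
    unfold gP
    rw [hrow 0]
    change X ^ e + (g - X ^ e) = g
    ring
  have hrow1 : rowP y 1 = b %ₘ g := hrow 1
  have hrowt : ∀ t : Fin s, rowP y t.succ.succ = p t %ₘ g := fun t => hrow t.succ.succ
  have haev : ∀ q : F[X], aeval α (q %ₘ g) = aeval α q := by
    intro q
    have h1 := congrArg (aeval α) (modByMonic_add_div q g)
    rw [map_add, map_mul, hg, minpoly.aeval, zero_mul, add_zero] at h1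
    exact h1
  refine ⟨e, x, he1, hed, hx, y, ?_, ?_, ?_⟩
  · intro G hG'
    rw [hgP, hg]
    apply minpoly.dvd
    have h1 := HG_eval ε (algebraMap F Ω) y α G
    have h2 : (fun t : Fin s => (rowP y t.succ.succ).eval₂ (algebraMap F Ω) α) = z := by
      funext t
      rw [hrowt]
      change aeval α (p t %ₘ g) = z t
      rw [haev, hp]
    rw [h2, hG G hG'] at h1
    exact h1
  · rw [hgP, hg]
    apply minpoly.dvd
    unfold Hlam
    rw [map_sub, aeval_X, map_sum, sub_eq_zero, hα]
    refine Finset.sum_congr rfl fun t _ => ?_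
    rw [map_mul, map_pow, map_natCast, hrowt, haev, hp]
  · unfold Hsep
    rw [hgP, hrow1]
    have h1 := modByMonic_add_div b g
    refine ⟨-(b /ₘ g) * derivative g - a, ?_⟩
    linear_combination (derivative g) * h1 + hab

theorem Y_fin [IsAlgClosed F] (ε : M →+* F) (x : ℕ) (𝒢 : Set (MvPolynomial (Fin s) M))
    (hS : {z : Fin s → F | ∀ G ∈ 𝒢, MvPolynomial.eval₂ ε z G = 0}.Finite) :
    {y : Fin (s + 2) × Fin e → F | IsY ε x 𝒢 y}.Finite := by
  classical
  let Zf : (Fin (s + 2) × Fin e → F) → Set (Fin s → F) := fun y =>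
    {z | ∃ τ, (gP y).eval τ = 0 ∧ z = fun t => (rowP y t.succ.succ).eval τ}
  have hsub : ∀ y ∈ {y : Fin (s + 2) × Fin e → F | IsY ε x 𝒢 y}, Zf y ⊆
      {z : Fin s → F | ∀ G ∈ 𝒢, MvPolynomial.eval₂ ε z G = 0} := by
    rintro y hy z ⟨τ, hτ, rfl⟩ G hG
    obtain ⟨c, hc⟩ := hy.1 G hG
    have h1 := HG_eval ε (RingHom.id F) y τ G
    rw [hc, eval₂_mul] at h1
    have h2 : (gP y).eval₂ (RingHom.id F) τ = 0 := hτ
    rw [h2, zero_mul] at h1
    rw [RingHom.id_comp] at h1
    exact h1.symm
  apply Set.Finite.of_finite_image (f := Zf)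
  · refine hS.finite_subsets.subset ?_
    rintro _ ⟨y, hy, rfl⟩
    exact hsub y hy
  · intro y hy y' hy' hZ
    -- the roots
    have hlam : ∀ y : Fin (s + 2) × Fin e → F, IsY ε x 𝒢 y → ∀ τ, (gP y).eval τ = 0 →
        ∑ t : Fin s, (x : F) ^ (t : ℕ) * (rowP y t.succ.succ).eval τ = τ := by
      intro y hy τ hτ
      obtain ⟨c, hc⟩ := hy.2.1
      have h1 := congrArg (eval τ) hc
      unfold Hlam at h1
      rw [eval_sub, eval_mul, hτ, zero_mul, eval_X, eval_finsetSum, sub_eq_zero] at h1
      refine Eq.trans (Finset.sum_congr rfl fun t _ => ?_) h1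
      rw [eval_mul, eval_pow, eval_natCast]
    have hroot : ∀ τ, (gP y).eval τ = 0 → (gP y').eval τ = 0 ∧ ∀ t : Fin s,
        (rowP y t.succ.succ).eval τ = (rowP y' t.succ.succ).eval τ := by
      intro τ hτ
      have h1 : (fun t : Fin s => (rowP y t.succ.succ).eval τ) ∈ Zf y := ⟨τ, hτ, rfl⟩
      have hZ' : Zf y = Zf y' := hZ
      rw [hZ'] at h1
      obtain ⟨τ', hτ', h2⟩ := h1
      have h3 := hlam y hy τ hτ
      have h4 := hlam y' hy' τ' hτ'
      have h5 : τ = τ' := by
        rw [← h3, ← h4]
        refine Finset.sum_congr rfl fun t _ => ?_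
        rw [congrFun h2 t]
      subst h5
      exact ⟨hτ', fun t => congrFun h2 t⟩
    have hsep : (gP y).Separable := by
      obtain ⟨c, hc⟩ := hy.2.2
      unfold Hsep at hc
      refine ⟨-c, rowP y 1, ?_⟩
      linear_combination hc
    have hcard : (gP y).roots.toFinset.card = e := by
      rw [Multiset.toFinset_card_of_nodup (nodup_roots hsep)]
      rw [splits_iff_card_roots.1 (IsAlgClosed.splits (gP y)), gP_natDegree]
    have key : ∀ p : F[X], p.degree < e → (∀ τ, (gP y).eval τ = 0 → p.eval τ = 0) → p = 0 := by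
      intro p hp hpe
      by_contra hp0
      have h1 : (gP y).roots.toFinset ⊆ p.roots.toFinset := by
        intro τ hτ
        rw [Multiset.mem_toFinset, mem_roots (gP_monic y).ne_zero] at hτ
        rw [Multiset.mem_toFinset, mem_roots hp0]
        exact hpe τ hτ
      have h2 := Finset.card_le_card h1
      rw [hcard] at h2
      have h3 := (Multiset.toFinset_card_le p.roots).trans (card_roots' p)
      have h4 : p.natDegree < e := by
        rw [natDegree_lt_iff_degree_lt hp0]
        exact hp
      omega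
    have hdiff : ∀ k : Fin (s + 2), (rowP y k - rowP y' k).degree < e := fun k =>
      (degree_sub_le _ _).trans_lt (max_lt (rowP_deg y k) (rowP_deg y' k))
    have hg : rowP y 0 = rowP y' 0 := by
      apply sub_eq_zero.1
      apply key _ (hdiff 0)
      intro τ hτ
      have h1 := (hroot τ hτ).1
      unfold gP at hτ h1
      rw [eval_add] at hτ h1
      rw [eval_sub]
      linear_combination hτ - h1
    have hgg : gP y = gP y' := by
      unfold gP
      rw [hg]
    have hu : ∀ t : Fin s, rowP y t.succ.succ = rowP y' t.succ.succ := by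
      intro t
      apply sub_eq_zero.1
      apply key _ (hdiff _)
      intro τ hτ
      rw [eval_sub, (hroot τ hτ).2 t, sub_self]
    have hq : rowP y 1 = rowP y' 1 := by
      apply sub_eq_zero.1
      apply key _ (hdiff 1)
      intro τ hτ
      obtain ⟨c, hc⟩ := hy.2.2
      obtain ⟨c', hc'⟩ := hy'.2.2
      unfold Hsep at hc hc'
      rw [← hgg] at hc'
      have h1 := congrArg (eval τ) hc
      have h2 := congrArg (eval τ) hc'
      rw [eval_sub, eval_mul, eval_mul, hτ, zero_mul, eval_one] at h1 h2
      have h3 : (derivative (gP y)).eval τ ≠ 0 := by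
        intro h0
        rw [h0, mul_zero, zero_sub] at h1
        exact one_ne_zero (neg_eq_zero.1 h1)
      rw [eval_sub]
      have h4 : ((rowP y 1).eval τ - (rowP y' 1).eval τ) * (derivative (gP y)).eval τ = 0 := by
        linear_combination h1 - h2
      exact (mul_eq_zero.1 h4).resolve_right h3
    have hall : ∀ k : Fin (s + 2), rowP y k = rowP y' k := by
      intro k
      refine Fin.cases hg (fun k => ?_) k
      refine Fin.cases hq (fun k => ?_) k
      exact hu k
    funext v
    obtain ⟨k, i⟩ := v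
    rw [← rowP_coeff y k i, ← rowP_coeff y' k i, hall k]

end

end Pool.Agent.J4H11.GQ
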