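import Pool.Agent.J4H11.GQ.T10

/-!
# The field generated by the coordinates of `n R + S`
-/

set_option autoImplicit false
set_option linter.unusedSectionVars false

open Polynomial Pool.Agent.J4H11.RC Pool.Agent.J4H11.SC Pool.Agent.H901R3.MS WeierstrassCurve
  Pool.Agent.J4H11.GP Pool.Agent.J4H11.GN

attribute [local instance 5000] Classical.propDecidable

namespace Pool.Agent.J4H11.GQ

theorem fld_lin {r : ℕ} {a b : Fin r → ℤ} (hDQ : ∀ j, Disc (a j : ℚ) (b j : ℚ))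
    (P R S : (j : Fin r) → Pt (a j : ℂ) (b j : ℂ)) (n : ℕ)
    (h : ∀ j, linC n (R j) (S j) = P j ∧ IsRatP (S j)) : fld P ≤ fld R := by
  have hD : ∀ j, Disc (a j : ℂ) (b j : ℂ) := fun j => disc_of (Rat.castHom ℂ) _ _ (hDQ j)
  have key : ∀ j, (crd (P j)).1 ∈ fld R ∧ (crd (P j)).2 ∈ fld R := by
    intro j
    obtain ⟨h1, h2⟩ := h j
    obtain ⟨R0, hR0⟩ := rat_lift (hDQ j) (hD j) (S j) h2
    have h3 := crd_field (fld R) (hD j) (R j) (Subfield.subset_closure (Or.inl ⟨j, rfl⟩))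
      (Subfield.subset_closure (Or.inr ⟨j, rfl⟩)) n R0
    rw [hR0, ← lin_cl (fun a b => Classical.propDecidable (a = b)), linC_lin, h1] at h3
    exact h3
  unfold fld
  rw [Subfield.closure_le]
  rintro z (⟨j, rfl⟩ | ⟨j, rfl⟩)
  · exact (key j).1
  · exact (key j).2

end Pool.Agent.J4H11.GQ
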