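import Pool.Agent.J4H11.GQ.N3
import Pool.Agent.J4H11.GQ.N4
import Pool.Agent.J4H11.RC.Low

/-!
# The dichotomy for the points of bounded degree over `ℚ`
-/

set_option autoImplicit false
set_option linter.unusedSectionVars false

open Finset Module Pool.Agent.J4H11.RC Pool.Agent.J4H11.SC Pool.Agent.H901R3.MS
  WeierstrassCurve Pool.Agent.J4H11.GN Pool.Agent.J4H11.GP

namespace Pool.Agent.J4H11.GQ

/-- the equations in variables with numbers -/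
def YR {M : Type} [CommRing M] {s : ℕ} (e x : ℕ) (𝒢 : Set (MvPolynomial (Fin s) M)) :
    Set (MvPolynomial (Fin ((s + 2) * e)) M) :=
  (MvPolynomial.rename finProdFinEquiv) '' YS e x 𝒢

theorem YR_iff {M A : Type} [CommRing M] [CommRing A] {s : ℕ} (e x : ℕ)
    (𝒢 : Set (MvPolynomial (Fin s) M)) (ε : M →+* A) (ζ : Fin ((s + 2) * e) → A) :
    (∀ c ∈ YR e x 𝒢, MvPolynomial.eval₂ ε ζ c = 0) ↔
      IsY ε x 𝒢 (fun v : Fin (s + 2) × Fin e => ζ (finProdFinEquiv v)) := by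
  rw [← YS_iff]
  constructor
  · intro h c hc
    have h1 := h _ ⟨c, hc, rfl⟩
    rw [MvPolynomial.eval₂_rename] at h1
    exact h1
  · rintro h _ ⟨c, hc, rfl⟩
    rw [MvPolynomial.eval₂_rename]
    exact h c hc

theorem YR_fin {M : Type} [CommRing M] {s : ℕ} (e x : ℕ)
    (𝒢 : Set (MvPolynomial (Fin s) M)) (ε : M →+* ℂ)
    (hS : {z : Fin s → ℂ | ∀ G ∈ 𝒢, MvPolynomial.eval₂ ε z G = 0}.Finite) :
    {ζ : Fin ((s + 2) * e) → ℂ | ∀ c ∈ YR e x 𝒢, MvPolynomial.eval₂ ε ζ c = 0}.Finite := by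
  have h1 := Y_fin (e := e) ε x 𝒢 hS
  refine Set.Finite.of_injOn (f := fun ζ v => ζ (finProdFinEquiv v)) ?_ ?_ h1
  · intro ζ hζ
    exact (YR_iff e x 𝒢 ε ζ).1 hζ
  · intro ζ _ ζ' _ h
    funext v
    have h2 := congrFun h (finProdFinEquiv.symm v)
    simp only [Equiv.apply_symm_apply] at h2
    exact h2

/-- a ring homomorphism to `ℂ` with values in a subfield -/
theorem YR_sub {M : Type} [CommRing M] {s : ℕ} (e x : ℕ)
    (𝒢 : Set (MvPolynomial (Fin s) M)) (k : Subfield ℂ) (ε : M →+* k)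
    (ζ : Fin ((s + 2) * e) → k) :
    (∀ c ∈ YR e x 𝒢, MvPolynomial.eval₂ ((algebraMap k ℂ).comp ε) (fun v => (ζ v : ℂ)) c = 0) ↔
      IsY ε x 𝒢 (fun v : Fin (s + 2) × Fin e => ζ (finProdFinEquiv v)) := by
  rw [← YR_iff]
  refine forall₂_congr fun c hc => ?_
  have h1 := MvPolynomial.eval₂_comp_left (algebraMap k ℂ) ε ζ c
  have h2 : (⇑(algebraMap k ℂ) ∘ ζ) = fun v => (ζ v : ℂ) := rfl
  rw [h2] at h1
  rw [← h1]
  exact map_eq_zero_iff _ (algebraMap k ℂ).injective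

section
variable {r s : ℕ}

theorem dich_deg (hr : 1 ≤ r) (a b : Fin r → ℤ) (hDQ : ∀ j, Disc (a j : ℚ) (b j : ℚ))
    (hrk : ∀ j, 3 ≤ finrank ℤ (Pt (a j : ℚ) (b j : ℚ)))
    (P : (j : Fin r) → Pt (a j : ℂ) (b j : ℂ))
    (hind : AlgebraicIndependent ℚ (fun j => (crd (P j)).1))
    (𝒢 : Set (MvPolynomial (Fin s) (MvPolynomial (Fin r × Fin 2) ℤ)))
    (hF : {ζ : Fin s → ℂ | ∀ G ∈ 𝒢, MvPolynomial.eval₂ (evf P) ζ G = 0}.Finite)
    (d : ℕ) (hd : 1 ≤ d) :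
    ((∀ n : ℕ, 1 ≤ n → ∀ R S : (j : Fin r) → Pt (a j : ℂ) (b j : ℂ),
      (∀ j, n • R j + S j = P j) → (∀ j, IsRatP (S j)) → ∀ ζ : Fin s → ℂ,
      (∀ G ∈ 𝒢, MvPolynomial.eval₂ (evf P) ζ G = 0) → ¬ PtDeg (fld R) ζ d) →
    BallG (a := a) (b := b) (fun Q => (∀ j, Q j ≠ 0) →
      ∃ z : Fin s → ℂ, (∀ G ∈ 𝒢,
        MvPolynomial.eval₂ ((algebraMap ℚ ℂ).comp (evf Q)) z G = 0) ∧ PtDeg ℚ z d)) ∧
    ((∃ n : ℕ, 1 ≤ n ∧ ∃ R S : (j : Fin r) → Pt (a j : ℂ) (b j : ℂ),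
      (∀ j, n • R j + S j = P j) ∧ (∀ j, IsRatP (S j)) ∧ ∃ ζ : Fin s → ℂ,
      (∀ G ∈ 𝒢, MvPolynomial.eval₂ (evf P) ζ G = 0) ∧ PtDeg (fld R) ζ d) →
    ∃ κ : ℝ, 0 < κ ∧ ∃ T0 : ℝ, ∀ T : ℝ, T0 ≤ T →
      κ * T ^ (∑ j, finrank ℤ (Pt (a j : ℚ) (b j : ℚ))) ≤
        ({Q : (j : Fin r) → Pt (a j : ℚ) (b j : ℚ) | (∀ j, hx (Q j) ≤ T ^ 2) ∧
          ((∀ j, Q j ≠ 0) ∧ ∃ z : Fin s → ℂ, (∀ G ∈ 𝒢,
            MvPolynomial.eval₂ ((algebraMap ℚ ℂ).comp (evf Q)) z G = 0) ∧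
            PtDeg ℚ z d)}.ncard : ℝ)) := by
  classical
  have hmem : ∀ (n : ℕ) (R S : (j : Fin r) → Pt (a j : ℂ) (b j : ℂ)),
      (∀ j, n • R j + S j = P j) → (∀ j, IsRatP (S j)) → ∃ ε : MvPolynomial (Fin r × Fin 2) ℤ →+*
        fld R, (algebraMap (fld R) ℂ).comp ε = evf P := by
    intro n R S h1 h2
    have hle : fld P ≤ fld R := fld_lin hDQ P R S n fun j => ⟨h1 j, h2 j⟩
    have hx0 : ∀ G, evf P G ∈ fld R := by
      intro G
      induction G using MvPolynomial.induction_on with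
      | C c =>
        have : evf P (MvPolynomial.C c) = (c : ℂ) := by
          rw [show (MvPolynomial.C c : MvPolynomial (Fin r × Fin 2) ℤ) = ((c : ℤ) :
            MvPolynomial (Fin r × Fin 2) ℤ) from (map_intCast MvPolynomial.C c), map_intCast]
        rw [this]
        exact intCast_mem _ c
      | add p q hp hq =>
        rw [map_add]
        exact add_mem hp hq
      | mul_X p v hp =>
        rw [map_mul]
        refine mul_mem hp ?_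
        obtain ⟨j, e⟩ := v
        unfold evf
        rcases fin2 e with rfl | rfl
        · rw [evp_x]
          exact hle (Subfield.subset_closure (Or.inl ⟨j, rfl⟩))
        · rw [evp_y]
          exact hle (Subfield.subset_closure (Or.inr ⟨j, rfl⟩))
    exact ⟨(evf P).codRestrict (fld R) hx0, RingHom.ext fun G => rfl⟩
  constructor
  · intro hnd
    have hball : ∀ i : ℕ × ℕ, i ∈ ((Finset.Icc 1 d) ×ˢ (Finset.range (s * d + 1)) : Finset (ℕ × ℕ)) →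
        BallG (a := a) (b := b) (fun Q => (∀ j, Q j ≠ 0) →
          ∃ z : Fin ((s + 2) * i.1) → ℚ, ∀ G ∈ YR i.1 i.2 𝒢,
            MvPolynomial.eval₂ (evf Q) z G = 0) := by
      rintro ⟨e, x⟩ hi
      obtain ⟨hi1, hi2⟩ := Finset.mem_product.1 hi
      obtain ⟨he1, he2⟩ := Finset.mem_Icc.1 hi1
      refine (dich_fin hr a b hDQ hrk P hind (YR e x 𝒢) (YR_fin e x 𝒢 _ hF)).1 ?_
      intro n hn R S h1 h2 ζ hζ
      by_contra hcon
      push Not at hcon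
      obtain ⟨ε, hε⟩ := hmem n R S h1 h2
      let ζ' : Fin ((s + 2) * e) → fld R := fun v => ⟨ζ v, hcon v⟩
      have h3 : IsY ε x 𝒢 (fun v : Fin (s + 2) × Fin e => ζ' (finProdFinEquiv v)) := by
        rw [← YR_sub, hε]
        exact hζ
      obtain ⟨z, hz1, L, hL1, hL2, hL3⟩ := pt_of_Y (Ω := ℂ) ε x 𝒢 _ he1 h3
      rw [hε] at hz1
      exact hnd n hn R S h1 h2 z hz1 ⟨L, hL1, hL2.trans he2, hL3⟩
    have hU := ballG_iUnion (a := a) (b := b)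
      (((Finset.Icc 1 d) ×ˢ (Finset.range (s * d + 1)) : Finset (ℕ × ℕ)) : Set (ℕ × ℕ))
      (Finset.finite_toSet _) _ (fun i hi => hball i (Finset.mem_coe.1 hi))
    refine ballG_mono (fun Q hQ => ?_) hU
    by_cases h0 : ∀ j, Q j ≠ 0
    · obtain ⟨z, hz, hzd⟩ := hQ h0
      obtain ⟨e, x, he1, he2, hx, y, hy⟩ := Y_of_pt (evf Q) 𝒢 z d hzd hz
      refine ⟨(e, x), ?_, fun _ => ?_⟩
      · rw [Finset.mem_coe, Finset.mem_product, Finset.mem_Icc, Finset.mem_range]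
        exact ⟨⟨he1, he2⟩, by simpa using Nat.lt_succ_of_le hx⟩
      · refine ⟨fun v => y (finProdFinEquiv.symm v), ?_⟩
        rw [YR_iff]
        simp only [Equiv.symm_apply_apply]
        exact hy
    · refine ⟨(1, 0), ?_, fun h => absurd h h0⟩
      rw [Finset.mem_coe, Finset.mem_product, Finset.mem_Icc, Finset.mem_range]
      exact ⟨⟨le_rfl, hd⟩, Nat.succ_pos _⟩
  · rintro ⟨n, hn, R, S, h1, h2, ζ, hζ, hζd⟩
    obtain ⟨ε, hε⟩ := hmem n R S h1 h2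
    obtain ⟨e, x, he1, he2, hx, y, hy⟩ := Y_of_pt ε 𝒢 ζ d hζd (by rw [hε]; exact hζ)
    have h3 := (YR_sub e x 𝒢 (fld R) ε (fun v => y (finProdFinEquiv.symm v))).2 (by
      simp only [Equiv.symm_apply_apply]
      exact hy)
    rw [hε] at h3
    obtain ⟨κ, hκ, T0, hT⟩ := (dich_fin hr a b hDQ hrk P hind (YR e x 𝒢)
      (YR_fin e x 𝒢 _ hF)).2 ⟨n, hn, R, S, h1, h2, fun v => (y (finProdFinEquiv.symm v) : ℂ), h3,
        fun v => (y _).2⟩
    obtain ⟨κ', -, hlow⟩ := low_all (a := a) (b := b) hDQ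
    refine ⟨κ, hκ, max T0 1, fun T hT' => ?_⟩
    refine (hT T ((le_max_left _ _).trans hT')).trans ?_
    have hfin := (hlow T ((le_max_right _ _).trans hT')).1
    refine Nat.cast_le.2 (Set.ncard_le_ncard ?_ (hfin.subset fun Q hQ => hQ.1))
    rintro Q ⟨hQ1, hQ2, w, hw⟩
    refine ⟨hQ1, hQ2, ?_⟩
    rw [YR_iff] at hw
    obtain ⟨z, hz1, L, hL1, hL2, hL3⟩ := pt_of_Y (Ω := ℂ) (evf Q) x 𝒢 _ he1 hw
    exact ⟨z, hz1, L, hL1, hL2.trans he2, hL3⟩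

end

end Pool.Agent.J4H11.GQ
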