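import Pool.Agent.J4H11.GQ.N5

/-!
# Degrees over subfields
-/

set_option autoImplicit false
set_option linter.unusedSectionVars false

open Polynomial Module

namespace Pool.Agent.J4H11.GQ

/-- the point has its coordinates in an extension of degree at most `d` of the subfield -/
def SD (F : Subfield ℂ) {s : ℕ} (z : Fin s → ℂ) (d : ℕ) : Prop :=
  ∃ L : Subfield ℂ, F ≤ L ∧ 0 < F.relfinrank L ∧ F.relfinrank L ≤ d ∧ ∀ t, z t ∈ L

theorem relfin_toSub (F : Subfield ℂ) (L : IntermediateField F ℂ) :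
    F ≤ L.toSubfield ∧ F.relfinrank L.toSubfield = finrank F L := by
  have h : F ≤ L.toSubfield := fun x hx => L.algebraMap_mem ⟨x, hx⟩
  refine ⟨h, ?_⟩
  rw [Subfield.relfinrank_eq_finrank_of_le h]
  congr 1

theorem SD_iff (F : Subfield ℂ) {s : ℕ} (z : Fin s → ℂ) (d : ℕ) : SD F z d ↔ PtDeg F z d := by
  constructor
  · rintro ⟨L, h, h1, h2, h3⟩
    rw [Subfield.relfinrank_eq_finrank_of_le h] at h1 h2
    exact ⟨Subfield.extendScalars h, FiniteDimensional.of_finrank_pos h1, h2, h3⟩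
  · rintro ⟨L, h1, h2, h3⟩
    obtain ⟨h, h'⟩ := relfin_toSub F L
    refine ⟨L.toSubfield, h, ?_, ?_, h3⟩
    · rw [h']
      exact finrank_pos
    · rw [h']
      exact h2

theorem bot_eq : (⊥ : Subfield ℂ) = (⊥ : IntermediateField ℚ ℂ).toSubfield := by
  rw [Subfield.bot_eq_of_charZero]
  ext x
  simp only [RingHom.mem_fieldRange, IntermediateField.mem_toSubfield, IntermediateField.mem_bot]
  rfl

theorem relfin_bot (L : IntermediateField ℚ ℂ) :
    (⊥ : Subfield ℂ).relfinrank L.toSubfield = finrank ℚ L := by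
  rw [bot_eq]
  exact IntermediateField.relfinrank_bot_left (A := L)

theorem SD_bot {s : ℕ} (z : Fin s → ℂ) (d : ℕ) : SD ⊥ z d ↔ PtDeg ℚ z d := by
  constructor
  · rintro ⟨L, h, h1, h2, h3⟩
    have hb : ∀ x : ℚ, algebraMap ℚ ℂ x ∈ (⊥ : Subfield ℂ) := by
      intro x
      rw [Subfield.bot_eq_of_charZero]
      exact ⟨x, rfl⟩
    let L' : IntermediateField ℚ ℂ := L.toIntermediateField (fun x => h (hb x))
    have h4 : (⊥ : Subfield ℂ).relfinrank L = finrank ℚ L' := relfin_bot L'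
    rw [h4] at h1 h2
    exact ⟨L', FiniteDimensional.of_finrank_pos h1, h2, h3⟩
  · rintro ⟨L, h1, h2, h3⟩
    refine ⟨L.toSubfield, bot_le, ?_, ?_, h3⟩
    · rw [relfin_bot]
      exact finrank_pos
    · rw [relfin_bot]
      exact h2

/-- going down to a smaller field -/
theorem SD_up (F F' : Subfield ℂ) (h : F ≤ F') (h0 : 0 < F.relfinrank F') {s : ℕ}
    (z : Fin s → ℂ) (x : ℂ) (hx : x ∈ F') (d : ℕ) (hz : SD F' z d) :
    SD F (Fin.snoc (α := fun _ => ℂ) z x) (F.relfinrank F' * d) := by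
  obtain ⟨L, h1, h2, h3, h4⟩ := hz
  have h5 := Subfield.relfinrank_mul_relfinrank h h1
  refine ⟨L, h.trans h1, ?_, ?_, fun t => ?_⟩
  · rw [← h5]
    exact Nat.mul_pos h0 h2
  · rw [← h5]
    exact Nat.mul_le_mul_left _ h3
  · refine Fin.lastCases ?_ (fun i => ?_) t
    · rw [Fin.snoc_last]
      exact h1 hx
    · rw [Fin.snoc_castSucc]
      exact h4 i

/-- going up to a bigger field -/
theorem SD_down (F F' L : Subfield ℂ) (h : F ≤ F') (h0 : 0 < F.relfinrank F') (hL : F' ≤ L)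
    {s : ℕ} (z : Fin s → ℂ) (d : ℕ) (h1 : 0 < F.relfinrank L)
    (h2 : F.relfinrank L ≤ F.relfinrank F' * d) (hz : ∀ t, z t ∈ L) : SD F' z d := by
  have h5 := Subfield.relfinrank_mul_relfinrank h hL
  rw [← h5] at h1 h2
  exact ⟨L, hL, Nat.pos_of_ne_zero fun h => by simp [h] at h1, Nat.le_of_mul_le_mul_left h2 h0, hz⟩

end Pool.Agent.J4H11.GQ
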