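import Pool.Agent.J4H11.GQ.N6

/-!
# Conjugate points
-/

set_option autoImplicit false
set_option linter.unusedSectionVars false

open Polynomial Module

namespace Pool.Agent.J4H11.GQ

theorem conj_ptG {k : Type} [Field k] [Algebra k ℂ] {M : Type} [CommRing M] {s : ℕ}
    (ε : M →+* k) (𝒢 : Set (MvPolynomial (Fin s) M)) (z : Fin s → ℂ) (θ' θ : ℂ)
    (L : IntermediateField k ℂ) [FiniteDimensional k L] (hz : ∀ t, z t ∈ L) (hθ' : θ' ∈ L)
    (h : aeval θ (minpoly k θ') = 0)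
    (hG : ∀ G ∈ 𝒢, MvPolynomial.eval₂ ((algebraMap k ℂ).comp ε) z G = 0) :
    ∃ (z' : Fin s → ℂ) (L' : IntermediateField k ℂ),
      (∀ G ∈ 𝒢, MvPolynomial.eval₂ ((algebraMap k ℂ).comp ε) z' G = 0) ∧
      (∀ t, z' t ∈ L') ∧ θ ∈ L' ∧ FiniteDimensional k L' ∧ finrank k L' = finrank k L := by
  have hsp : ∀ x : L, IsIntegral k x ∧ Splits ((minpoly k x).map (algebraMap k ℂ)) := fun x =>
    ⟨Algebra.IsIntegral.isIntegral x, IsAlgClosed.splits _⟩
  have hmp : minpoly k (⟨θ', hθ'⟩ : L) = minpoly k θ' := by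
    rw [← minpoly.algebraMap_eq (algebraMap L ℂ).injective]
    rfl
  obtain ⟨φ, hφ⟩ := IntermediateField.exists_algHom_of_splits_of_aeval (F := k) (K := ℂ)
    (x := (⟨θ', hθ'⟩ : L)) (y := θ) hsp (by rw [hmp]; exact h)
  let e : L ≃ₐ[k] φ.fieldRange := AlgEquiv.ofInjectiveField φ
  refine ⟨fun t => φ ⟨z t, hz t⟩, φ.fieldRange, ?_, fun t => ⟨_, rfl⟩, ⟨_, hφ⟩,
    LinearEquiv.finiteDimensional e.toLinearEquiv, (LinearEquiv.finrank_eq e.toLinearEquiv).symm⟩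
  intro G hG'
  have h1 := hG G hG'
  have h2 := MvPolynomial.eval₂_comp_left (algebraMap L ℂ) ((algebraMap k L).comp ε)
    (fun t => (⟨z t, hz t⟩ : L)) G
  have h3 : (algebraMap L ℂ).comp ((algebraMap k L).comp ε) = (algebraMap k ℂ).comp ε := by
    rw [← RingHom.comp_assoc, ← IsScalarTower.algebraMap_eq]
  have h4 : (⇑(algebraMap L ℂ) ∘ fun t => (⟨z t, hz t⟩ : L)) = z := rfl
  rw [h3, h4, h1] at h2
  have h5 : MvPolynomial.eval₂ ((algebraMap k L).comp ε) (fun t => (⟨z t, hz t⟩ : L)) G = 0 :=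
    (map_eq_zero_iff _ (algebraMap L ℂ).injective).1 h2
  have h6 := MvPolynomial.eval₂_comp_left (φ : L →+* ℂ) ((algebraMap k L).comp ε)
    (fun t => (⟨z t, hz t⟩ : L)) G
  rw [h5, map_zero] at h6
  have h7 : (φ : L →+* ℂ).comp ((algebraMap k L).comp ε) = (algebraMap k ℂ).comp ε := by
    rw [← RingHom.comp_assoc]
    congr 1
    exact RingHom.ext fun x => φ.commutes x
  rw [h7] at h6
  exact h6.symm

end Pool.Agent.J4H11.GQ
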