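import Pool.Agent.J4H11.GQ.N7

/-!
# Algebraic numbers in the field of a generic point
-/

set_option autoImplicit false
set_option linter.unusedSectionVars false

open Finset Module Polynomial Pool.Agent.J4H11.RC Pool.Agent.J4H11.SC Pool.Agent.H901R3.MS
  WeierstrassCurve Pool.Agent.J4H11.GN Pool.Agent.J4H11.GP

namespace Pool.Agent.J4H11.GQ

/-- an integer polynomial as an equation for one of the variables -/
noncomputable def oneP {M : Type} [CommRing M] {s : ℕ} (ν : ℤ[X]) (t : Fin s) :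
    MvPolynomial (Fin s) M :=
  ν.eval₂ (Int.castRingHom _) (MvPolynomial.X t)

theorem oneP_eval {M A : Type} [CommRing M] [CommRing A] {s : ℕ} (ν : ℤ[X]) (t : Fin s)
    (ε : M →+* A) (z : Fin s → A) :
    MvPolynomial.eval₂ ε z (oneP ν t) = ν.eval₂ (Int.castRingHom A) (z t) := by
  unfold oneP
  rw [← MvPolynomial.coe_eval₂Hom, Polynomial.hom_eval₂, MvPolynomial.coe_eval₂Hom,
    MvPolynomial.eval₂_X]
  congr 1
  exact Subsingleton.elim _ _

theorem int_mult (q : ℚ[X]) : ∃ ν : ℤ[X], ∀ (A : Type) [Field A] [CharZero A]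
    [Algebra ℚ A] (x : A), ν.eval₂ (Int.castRingHom A) x = 0 ↔ aeval x q = 0 := by
  obtain ⟨b, hb, h⟩ := IsLocalization.integerNormalization_spec (nonZeroDivisors ℤ) q
  refine ⟨IsLocalization.integerNormalization (nonZeroDivisors ℤ) q, fun A _ _ _ x => ?_⟩
  have h1 : (Int.castRingHom A) = (algebraMap ℚ A).comp (algebraMap ℤ ℚ) :=
    Subsingleton.elim _ _
  have h0 : eval₂ (algebraMap ℚ A) x ((b : ℤ) : ℚ[X]) = (b : A) :=
    map_intCast (eval₂RingHom (algebraMap ℚ A) x) b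
  rw [h1, ← eval₂_map, h, zsmul_eq_mul, eval₂_mul, h0, mul_eq_zero]
  have hb0 : (b : A) ≠ 0 := Int.cast_ne_zero.2 (nonZeroDivisors.ne_zero hb)
  constructor
  · rintro (h2 | h2)
    · exact absurd h2 hb0
    · exact h2
  · exact fun h2 => Or.inr h2

section
variable {r : ℕ}

theorem alg_rat (hr : 1 ≤ r) (a b : Fin r → ℤ) (hDQ : ∀ j, Disc (a j : ℚ) (b j : ℚ))
    (hrk : ∀ j, 3 ≤ finrank ℤ (Pt (a j : ℚ) (b j : ℚ)))
    (P : (j : Fin r) → Pt (a j : ℂ) (b j : ℂ))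
    (hind : AlgebraicIndependent ℚ (fun j => (crd (P j)).1))
    (n : ℕ) (hn : 1 ≤ n) (R S : (j : Fin r) → Pt (a j : ℂ) (b j : ℂ))
    (h1 : ∀ j, n • R j + S j = P j) (h2 : ∀ j, IsRatP (S j)) (α : ℂ) (hα : α ∈ fld R)
    (hint : IsIntegral ℚ α) : ∃ c : ℚ, algebraMap ℚ ℂ c = α := by
  obtain ⟨ν, hν⟩ := int_mult (minpoly ℚ α)
  have hfin : {ζ : Fin 1 → ℂ | ∀ G ∈ ({oneP ν (0 : Fin 1)} :
      Set (MvPolynomial (Fin 1) (MvPolynomial (Fin r × Fin 2) ℤ))),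
      MvPolynomial.eval₂ (evf P) ζ G = 0}.Finite := by
    refine Set.Finite.of_injOn (f := fun ζ => ζ 0) (t := (minpoly ℚ α).rootSet ℂ) ?_ ?_
      (Polynomial.rootSet_finite _ _)
    · intro ζ hζ
      have h3 := hζ _ rfl
      rw [oneP_eval, hν] at h3
      exact (mem_rootSet.2 ⟨minpoly.ne_zero hint, h3⟩)
    · intro ζ _ ζ' _ h
      funext t
      rw [Subsingleton.elim t 0]
      exact h
  obtain ⟨κ, hκ, T0, hT⟩ := (dich_fin hr a b hDQ hrk P hind _ hfin).2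
    ⟨n, hn, R, S, h1, h2, fun _ => α, (by
      rintro G rfl
      rw [oneP_eval, hν]
      exact minpoly.aeval ℚ α), fun _ => hα⟩
  have h3 := hT (max T0 1) (le_max_left _ _)
  have h4 : (0 : ℝ) < κ * (max T0 1) ^ (∑ j, finrank ℤ (Pt (a j : ℚ) (b j : ℚ))) :=
    mul_pos hκ (pow_pos (lt_of_lt_of_le one_pos (le_max_right _ _)) _)
  have h5 := h4.trans_le h3
  obtain ⟨Q, -, -, z, hz⟩ := Set.nonempty_of_ncard_ne_zero
    (Nat.pos_iff_ne_zero.1 (Nat.cast_pos.1 h5))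
  have h6 := hz _ rfl
  rw [oneP_eval, hν] at h6
  have h7 : (minpoly ℚ α).degree = 1 :=
    degree_eq_one_of_irreducible_of_root (minpoly.irreducible hint) (x := z 0) (by
      rw [IsRoot.def, ← coe_aeval_eq_eval]
      exact h6)
  exact minpoly.mem_range_of_degree_eq_one ℚ α h7

theorem minpoly_fld (hr : 1 ≤ r) (a b : Fin r → ℤ) (hDQ : ∀ j, Disc (a j : ℚ) (b j : ℚ))
    (hrk : ∀ j, 3 ≤ finrank ℤ (Pt (a j : ℚ) (b j : ℚ)))
    (P : (j : Fin r) → Pt (a j : ℂ) (b j : ℂ))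
    (hind : AlgebraicIndependent ℚ (fun j => (crd (P j)).1))
    (n : ℕ) (hn : 1 ≤ n) (R S : (j : Fin r) → Pt (a j : ℂ) (b j : ℂ))
    (h1 : ∀ j, n • R j + S j = P j) (h2 : ∀ j, IsRatP (S j)) (θ : ℂ)
    (hθ : IsIntegral ℚ θ) :
    minpoly (fld R) θ = (minpoly ℚ θ).map (algebraMap ℚ (fld R)) := by
  have hθ' : IsIntegral (fld R) θ := hθ.tower_top
  have hd : minpoly (fld R) θ ∣ (minpoly ℚ θ).map (algebraMap ℚ (fld R)) :=
    minpoly.dvd_map_of_isScalarTower ℚ (fld R) θ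
  have hl := integralClosure.mem_lifts_of_monic_of_dvd_map (fld R) (minpoly.monic hθ)
    (minpoly.monic hθ') hd
  have hl2 : minpoly (fld R) θ ∈ lifts (algebraMap ℚ (fld R)) := by
    rw [lifts_iff_coeff_lifts] at hl ⊢
    intro i
    obtain ⟨c, hc⟩ := hl i
    have h3 : IsIntegral ℚ ((minpoly (fld R) θ).coeff i) := by
      rw [← hc]
      exact c.2
    obtain ⟨q, hq⟩ := alg_rat hr a b hDQ hrk P hind n hn R S h1 h2
      ((minpoly (fld R) θ).coeff i : ℂ) ((minpoly (fld R) θ).coeff i).2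
      (h3.map (IsScalarTower.toAlgHom ℚ (fld R) ℂ))
    refine ⟨q, ?_⟩
    apply (algebraMap (fld R) ℂ).injective
    rw [← IsScalarTower.algebraMap_apply]
    exact hq
  obtain ⟨g0, hg0⟩ := (mem_lifts _).1 hl2
  have h4 : aeval θ g0 = 0 := by
    have h5 := minpoly.aeval (fld R) θ
    rw [← hg0, aeval_map_algebraMap] at h5
    exact h5
  have h5 : (minpoly ℚ θ).map (algebraMap ℚ (fld R)) ∣ minpoly (fld R) θ := by
    rw [← hg0]
    exact Polynomial.map_dvd _ (minpoly.dvd ℚ θ h4)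
  exact eq_of_monic_of_associated (minpoly.monic hθ') ((minpoly.monic hθ).map _)
    (associated_of_dvd_dvd hd h5)

theorem conj_fld (hr : 1 ≤ r) (a b : Fin r → ℤ) (hDQ : ∀ j, Disc (a j : ℚ) (b j : ℚ))
    (hrk : ∀ j, 3 ≤ finrank ℤ (Pt (a j : ℚ) (b j : ℚ)))
    (P : (j : Fin r) → Pt (a j : ℂ) (b j : ℂ))
    (hind : AlgebraicIndependent ℚ (fun j => (crd (P j)).1))
    (n : ℕ) (hn : 1 ≤ n) (R S : (j : Fin r) → Pt (a j : ℂ) (b j : ℂ))
    (h1 : ∀ j, n • R j + S j = P j) (h2 : ∀ j, IsRatP (S j)) (θ : ℂ)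
    (hθ : IsIntegral ℚ θ) (θ' : ℂ) (h : aeval θ' (minpoly ℚ θ) = 0) :
    aeval θ (minpoly (fld R) θ') = 0 := by
  have h3 : minpoly ℚ θ = minpoly ℚ θ' :=
    minpoly.eq_of_irreducible_of_monic (minpoly.irreducible hθ) h (minpoly.monic hθ)
  have h4 : IsIntegral ℚ θ' := ⟨minpoly ℚ θ, minpoly.monic hθ, h⟩
  rw [minpoly_fld hr a b hDQ hrk P hind n hn R S h1 h2 θ' h4, ← h3, aeval_map_algebraMap]
  exact minpoly.aeval ℚ θ

theorem conj_rat (θ θ' : ℂ) (hθ : IsIntegral ℚ θ) (h : aeval θ' (minpoly ℚ θ) = 0) :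
    aeval θ (minpoly ℚ θ') = 0 := by
  have h3 : minpoly ℚ θ = minpoly ℚ θ' :=
    minpoly.eq_of_irreducible_of_monic (minpoly.irreducible hθ) h (minpoly.monic hθ)
  rw [← h3]
  exact minpoly.aeval ℚ θ

end

end Pool.Agent.J4H11.GQ
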