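import Pool.Agent.J4H11.GQ.N8

/-!
# The dichotomy over number fields
-/

set_option autoImplicit false
set_option linter.unusedSectionVars false

open Finset Module Polynomial Pool.Agent.J4H11.RC Pool.Agent.J4H11.SC Pool.Agent.H901R3.MS
  WeierstrassCurve Pool.Agent.J4H11.GN Pool.Agent.J4H11.GP

namespace Pool.Agent.J4H11.GQ

/-- the equations with an additional variable for a generator of the number field -/
noncomputable def addP {M : Type} [CommRing M] {s : ℕ} (ν : ℤ[X])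
    (𝒢 : Set (MvPolynomial (Fin s) M)) : Set (MvPolynomial (Fin (s + 1)) M) :=
  (MvPolynomial.rename Fin.castSucc '' 𝒢) ∪ {oneP ν (Fin.last s)}

theorem addP_iff {M A : Type} [CommRing M] [CommRing A] {s : ℕ} (ν : ℤ[X])
    (𝒢 : Set (MvPolynomial (Fin s) M)) (ε : M →+* A) (z : Fin (s + 1) → A) :
    (∀ G ∈ addP ν 𝒢, MvPolynomial.eval₂ ε z G = 0) ↔
      (∀ G ∈ 𝒢, MvPolynomial.eval₂ ε (fun t => z t.castSucc) G = 0) ∧
      ν.eval₂ (Int.castRingHom A) (z (Fin.last s)) = 0 := by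
  constructor
  · intro h
    constructor
    · intro G hG
      have h1 := h _ (Or.inl ⟨G, hG, rfl⟩)
      rw [MvPolynomial.eval₂_rename] at h1
      exact h1
    · have h1 := h _ (Or.inr rfl)
      rw [oneP_eval] at h1
      exact h1
  · rintro ⟨h1, h2⟩ _ (⟨G, hG, rfl⟩ | rfl)
    · rw [MvPolynomial.eval₂_rename]
      exact h1 G hG
    · rw [oneP_eval]
      exact h2

theorem addP_fin {M : Type} [CommRing M] {s : ℕ} (q : ℚ[X]) (hq : q ≠ 0) (ν : ℤ[X])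
    (hν : ∀ x : ℂ, ν.eval₂ (Int.castRingHom ℂ) x = 0 ↔ aeval x q = 0)
    (𝒢 : Set (MvPolynomial (Fin s) M)) (ε : M →+* ℂ)
    (hF : {z : Fin s → ℂ | ∀ G ∈ 𝒢, MvPolynomial.eval₂ ε z G = 0}.Finite) :
    {z : Fin (s + 1) → ℂ | ∀ G ∈ addP ν 𝒢, MvPolynomial.eval₂ ε z G = 0}.Finite := by
  refine Set.Finite.of_injOn (f := fun z => ((fun t => z t.castSucc : Fin s → ℂ), z (Fin.last s)))
    (t := {z : Fin s → ℂ | ∀ G ∈ 𝒢, MvPolynomial.eval₂ ε z G = 0} ×ˢ (q.rootSet ℂ)) ?_ ?_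
    (hF.prod (Polynomial.rootSet_finite _ _))
  · intro z hz
    obtain ⟨h1, h2⟩ := (addP_iff ν 𝒢 ε z).1 hz
    rw [hν] at h2
    exact ⟨h1, mem_rootSet.2 ⟨hq, h2⟩⟩
  · intro z _ z' _ h
    obtain ⟨h1, h2⟩ := Prod.mk.inj h
    funext t
    refine Fin.lastCases h2 (fun i => congrFun h1 i) t

section
variable {r s : ℕ}

theorem evf_fld (a b : Fin r → ℤ) (hDQ : ∀ j, Disc (a j : ℚ) (b j : ℚ))
    (P : (j : Fin r) → Pt (a j : ℂ) (b j : ℂ)) (n : ℕ)
    (R S : (j : Fin r) → Pt (a j : ℂ) (b j : ℂ))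
    (h1 : ∀ j, n • R j + S j = P j) (h2 : ∀ j, IsRatP (S j)) :
    ∃ ε : MvPolynomial (Fin r × Fin 2) ℤ →+* fld R, (algebraMap (fld R) ℂ).comp ε = evf P := by
  have hle : fld P ≤ fld R := fld_lin hDQ P R S n fun j => ⟨h1 j, h2 j⟩
  have hx0 : ∀ G, evf P G ∈ fld R := by
    intro G
    induction G using MvPolynomial.induction_on with
    | C c =>
      have : evf P (MvPolynomial.C c) = (c : ℂ) := by
        rw [show (MvPolynomial.C c : MvPolynomial (Fin r × Fin 2) ℤ) = ((c : ℤ) :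
          MvPolynomial (Fin r × Fin 2) ℤ) from (map_intCast MvPolynomial.C c), map_intCast]
      rw [this]
      exact intCast_mem _ c
    | add p q hp hq =>
      rw [map_add]
      exact add_mem hp hq
    | mul_X p v hp =>
      rw [map_mul]
      refine mul_mem hp ?_
      obtain ⟨j, e⟩ := v
      unfold evf
      rcases fin2 e with rfl | rfl
      · rw [evp_x]
        exact hle (Subfield.subset_closure (Or.inl ⟨j, rfl⟩))
      · rw [evp_y]
        exact hle (Subfield.subset_closure (Or.inr ⟨j, rfl⟩))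
  exact ⟨(evf P).codRestrict (fld R) hx0, RingHom.ext fun G => rfl⟩

theorem dich_K (hr : 1 ≤ r) (a b : Fin r → ℤ) (hDQ : ∀ j, Disc (a j : ℚ) (b j : ℚ))
    (hrk : ∀ j, 3 ≤ finrank ℤ (Pt (a j : ℚ) (b j : ℚ)))
    (P : (j : Fin r) → Pt (a j : ℂ) (b j : ℂ))
    (hind : AlgebraicIndependent ℚ (fun j => (crd (P j)).1))
    (𝒢 : Set (MvPolynomial (Fin s) (MvPolynomial (Fin r × Fin 2) ℤ)))
    (hF : {ζ : Fin s → ℂ | ∀ G ∈ 𝒢, MvPolynomial.eval₂ (evf P) ζ G = 0}.Finite)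
    (K : IntermediateField ℚ ℂ) [FiniteDimensional ℚ K] (d : ℕ) (hd : 1 ≤ d) :
    ((∀ n : ℕ, 1 ≤ n → ∀ R S : (j : Fin r) → Pt (a j : ℂ) (b j : ℂ),
      (∀ j, n • R j + S j = P j) → (∀ j, IsRatP (S j)) → ∀ ζ : Fin s → ℂ,
      (∀ G ∈ 𝒢, MvPolynomial.eval₂ (evf P) ζ G = 0) → ¬ SD (K.toSubfield ⊔ fld R) ζ d) →
    BallG (a := a) (b := b) (fun Q => (∀ j, Q j ≠ 0) →
      ∃ z : Fin s → ℂ, (∀ G ∈ 𝒢,
        MvPolynomial.eval₂ ((algebraMap ℚ ℂ).comp (evf Q)) z G = 0) ∧ SD K.toSubfield z d)) ∧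
    ((∃ n : ℕ, 1 ≤ n ∧ ∃ R S : (j : Fin r) → Pt (a j : ℂ) (b j : ℂ),
      (∀ j, n • R j + S j = P j) ∧ (∀ j, IsRatP (S j)) ∧ ∃ ζ : Fin s → ℂ,
      (∀ G ∈ 𝒢, MvPolynomial.eval₂ (evf P) ζ G = 0) ∧ SD (K.toSubfield ⊔ fld R) ζ d) →
    ∃ κ : ℝ, 0 < κ ∧ ∃ T0 : ℝ, ∀ T : ℝ, T0 ≤ T →
      κ * T ^ (∑ j, finrank ℤ (Pt (a j : ℚ) (b j : ℚ))) ≤
        ({Q : (j : Fin r) → Pt (a j : ℚ) (b j : ℚ) | (∀ j, hx (Q j) ≤ T ^ 2) ∧
          ((∀ j, Q j ≠ 0) ∧ ∃ z : Fin s → ℂ, (∀ G ∈ 𝒢,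
            MvPolynomial.eval₂ ((algebraMap ℚ ℂ).comp (evf Q)) z G = 0) ∧
            SD K.toSubfield z d)}.ncard : ℝ)) := by
  classical
  obtain ⟨α, hα⟩ := Field.exists_primitive_element ℚ K
  have hθK : IntermediateField.adjoin ℚ {(α : ℂ)} = K := by
    have h1 := congrArg IntermediateField.lift hα
    have h2 := IntermediateField.lift_adjoin_simple (F := ℚ) K α
    have h3 := IntermediateField.lift_top (F := ℚ) K
    exact h2.symm.trans (h1.trans h3)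
  obtain ⟨θ, hθα⟩ : ∃ θ : ℂ, θ = (α : ℂ) := ⟨_, rfl⟩
  rw [← hθα] at hθK
  have hθ : IsIntegral ℚ θ := by
    rw [hθα]
    exact (Algebra.IsIntegral.isIntegral α).map K.val
  have hθmem : θ ∈ K := by
    rw [hθα]
    exact α.2
  have hm : finrank ℚ K = (minpoly ℚ θ).natDegree := by
    have h1 := IntermediateField.adjoin.finrank hθ
    rw [hθK] at h1
    exact h1
  have hmpos : 0 < finrank ℚ K := finrank_pos
  have hrel0 : (⊥ : Subfield ℂ).relfinrank K.toSubfield = finrank ℚ K := relfin_bot K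
  obtain ⟨ν, hν⟩ := int_mult (minpoly ℚ θ)
  have hsub : ∀ R : (j : Fin r) → Pt (a j : ℂ) (b j : ℂ),
      (IntermediateField.adjoin (fld R) {θ}).toSubfield = K.toSubfield ⊔ fld R := by
    intro R
    refine le_antisymm ?_ (sup_le ?_ ?_)
    · refine Subfield.closure_le.2 ?_
      rintro x (⟨y, rfl⟩ | hx)
      · exact (le_sup_right : fld R ≤ K.toSubfield ⊔ fld R) y.2
      · rw [Set.mem_singleton_iff.1 hx]
        exact (le_sup_left : K.toSubfield ≤ K.toSubfield ⊔ fld R) hθmem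
    · rw [← hθK]
      refine Subfield.closure_le.2 ?_
      rintro x (⟨y, rfl⟩ | hx)
      · have : algebraMap ℚ ℂ y = algebraMap (fld R) ℂ (algebraMap ℚ (fld R) y) := by
          rw [← IsScalarTower.algebraMap_apply]
        rw [this]
        exact (IntermediateField.adjoin (fld R) {θ}).algebraMap_mem _
      · rw [Set.mem_singleton_iff.1 hx]
        exact IntermediateField.mem_adjoin_simple_self (fld R) θ
    · intro x hx
      exact (IntermediateField.adjoin (fld R) {θ}).algebraMap_mem ⟨x, hx⟩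
  have hrel : ∀ (n : ℕ), 1 ≤ n → ∀ (R S : (j : Fin r) → Pt (a j : ℂ) (b j : ℂ)),
      (∀ j, n • R j + S j = P j) → (∀ j, IsRatP (S j)) →
      (fld R).relfinrank (K.toSubfield ⊔ fld R) = finrank ℚ K := by
    intro n hn R S h1 h2
    rw [← hsub R, (relfin_toSub _ _).2, IntermediateField.adjoin.finrank hθ.tower_top,
      minpoly_fld hr a b hDQ hrk P hind n hn R S h1 h2 θ hθ, natDegree_map, hm]
  have hmd : 1 ≤ finrank ℚ K * d := Nat.mul_pos hmpos hd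
  have hF' := addP_fin (minpoly ℚ θ) (minpoly.ne_zero hθ) ν (hν ℂ) 𝒢 _ hF
  have hD := dich_deg hr a b hDQ hrk P hind (addP ν 𝒢) hF' (finrank ℚ K * d) hmd
  constructor
  · intro hnd
    have hB := hD.1 (by
      intro n hn R S h1 h2 ζ hζ hP
      obtain ⟨hζ1, hζ2⟩ := (addP_iff ν 𝒢 _ ζ).1 hζ
      rw [hν] at hζ2
      obtain ⟨L, hL1, hL2, hL3⟩ := hP
      obtain ⟨ε, hε⟩ := evf_fld a b hDQ P n R S h1 h2
      obtain ⟨z', L', hz', hzL', hθL', hfd, hfr⟩ := conj_ptG ε 𝒢 (fun t => ζ t.castSucc)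
        (ζ (Fin.last s)) θ L (fun t => hL3 _) (hL3 _)
        (conj_fld hr a b hDQ hrk P hind n hn R S h1 h2 θ hθ _ hζ2) (by rw [hε]; exact hζ1)
      rw [hε] at hz'
      refine hnd n hn R S h1 h2 z' hz' ?_
      obtain ⟨h3, h4⟩ := relfin_toSub (fld R) L'
      refine SD_down (fld R) (K.toSubfield ⊔ fld R) L'.toSubfield le_sup_right ?_ ?_ z' d ?_ ?_
        hzL'
      · rw [hrel n hn R S h1 h2]
        exact hmpos
      · rw [← hsub R]
        exact fun x hx => (IntermediateField.adjoin_simple_le_iff.2 hθL') hx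
      · rw [h4]
        exact finrank_pos
      · rw [h4, hrel n hn R S h1 h2, hfr]
        exact hL2)
    refine ballG_mono (fun Q hQ h0 => ?_) hB
    obtain ⟨z, hz, hzd⟩ := hQ h0
    refine ⟨Fin.snoc (α := fun _ => ℂ) z θ, ?_, ?_⟩
    · rw [addP_iff, hν]
      simp only [Fin.snoc_castSucc, Fin.snoc_last]
      exact ⟨hz, minpoly.aeval ℚ θ⟩
    · have h3 := SD_up ⊥ K.toSubfield bot_le (by rw [hrel0]; exact hmpos) z θ hθmem d hzd
      rw [hrel0] at h3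
      exact (SD_bot _ _).1 h3
  · rintro ⟨n, hn, R, S, h1, h2, ζ, hζ, hζd⟩
    obtain ⟨κ, hκ, T0, hT⟩ := hD.2 ⟨n, hn, R, S, h1, h2, Fin.snoc (α := fun _ => ℂ) ζ θ, (by
      rw [addP_iff, hν]
      simp only [Fin.snoc_castSucc, Fin.snoc_last]
      exact ⟨hζ, minpoly.aeval ℚ θ⟩), (by
      have h3 := SD_up (fld R) (K.toSubfield ⊔ fld R) le_sup_right
        (by rw [hrel n hn R S h1 h2]; exact hmpos) ζ θ
        ((le_sup_left : K.toSubfield ≤ K.toSubfield ⊔ fld R) hθmem) d hζd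
      rw [hrel n hn R S h1 h2] at h3
      exact (SD_iff _ _ _).1 h3)⟩
    obtain ⟨κ', -, hlow⟩ := low_all (a := a) (b := b) hDQ
    refine ⟨κ, hκ, max T0 1, fun T hT' => ?_⟩
    refine (hT T ((le_max_left _ _).trans hT')).trans ?_
    have hfin := (hlow T ((le_max_right _ _).trans hT')).1
    refine Nat.cast_le.2 (Set.ncard_le_ncard ?_ (hfin.subset fun Q hQ => hQ.1))
    rintro Q ⟨hQ1, hQ2, w, hw, L, hL1, hL2, hL3⟩
    refine ⟨hQ1, hQ2, ?_⟩
    obtain ⟨hw1, hw2⟩ := (addP_iff ν 𝒢 _ w).1 hw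
    rw [hν] at hw2
    obtain ⟨z', L', hz', hzL', hθL', hfd, hfr⟩ := conj_ptG (evf Q) 𝒢 (fun t => w t.castSucc)
      (w (Fin.last s)) θ L (fun t => hL3 _) (hL3 _) (conj_rat θ _ hθ hw2) hw1
    refine ⟨z', hz', ?_⟩
    refine SD_down ⊥ K.toSubfield L'.toSubfield bot_le ?_ ?_ z' d ?_ ?_ hzL'
    · rw [hrel0]
      exact hmpos
    · rw [← hθK]
      exact fun x hx => (IntermediateField.adjoin_simple_le_iff.2 hθL') hx
    · rw [relfin_bot]
      exact finrank_pos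
    · rw [relfin_bot, hrel0, hfr]
      exact hL2

end

end Pool.Agent.J4H11.GQ
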