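import Pool.Agent.J4H11.GP.G6
import Pool.Agent.J4H11.GN.Gen1
import Pool.Agent.J4H11.RC.Chev

/-!
# Irreducible polynomials over the field of functions: extension of the constants
-/

set_option autoImplicit false
set_option linter.unusedSectionVars false

open Polynomial Pool.Agent.J4H11.RC Pool.Agent.J4H11.SC Pool.Agent.H901R3.MS WeierstrassCurve
  Pool.Agent.J4H11.GP Pool.Agent.J4H11.GN


namespace Pool.Agent.J4H11.GQ

theorem hom_G {R M F : Type} [CommRing R] [Field M] [Field F] (h : R →+* M) (g : F →+* M)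
    (f : F[X]) (pp dd : ℕ → R) (U Dx : R) (v : M)
    (hp : ∀ i, h (pp i) = g (f.coeff i) * h (dd i)) (hv : v * h Dx = h U) :
    h (∑ i ∈ Finset.range (f.natDegree + 1), pp i *
      (∏ j ∈ (Finset.range (f.natDegree + 1)).erase i, dd j) * U ^ i * Dx ^ (f.natDegree - i)) =
    h (∏ j ∈ Finset.range (f.natDegree + 1), dd j) * h Dx ^ f.natDegree * f.eval₂ g v := by
  rw [map_sum, eval₂_eq_sum_range, Finset.mul_sum]
  refine Finset.sum_congr rfl fun i hi => ?_
  have hi' : i ≤ f.natDegree := by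
    rw [Finset.mem_range] at hi
    omega
  rw [← Finset.mul_prod_erase _ _ hi]
  simp only [map_mul, map_pow]
  rw [hp i, ← hv]
  have h1 : h Dx ^ f.natDegree = h Dx ^ i * h Dx ^ (f.natDegree - i) := by
    rw [← pow_add]
    congr 1
    omega
  rw [h1, mul_pow]
  ring

section
variable {k K : Type} [Field k] [Field K] [IsAlgClosed k] {a b : ℤ}

theorem root_desc (ι : k →+* K) (hDk : Disc (a : k) (b : k)) (hD : Disc (a : K) (b : K))
    (f : (Fk k a b)[X]) (u : Fk K a b)
    (hu : f.eval₂ (bc ι hDk hD) u = 0) : ∃ u0 : Fk k a b, f.eval u0 = 0 := by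
  classical
  have hco := fun i => g_gen (a : k) (b : k) (f.coeff i)
  choose p q d hd0 hpq using hco
  obtain ⟨P, Q, D, hD0, huD⟩ := g_gen (a : K) (b : K) u
  let _ : Algebra k K := ι.toAlgebra
  set T : Set K := (P.coeffs : Set K) ∪ Q.coeffs ∪ D.coeffs ∪ {(D.leadingCoeff)⁻¹} with hT
  have hTf : T.Finite := (((Finset.finite_toSet _).union (Finset.finite_toSet _)).union
    (Finset.finite_toSet _)).union (Set.finite_singleton _)
  set S := Algebra.adjoin k T with hS
  have hfg : S.FG := Subalgebra.fg_def.2 ⟨T, hTf, rfl⟩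
  have hft : Algebra.FiniteType k S := (Subalgebra.fg_iff_finiteType S).1 hfg
  have hTS : ∀ c ∈ T, c ∈ S := fun c hc => Algebra.subset_adjoin hc
  obtain ⟨s, hs, hψ⟩ := chev (R := k) (S := S) (algebraMap k S).injective
  obtain ⟨ψ, hψ⟩ := hψ k (RingHom.id k) hs
  have hl : ∀ p : K[X], (p.coeffs : Set K) ⊆ T → ∃ p' : S[X], p'.map S.toSubring.subtype = p := by
    intro p hp
    have h1 : p ∈ lifts S.toSubring.subtype := by
      rw [lifts_iff_coeff_lifts]
      intro n
      by_cases h0 : p.coeff n = 0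
      · rw [h0]
        exact ⟨0, map_zero _⟩
      · exact ⟨⟨_, hTS _ (hp (coeff_mem_coeffs h0))⟩, rfl⟩
    exact h1
  obtain ⟨P', hP'⟩ := hl P (fun x hx => Or.inl (Or.inl (Or.inl hx)))
  obtain ⟨Q', hQ'⟩ := hl Q (fun x hx => Or.inl (Or.inl (Or.inr hx)))
  obtain ⟨D', hD'⟩ := hl D (fun x hx => Or.inl (Or.inr hx))
  set i0 : S →+* K := S.toSubring.subtype with hi0
  have hi0inj : Function.Injective i0 := Subtype.val_injective
  have hi0k : ∀ c : k, i0 (algebraMap k S c) = ι c := fun c => rfl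
  -- the two homomorphisms
  have hEK := g_onE (a : K) (b : K)
  have hEk := g_onE (a : k) (b : k)
  unfold Pool.Agent.J4H11.SC.OnE at hEK hEk
  rw [map_intCast, map_intCast] at hEK hEk
  set hK := hom1 (a := a) (b := b) ((algebraMap K (Fk K a b)).comp i0) (gX (a : K) (b : K))
    (gY (a : K) (b : K)) hEK with hhK
  set hk := hom1 (a := a) (b := b) ((algebraMap k (Fk k a b)).comp ψ) (gX (a : k) (b : k))
    (gY (a : k) (b : k)) hEk with hhk
  have hKinj : Function.Injective hK := by
    apply hom1_inj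
    intro p hp
    rw [← eval₂_map] at hp
    have h1 : p.map i0 = 0 := trans_inj (g_trans (a : K) (b : K)) hp
    exact (Polynomial.map_eq_zero_iff hi0inj).1 h1
  set oS := AdjoinRoot.of (crv S a b) with hoS
  have hKo : ∀ p : S[X], hK (oS p) = aeval (gX (a : K) (b : K)) (p.map i0) := by
    intro p
    rw [hhK, hom1_of, aeval_def, eval₂_map]
  have hko : ∀ p : S[X], hk (oS p) = aeval (gX (a : k) (b : k)) (p.map ψ) := by
    intro p
    rw [hhk, hom1_of, aeval_def, eval₂_map]
  have hKy : hK (y1 S a b) = gY (a : K) (b : K) := hom1_y _ _ _ _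
  have hky : hk (y1 S a b) = gY (a : k) (b : k) := hom1_y _ _ _ _
  have hmapk : ∀ p : k[X], (p.map (algebraMap k S)).map ψ = p := by
    intro p
    rw [Polynomial.map_map, hψ, Polynomial.map_id]
  have hmapK : ∀ p : k[X], (p.map (algebraMap k S)).map i0 = p.map ι := by
    intro p
    rw [Polynomial.map_map]
    rfl
  set pp : ℕ → A1 S a b := fun i => oS ((p i).map (algebraMap k S)) +
    oS ((q i).map (algebraMap k S)) * y1 S a b with hpp
  set dd : ℕ → A1 S a b := fun i => oS ((d i).map (algebraMap k S)) with hdd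
  set U : A1 S a b := oS P' + oS Q' * y1 S a b with hU
  set Dx : A1 S a b := oS D' with hDx
  have hKp : ∀ i, hK (pp i) = bc ι hDk hD (f.coeff i) * hK (dd i) := by
    intro i
    rw [hpp, hdd]
    simp only
    rw [map_add, map_mul, hKo, hKo, hKy, hKo, hmapK, hmapK, hmapK]
    exact (bc_rel ι hDk hD (f.coeff i) (p i) (q i) (d i) (hpq i)).symm
  have hkp : ∀ i, hk (pp i) = RingHom.id _ (f.coeff i) * hk (dd i) := by
    intro i
    rw [hpp, hdd]
    simp only
    rw [map_add, map_mul, hko, hko, hky, hko, hmapk, hmapk, hmapk]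
    exact (hpq i).symm
  have hKv : u * hK Dx = hK U := by
    rw [hDx, hU, map_add, map_mul, hKo, hKo, hKo, hKy, hP', hQ', hD']
    exact huD
  have hD'0 : D'.map ψ ≠ 0 := by
    intro h0
    have hlc : D.leadingCoeff ≠ 0 := leadingCoeff_ne_zero.2 hD0
    have h1 : D.leadingCoeff ∈ S := hTS _ (Or.inl (Or.inr (coeff_mem_coeffs hlc)))
    have h2 : D.leadingCoeff⁻¹ ∈ S := hTS _ (Or.inr rfl)
    have h3 : (⟨D.leadingCoeff, h1⟩ : S) * ⟨D.leadingCoeff⁻¹, h2⟩ = 1 :=
      Subtype.ext (mul_inv_cancel₀ hlc)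
    have h4 := congrArg ψ h3
    rw [map_mul, map_one] at h4
    have h5 : D'.coeff D.natDegree = (⟨D.leadingCoeff, h1⟩ : S) := by
      apply Subtype.ext
      have h6 := congrArg (fun g => g.coeff D.natDegree) hD'
      simp only [coeff_map] at h6
      exact h6
    have h6 := congrArg (fun g => g.coeff D.natDegree) h0
    simp only [coeff_map, coeff_zero, h5] at h6
    rw [h6, zero_mul] at h4
    exact zero_ne_one h4
  have hkDx : hk Dx ≠ 0 := by
    rw [hDx, hko]
    intro h0
    exact hD'0 (trans_inj (g_trans (a : k) (b : k)) h0)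
  have hkdd : ∀ i, hk (dd i) ≠ 0 := by
    intro i
    rw [hdd]
    simp only
    rw [hko, hmapk]
    intro h0
    exact hd0 i (trans_inj (g_trans (a : k) (b : k)) h0)
  have e1 := hom_G hK (bc ι hDk hD) f pp dd U Dx u hKp hKv
  rw [hu, mul_zero] at e1
  have e2 := (map_eq_zero_iff hK hKinj).1 e1
  have e3 := hom_G hk (RingHom.id _) f pp dd U Dx (hk U / hk Dx) hkp (div_mul_cancel₀ _ hkDx)
  rw [e2, map_zero] at e3
  refine ⟨hk U / hk Dx, ?_⟩
  have e4 : hk (∏ j ∈ Finset.range (f.natDegree + 1), dd j) ≠ 0 := by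
    rw [map_prod, Finset.prod_ne_zero_iff]
    intro i _
    exact hkdd i
  have e5 := (mul_eq_zero.1 e3.symm).resolve_left (mul_ne_zero e4 (pow_ne_zero _ hkDx))
  exact e5

/-- the constants are algebraically closed in the field of functions -/
theorem alg_desc (ι : k →+* K) (hDk : Disc (a : k) (b : k)) (hD : Disc (a : K) (b : K))
    (u : Fk K a b) (f : (Fk k a b)[X]) (hf : f ≠ 0) (hu : f.eval₂ (bc ι hDk hD) u = 0) :
    ∃ u0, bc ι hDk hD u0 = u := by
  let _ : Algebra (Fk k a b) (Fk K a b) := (bc ι hDk hD).toAlgebra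
  have hint : IsIntegral (Fk k a b) u := (show IsAlgebraic (Fk k a b) u from ⟨f, hf, hu⟩).isIntegral
  obtain ⟨u0, hu0⟩ := root_desc ι hDk hD (minpoly (Fk k a b) u) u (minpoly.aeval _ u)
  have h1 := degree_eq_one_of_irreducible_of_root (minpoly.irreducible hint) hu0
  exact minpoly.mem_range_of_degree_eq_one _ u h1

/-- an irreducible polynomial remains irreducible after an extension of the constants -/
theorem irr_ext (ι : k →+* K) (hDk : Disc (a : k) (b : k)) (hD : Disc (a : K) (b : K))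
    (f : (Fk k a b)[X]) (hf : f.Monic) (hirr : Irreducible f) :
    Irreducible (f.map (bc ι hDk hD)) := by
  let _ : Algebra (Fk k a b) (Fk K a b) := (bc ι hDk hD).toAlgebra
  have hlift : ∀ g : (Fk K a b)[X], g.Monic → g ∣ f.map (bc ι hDk hD) →
      ∃ g0 : (Fk k a b)[X], g0.map (bc ι hDk hD) = g ∧ g0.natDegree = g.natDegree ∧ g0.Monic := by
    intro g hg hdvd
    have h1 := integralClosure.mem_lifts_of_monic_of_dvd_map (Fk K a b) hf hg hdvd
    have h2 : g ∈ lifts (bc ι hDk hD) := by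
      rw [lifts_iff_coeff_lifts] at h1 ⊢
      intro n
      obtain ⟨c, hc⟩ := h1 n
      have h3 : IsIntegral (Fk k a b) (g.coeff n) := by
        rw [← hc]
        exact c.2
      obtain ⟨m, hm, hm0⟩ := h3
      obtain ⟨u0, hu0⟩ := alg_desc ι hDk hD (g.coeff n) m hm.ne_zero hm0
      exact ⟨u0, hu0⟩
    obtain ⟨g0, hg1, hg2, hg3⟩ := lifts_and_natDegree_eq_and_monic h2 hg
    exact ⟨g0, hg1, hg2, hg3⟩
  have hfm : (f.map (bc ι hDk hD)).Monic := hf.map _
  rw [hfm.irreducible_iff_natDegree]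
  refine ⟨fun h1 => ?_, fun g h hg hh hgh => ?_⟩
  · have h2 : (f.map (bc ι hDk hD)).natDegree = 0 := by rw [h1, natDegree_one]
    rw [natDegree_map] at h2
    exact absurd hirr.natDegree_pos (by omega)
  · obtain ⟨g0, hg1, hg2, hg3⟩ := hlift g hg ⟨h, hgh.symm⟩
    obtain ⟨h0, hh1, hh2, hh3⟩ := hlift h hh ⟨g, by rw [mul_comm]; exact hgh.symm⟩
    have h1 : g0 * h0 = f := by
      apply map_injective (bc ι hDk hD) (bc ι hDk hD).injective
      rw [Polynomial.map_mul, hg1, hh1, hgh]
    have h2 := (hf.irreducible_iff_natDegree.1 hirr).2 g0 h0 hg3 hh3 h1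
    rw [hg2, hh2] at h2
    exact h2

end

end Pool.Agent.J4H11.GQ
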