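import Mathlib

/-!
# The degree of a number over a subfield of `ℂ`
-/

set_option autoImplicit false

open Polynomial

namespace Pool.Agent.J4H11.GQ

/-- there is a monic polynomial of degree `n` with coefficients in `S` which vanishes at `θ` -/
def HasP (S : Subfield ℂ) (θ : ℂ) (n : ℕ) : Prop :=
  ∃ g : ℂ[X], g.Monic ∧ g.natDegree = n ∧ (∀ i, g.coeff i ∈ S) ∧ g.eval θ = 0

/-- the number is algebraic over the subfield -/
def AlgS (S : Subfield ℂ) (θ : ℂ) : Prop := ∃ n, HasP S θ n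

/-- the degree -/
noncomputable def Dg (S : Subfield ℂ) (θ : ℂ) : ℕ := sInf {n | HasP S θ n}

variable {S S' : Subfield ℂ} {θ : ℂ} {n : ℕ}

theorem hasP_dg (h : AlgS S θ) : HasP S θ (Dg S θ) := Nat.sInf_mem h

theorem dg_le (h : HasP S θ n) : Dg S θ ≤ n := Nat.sInf_le h

theorem hasP_mono (hS : S ≤ S') (h : HasP S θ n) : HasP S' θ n := by
  obtain ⟨g, h1, h2, h3, h4⟩ := h
  exact ⟨g, h1, h2, fun i => hS (h3 i), h4⟩

theorem algS_mono (hS : S ≤ S') (h : AlgS S θ) : AlgS S' θ := by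
  obtain ⟨n, hn⟩ := h
  exact ⟨n, hasP_mono hS hn⟩

theorem dg_mono (hS : S ≤ S') (h : AlgS S θ) : Dg S' θ ≤ Dg S θ :=
  dg_le (hasP_mono hS (hasP_dg h))

/-- making a polynomial monic -/
theorem hasP_of (g : ℂ[X]) (hg : g ≠ 0) (hc : ∀ i, g.coeff i ∈ S) (h0 : g.eval θ = 0) :
    HasP S θ g.natDegree := by
  have hl : g.leadingCoeff ≠ 0 := leadingCoeff_ne_zero.2 hg
  refine ⟨C g.leadingCoeff⁻¹ * g, ?_, ?_, fun i => ?_, ?_⟩
  · rw [mul_comm]
    exact monic_mul_leadingCoeff_inv hg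
  · exact natDegree_C_mul (inv_ne_zero hl)
  · rw [coeff_C_mul]
    exact S.mul_mem (S.inv_mem (hc _)) (hc i)
  · rw [eval_mul, h0, mul_zero]

theorem dg_le_of (g : ℂ[X]) (hg : g ≠ 0) (hc : ∀ i, g.coeff i ∈ S) (h0 : g.eval θ = 0) :
    Dg S θ ≤ g.natDegree := dg_le (hasP_of g hg hc h0)

theorem hasP_pos (h : HasP S θ n) : 1 ≤ n := by
  obtain ⟨g, h1, h2, h3, h4⟩ := h
  by_contra hn
  have h5 : g.natDegree = 0 := by omega
  have h6 : g = 1 := by
    rw [eq_C_of_natDegree_eq_zero h5]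
    have h7 : g.coeff 0 = 1 := by
      have h8 : g.leadingCoeff = 1 := h1
      rwa [leadingCoeff, h5] at h8
    rw [h7, C_1]
  rw [h6, eval_one] at h4
  exact one_ne_zero h4

theorem dg_pos (h : AlgS S θ) : 1 ≤ Dg S θ := hasP_pos (hasP_dg h)

/-- uniqueness of the minimal polynomial -/
theorem dg_uniq (g g' : ℂ[X]) (hg : g.Monic) (hg' : g'.Monic) (hd : g.natDegree = Dg S θ)
    (hd' : g'.natDegree = Dg S θ) (hc : ∀ i, g.coeff i ∈ S) (hc' : ∀ i, g'.coeff i ∈ S)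
    (h0 : g.eval θ = 0) (h0' : g'.eval θ = 0) : g = g' := by
  by_contra hne
  have h1 : g - g' ≠ 0 := sub_ne_zero.2 hne
  have h2 : (g - g').natDegree < g.natDegree := by
    have hpos : g.natDegree ≠ 0 := by
      rw [hd]
      have := hasP_pos (⟨g, hg, hd, hc, h0⟩ : HasP S θ (Dg S θ))
      omega
    apply natDegree_lt_natDegree h1
    apply degree_sub_lt_left
    · rw [degree_eq_natDegree hg.ne_zero, degree_eq_natDegree hg'.ne_zero, hd, hd']
    · exact hg.ne_zero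
    · rw [hg.leadingCoeff, hg'.leadingCoeff]
  have h3 := dg_le_of (S := S) (θ := θ) (g - g') h1 (fun i => by
    rw [coeff_sub]
    exact S.sub_mem (hc i) (hc' i)) (by rw [eval_sub, h0, h0', sub_zero])
  omega

theorem algS_iff : AlgS S θ ↔ IsAlgebraic S θ := by
  constructor
  · rintro ⟨n, g, h1, h2, h3, h4⟩
    obtain ⟨g0, hg0⟩ : ∃ g0 : S[X], g0.map S.subtype = g := by
      have : g ∈ lifts S.subtype := by
        rw [lifts_iff_coeff_lifts]
        exact fun n => ⟨⟨_, h3 n⟩, rfl⟩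
      exact this
    refine ⟨g0, ?_, ?_⟩
    · rintro rfl
      rw [Polynomial.map_zero] at hg0
      exact h1.ne_zero hg0.symm
    · have h5 : aeval θ g0 = (g0.map S.subtype).eval θ := by
        rw [eval_map]
        rfl
      rw [h5, hg0, h4]
  · rintro ⟨g, hg, h0⟩
    refine ⟨_, hasP_of (g.map S.subtype) ?_ ?_ ?_⟩
    · exact (Polynomial.map_ne_zero_iff S.subtype.injective).2 hg
    · intro i
      rw [coeff_map]
      exact (g.coeff i).2
    · rw [eval_map]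
      exact h0

/-- multiplication by an element of the subfield -/
theorem dg_scale (c : ℂ) (hc : c ∈ S) (hc0 : c ≠ 0) (h : AlgS S θ) :
    AlgS S (c * θ) ∧ Dg S (c * θ) = Dg S θ := by
  have key : ∀ (c θ : ℂ) (n : ℕ), c ∈ S → HasP S θ n → HasP S (c * θ) n := by
    rintro c θ n hc ⟨g, h1, h2, h3, h4⟩
    refine ⟨g.scaleRoots c, (monic_scaleRoots_iff c).2 h1, ?_, fun i => ?_, ?_⟩
    · rw [natDegree_scaleRoots, h2]
    · rw [coeff_scaleRoots]
      exact S.mul_mem (h3 i) (S.pow_mem hc _)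
    · rw [scaleRoots_eval_mul, h4, mul_zero]
  have h1 : AlgS S (c * θ) := by
    obtain ⟨n, hn⟩ := h
    exact ⟨n, key c θ n hc hn⟩
  refine ⟨h1, le_antisymm (dg_le (key c θ _ hc (hasP_dg h))) ?_⟩
  have h2 := key c⁻¹ (c * θ) _ (S.inv_mem hc) (hasP_dg h1)
  rw [← mul_assoc, inv_mul_cancel₀ hc0, one_mul] at h2
  exact dg_le h2

end Pool.Agent.J4H11.GQ
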