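import Pool.Agent.J4H11.GQ.Q1
import Pool.Agent.J4H11.GQ.Q2

/-!
# Fields generated by a point; the choice of the multiplication
-/

set_option autoImplicit false
set_option linter.unusedSectionVars false

open Polynomial Pool.Agent.J4H11.RC Pool.Agent.J4H11.SC Pool.Agent.H901R3.MS WeierstrassCurve
  Pool.Agent.J4H11.GP Pool.Agent.J4H11.GN

namespace Pool.Agent.J4H11.GQ

/-- an argument of the minimum -/
theorem argmin_exists (f : ℕ → ℕ) : ∃ m, 1 ≤ m ∧ ∀ n, 1 ≤ n → f m ≤ f n := by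
  obtain ⟨m, hm, h⟩ := WellFounded.has_min (measure f).wf {m | 1 ≤ m} ⟨1, le_refl 1⟩
  refine ⟨m, hm, fun n hn => ?_⟩
  have := h n hn
  change ¬ f n < f m at this
  omega

end Pool.Agent.J4H11.GQ

attribute [local instance 5000] Classical.propDecidable

namespace Pool.Agent.J4H11.GQ

/-- the field generated by a point -/
noncomputable def adR (S : Subfield ℂ) (R : ℂ × ℂ) : Subfield ℂ := Subfield.closure ((S : Set ℂ) ∪ {R.1, R.2})

theorem adR_S (S : Subfield ℂ) (R : ℂ × ℂ) : S ≤ adR S R := fun _ hx =>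
  Subfield.subset_closure (Or.inl hx)

theorem adR_1 (S : Subfield ℂ) (R : ℂ × ℂ) : R.1 ∈ adR S R :=
  Subfield.subset_closure (Or.inr (Or.inl rfl))

theorem adR_2 (S : Subfield ℂ) (R : ℂ × ℂ) : R.2 ∈ adR S R :=
  Subfield.subset_closure (Or.inr (Or.inr rfl))

theorem adR_le (S S' : Subfield ℂ) (R : ℂ × ℂ) (h : S ≤ S') (h1 : R.1 ∈ S') (h2 : R.2 ∈ S') :
    adR S R ≤ S' := by
  unfold adR
  rw [Subfield.closure_le]
  rintro z (hz | rfl | rfl)
  · exact h hz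
  · exact h1
  · exact h2

theorem adR_mono (S S' : Subfield ℂ) (R : ℂ × ℂ) (h : S ≤ S') : adR S R ≤ adR S' R :=
  adR_le S _ R (h.trans (adR_S S' R)) (adR_1 S' R) (adR_2 S' R)

section
variable {a b : ℤ}

theorem disc_sub (S : Subfield ℂ) (hD : Disc (a : ℂ) (b : ℂ)) : Disc (a : S) (b : S) := by
  unfold Disc at hD ⊢
  intro h0
  apply hD
  have h1 : (2 : ℂ) * (4 * (a : ℂ) ^ 3 + 27 * (b : ℂ) ^ 2) =
      S.subtype (2 * (4 * (a : S) ^ 3 + 27 * (b : S) ^ 2)) := by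
    simp only [map_mul, map_add, map_pow, map_ofNat, map_intCast]
  rw [h1, h0, map_zero]

variable (S : Subfield ℂ)

theorem eval_mem (S' : Subfield ℂ) (h : S ≤ S') (x : ℂ) (hx : x ∈ S') (p : S[X]) :
    p.eval₂ S.subtype x ∈ S' := by
  rw [eval₂_eq_sum_range]
  exact S'.sum_mem fun i _ => S'.mul_mem (h (p.coeff i).2) (S'.pow_mem hx _)

theorem ffh_crd (hDS : Disc (a : S) (b : S)) (Q : Pt (a : ℂ) (b : ℂ)) (hQ : NCr S.subtype Q) :
    ffh S.subtype hDS Q hQ (gX (a : S) (b : S)) = (crd Q).1 ∧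
    ffh S.subtype hDS Q hQ (gY (a : S) (b : S)) = (crd Q).2 := by
  have h1 := congrArg crd (ffh_pt S.subtype hDS Q hQ)
  rw [pm_crd, Rg_crd] at h1
  exact Prod.mk.inj h1

theorem ffh_c (hDS : Disc (a : S) (b : S)) (Q : Pt (a : ℂ) (b : ℂ)) (hQ : NCr S.subtype Q)
    (c : S) : ffh S.subtype hDS Q hQ (algebraMap S _ c) = c :=
  DFunLike.congr_fun (ffh_alg S.subtype hDS Q hQ) c

theorem ffh_poly (hDS : Disc (a : S) (b : S)) (Q : Pt (a : ℂ) (b : ℂ)) (hQ : NCr S.subtype Q)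
    (p : S[X]) : ffh S.subtype hDS Q hQ (aeval (gX (a : S) (b : S)) p) =
      p.eval₂ S.subtype (crd Q).1 := by
  rw [aeval_def, hom_eval₂, ffh_alg, (ffh_crd S hDS Q hQ).1]

theorem range_ffh (hDS : Disc (a : S) (b : S)) (Q : Pt (a : ℂ) (b : ℂ)) (hQ : NCr S.subtype Q)
    (z : ℂ) : z ∈ adR S (crd Q) ↔ ∃ u, ffh S.subtype hDS Q hQ u = z := by
  set τ := ffh S.subtype hDS Q hQ with hτ
  obtain ⟨hX, hY⟩ := ffh_crd S hDS Q hQ
  rw [← hτ] at hX hY
  constructor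
  · intro hz
    have h1 : adR S (crd Q) ≤ τ.fieldRange := by
      apply adR_le
      · intro c hc
        exact ⟨algebraMap S _ ⟨c, hc⟩, ffh_c S hDS Q hQ ⟨c, hc⟩⟩
      · exact ⟨_, hX⟩
      · exact ⟨_, hY⟩
    exact h1 hz
  · rintro ⟨u, rfl⟩
    obtain ⟨P, Q', D, hD0, hu⟩ := g_gen (a : S) (b : S) u
    have h1 := congrArg τ hu
    rw [map_mul, map_add, map_mul, ffh_poly, ffh_poly, ffh_poly, hY] at h1
    have hne : D.eval₂ S.subtype (crd Q).1 ≠ 0 := fun h0 => hD0 (hQ.2 D h0)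
    rw [← eq_div_iff hne] at h1
    rw [h1]
    have hm := fun p => eval_mem S (adR S (crd Q)) (adR_S S _) _ (adR_1 S (crd Q)) p
    exact Subfield.div_mem _ (Subfield.add_mem _ (hm P) (Subfield.mul_mem _ (hm Q')
      (adR_2 S (crd Q)))) (hm D)

theorem ncr_not (hD : Disc (a : ℂ) (b : ℂ)) (Q : Pt (a : ℂ) (b : ℂ)) (hQ : NCr S.subtype Q)
    (c : Pt (a : S) (b : S)) : pm S.subtype hD c ≠ Q := by
  rintro rfl
  rw [NCr, pm_crd] at hQ
  have h1 := hQ.2 (X - C (crd c).1) (by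
    rw [eval₂_sub, eval₂_X, eval₂_C, sub_self])
  exact X_sub_C_ne_zero _ h1

variable [IsAlgClosed S]

theorem const_of_mul (hnt : NT a b) (hD : Disc (a : ℂ) (b : ℂ)) (T : Pt (a : ℂ) (b : ℂ)) (m : ℕ)
    (hm : 1 ≤ m) (c : Pt (a : S) (b : S)) (h : m • T = pm S.subtype hD c) :
    ∃ t : Pt (a : S) (b : S), pm S.subtype hD t = T := by
  have hDS := disc_sub S hD
  rcases const_or S.subtype hDS T with h1 | h1
  · exact h1
  · exfalso
    have e2 := ffh_alg S.subtype hDS T h1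
    have e3 := ffh_pt S.subtype hDS T h1
    set τ := ffh S.subtype hDS T h1 with hτ
    have e1 : pm τ hD (Rg hDS) = T := e3
    have h2 : pm τ hD (m • Rg hDS) = pm τ hD (cst hDS c) := by
      rw [map_nsmul, e1, h]
      unfold cst
      rw [pm_comp, e2]
    have h3 := pm_inj τ hD h2
    have h4 := (nc_all hnt hDS m hm (-c)).1
    apply h4
    rw [map_neg, h3, add_neg_cancel]

theorem adR_sub (hnt : NT a b) (hD : Disc (a : ℂ) (b : ℂ)) (R R' : Pt (a : ℂ) (b : ℂ)) (n : ℕ)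
    (hR : NCr S.subtype R) (c : Pt (a : S) (b : S)) (h : n • R' = R + pm S.subtype hD c) :
    NCr S.subtype R' ∧ adR S (crd R) ≤ adR S (crd R') := by
  have hDS := disc_sub S hD
  have hR' : NCr S.subtype R' := by
    rcases const_or S.subtype hDS R' with ⟨t, ht⟩ | h1
    · exfalso
      apply ncr_not S hD R hR (n • t - c)
      have ht' : pm S.subtype hD t = R' := ht
      rw [map_sub, map_nsmul, ht', h, add_sub_cancel_right]
    · exact h1
  refine ⟨hR', ?_⟩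
  have e2 := ffh_alg S.subtype hDS R' hR'
  have e3 := ffh_pt S.subtype hDS R' hR'
  have e4 := range_ffh S hDS R' hR'
  set τ := ffh S.subtype hDS R' hR' with hτ
  have e1 : pm τ hD (Rg hDS) = R' := e3
  have h2 : pm τ hD (n • Rg hDS - cst hDS c) = R := by
    rw [map_sub, map_nsmul, e1, h]
    unfold cst
    rw [pm_comp, e2, add_sub_cancel_right]
  have h3 := congrArg crd h2
  rw [pm_crd] at h3
  apply adR_le
  · exact adR_S S _
  · rw [← h3]
    exact (e4 _).2 ⟨_, rfl⟩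
  · rw [← h3]
    exact (e4 _).2 ⟨_, rfl⟩

/-- comparison of two divisions of a point -/
theorem adR_cmp (hnt : NT a b) (hD : Disc (a : ℂ) (b : ℂ)) (P R R' : Pt (a : ℂ) (b : ℂ))
    (m n : ℕ) (hm : 1 ≤ m) (hR : NCr S.subtype R) (c c' : Pt (a : S) (b : S))
    (h : m • R + pm S.subtype hD c = P) (h' : (m * n) • R' + pm S.subtype hD c' = P) :
    NCr S.subtype R' ∧ adR S (crd R) ≤ adR S (crd R') := by
  obtain ⟨t, ht⟩ := const_of_mul S hnt hD (R - n • R') m hm (c' - c) (by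
    rw [smul_sub, smul_smul, map_sub]
    have h1 : m • R = P - pm S.subtype hD c := eq_sub_of_add_eq h
    have h2 : (m * n) • R' = P - pm S.subtype hD c' := eq_sub_of_add_eq h'
    rw [h1, h2]
    abel)
  refine adR_sub S hnt hD R R' n hR (-t) ?_
  rw [map_neg, ht]
  abel

/-- the rational point as a point over the subfield -/
theorem pm_rat (hD : Disc (a : ℂ) (b : ℂ)) (R0 : Pt (a : ℚ) (b : ℚ)) :
    ∃ c : Pt (a : S) (b : S), pm S.subtype hD c = pm (Rat.castHom ℂ) hD R0 := by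
  refine ⟨pm (Rat.castHom S) (disc_sub S hD) R0, ?_⟩
  rw [pm_comp]
  congr 1

theorem exists_m (hnt : NT a b) (hD : Disc (a : ℂ) (b : ℂ)) (P : Pt (a : ℂ) (b : ℂ))
    (hP : NCr S.subtype P) {N : ℕ} (θ : Fin N → ℂ) (hθ : ∀ i, AlgS (adR S (crd P)) (θ i)) :
    ∃ m, 1 ≤ m ∧ ∀ (R0 : Pt (a : ℚ) (b : ℚ)) (R : Pt (a : ℂ) (b : ℂ)),
      m • R + pm (Rat.castHom ℂ) hD R0 = P → NCr S.subtype R ∧
        adR S (crd P) ≤ adR S (crd R) ∧ ∀ n, 1 ≤ n → ∀ R', n • R' = R →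
        NCr S.subtype R' ∧ adR S (crd R) ≤ adR S (crd R') ∧
        ∀ i, Dg (adR S (crd R')) (θ i) = Dg (adR S (crd R)) (θ i) := by
  have hdv : ∀ m : ℕ, ∃ R : Pt (a : ℂ) (b : ℂ), 1 ≤ m → m • R = P := by
    intro m
    by_cases hm : 1 ≤ m
    · obtain ⟨R, hR⟩ := div_pt hnt hD m hm P
      exact ⟨R, fun _ => hR⟩
    · exact ⟨0, fun h => absurd h hm⟩
  choose Rm hRm using hdv
  obtain ⟨m, hm, hmin⟩ := argmin_exists (fun m => ∑ i, Dg (adR S (crd (Rm m))) (θ i))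
  have hzero : ∀ Q : Pt (a : ℂ) (b : ℂ), Q + pm S.subtype hD 0 = Q := by
    intro Q
    rw [map_zero, add_zero]
  -- the basic facts for every division
  have hbase : ∀ (m : ℕ) (R : Pt (a : ℂ) (b : ℂ)) (c : Pt (a : S) (b : S)),
      m • R + pm S.subtype hD c = P → NCr S.subtype R ∧ adR S (crd P) ≤ adR S (crd R) := by
    intro m R c h
    refine adR_cmp S hnt hD P P R 1 m le_rfl hP 0 c ?_ ?_
    · rw [one_smul, hzero]
    · rw [one_mul]
      exact h
  have heq : ∀ (m : ℕ), 1 ≤ m → ∀ (R : Pt (a : ℂ) (b : ℂ)) (c : Pt (a : S) (b : S)),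
      m • R + pm S.subtype hD c = P → adR S (crd R) = adR S (crd (Rm m)) := by
    intro m hm R c h
    have h1 : m • Rm m + pm S.subtype hD 0 = P := by rw [hzero, hRm m hm]
    apply le_antisymm
    · exact (adR_cmp S hnt hD P R (Rm m) m 1 hm (hbase m R c h).1 c 0 h (by
        rw [mul_one]
        exact h1)).2
    · exact (adR_cmp S hnt hD P (Rm m) R m 1 hm (hbase m _ 0 h1).1 0 c h1 (by
        rw [mul_one]
        exact h)).2
  refine ⟨m, hm, fun R0 R hR => ?_⟩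
  obtain ⟨c, hc⟩ := pm_rat S hD R0
  rw [← hc] at hR
  obtain ⟨hR1, hR2⟩ := hbase m R c hR
  refine ⟨hR1, hR2, fun n hn R' hR' => ?_⟩
  have hmn : (m * n) • R' + pm S.subtype hD c = P := by
    rw [mul_smul, hR']
    exact hR
  obtain ⟨hR'1, hle⟩ := adR_cmp S hnt hD P R R' m n hm hR1 c c hR hmn
  refine ⟨hR'1, hle, ?_⟩
  have h1 := hmin (m * n) (Nat.mul_pos hm hn)
  rw [← heq (m * n) (Nat.mul_pos hm hn) R' c hmn, ← heq m hm R c hR] at h1
  have h2 : ∀ i ∈ (Finset.univ : Finset (Fin N)), Dg (adR S (crd R')) (θ i) ≤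
      Dg (adR S (crd R)) (θ i) := fun i _ => dg_mono hle (algS_mono hR2 (hθ i))
  have h3 := (Finset.sum_eq_sum_iff_of_le h2).1 (le_antisymm (Finset.sum_le_sum h2) h1)
  exact fun i => h3 i (Finset.mem_univ i)

end

end Pool.Agent.J4H11.GQ
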