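import Pool.Agent.J4H11.GQ.Q3

/-!
# The constants of a minimal polynomial
-/

set_option autoImplicit false
set_option linter.unusedSectionVars false

open Polynomial Pool.Agent.J4H11.RC Pool.Agent.J4H11.SC Pool.Agent.H901R3.MS WeierstrassCurve
  Pool.Agent.J4H11.GP Pool.Agent.J4H11.GN

namespace Pool.Agent.J4H11.GQ

theorem fix_mem (E : Subfield ℂ) (z : algebraicClosure E ℂ)
    (h : ∀ σ : algebraicClosure E ℂ →ₐ[E] ℂ, σ z = (z : ℂ)) : (z : ℂ) ∈ E := by
  classical
  have hint : IsIntegral E (z : ℂ) := z.2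
  set q := minpoly E (z : ℂ) with hq
  have hsep : q.Separable := (minpoly.irreducible hint).separable
  have hmin : minpoly E z = q :=
    (minpoly.algHom_eq (algebraicClosure E ℂ).val Subtype.val_injective z).symm
  have hr : ∀ z' ∈ q.rootSet ℂ, z' = (z : ℂ) := by
    intro z' hz'
    rw [mem_rootSet] at hz'
    obtain ⟨σ, hσ⟩ := IntermediateField.exists_algHom_of_splits_of_aeval (F := E)
      (E := algebraicClosure E ℂ) (K := ℂ)
      (fun s => ⟨Algebra.IsIntegral.isIntegral s, IsAlgClosed.splits _⟩) (x := z) (y := z')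
      (by rw [hmin]; exact hz'.2)
    rw [← hσ, h σ]
  have hcard : Fintype.card (q.rootSet ℂ) = q.natDegree :=
    card_rootSet_eq_natDegree hsep (IsAlgClosed.splits _)
  have h1 : Fintype.card (q.rootSet ℂ) ≤ 1 := by
    rw [Fintype.card_le_one_iff]
    intro u v
    exact Subtype.ext ((hr u u.2).trans (hr v v.2).symm)
  have h2 : q.degree = 1 := by
    have h3 := minpoly.natDegree_pos hint
    rw [← hq] at h3
    have h4 : q.natDegree = 1 := by omega
    rw [degree_eq_natDegree (minpoly.ne_zero hint), h4]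
    rfl
  obtain ⟨c, hc⟩ := minpoly.mem_range_of_degree_eq_one E (z : ℂ) h2
  rw [← hc]
  exact c.2

section
variable {k : Type} [Field k] {a b : ℤ}

/-- a canonical representation of a function -/
theorem minrep (hD : Disc (a : k) (b : k)) (u : Fk k a b) : ∃ P Q D : k[X], D.Monic ∧
    u * aeval (gX (a : k) (b : k)) D =
      aeval (gX (a : k) (b : k)) P + aeval (gX (a : k) (b : k)) Q * gY (a : k) (b : k) ∧
    ∀ σ : k →+* k, bc σ hD hD u = u → P.map σ = P ∧ Q.map σ = Q ∧ D.map σ = D := by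
  classical
  have hex : ∃ n, ∃ P Q D : k[X], D.Monic ∧ D.natDegree = n ∧
      u * aeval (gX (a : k) (b : k)) D =
      aeval (gX (a : k) (b : k)) P + aeval (gX (a : k) (b : k)) Q * gY (a : k) (b : k) := by
    obtain ⟨P, Q, D, hD0, hu⟩ := g_gen (a : k) (b : k) u
    have hl : D.leadingCoeff ≠ 0 := leadingCoeff_ne_zero.2 hD0
    refine ⟨_, C D.leadingCoeff⁻¹ * P, C D.leadingCoeff⁻¹ * Q, C D.leadingCoeff⁻¹ * D, ?_, rfl, ?_⟩
    · rw [mul_comm]
      exact monic_mul_leadingCoeff_inv hD0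
    · simp only [map_mul, aeval_C]
      linear_combination (algebraMap k (Fk k a b) D.leadingCoeff⁻¹) * hu
  obtain ⟨P, Q, D, hDm, hDn, hu⟩ := Nat.find_spec hex
  have hmin : ∀ P' Q' D' : k[X], D' ≠ 0 → u * aeval (gX (a : k) (b : k)) D' =
      aeval (gX (a : k) (b : k)) P' + aeval (gX (a : k) (b : k)) Q' * gY (a : k) (b : k) →
      D.natDegree ≤ D'.natDegree := by
    intro P' Q' D' hD' hu'
    rw [hDn]
    apply Nat.find_min'
    have hl : D'.leadingCoeff ≠ 0 := leadingCoeff_ne_zero.2 hD'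
    refine ⟨C D'.leadingCoeff⁻¹ * P', C D'.leadingCoeff⁻¹ * Q', C D'.leadingCoeff⁻¹ * D', ?_, ?_, ?_⟩
    · rw [mul_comm]
      exact monic_mul_leadingCoeff_inv hD'
    · exact natDegree_C_mul (inv_ne_zero hl)
    · simp only [map_mul, aeval_C]
      linear_combination (algebraMap k (Fk k a b) D'.leadingCoeff⁻¹) * hu'
  refine ⟨P, Q, D, hDm, hu, fun σ hσ => ?_⟩
  have h1 := bc_rel σ hD hD u P Q D hu
  rw [hσ] at h1
  have h2 : u * aeval (gX (a : k) (b : k)) (D - D.map σ) =
      aeval (gX (a : k) (b : k)) (P - P.map σ) +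
        aeval (gX (a : k) (b : k)) (Q - Q.map σ) * gY (a : k) (b : k) := by
    simp only [map_sub]
    linear_combination hu - h1
  have h3 : D - D.map σ = 0 := by
    by_contra h0
    have h4 := hmin _ _ _ h0 h2
    have h5 : (D - D.map σ).natDegree < D.natDegree ∨ D.natDegree = 0 := by
      by_cases hz : D.natDegree = 0
      · exact Or.inr hz
      · left
        apply natDegree_lt_natDegree h0
        apply degree_sub_lt_left
        · rw [degree_map]
        · exact hDm.ne_zero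
        · rw [hDm.leadingCoeff, (hDm.map σ).leadingCoeff]
    rcases h5 with h5 | h5
    · omega
    · apply h0
      have h6 : D = 1 := by
        rw [eq_C_of_natDegree_eq_zero h5]
        have h7 : D.coeff 0 = 1 := by
          have h8 : D.leadingCoeff = 1 := hDm
          rwa [leadingCoeff, h5] at h8
        rw [h7, C_1]
      rw [h6, Polynomial.map_one, sub_self]
  rw [h3, map_zero, mul_zero] at h2
  obtain ⟨h4, h5⟩ := indep (a : k) (b : k) (g_onE (a : k) (b : k)) (g_trans (a : k) (b : k)) _ _ h2.symm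
  exact ⟨(sub_eq_zero.1 h4).symm, (sub_eq_zero.1 h5).symm, (sub_eq_zero.1 h3).symm⟩

end

end Pool.Agent.J4H11.GQ

attribute [local instance 5000] Classical.propDecidable

namespace Pool.Agent.J4H11.GQ

/-- the field generated by a number -/
noncomputable def ad1 (S : Subfield ℂ) (θ : ℂ) : Subfield ℂ :=
  Subfield.closure ((S : Set ℂ) ∪ {θ})

theorem ad1_S (S : Subfield ℂ) (θ : ℂ) : S ≤ ad1 S θ := fun _ hx =>
  Subfield.subset_closure (Or.inl hx)

theorem ad1_θ (S : Subfield ℂ) (θ : ℂ) : θ ∈ ad1 S θ := Subfield.subset_closure (Or.inr rfl)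

theorem ad1_le (S S' : Subfield ℂ) (θ : ℂ) (h : S ≤ S') (h1 : θ ∈ S') : ad1 S θ ≤ S' := by
  unfold ad1
  rw [Subfield.closure_le]
  rintro z (hz | rfl)
  · exact h hz
  · exact h1

section
variable {a b : ℤ}

theorem consts (k0 S : Subfield ℂ) (hkS : k0 ≤ S) (hS : ∀ z, z ∈ S ↔ AlgS k0 z)
    (hD : Disc (a : ℂ) (b : ℂ)) (R : Pt (a : ℂ) (b : ℂ)) (hR : NCr S.subtype R) (θ : ℂ)
    (hθ : AlgS (adR k0 (crd R)) θ) :
    ∃ T : Set ℂ, T.Finite ∧ T ⊆ S ∧ T ⊆ ad1 (adR k0 (crd R)) θ ∧ ∃ g : ℂ[X], g.Monic ∧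
      g.natDegree = Dg (adR S (crd R)) θ ∧ g.eval θ = 0 ∧
      ∀ i, g.coeff i ∈ adR (Subfield.closure ((k0 : Set ℂ) ∪ T)) (crd R) := by
  have hDS := disc_sub S hD
  set E := ad1 (adR k0 (crd R)) θ with hE
  have hkE : k0 ≤ E := (adR_S k0 _).trans (ad1_S _ _)
  have hxE : (crd R).1 ∈ E := ad1_S _ _ (adR_1 k0 _)
  have hyE : (crd R).2 ∈ E := ad1_S _ _ (adR_2 k0 _)
  have hθE : θ ∈ E := ad1_θ _ _
  have hθS : AlgS (adR S (crd R)) θ := algS_mono (adR_mono _ _ _ hkS) hθ
  obtain ⟨g, hg, hgd, hgc, hg0⟩ := hasP_dg hθS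
  have hrange := range_ffh S hDS R hR
  have hτalg := ffh_alg S.subtype hDS R hR
  have hτc := ffh_c S hDS R hR
  obtain ⟨hτX, hτY⟩ := ffh_crd S hDS R hR
  have hτpt := ffh_pt S.subtype hDS R hR
  have hτpoly := ffh_poly S hDS R hR
  set τ := ffh S.subtype hDS R hR with hτ
  -- the lift of the polynomial
  obtain ⟨g0, hg0m⟩ : ∃ g0 : (Fk S a b)[X], g0.map τ = g := by
    have : g ∈ lifts τ := by
      rw [lifts_iff_coeff_lifts]
      exact fun n => (hrange _).1 (hgc n)
    exact this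
  have hg0mon : g0.Monic := by
    have h1 : (g0.map τ).Monic := by rw [hg0m]; exact hg
    exact (monic_map_iff).1 h1
  have hrep := fun i => minrep hDS (g0.coeff i)
  choose P Q D hDm hrel hfix using hrep
  set co : ℂ → Prop := fun c => ∃ i ∈ Finset.range (g0.natDegree + 1), ∃ e : S, (e : ℂ) = c ∧
    (e ∈ (P i).coeffs ∨ e ∈ (Q i).coeffs ∨ e ∈ (D i).coeffs) with hco
  set T : Set ℂ := {c | co c} with hT
  have hTfin : T.Finite := by
    have h1 : T ⊆ ((Finset.range (g0.natDegree + 1)).biUnion (fun i =>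
        ((P i).coeffs ∪ ((Q i).coeffs ∪ (D i).coeffs)).image (fun e : S => (e : ℂ))) : Set ℂ) := by
      rintro c ⟨i, hi, e, rfl, h⟩
      rw [Finset.mem_coe, Finset.mem_biUnion]
      refine ⟨i, hi, Finset.mem_image.2 ⟨e, ?_, rfl⟩⟩
      rw [Finset.mem_union, Finset.mem_union]
      exact h
    exact (Finset.finite_toSet _).subset h1
  have hTS : T ⊆ S := by
    rintro c ⟨i, hi, e, rfl, h⟩
    exact e.2
  -- the field which contains everything
  have hSF : ∀ z ∈ S, z ∈ algebraicClosure E ℂ := by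
    intro z hz
    rw [mem_algebraicClosure_iff]
    exact algS_iff.1 (algS_mono hkE ((hS z).1 hz))
  have hEF : ∀ z ∈ E, z ∈ algebraicClosure E ℂ := fun z hz =>
    (algebraicClosure E ℂ).algebraMap_mem ⟨z, hz⟩
  have hRF : ∀ u, τ u ∈ algebraicClosure E ℂ := by
    intro u
    have h1 : adR S (crd R) ≤ (algebraicClosure E ℂ).toSubfield := by
      apply adR_le
      · exact hSF
      · exact hEF _ hxE
      · exact hEF _ hyE
    exact h1 ((hrange _).2 ⟨u, rfl⟩)
  set τF : Fk S a b →+* algebraicClosure E ℂ :=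
    { toFun := fun u => ⟨τ u, hRF u⟩
      map_one' := Subtype.ext (map_one τ)
      map_mul' := fun x y => Subtype.ext (map_mul τ x y)
      map_zero' := Subtype.ext (map_zero τ)
      map_add' := fun x y => Subtype.ext (map_add τ x y) } with hτF
  have hτF1 : ((algebraicClosure E ℂ).val : algebraicClosure E ℂ →+* ℂ).comp τF = τ := rfl
  -- the constants are fixed
  have hfixed : ∀ c ∈ T, ∀ (hc : c ∈ algebraicClosure E ℂ)
      (σ : algebraicClosure E ℂ →ₐ[E] ℂ), σ ⟨c, hc⟩ = c := by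
    intro c hcT hc σ
    have hσS : ∀ e : S, σ ⟨e, hSF _ e.2⟩ ∈ S := by
      intro e
      rw [hS]
      obtain ⟨n, q, q1, q2, q3, q4⟩ := (hS e).1 e.2
      refine ⟨n, q, q1, q2, q3, ?_⟩
      obtain ⟨q0, hq0⟩ : ∃ q0 : E[X], q0.map E.subtype = q := by
        have : q ∈ lifts E.subtype := by
          rw [lifts_iff_coeff_lifts]
          exact fun n => ⟨⟨_, hkE (q3 n)⟩, rfl⟩
        exact this
      have h1 : aeval (⟨(e : ℂ), hSF _ e.2⟩ : algebraicClosure E ℂ) q0 = 0 := by
        apply Subtype.ext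
        have h2 : ((aeval (⟨(e : ℂ), hSF _ e.2⟩ : algebraicClosure E ℂ) q0 :
            algebraicClosure E ℂ) : ℂ) = aeval (e : ℂ) q0 := by
          exact (aeval_algHom_apply (algebraicClosure E ℂ).val
            (⟨(e : ℂ), hSF _ e.2⟩ : algebraicClosure E ℂ) q0).symm
        rw [h2]
        have h3 : aeval (e : ℂ) q0 = (q0.map E.subtype).eval (e : ℂ) := by
          rw [eval_map]
          rfl
        rw [h3, hq0, q4]
        rfl
      have h2 := aeval_algHom_apply σ (⟨(e : ℂ), hSF _ e.2⟩ : algebraicClosure E ℂ) q0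
      rw [h1, map_zero] at h2
      have h3 : aeval (σ ⟨e, hSF _ e.2⟩) q0 = (q0.map E.subtype).eval (σ ⟨e, hSF _ e.2⟩) := by
        rw [eval_map]
        rfl
      rw [← hq0, ← h3, h2]
    set σS : S →+* S :=
      { toFun := fun e => ⟨σ ⟨e, hSF _ e.2⟩, hσS e⟩
        map_one' := Subtype.ext (map_one σ)
        map_mul' := fun x y => Subtype.ext (map_mul σ ⟨x, hSF _ x.2⟩ ⟨y, hSF _ y.2⟩)
        map_zero' := Subtype.ext (map_zero σ)
        map_add' := fun x y => Subtype.ext (map_add σ ⟨x, hSF _ x.2⟩ ⟨y, hSF _ y.2⟩) } with hσSd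
    have hσE : ∀ z (hz : z ∈ E), σ ⟨z, hEF z hz⟩ = z := fun z hz => σ.commutes ⟨z, hz⟩
    have hcomp : (σ : algebraicClosure E ℂ →+* ℂ).comp τF = τ.comp (bc σS hDS hDS) := by
      apply ff_uniq hDS hD
      · ext e
        change σ (τF (algebraMap S _ e)) = τ (bc σS hDS hDS (algebraMap S _ e))
        have h1 : bc σS hDS hDS (algebraMap S _ e) = algebraMap S _ (σS e) :=
          DFunLike.congr_fun (bc_alg σS hDS hDS) e
        rw [h1, hτc]
        have h2 : τF (algebraMap S _ e) = ⟨e, hSF _ e.2⟩ := Subtype.ext (hτc e)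
        rw [h2]
        rfl
      · refine pt_ext (pm_ne _ _ (Rg_ne hDS)) (pm_ne _ _ (Rg_ne hDS)) ?_
        rw [pm_crd, pm_crd, Rg_crd]
        obtain ⟨hbX, hbY⟩ := bc_X σS hDS hDS
        have e1 : τF (gX (a : S) (b : S)) = ⟨(crd R).1, hEF _ hxE⟩ := Subtype.ext hτX
        have e2 : τF (gY (a : S) (b : S)) = ⟨(crd R).2, hEF _ hyE⟩ := Subtype.ext hτY
        refine Prod.ext ?_ ?_
        · change σ (τF (gX (a : S) (b : S))) = τ (bc σS hDS hDS (gX (a : S) (b : S)))
          rw [e1, hσE _ hxE, hbX, hτX]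
        · change σ (τF (gY (a : S) (b : S))) = τ (bc σS hDS hDS (gY (a : S) (b : S)))
          rw [e2, hσE _ hyE, hbY, hτY]
    -- invariance of the polynomial
    have hinv : (g0.map (bc σS hDS hDS)).map τ = g := by
      apply dg_uniq (S := adR S (crd R)) (θ := θ)
      · exact (hg0mon.map _).map _
      · exact hg
      · rw [natDegree_map, natDegree_map, ← hgd, ← hg0m, natDegree_map]
      · exact hgd
      · intro i
        rw [coeff_map]
        exact (hrange _).2 ⟨_, rfl⟩
      · exact hgc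
      · rw [Polynomial.map_map, ← hcomp, ← Polynomial.map_map, eval_map]
        have h1 : (g0.map τF).eval (⟨θ, hEF _ hθE⟩ : algebraicClosure E ℂ) = 0 := by
          apply Subtype.ext
          have h2 := hom_eval₂ g0 τF ((algebraicClosure E ℂ).val : algebraicClosure E ℂ →+* ℂ)
            (⟨θ, hEF _ hθE⟩ : algebraicClosure E ℂ)
          rw [hτF1, ← eval_map, ← eval_map, hg0m] at h2
          exact h2.trans hg0
        have h2 := hom_eval₂ (g0.map τF) (RingHom.id _) (σ : algebraicClosure E ℂ →+* ℂ)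
          (⟨θ, hEF _ hθE⟩ : algebraicClosure E ℂ)
        rw [RingHom.comp_id] at h2
        have h3 : (σ : algebraicClosure E ℂ →+* ℂ) ⟨θ, hEF _ hθE⟩ = θ := hσE θ hθE
        rw [h3] at h2
        rw [← h2]
        have h4 : (g0.map τF).eval₂ (RingHom.id _) (⟨θ, hEF _ hθE⟩ : algebraicClosure E ℂ) = 0 := h1
        rw [h4, map_zero]
      · exact hg0
    have hinv2 : g0.map (bc σS hDS hDS) = g0 := by
      apply map_injective τ τ.injective
      rw [hinv, hg0m]
    obtain ⟨i, hi, e, hec, he⟩ := hcT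
    have h1 : bc σS hDS hDS (g0.coeff i) = g0.coeff i := by
      have h2 := congrArg (fun q => q.coeff i) hinv2
      simp only [coeff_map] at h2
      exact h2
    obtain ⟨h2, h3, h4⟩ := hfix i σS h1
    have hcoef : ∀ q : S[X], q.map σS = q → e ∈ q.coeffs → σS e = e := by
      intro q hq heq
      obtain ⟨n, -, hn⟩ := mem_coeffs_iff.1 heq
      have h5 := congrArg (fun q => q.coeff n) hq
      simp only [coeff_map] at h5
      rw [hn]
      exact h5
    have h5 : σS e = e := by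
      rcases he with he | he | he
      · exact hcoef _ h2 he
      · exact hcoef _ h3 he
      · exact hcoef _ h4 he
    have h6 : σ ⟨(e : ℂ), hSF _ e.2⟩ = (e : ℂ) := congrArg Subtype.val h5
    have h7 : (⟨c, hc⟩ : algebraicClosure E ℂ) = ⟨(e : ℂ), hSF _ e.2⟩ := Subtype.ext hec.symm
    rw [h7, h6, hec]
  refine ⟨T, hTfin, hTS, ?_, g, hg, hgd, hg0, ?_⟩
  · intro c hc
    exact fix_mem E ⟨c, hSF c (hTS hc)⟩ (fun σ => hfixed c hc _ σ)
  · intro i
    set K1 := Subfield.closure ((k0 : Set ℂ) ∪ T) with hK1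
    by_cases hi : i ∈ Finset.range (g0.natDegree + 1)
    · have hcf : ∀ (q : S[X]), (∀ e ∈ q.coeffs, (e : ℂ) ∈ T) →
          q.eval₂ S.subtype (crd R).1 ∈ adR K1 (crd R) := by
        intro q hq
        rw [eval₂_eq_sum_range]
        refine Subfield.sum_mem _ fun n _ => Subfield.mul_mem _ ?_
          (Subfield.pow_mem _ (adR_1 _ _) _)
        by_cases h0 : q.coeff n = 0
        · rw [h0, map_zero]
          exact Subfield.zero_mem _
        · exact adR_S _ _ (Subfield.subset_closure (Or.inr (hq _ (coeff_mem_coeffs h0))))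
      have h1 := congrArg τ (hrel i)
      rw [map_mul, map_add, map_mul, hτpoly, hτpoly, hτpoly, hτY] at h1
      have hne : (D i).eval₂ S.subtype (crd R).1 ≠ 0 := fun h0 => (hDm i).ne_zero (hR.2 _ h0)
      rw [← eq_div_iff hne] at h1
      have h2 : g.coeff i = τ (g0.coeff i) := by rw [← hg0m, coeff_map]
      rw [h2, h1]
      refine Subfield.div_mem _ (Subfield.add_mem _ (hcf _ fun e he => ⟨i, hi, e, rfl, Or.inl he⟩)
        (Subfield.mul_mem _ (hcf _ fun e he => ⟨i, hi, e, rfl, Or.inr (Or.inl he)⟩) (adR_2 _ _)))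
        (hcf _ fun e he => ⟨i, hi, e, rfl, Or.inr (Or.inr he)⟩)
    · have h1 : g.coeff i = 0 := by
        rw [← hg0m, coeff_map, coeff_eq_zero_of_natDegree_lt, map_zero]
        rw [Finset.mem_range, not_lt] at hi
        exact Nat.lt_of_succ_le hi
      rw [h1]
      exact Subfield.zero_mem _

end

end Pool.Agent.J4H11.GQ
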