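import Pool.Agent.J4H11.GQ.Q3
import Pool.Agent.J4H11.GP.Inst

/-!
# From the degrees over subfields of `ℂ` to irreducibility over the field of functions
-/

set_option autoImplicit false
set_option linter.unusedSectionVars false

open Polynomial Pool.Agent.J4H11.RC Pool.Agent.J4H11.SC Pool.Agent.H901R3.MS WeierstrassCurve
  Pool.Agent.J4H11.GP Pool.Agent.J4H11.GN

namespace Pool.Agent.J4H11.GQ

theorem irr_of_deg {K : Type} [Field K] (τ : K →+* ℂ) (S' : Subfield ℂ)
    (hS' : ∀ u, τ u ∈ S') (f : K[X]) (hf : f.Monic) (θ : ℂ) (hθ : AlgS S' θ)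
    (h0 : (f.map τ).eval θ = 0) (hd : f.natDegree = Dg S' θ) : Irreducible f := by
  rw [hf.irreducible_iff_natDegree]
  have hpos := dg_pos hθ
  refine ⟨fun h1 => ?_, fun u v hu hv huv => ?_⟩
  · rw [h1, natDegree_one] at hd
    omega
  · have hdeg : f.natDegree = u.natDegree + v.natDegree := by
      rw [← huv, hu.natDegree_mul hv]
    have key : ∀ w : K[X], w.Monic → (w.map τ).eval θ = 0 → Dg S' θ ≤ w.natDegree := by
      intro w hw hw0
      have h2 := dg_le_of (S := S') (θ := θ) (w.map τ) (hw.map τ).ne_zero (fun i => by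
        rw [coeff_map]
        exact hS' _) hw0
      rwa [natDegree_map] at h2
    rw [← huv, Polynomial.map_mul, eval_mul, mul_eq_zero] at h0
    rcases h0 with h0 | h0
    · have := key u hu h0
      right
      omega
    · have := key v hv h0
      left
      omega

end Pool.Agent.J4H11.GQ

attribute [local instance 5000] Classical.propDecidable

namespace Pool.Agent.J4H11.GQ

section
variable {a b : ℤ} {A0 : Type} [CommRing A0] (S : Subfield ℂ) [IsAlgClosed S]

theorem pbC (hnt : NT a b) (hD : Disc (a : ℂ) (b : ℂ)) (ι0 : A0 →+* ℂ) (hι : ∀ c, ι0 c ∈ S)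
    (φ : (MvPolynomial (Fin 2) A0)[X]) (hφ : φ.Monic) (R : Pt (a : ℂ) (b : ℂ))
    (θ : ℂ) (hθ : AlgS (adR S (crd R)) θ)
    (h0 : (φ.map (ev ι0 (crd R).1 (crd R).2)).eval θ = 0)
    (hdeg : φ.natDegree = Dg (adR S (crd R)) θ)
    (hmin : ∀ n, 1 ≤ n → ∀ R', n • R' = R → NCr S.subtype R' ∧
      adR S (crd R) ≤ adR S (crd R') ∧ Dg (adR S (crd R')) θ = Dg (adR S (crd R)) θ) :
    ∀ n : ℕ, 1 ≤ n → Irreducible (φ.map
      (ev ((algebraMap ℂ (FFd (a : ℂ) (b : ℂ))).comp ι0) (crd (n • Rg hD)).1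
        (crd (n • Rg hD)).2)) := by
  intro n hn
  have hDS := disc_sub S hD
  obtain ⟨R', hR'⟩ := div_pt hnt hD n hn R
  obtain ⟨hN, hle, hdg⟩ := hmin n hn R' hR'
  set ι' : A0 →+* S :=
    { toFun := fun c => ⟨ι0 c, hι c⟩
      map_one' := Subtype.ext (map_one ι0)
      map_mul' := fun x y => Subtype.ext (map_mul ι0 x y)
      map_zero' := Subtype.ext (map_zero ι0)
      map_add' := fun x y => Subtype.ext (map_add ι0 x y) } with hι'
  have hιc : S.subtype.comp ι' = ι0 := rfl
  have hrange := range_ffh S hDS R' hN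
  have hτalg := ffh_alg S.subtype hDS R' hN
  have hτpt := ffh_pt S.subtype hDS R' hN
  set τ := ffh S.subtype hDS R' hN with hτ
  set φn := φ.map (ev ((algebraMap S (Fk S a b)).comp ι') (crd (n • Rg hDS)).1
    (crd (n • Rg hDS)).2) with hφn
  have hφnm : φn.Monic := hφ.map _
  have h1 : φn.map τ = φ.map (ev ι0 (crd R).1 (crd R).2) := by
    rw [hφn, Polynomial.map_map, ev_comp]
    have e1 : pm τ hD (n • Rg hDS) = R := by
      have e2 : pm τ hD (Rg hDS) = R' := hτpt
      rw [map_nsmul, e2, hR']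
    have e3 := congrArg crd e1
    rw [pm_crd] at e3
    rw [← e3]
    rw [← RingHom.comp_assoc, hτalg, hιc]
  have hirr : Irreducible φn := by
    apply irr_of_deg τ (adR S (crd R')) (fun u => (hrange _).2 ⟨u, rfl⟩) φn hφnm θ
      (algS_mono hle hθ)
    · rw [h1]
      exact h0
    · have h2 : φn.natDegree = (φn.map τ).natDegree := (natDegree_map τ).symm
      rw [h2, h1, hφ.natDegree_map, hdeg, hdg]
  have h2 := irr_ext S.subtype hDS hD φn hφnm hirr
  rw [hφn, Polynomial.map_map, ev_comp] at h2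
  have e1 : pm (bc S.subtype hDS hD) (disc_of (algebraMap ℂ (Fk ℂ a b)) a b hD) (n • Rg hDS) =
      n • Rg hD := by
    rw [map_nsmul, bc_pt]
  have e3 := congrArg crd e1
  rw [pm_crd] at e3
  rw [← e3]
  rw [← RingHom.comp_assoc, bc_alg, RingHom.comp_assoc, hιc] at h2
  exact h2

end

end Pool.Agent.J4H11.GQ
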