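import Pool.Agent.J4H11.GQ.Z11

/-!
# Local rings of the rational points, inside the complex numbers
-/

set_option autoImplicit false
set_option linter.unusedSectionVars false

open Polynomial Pool.Agent.J4H11.RC Pool.Agent.J4H11.SC Pool.Agent.H901R3.MS WeierstrassCurve
  Pool.Agent.J4H11.GP Pool.Agent.J4H11.GN

namespace Pool.Agent.J4H11.GQ

/-- a local ring with values in the rational numbers -/
structure LocW where
  W : Subring ℂ
  ρ : W →+* ℚ
  inv : ∀ a : W, ρ a ≠ 0 → (a : ℂ)⁻¹ ∈ W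

/-- the values of `e1` are given by `e2` -/
def LocW.At (L : LocW) {M : Type} [CommRing M] (e1 : M →+* ℂ) (e2 : M →+* ℚ) : Prop :=
  ∀ G, ∃ h : e1 G ∈ L.W, L.ρ ⟨e1 G, h⟩ = e2 G

theorem locW_of {Ω : Type} [Field Ω] [CharZero Ω] (V : Place ℂ Ω) : ∃ L : LocW,
    ∀ z (q : ℚ), z ∈ V.A → V.r z = (q : Ω) → ∃ h : z ∈ L.W, L.ρ ⟨z, h⟩ = q := by
  let W : Subring ℂ :=
    { carrier := {z | z ∈ V.A ∧ ∃ q : ℚ, V.r z = (q : Ω)}
      mul_mem' := by
        rintro z w ⟨hz, q, hq⟩ ⟨hw, q', hq'⟩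
        refine ⟨V.A.mul_mem hz hw, q * q', ?_⟩
        rw [V.r_mul hz hw, hq, hq', Rat.cast_mul]
      one_mem' := ⟨V.A.one_mem, 1, by rw [V.r_one, Rat.cast_one]⟩
      add_mem' := by
        rintro z w ⟨hz, q, hq⟩ ⟨hw, q', hq'⟩
        refine ⟨V.A.add_mem hz hw, q + q', ?_⟩
        rw [V.r_add hz hw, hq, hq', Rat.cast_add]
      zero_mem' := ⟨V.A.zero_mem, 0, by rw [V.r_zero, Rat.cast_zero]⟩
      neg_mem' := by
        rintro z ⟨hz, q, hq⟩
        refine ⟨V.A.neg_mem hz, -q, ?_⟩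
        rw [V.r_neg hz, hq, Rat.cast_neg] }
  have hW : ∀ z, z ∈ W ↔ z ∈ V.A ∧ ∃ q : ℚ, V.r z = (q : Ω) := fun z => Iff.rfl
  have hinj : ∀ q q' : ℚ, (q : Ω) = (q' : Ω) → q = q' := fun q q' h => by exact_mod_cast h
  have hq : ∀ z : W, ∃ q : ℚ, V.r z = (q : Ω) := fun z => ((hW z).1 z.2).2
  have hA : ∀ z : W, (z : ℂ) ∈ V.A := fun z => ((hW z).1 z.2).1
  choose f hf using hq
  let ρ : W →+* ℚ :=
    { toFun := f
      map_one' := hinj _ _ (by
        rw [← hf, Rat.cast_one]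
        exact V.r_one)
      map_mul' := fun z w => hinj _ _ (by
        rw [← hf, Rat.cast_mul, ← hf, ← hf]
        exact V.r_mul (hA z) (hA w))
      map_zero' := hinj _ _ (by
        rw [← hf, Rat.cast_zero]
        exact V.r_zero)
      map_add' := fun z w => hinj _ _ (by
        rw [← hf, Rat.cast_add, ← hf, ← hf]
        exact V.r_add (hA z) (hA w)) }
  refine ⟨⟨W, ρ, fun a ha => ?_⟩, fun z q hz hzq => ⟨⟨hz, q, hzq⟩, ?_⟩⟩
  · have h1 : V.r (a : ℂ) ≠ 0 := by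
      rw [hf]
      intro h0
      apply ha
      have h2 : f a = 0 := by exact_mod_cast h0
      exact h2
    refine ⟨V.inv_mem h1, (f a)⁻¹, ?_⟩
    rw [V.r_inv h1, hf, Rat.cast_inv]
  · apply hinj
    change ((f _ : ℚ) : Ω) = _
    rw [← hf]
    exact hzq

theorem LocW.div_mem (L : LocW) {M : Type} [CommRing M] {e1 : M →+* ℂ} {e2 : M →+* ℚ}
    (h : L.At e1 e2) (s g : M) (hs : e2 s ≠ 0) (z : ℂ) (hz : e1 s * z = e1 g) :
    z ∈ L.W := by
  obtain ⟨hs1, hs2⟩ := h s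
  obtain ⟨hg1, -⟩ := h g
  have h1 := L.inv ⟨e1 s, hs1⟩ (by rw [hs2]; exact hs)
  have h2 : e1 s ≠ 0 := by
    intro h0
    apply hs
    rw [← hs2]
    have h3 : (⟨e1 s, hs1⟩ : L.W) = 0 := Subtype.ext h0
    rw [h3, map_zero]
  have h3 : z = (e1 s)⁻¹ * e1 g := by
    rw [← hz, inv_mul_cancel_left₀ h2]
  rw [h3]
  exact L.W.mul_mem h1 hg1

end Pool.Agent.J4H11.GQ

attribute [local instance 5000] Classical.propDecidable

namespace Pool.Agent.J4H11.GQ

section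
variable {a b : ℕ → ℤ} {r : ℕ}

/-- the local rings of a rational point and of its multiple -/
theorem loc_two (hDQ : ∀ j, Disc (a j : ℚ) (b j : ℚ)) (hnt : ∀ j, NT (a j) (b j))
    (hD : ∀ j, Disc (a j : ℂ) (b j : ℂ))
    (P R : (j : ℕ) → Pt (a j : ℂ) (b j : ℂ)) (m : ℕ → ℕ)
    (R0 : (j : ℕ) → Pt (a j : ℚ) (b j : ℚ))
    (hR : ∀ j < r, R j ≠ 0 ∧ m j • R j + pm (Rat.castHom ℂ) (hD j) (R0 j) = P j)
    (hRn : ∀ j < r, NCr (k0 (cx R) (cy R) j).subtype (R j))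
    (Q : (j : Fin r) → Pt (a j : ℚ) (b j : ℚ)) (hQ : ∀ j, Q j ≠ 0)
    (hmQ : ∀ j : Fin r, m j • Q j + R0 j ≠ 0) :
    ∃ L : LocW, L.At (eR r (cx R) (cy R)) (eQ Q) ∧
      L.At (eR r (cx P) (cy P)) (eQ (fun j : Fin r => m j • Q j + R0 j)) := by
  obtain ⟨A0, _, ι0, X0, Y0, hι0, hXY0, -, htws, full0⟩ := triv_tower hDQ hnt hD R r hRn r le_rfl
  have hdom : IsDomain A0 := hι0.isDomain _
  obtain ⟨ψ, hψ⟩ := full0 ℚ (exPt Q) (fun j hj => by
    have : exPt Q j = Q ⟨j, hj⟩ := dif_pos hj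
    rw [this]
    exact hQ _)
  obtain ⟨Ω, _, _, V, hV⟩ := place_ext ι0 hι0 ψ
  have hDΩ : ∀ j, Disc (a j : Ω) (b j : Ω) := fun j =>
    disc_of (Rat.castHom Ω) (a j) (b j) (hDQ j)
  -- the values at `R`
  have hVR : ∀ G, eR r (cx R) (cy R) G ∈ V.A ∧
      V.r (eR r (cx R) (cy R) G) = ((eQ Q G : ℚ) : Ω) := by
    intro G
    have h1 : eR r (cx R) (cy R) = ι0.comp (evp (fun j : Fin r => X0 j) (fun j : Fin r => Y0 j)) := by
      rw [evp_comp]
      unfold eR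
      congr 1
      · funext j
        exact (hXY0 j j.2).1.symm
      · funext j
        exact (hXY0 j j.2).2.symm
    have h2 : eQ Q = ψ.comp (evp (fun j : Fin r => X0 j) (fun j : Fin r => Y0 j)) := by
      rw [evp_comp]
      unfold eQ
      congr 1
      · funext j
        have h3 := hψ j j.2
        have h4 : exPt Q (j : ℕ) = Q j := dif_pos j.2
        rw [h4] at h3
        exact congrArg Prod.fst h3
      · funext j
        have h3 := hψ j j.2
        have h4 : exPt Q (j : ℕ) = Q j := dif_pos j.2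
        rw [h4] at h3
        exact congrArg Prod.snd h3
    rw [h1, h2]
    exact hV _
  -- the values at `P`
  have hcoord : ∀ j : Fin r, ((cx P j ∈ V.A ∧ V.r (cx P j) =
      (((crd (m j • Q j + R0 j)).1 : ℚ) : Ω)) ∧ (cy P j ∈ V.A ∧ V.r (cy P j) =
      (((crd (m j • Q j + R0 j)).2 : ℚ) : Ω))) := by
    intro j
    obtain ⟨hRj, hRP⟩ := hR j j.2
    obtain ⟨red, hred⟩ := exists_red V (a j) (b j) (hDΩ j)
    have hx := hVR (MvPolynomial.X (j, 0))
    have hy := hVR (MvPolynomial.X (j, 1))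
    unfold eR eQ at hx hy
    rw [evp_x, evp_x] at hx
    rw [evp_y, evp_y] at hy
    have h1 : red (R j) = pm (Rat.castHom Ω) (hDΩ j) (Q j) := by
      apply red_eq V red hred (R j) hRj _ (pm_ne _ _ (hQ j))
      · rw [pm_crd]
        exact hx
      · rw [pm_crd]
        exact hy.2
    have h2 : red (pm (Rat.castHom ℂ) (hD j) (R0 j)) = pm (Rat.castHom Ω) (hDΩ j) (R0 j) :=
      red_pm V (hD j) (hDΩ j) red hred (Rat.castHom ℂ) (Rat.castHom Ω) (fun c => r_rat V c) (R0 j)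
    have h3 : red (P j) = pm (Rat.castHom Ω) (hDΩ j) (m j • Q j + R0 j) := by
      rw [← hRP, map_add, map_nsmul, h1, h2, map_add, map_nsmul]
    have h4 : red (P j) ≠ 0 := by
      rw [h3]
      exact pm_ne _ _ (hmQ j)
    have h5 := red_crd V red hred (P j) h4
    rw [h3, pm_crd] at h5
    exact h5
  obtain ⟨L, hL⟩ := locW_of V
  refine ⟨L, fun G => hL _ _ (hVR G).1 (hVR G).2, fun G => ?_⟩
  have hxL := fun j : Fin r => hL _ _ (hcoord j).1.1 (hcoord j).1.2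
  have hyL := fun j : Fin r => hL _ _ (hcoord j).2.1 (hcoord j).2.2
  set e' : MvPolynomial (Fin r × Fin 2) ℤ →+* L.W :=
    evp (fun j => ⟨cx P j, (hxL j).1⟩) (fun j => ⟨cy P j, (hyL j).1⟩) with he'
  have h1 : eR r (cx P) (cy P) = L.W.subtype.comp e' := by
    rw [he', evp_comp]
    rfl
  have h2 : eQ (fun j : Fin r => m j • Q j + R0 j) = L.ρ.comp e' := by
    rw [he', evp_comp]
    unfold eQ
    congr 1
    · funext j
      exact (hxL j).2.symm
    · funext j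
      exact (hyL j).2.symm
  have h3 : eR r (cx P) (cy P) G ∈ L.W := by
    rw [h1]
    exact (e' G).2
  refine ⟨h3, ?_⟩
  rw [h2, RingHom.comp_apply]
  congr 1
  apply Subtype.ext
  change eR r (cx P) (cy P) G = _
  rw [h1]
  rfl

/-- the local ring of a rational point -/
theorem loc_one (hDQ : ∀ j, Disc (a j : ℚ) (b j : ℚ)) (hnt : ∀ j, NT (a j) (b j))
    (P : (j : ℕ) → Pt (a j : ℂ) (b j : ℂ))
    (hP : ∀ j < r, NCr (Kb (cx P) (cy P) j).subtype (P j))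
    (Q : (j : Fin r) → Pt (a j : ℚ) (b j : ℚ)) (hQ : ∀ j, Q j ≠ 0) :
    ∃ L : LocW, L.At (eR r (cx P) (cy P)) (eQ Q) := by
  have hD : ∀ j, Disc (a j : ℂ) (b j : ℂ) := fun j => disc_of (Rat.castHom ℂ) _ _ (hDQ j)
  obtain ⟨L, hL, -⟩ := loc_two hDQ hnt hD P P (fun _ => 1) (fun _ => 0)
    (fun j hj => ⟨(hP j hj).1, by rw [one_smul, map_zero, add_zero]⟩)
    (fun j hj => ncr_mono _ _ (k0_le_kb _ _ j) _ (hP j hj)) Q hQ
    (fun j => by rw [one_smul, add_zero]; exact hQ j)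
  exact ⟨L, hL⟩

end

end Pool.Agent.J4H11.GQ
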