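import Pool.Agent.J4H11.GQ.T9

/-!
# Algebraic sets over the product: the two cases
-/

set_option autoImplicit false

open Finset Module Pool.Agent.J4H11.RC Pool.Agent.J4H11.SC Pool.Agent.H901R3.MS
  WeierstrassCurve Pool.Agent.J4H11.GN Pool.Agent.J4H11.GP

namespace Pool.Agent.J4H11.GQ

theorem conv_main {r s : ℕ} (a b : ℕ → ℤ) (hDQ : ∀ j, Disc (a j : ℚ) (b j : ℚ))
    (hrk : ∀ j, 3 ≤ finrank ℤ (Pt (a j : ℚ) (b j : ℚ)))
    (P : (j : ℕ) → Pt (a j : ℂ) (b j : ℂ))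
    (hind : AlgebraicIndependent ℚ (fun j : Fin r => cx P j))
    (𝒢 : Set (MvPolynomial (Fin s) (MvPolynomial (Fin r × Fin 2) ℤ)))
    (n : ℕ) (hn : 1 ≤ n) (R S : (j : ℕ) → Pt (a j : ℂ) (b j : ℂ))
    (hRS : ∀ j < r, linC n (R j) (S j) = P j ∧ IsRatP (S j)) (ζ : Fin s → ℂ)
    (hζ : ∀ G ∈ 𝒢, MvPolynomial.eval₂ (eR r (cx P) (cy P)) ζ G = 0)
    (hζR : ∀ t, ζ t ∈ k0 (cx R) (cy R) r) :
    ∃ κ : ℝ, 0 < κ ∧ ∃ T0 : ℝ, ∀ T : ℝ, T0 ≤ T →
      κ * T ^ (∑ j : Fin r, finrank ℤ (Pt (a j : ℚ) (b j : ℚ))) ≤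
        ({P : (j : Fin r) → Pt (a j : ℚ) (b j : ℚ) | (∀ j, hx (P j) ≤ T ^ 2) ∧
          ((∀ j, P j ≠ 0) ∧ ∃ z : Fin s → ℚ, ∀ G ∈ 𝒢,
            MvPolynomial.eval₂ (eQ P) z G = 0)}.ncard : ℝ) := by
  have hnt : ∀ j, NT (a j) (b j) := fun j => nt_of_rank (a j) (b j) (by
    have := hrk j
    omega)
  obtain ⟨f, hf⟩ := ind3_exists (fun j : Fin r => a j) (fun j : Fin r => b j) (fun j => hrk j)
  obtain ⟨hRn, R0, d, hd, hmain⟩ := conv_pts hDQ hnt P (ncr_ind P hind (pt_ne P hind)) 𝒢 n hn R S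
    hRS ζ hζ hζR
  have hbox := bad_box' hDQ hnt R hRn d hd f hf
  have hB := ball_of_box (fun j => hDQ j) f (fun _ => 1) (fun _ => 0) (fun Q => eQ Q d = 0)
    (fun Q => eQ Q d = 0) hbox
    (fun Q hQ => by
      have h1 : (fun j : Fin r => 1 • Q j + 0) = Q := by
        funext j
        rw [one_smul, add_zero]
      rwa [h1] at hQ)
  have hB2 : BallG (a := fun j : Fin r => a j) (b := fun j : Fin r => b j)
      (fun Q => (∃ j, Q j = 0) ∨ eQ Q d = 0) := by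
    refine ballG_or (ball_zero (fun j => hDQ j) f hf) (ballG_mono (fun Q hQ => ⟨hQ, Q, fun j => ?_⟩)
      hB)
    rw [one_smul, add_zero]
  refine low_conv (fun j => hDQ j) f hf n hn R0 _ (fun P => (∀ j, P j ≠ 0) ∧ ∃ z : Fin s → ℚ,
    ∀ G ∈ 𝒢, MvPolynomial.eval₂ (eQ P) z G = 0) hB2 (fun Q hQ hQ0 => ⟨hQ0, ?_⟩)
  push Not at hQ
  exact hmain Q hQ.1 hQ0 hQ.2

/-- the field generated by the coordinates -/
noncomputable def fld {r : ℕ} {a b : Fin r → ℤ} (R : (j : Fin r) → Pt (a j : ℂ) (b j : ℂ)) : Subfield ℂ :=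
  Subfield.closure (Set.range (fun j => (crd (R j)).1) ∪ Set.range (fun j => (crd (R j)).2))

/-- the evaluation at a family of points -/
noncomputable def evf {F : Type} [Field F] {r : ℕ} {a b : Fin r → ℤ}
    (Q : (j : Fin r) → Pt (a j : F) (b j : F)) : MvPolynomial (Fin r × Fin 2) ℤ →+* F :=
  evp (fun j => (crd (Q j)).1) (fun j => (crd (Q j)).2)

section
variable {r s : ℕ}

theorem exPt_fin {a' b' : ℕ → ℤ} {F : Type} [Field F]
    (P : (j : Fin r) → Pt (a' j : F) (b' j : F)) (j : Fin r) :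
    exPt (a := a') (b := b') P (j : ℕ) = P j := dif_pos j.2

theorem cx_ex {a' b' : ℕ → ℤ} {F : Type} [Field F]
    (P : (j : Fin r) → Pt (a' j : F) (b' j : F)) :
    (fun j : Fin r => cx (a := a') (b := b') (exPt (a := a') (b := b') P) j) =
      fun j => (crd (P j)).1 := by
  funext j
  rw [cx_def, exPt_fin]

theorem cy_ex {a' b' : ℕ → ℤ} {F : Type} [Field F]
    (P : (j : Fin r) → Pt (a' j : F) (b' j : F)) :
    (fun j : Fin r => cy (a := a') (b := b') (exPt (a := a') (b := b') P) j) =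
      fun j => (crd (P j)).2 := by
  funext j
  rw [cy_def, exPt_fin]

theorem eR_ex {a' b' : ℕ → ℤ} (P : (j : Fin r) → Pt (a' j : ℂ) (b' j : ℂ)) :
    eR r (cx (a := a') (b := b') (exPt (a := a') (b := b') P))
      (cy (a := a') (b := b') (exPt (a := a') (b := b') P)) =
      evf (a := fun j : Fin r => a' j) (b := fun j : Fin r => b' j) P := by
  unfold eR evf
  rw [cx_ex, cy_ex]

theorem dich_fin (hr : 1 ≤ r) (a b : Fin r → ℤ) (hDQ : ∀ j, Disc (a j : ℚ) (b j : ℚ))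
    (hrk : ∀ j, 3 ≤ finrank ℤ (Pt (a j : ℚ) (b j : ℚ)))
    (P : (j : Fin r) → Pt (a j : ℂ) (b j : ℂ))
    (hind : AlgebraicIndependent ℚ (fun j => (crd (P j)).1))
    (𝒢 : Set (MvPolynomial (Fin s) (MvPolynomial (Fin r × Fin 2) ℤ)))
    (hF : {ζ : Fin s → ℂ | ∀ G ∈ 𝒢, MvPolynomial.eval₂ (evf P) ζ G = 0}.Finite) :
    ((∀ n : ℕ, 1 ≤ n → ∀ R S : (j : Fin r) → Pt (a j : ℂ) (b j : ℂ),
      (∀ j, n • R j + S j = P j) → (∀ j, IsRatP (S j)) → ∀ ζ : Fin s → ℂ,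
      (∀ G ∈ 𝒢, MvPolynomial.eval₂ (evf P) ζ G = 0) → ∃ t, ζ t ∉ fld R) →
    BallG (a := a) (b := b) (fun Q => (∀ j, Q j ≠ 0) →
      ∃ z : Fin s → ℚ, ∀ G ∈ 𝒢, MvPolynomial.eval₂ (evf Q) z G = 0)) ∧
    ((∃ n : ℕ, 1 ≤ n ∧ ∃ R S : (j : Fin r) → Pt (a j : ℂ) (b j : ℂ),
      (∀ j, n • R j + S j = P j) ∧ (∀ j, IsRatP (S j)) ∧ ∃ ζ : Fin s → ℂ,
      (∀ G ∈ 𝒢, MvPolynomial.eval₂ (evf P) ζ G = 0) ∧ ∀ t, ζ t ∈ fld R) →
    ∃ κ : ℝ, 0 < κ ∧ ∃ T0 : ℝ, ∀ T : ℝ, T0 ≤ T →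
      κ * T ^ (∑ j, finrank ℤ (Pt (a j : ℚ) (b j : ℚ))) ≤
        ({Q : (j : Fin r) → Pt (a j : ℚ) (b j : ℚ) | (∀ j, hx (Q j) ≤ T ^ 2) ∧
          ((∀ j, Q j ≠ 0) ∧ ∃ z : Fin s → ℚ, ∀ G ∈ 𝒢,
            MvPolynomial.eval₂ (evf Q) z G = 0)}.ncard : ℝ)) := by
  obtain ⟨a', b', rfl, rfl, hext⟩ := ext_fam hr a b
  have hDQ' : ∀ j, Disc (a' j : ℚ) (b' j : ℚ) := by
    intro j
    obtain ⟨i, h1, h2⟩ := hext j
    rw [h1, h2]
    exact hDQ i
  have hrk' : ∀ j, 3 ≤ finrank ℤ (Pt (a' j : ℚ) (b' j : ℚ)) := by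
    intro j
    obtain ⟨i, h1, h2⟩ := hext j
    rw [h1, h2]
    exact hrk i
  have hind' : AlgebraicIndependent ℚ (fun j : Fin r =>
      cx (a := a') (b := b') (exPt (a := a') (b := b') P) j) := by
    rw [cx_ex]
    exact hind
  constructor
  · intro hyp
    refine ball_set a' b' hDQ' hrk' (exPt P) hind' 𝒢 (by rw [eR_ex]; exact hF) ?_
    intro n hn R S hRS ζ hζ
    rw [eR_ex] at hζ
    obtain ⟨t, ht⟩ := hyp n hn (fun j => R j) (fun j => S j) (fun j => by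
      have h1 := (hRS j j.2).1
      rw [exPt_fin] at h1
      exact h1) (fun j => (hRS j j.2).2) ζ hζ
    refine ⟨t, fun h => ht ?_⟩
    refine k0_le _ _ _ _ (fun j hj => ?_) h
    exact ⟨Subfield.subset_closure (Or.inl ⟨⟨j, hj⟩, rfl⟩),
      Subfield.subset_closure (Or.inr ⟨⟨j, hj⟩, rfl⟩)⟩
  · rintro ⟨n, hn, R, S, hRS, hS, ζ, hζ, hζR⟩
    refine conv_main a' b' hDQ' hrk' (exPt P) hind' 𝒢 n hn (exPt R) (exPt S) ?_ ζ
      (by rw [eR_ex]; exact hζ) ?_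
    · intro j hj
      have e1 : exPt (a := a') (b := b') R j = R ⟨j, hj⟩ := dif_pos hj
      have e2 : exPt (a := a') (b := b') S j = S ⟨j, hj⟩ := dif_pos hj
      have e3 : exPt (a := a') (b := b') P j = P ⟨j, hj⟩ := dif_pos hj
      rw [e1, e2, e3]
      exact ⟨hRS ⟨j, hj⟩, hS ⟨j, hj⟩⟩
    · intro t
      have hle : fld (a := fun j : Fin r => a' j) (b := fun j : Fin r => b' j) R ≤
          k0 (cx (a := a') (b := b') (exPt (a := a') (b := b') R))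
            (cy (a := a') (b := b') (exPt (a := a') (b := b') R)) r := by
        unfold fld
        rw [Subfield.closure_le]
        rintro z (⟨j, rfl⟩ | ⟨j, rfl⟩)
        · have h1 := k0_x (cx (a := a') (b := b') (exPt (a := a') (b := b') R))
            (cy (a := a') (b := b') (exPt (a := a') (b := b') R)) r j j.2
          have h2 := congrFun (cx_ex (a' := a') (b' := b') R) j
          beta_reduce at h2
          rw [h2] at h1
          exact h1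
        · have h1 := k0_y (cx (a := a') (b := b') (exPt (a := a') (b := b') R))
            (cy (a := a') (b := b') (exPt (a := a') (b := b') R)) r j j.2
          have h2 := congrFun (cy_ex (a' := a') (b' := b') R) j
          beta_reduce at h2
          rw [h2] at h1
          exact h1
      exact hle (hζR t)

end

end Pool.Agent.J4H11.GQ
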