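import Pool.Agent.J4H11.GQ.T1

/-!
# Algebraic sets with a finite generic fibre
-/

set_option autoImplicit false
set_option linter.unusedSectionVars false

namespace Pool.Agent.J4H11.GQ

open MvPolynomial

theorem alg_fin (k : Subfield ℂ) {s : ℕ} (I : Ideal (MvPolynomial (Fin s) k))
    (hF : (zeroLocus ℂ I).Finite) (ζ : Fin s → ℂ) (hζ : ζ ∈ zeroLocus ℂ I) (t : Fin s) :
    IsAlgebraic k (ζ t) := by
  classical
  let K := algebraicClosure k ℂ
  have hcl : IsAlgClosed K := IsAlgClosure.isAlgClosed k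
  have hFK : (zeroLocus K I).Finite := by
    have h1 : (fun (x : Fin s → K) (t : Fin s) => ((x t : K) : ℂ)) '' zeroLocus K I ⊆
        zeroLocus ℂ I := by
      rintro _ ⟨x, hx, rfl⟩ p hp
      have h2 := hx p hp
      have h3 : aeval (fun t => ((x t : K) : ℂ)) p = ((aeval x p : K) : ℂ) :=
        (aeval_algebraMap_apply ℂ x p)
      rw [h3, h2]
      rfl
    have h2 : Set.InjOn (fun (x : Fin s → K) (t : Fin s) => ((x t : K) : ℂ)) (zeroLocus K I) := by
      intro x _ y _ hxy
      funext t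
      exact Subtype.ext (congrFun hxy t)
    exact Set.Finite.of_finite_image (hF.subset h1) h2
  set p : Polynomial k := ∏ x ∈ hFK.toFinset, minpoly k (x t) with hp
  have hp0 : p ≠ 0 := Finset.prod_ne_zero_iff.2 fun x _ =>
    minpoly.ne_zero (Algebra.IsIntegral.isIntegral (x t))
  set g : MvPolynomial (Fin s) k := Polynomial.aeval (X t) p with hg
  have hgx : ∀ (L : Type) [Field L] [Algebra k L] (x : Fin s → L),
      aeval x g = Polynomial.aeval (x t) p := by
    intro L _ _ x
    rw [hg, ← Polynomial.aeval_algHom_apply, aeval_X]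
  have h1 : g ∈ vanishingIdeal k (zeroLocus K I) := by
    intro x hx
    rw [hgx]
    rw [hp, map_prod]
    exact Finset.prod_eq_zero (hFK.mem_toFinset.2 hx) (minpoly.aeval k (x t))
  rw [vanishingIdeal_zeroLocus_eq_radical, ← vanishingIdeal_zeroLocus_eq_radical (K := ℂ)] at h1
  have h2 := h1 ζ hζ
  rw [hgx] at h2
  exact ⟨p, hp0, h2⟩

theorem prim_pt (k : Subfield ℂ) {s : ℕ} (ζ : Fin s → ℂ) (hζ : ∀ t, IsAlgebraic k (ζ t)) :
    ∃ q : MvPolynomial (Fin s) k, (∀ t, ζ t ∈ ad1 k (aeval ζ q)) ∧ IsAlgebraic k (aeval ζ q) := by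
  obtain ⟨η, h1, h2, h3⟩ := prim k (Set.range ζ) (Set.finite_range ζ) (by
    rintro _ ⟨t, rfl⟩
    exact algS_iff.2 (hζ t))
  have h4 : η ∈ IntermediateField.adjoin k (Set.range ζ) := by
    have h5 : Subfield.closure ((k : Set ℂ) ∪ Set.range ζ) ≤
        (IntermediateField.adjoin k (Set.range ζ)).toSubfield := by
      rw [Subfield.closure_le]
      rintro z (hz | hz)
      · exact (IntermediateField.adjoin k (Set.range ζ)).algebraMap_mem ⟨z, hz⟩
      · exact IntermediateField.subset_adjoin k _ hz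
    exact h5 h1
  have h5 : η ∈ (IntermediateField.adjoin k (Set.range ζ)).toSubalgebra := h4
  rw [IntermediateField.adjoin_toSubalgebra_of_isAlgebraic (by
    rintro _ ⟨t, rfl⟩
    exact hζ t), Algebra.adjoin_range_eq_range_aeval] at h5
  obtain ⟨q, hq⟩ := h5
  have hq' : aeval ζ q = η := hq
  refine ⟨q, fun t => ?_, ?_⟩
  · rw [hq']
    exact h2 ⟨t, rfl⟩
  · rw [hq']
    exact algS_iff.1 h3

end Pool.Agent.J4H11.GQ
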