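import Pool.Agent.J4H11.GQ.T2

/-!
# Algebraic sets with a finite generic fibre: values at rational points
-/

set_option autoImplicit false
set_option linter.unusedSectionVars false

namespace Pool.Agent.J4H11.GQ

open MvPolynomial

section
variable {s : ℕ}

/-- the value at a rational point of the fibre -/
def Val (L : LocW) (z : Fin s → ℚ) (g : MvPolynomial (Fin s) ℂ) (v : ℚ) : Prop :=
  ∃ g' : MvPolynomial (Fin s) L.W, map L.W.subtype g' = g ∧ eval₂ L.ρ z g' = v

variable {L : LocW} {z : Fin s → ℚ}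

theorem val_uniq {g : MvPolynomial (Fin s) ℂ} {v v' : ℚ} (h : Val L z g v) (h' : Val L z g v') :
    v = v' := by
  obtain ⟨g1, h1, rfl⟩ := h
  obtain ⟨g2, h2, rfl⟩ := h'
  have h3 : g1 = g2 := map_injective _ Subtype.coe_injective (h1.trans h2.symm)
  rw [h3]

theorem val_mul {g g' : MvPolynomial (Fin s) ℂ} {v v' : ℚ} (h : Val L z g v)
    (h' : Val L z g' v') : Val L z (g * g') (v * v') := by
  obtain ⟨g1, rfl, rfl⟩ := h
  obtain ⟨g2, rfl, rfl⟩ := h'
  exact ⟨g1 * g2, map_mul _ _ _, eval₂_mul _ _⟩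

theorem val_add {g g' : MvPolynomial (Fin s) ℂ} {v v' : ℚ} (h : Val L z g v)
    (h' : Val L z g' v') : Val L z (g + g') (v + v') := by
  obtain ⟨g1, rfl, rfl⟩ := h
  obtain ⟨g2, rfl, rfl⟩ := h'
  exact ⟨g1 + g2, map_add _ _ _, eval₂_add _ _⟩

theorem val_one : Val L z 1 1 := ⟨1, map_one _, by simp⟩

theorem val_zero : Val L z 0 0 := ⟨0, map_zero _, by simp⟩

theorem val_prod {ι : Type} (T : Finset ι) (g : ι → MvPolynomial (Fin s) ℂ) (v : ι → ℚ)
    (h : ∀ i ∈ T, Val L z (g i) (v i)) : Val L z (∏ i ∈ T, g i) (∏ i ∈ T, v i) := by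
  classical
  induction T using Finset.induction_on with
  | empty => exact val_one
  | insert i T hi ih =>
    rw [Finset.prod_insert hi, Finset.prod_insert hi]
    exact val_mul (h i (Finset.mem_insert_self _ _))
      (ih (fun j hj => h j (Finset.mem_insert_of_mem hj)))

theorem val_pow {g : MvPolynomial (Fin s) ℂ} {v : ℚ} (h : Val L z g v) (n : ℕ) :
    Val L z (g ^ n) (v ^ n) := by
  induction n with
  | zero =>
    rw [pow_zero, pow_zero]
    exact val_one
  | succ n ih =>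
    rw [pow_succ, pow_succ]
    exact val_mul ih h

end

section
variable {M : Type} [CommRing M] [IsDomain M] (e1 : M →+* ℂ) (k : Subfield ℂ)
  (hk2 : k ≤ Subfield.closure (Set.range e1)) {s : ℕ}

include hk2 in
theorem lift_mv (g : MvPolynomial (Fin s) k) : ∃ d : M, e1 d ≠ 0 ∧
    ∀ (L : LocW) (e2 : M →+* ℚ), L.At e1 e2 → e2 d ≠ 0 →
      ∃ g' : MvPolynomial (Fin s) L.W, map L.W.subtype g' = map k.subtype g := by
  obtain ⟨d, hd, hd2⟩ := den_set e1 ((map k.subtype g).coeffs : Set ℂ) (Finset.finite_toSet _) (by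
    intro c hc
    obtain ⟨c', -, rfl⟩ := coe_coeffs_map k.subtype g hc
    exact hk2 c'.2)
  refine ⟨d, hd, fun L e2 hL hd0 => ?_⟩
  have h1 : map k.subtype g ∈ Set.range (map (σ := Fin s) L.W.subtype) := by
    rw [mem_range_map_iff_coeffs_subset]
    intro c hc
    obtain ⟨u, hu⟩ := hd2 c hc
    exact ⟨⟨c, L.div_mem hL d u hd0 c hu.symm⟩, rfl⟩
  obtain ⟨g', hg'⟩ := h1
  exact ⟨g', hg'⟩

variable (hk1 : ∀ G, e1 G ∈ k)

include hk2 in
theorem val_ideal (𝒢 : Set (MvPolynomial (Fin s) M)) (g : MvPolynomial (Fin s) k)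
    (hg : g ∈ Ideal.span (map (e1.codRestrict k hk1) '' 𝒢)) : ∃ d : M, e1 d ≠ 0 ∧
    ∀ (L : LocW) (e2 : M →+* ℚ), L.At e1 e2 → e2 d ≠ 0 → ∀ z : Fin s → ℚ,
      (∀ G ∈ 𝒢, eval₂ e2 z G = 0) → Val L z (map k.subtype g) 0 := by
  induction hg using Submodule.span_induction with
  | mem g hg =>
    obtain ⟨G, hG, rfl⟩ := hg
    refine ⟨1, by rw [map_one]; exact one_ne_zero, fun L e2 hL _ z hz => ?_⟩
    have hmem : ∀ G, e1 G ∈ L.W := fun G => (hL G).1
    refine ⟨map (e1.codRestrict L.W hmem) G, ?_, ?_⟩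
    · rw [map_map, map_map]
      congr 1
    · rw [eval₂_map]
      have h1 : L.ρ.comp (e1.codRestrict L.W hmem) = e2 := by
        refine RingHom.ext fun G => ?_
        exact (hL G).2
      rw [h1]
      exact hz G hG
  | zero =>
    refine ⟨1, by rw [map_one]; exact one_ne_zero, fun L e2 hL _ z hz => ?_⟩
    rw [map_zero]
    exact val_zero
  | add g g' _ _ h h' =>
    obtain ⟨d, hd, h1⟩ := h
    obtain ⟨d', hd', h1'⟩ := h'
    refine ⟨d * d', by rw [map_mul]; exact mul_ne_zero hd hd', fun L e2 hL h0 z hz => ?_⟩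
    rw [map_mul] at h0
    have h2 := val_add (h1 L e2 hL (left_ne_zero_of_mul h0) z hz)
      (h1' L e2 hL (right_ne_zero_of_mul h0) z hz)
    rw [add_zero] at h2
    rw [map_add]
    exact h2
  | smul c g _ h =>
    obtain ⟨d, hd, h1⟩ := h
    obtain ⟨d', hd', h1'⟩ := lift_mv e1 k hk2 c
    refine ⟨d * d', by rw [map_mul]; exact mul_ne_zero hd hd', fun L e2 hL h0 z hz => ?_⟩
    rw [map_mul] at h0
    obtain ⟨c', hc'⟩ := h1' L e2 hL (right_ne_zero_of_mul h0)
    have h2 := val_mul (g := map k.subtype c) ⟨c', hc', rfl⟩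
      (h1 L e2 hL (left_ne_zero_of_mul h0) z hz)
    rw [mul_zero] at h2
    rw [smul_eq_mul, map_mul]
    exact h2

include hk2 in
theorem mon_lift (h : Polynomial k) (hm : h.Monic) : ∃ (Φ : Polynomial M) (e : M), Φ.Monic ∧
    e1 e ≠ 0 ∧ Φ.map e1 = Polynomial.scaleRoots (h.map k.subtype) (e1 e) ∧
    ∀ (L : LocW) (e2 : M →+* ℚ), L.At e1 e2 → e2 e ≠ 0 → ∃ h' : Polynomial L.W,
      h'.map L.W.subtype = h.map k.subtype ∧
      ∀ v, h'.eval₂ L.ρ v = 0 → (Φ.map e2).IsRoot (e2 e * v) := by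
  set hC := h.map k.subtype with hhC
  have hmC : hC.Monic := hm.map _
  obtain ⟨e, he, he2⟩ := den_set e1 (hC.coeffs : Set ℂ) (Finset.finite_toSet _) (by
    intro c hc
    obtain ⟨i, -, rfl⟩ := Polynomial.mem_coeffs_iff.1 hc
    rw [hhC, Polynomial.coeff_map]
    exact hk2 (Subtype.property _))
  have hcoef : ∀ i, ∃ u, e1 u = e1 e * hC.coeff i := by
    intro i
    by_cases h0 : hC.coeff i = 0
    · exact ⟨0, by rw [h0, map_zero, mul_zero]⟩
    · exact he2 _ (Polynomial.coeff_mem_coeffs h0)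
  have hlift : Polynomial.scaleRoots hC (e1 e) ∈ Polynomial.lifts e1 := by
    rw [Polynomial.lifts_iff_coeff_lifts]
    intro i
    rw [Polynomial.coeff_scaleRoots]
    rcases lt_trichotomy i hC.natDegree with hi | hi | hi
    · obtain ⟨u, hu⟩ := hcoef i
      obtain ⟨n, hn⟩ : ∃ n, hC.natDegree - i = n + 1 := ⟨hC.natDegree - i - 1, by omega⟩
      refine ⟨u * e ^ n, ?_⟩
      rw [hn, map_mul, hu, map_pow, pow_succ]
      ring
    · refine ⟨1, ?_⟩
      rw [hi, Nat.sub_self, pow_zero, mul_one, map_one]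
      exact hmC.symm
    · refine ⟨0, ?_⟩
      rw [Polynomial.coeff_eq_zero_of_natDegree_lt hi, zero_mul, map_zero]
  obtain ⟨Φ, hΦ1, -, hΦ2⟩ := Polynomial.lifts_and_degree_eq_and_monic hlift
    ((Polynomial.monic_scaleRoots_iff _).2 hmC)
  refine ⟨Φ, e, hΦ2, he, hΦ1, fun L e2 hL h0 => ?_⟩
  have hlL : hC ∈ Polynomial.lifts L.W.subtype := by
    rw [Polynomial.lifts_iff_coeff_lifts]
    intro i
    obtain ⟨u, hu⟩ := hcoef i
    exact ⟨⟨_, L.div_mem hL e u h0 _ hu.symm⟩, rfl⟩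
  obtain ⟨h', hh1, -, hh2⟩ := Polynomial.lifts_and_degree_eq_and_monic hlL hmC
  refine ⟨h', hh1, fun v hv => ?_⟩
  have hmem : ∀ G, e1 G ∈ L.W := fun G => (hL G).1
  have hcomp : L.ρ.comp (e1.codRestrict L.W hmem) = e2 := by
    refine RingHom.ext fun G => ?_
    exact (hL G).2
  have h1 : Φ.map (e1.codRestrict L.W hmem) =
      Polynomial.scaleRoots h' (e1.codRestrict L.W hmem e) := by
    apply Polynomial.map_injective L.W.subtype Subtype.coe_injective
    rw [Polynomial.map_map, Polynomial.map_scaleRoots _ _ _ (by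
      rw [hh2.leadingCoeff, map_one]
      exact one_ne_zero), hh1]
    exact hΦ1
  have h2 := Polynomial.scaleRoots_eval₂_eq_zero L.ρ (s := e1.codRestrict L.W hmem e) hv
  rw [← h1, Polynomial.eval₂_map, hcomp] at h2
  rw [Polynomial.IsRoot.def, Polynomial.eval_map]
  have h3 : L.ρ (e1.codRestrict L.W hmem e) = e2 e := DFunLike.congr_fun hcomp e
  rw [h3] at h2
  exact h2

end

end Pool.Agent.J4H11.GQ
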