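import Pool.Agent.J4H11.GQ.T3

/-!
# Algebraic sets with a finite generic fibre: reduction to monic polynomials
-/

set_option autoImplicit false
set_option linter.unusedSectionVars false

namespace Pool.Agent.J4H11.GQ

open MvPolynomial

theorem root_val {k : Subfield ℂ} {s : ℕ} (q : MvPolynomial (Fin s) k) (h : Polynomial k)
    (L : LocW) (z : Fin s → ℚ) (q' : MvPolynomial (Fin s) L.W)
    (hq : map L.W.subtype q' = map k.subtype q) (h' : Polynomial L.W)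
    (hh : h'.map L.W.subtype = h.map k.subtype) :
    Val L z (map k.subtype (Polynomial.aeval q h)) (h'.eval₂ L.ρ (eval₂ L.ρ z q')) := by
  refine ⟨h'.eval₂ C q', ?_, ?_⟩
  · rw [Polynomial.hom_eval₂, hq]
    have h1 : (map (σ := Fin s) L.W.subtype).comp C = C.comp L.W.subtype := by
      refine RingHom.ext fun c => ?_
      exact map_C _ _
    rw [h1, ← Polynomial.eval₂_map, hh, Polynomial.eval₂_map, Polynomial.aeval_def,
      Polynomial.hom_eval₂]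
    congr 1
    refine RingHom.ext fun c => ?_
    exact (map_C _ _).symm
  · have h1 := Polynomial.hom_eval₂ h' C (eval₂Hom L.ρ z) q'
    have h2 : (eval₂Hom L.ρ z).comp C = L.ρ := by
      refine RingHom.ext fun c => ?_
      exact eval₂_C _ _ _
    rw [h2] at h1
    exact h1

theorem conj_pt {M : Type} [CommRing M] (e1 : M →+* ℂ) (k : Subfield ℂ) (hk1 : ∀ G, e1 G ∈ k)
    {s : ℕ} (𝒢 : Set (MvPolynomial (Fin s) M)) (ζ : Fin s → ℂ)
    (hζ : ∀ G ∈ 𝒢, eval₂ e1 ζ G = 0) (α : ℂ) (hα : IsAlgebraic k α)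
    (hζα : ∀ t, ζ t ∈ ad1 k α) (β : ℂ) (hβ : Polynomial.aeval β (minpoly k α) = 0) :
    ∃ ζ' : Fin s → ℂ, (∀ G ∈ 𝒢, eval₂ e1 ζ' G = 0) ∧ ∀ t, ζ' t ∈ ad1 k β := by
  have hp : ∀ t, ∃ p : Polynomial k, p.eval₂ k.subtype α = ζ t := fun t =>
    ad1_poly k α (algS_iff.2 hα) _ (hζα t)
  choose p hp using hp
  have key : ∀ (γ : ℂ) (G : MvPolynomial (Fin s) M),
      Polynomial.aeval γ (eval₂ ((Polynomial.C).comp (e1.codRestrict k hk1)) p G) =
        eval₂ e1 (fun t => Polynomial.aeval γ (p t)) G := by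
    intro γ G
    have h1 : (Polynomial.aeval γ : Polynomial k →ₐ[k] ℂ)
        (eval₂ ((Polynomial.C).comp (e1.codRestrict k hk1)) p G) =
        eval₂ (((Polynomial.aeval γ : Polynomial k →ₐ[k] ℂ) : Polynomial k →+* ℂ).comp
          ((Polynomial.C).comp (e1.codRestrict k hk1)))
          (fun t => ((Polynomial.aeval γ : Polynomial k →ₐ[k] ℂ) : Polynomial k →+* ℂ) (p t)) G :=
      eval₂_comp_left ((Polynomial.aeval γ : Polynomial k →ₐ[k] ℂ) : Polynomial k →+* ℂ) _ p G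
    rw [h1]
    congr 1
    refine RingHom.ext fun c => ?_
    change Polynomial.aeval γ (Polynomial.C (e1.codRestrict k hk1 c)) = _
    rw [Polynomial.aeval_C]
    rfl
  refine ⟨fun t => Polynomial.aeval β (p t), fun G hG => ?_, fun t => ?_⟩
  · rw [← key]
    have h1 : Polynomial.aeval α (eval₂ ((Polynomial.C).comp (e1.codRestrict k hk1)) p G) = 0 := by
      rw [key]
      have h2 : (fun t => Polynomial.aeval α (p t)) = ζ := funext hp
      rw [h2]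
      exact hζ G hG
    obtain ⟨q, hq⟩ := minpoly.dvd k α h1
    rw [hq, map_mul, hβ, zero_mul]
  · have h1 : Polynomial.aeval β (p t) ∈ Algebra.adjoin k {β} := by
      rw [Algebra.adjoin_singleton_eq_range_aeval]
      exact ⟨p t, rfl⟩
    have h2 : Algebra.adjoin k {β} ≤ (IntermediateField.adjoin k {β}).toSubalgebra :=
      IntermediateField.algebra_adjoin_le_adjoin k _
    have h3 : (IntermediateField.adjoin k {β}).toSubfield ≤ ad1 k β := by
      rw [IntermediateField.adjoin_toSubfield]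
      unfold ad1
      rw [Subfield.closure_le]
      rintro u (⟨c, rfl⟩ | hu)
      · exact Subfield.subset_closure (Or.inl c.2)
      · exact Subfield.subset_closure (Or.inr hu)
    exact h3 (h2 h1)

theorem red_set {M : Type} [CommRing M] [IsDomain M] (e1 : M →+* ℂ) (k : Subfield ℂ)
    (hk1 : ∀ G, e1 G ∈ k) (hk2 : k ≤ Subfield.closure (Set.range e1)) {s : ℕ}
    (𝒢 : Set (MvPolynomial (Fin s) M))
    (hF : {ζ : Fin s → ℂ | ∀ G ∈ 𝒢, eval₂ e1 ζ G = 0}.Finite) :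
    ∃ (Φ : Polynomial M) (d : M), Φ.Monic ∧ e1 d ≠ 0 ∧
      (∀ (L : LocW) (e2 : M →+* ℚ), L.At e1 e2 → e2 d ≠ 0 → ∀ z : Fin s → ℚ,
        (∀ G ∈ 𝒢, eval₂ e2 z G = 0) → ∃ u : ℚ, (Φ.map e2).IsRoot u) ∧
      ∀ w : ℂ, (Φ.map e1).IsRoot w → ∃ ζ : Fin s → ℂ, (∀ G ∈ 𝒢, eval₂ e1 ζ G = 0) ∧
        ∀ t, ζ t ∈ ad1 k w := by
  classical
  set e1k : M →+* k := e1.codRestrict k hk1 with he1k
  set I : Ideal (MvPolynomial (Fin s) k) := Ideal.span (map e1k '' 𝒢) with hI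
  have hz : ∀ ζ : Fin s → ℂ, ζ ∈ zeroLocus ℂ I ↔ ∀ G ∈ 𝒢, eval₂ e1 ζ G = 0 := by
    intro ζ
    rw [hI, zeroLocus_span]
    have h1 : ∀ G, aeval ζ (map e1k G) = eval₂ e1 ζ G := by
      intro G
      rw [aeval_def, eval₂_map]
      congr 1
    constructor
    · intro h G hG
      rw [← h1]
      exact h _ ⟨G, hG, rfl⟩
    · rintro h _ ⟨G, hG, rfl⟩
      rw [h1]
      exact h G hG
  have hzF : (zeroLocus ℂ I).Finite := by
    refine hF.subset fun ζ hζ => (hz ζ).1 hζ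
  have hq : ∀ ζ : Fin s → ℂ, ∃ q : MvPolynomial (Fin s) k, ζ ∈ zeroLocus ℂ I →
      (∀ t, ζ t ∈ ad1 k (aeval ζ q)) ∧ IsAlgebraic k (aeval ζ q) := by
    intro ζ
    by_cases h : ζ ∈ zeroLocus ℂ I
    · obtain ⟨q, hq⟩ := prim_pt k ζ (fun t => alg_fin k I hzF ζ h t)
      exact ⟨q, fun _ => hq⟩
    · exact ⟨0, fun h' => absurd h' h⟩
  choose q hq using hq
  set Fs := hzF.toFinset with hFs
  have hmemF : ∀ ζ, ζ ∈ Fs ↔ ζ ∈ zeroLocus ℂ I := fun ζ => hzF.mem_toFinset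
  set α : (Fin s → ℂ) → ℂ := fun ζ => aeval ζ (q ζ) with hα
  have hmon : ∀ ζ, ∃ (Φ : Polynomial M) (e : M), ζ ∈ Fs → Φ.Monic ∧
      e1 e ≠ 0 ∧ Φ.map e1 = Polynomial.scaleRoots ((minpoly k (α ζ)).map k.subtype) (e1 e) ∧
      ∀ (L : LocW) (e2 : M →+* ℚ), L.At e1 e2 → e2 e ≠ 0 → ∃ h' : Polynomial L.W,
        h'.map L.W.subtype = (minpoly k (α ζ)).map k.subtype ∧
        ∀ v, h'.eval₂ L.ρ v = 0 → (Φ.map e2).IsRoot (e2 e * v) := by
    intro ζ
    by_cases h : ζ ∈ Fs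
    · obtain ⟨Φ, e, h1⟩ := mon_lift e1 k hk2 (minpoly k (α ζ))
        (minpoly.monic (hq ζ ((hmemF ζ).1 h)).2.isIntegral)
      exact ⟨Φ, e, fun _ => h1⟩
    · exact ⟨0, 0, fun h' => absurd h' h⟩
  choose Φ e hΦ using hmon
  have hql := fun ζ => lift_mv e1 k hk2 (q ζ)
  choose dq hdq0 hdq using hql
  -- the product
  set H : MvPolynomial (Fin s) k := ∏ ζ ∈ Fs, Polynomial.aeval (q ζ) (minpoly k (α ζ)) with hH
  have hHv : H ∈ vanishingIdeal k (zeroLocus ℂ I) := by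
    intro x hx
    rw [hH, map_prod]
    refine Finset.prod_eq_zero ((hmemF x).2 hx) ?_
    rw [← Polynomial.aeval_algHom_apply]
    exact minpoly.aeval k (α x)
  rw [vanishingIdeal_zeroLocus_eq_radical] at hHv
  obtain ⟨N, hN⟩ := hHv
  obtain ⟨d0, hd00, hd0⟩ := val_ideal e1 k hk2 hk1 𝒢 (H ^ N) hN
  refine ⟨∏ ζ ∈ Fs, Φ ζ, d0 * ∏ ζ ∈ Fs, (e ζ * dq ζ), ?_, ?_, ?_, ?_⟩
  · exact Polynomial.monic_prod_of_monic _ _ fun ζ hζ => (hΦ ζ hζ).1
  · rw [map_mul, map_prod]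
    refine mul_ne_zero hd00 (Finset.prod_ne_zero_iff.2 fun ζ hζ => ?_)
    rw [map_mul]
    exact mul_ne_zero (hΦ ζ hζ).2.1 (hdq0 ζ)
  · intro L e2 hL hd z hz
    rw [map_mul, map_prod] at hd
    have hdz := right_ne_zero_of_mul hd
    rw [Finset.prod_ne_zero_iff] at hdz
    have hv0 := hd0 L e2 hL (left_ne_zero_of_mul hd) z hz
    have hloc : ∀ ζ, ∃ v u : ℚ, ζ ∈ Fs → Val L z (map k.subtype
        (Polynomial.aeval (q ζ) (minpoly k (α ζ)))) v ∧
        (v = 0 → ((Φ ζ).map e2).IsRoot u) := by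
      intro ζ
      by_cases hζ : ζ ∈ Fs
      · have h1 := hdz ζ hζ
        rw [map_mul] at h1
        obtain ⟨q', hq'⟩ := hdq ζ L e2 hL (right_ne_zero_of_mul h1)
        obtain ⟨h', hh1, hh2⟩ := (hΦ ζ hζ).2.2.2 L e2 hL (left_ne_zero_of_mul h1)
        exact ⟨_, _, fun _ => ⟨root_val (q ζ) (minpoly k (α ζ)) L z q' hq' h' hh1,
          fun h0 => hh2 _ h0⟩⟩
      · exact ⟨0, 0, fun h => absurd h hζ⟩
    choose v u hvu using hloc
    have h1 := val_prod Fs (fun ζ => map k.subtype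
        (Polynomial.aeval (q ζ) (minpoly k (α ζ)))) v (fun ζ hζ => (hvu ζ hζ).1)
    rw [← map_prod, ← hH] at h1
    have h2 := val_pow h1 N
    rw [← map_pow] at h2
    have h3 := val_uniq h2 hv0
    have h4 := eq_zero_of_pow_eq_zero h3
    rw [Finset.prod_eq_zero_iff] at h4
    obtain ⟨ζ, hζ, hvζ⟩ := h4
    refine ⟨u ζ, ?_⟩
    rw [Polynomial.map_prod, Polynomial.IsRoot.def, Polynomial.eval_prod]
    exact Finset.prod_eq_zero hζ ((hvu ζ hζ).2 hvζ)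
  · intro w hw
    rw [Polynomial.map_prod, Polynomial.IsRoot.def, Polynomial.eval_prod,
      Finset.prod_eq_zero_iff] at hw
    obtain ⟨ζ, hζ, hw⟩ := hw
    obtain ⟨-, he0, hsc, -⟩ := hΦ ζ hζ
    have hζI := (hmemF ζ).1 hζ
    rw [hsc] at hw
    have h1 : w = e1 (e ζ) * (w / e1 (e ζ)) := by
      rw [mul_div_cancel₀ _ he0]
    rw [h1, Polynomial.scaleRoots_eval_mul] at hw
    have h2 := (mul_eq_zero.1 hw).resolve_left (pow_ne_zero _ he0)
    rw [Polynomial.eval_map] at h2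
    obtain ⟨ζ', hζ1, hζ2⟩ := conj_pt e1 k hk1 𝒢 ζ ((hz ζ).1 hζI) (α ζ) (hq ζ hζI).2
      (hq ζ hζI).1 (w / e1 (e ζ)) h2
    refine ⟨ζ', hζ1, fun t => ?_⟩
    refine (ad1_le _ _ _ (ad1_S _ _) ?_) (hζ2 t)
    exact Subfield.div_mem _ (ad1_θ _ _) (ad1_S _ _ (hk1 _))

end Pool.Agent.J4H11.GQ
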