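import Pool.Agent.J4H11.GQ.T4

/-!
# Few rational points on algebraic sets over the product
-/

set_option autoImplicit false
set_option linter.unusedSectionVars false

open Polynomial Pool.Agent.J4H11.RC Pool.Agent.J4H11.SC Pool.Agent.H901R3.MS WeierstrassCurve
  Pool.Agent.J4H11.GP Pool.Agent.J4H11.GN

attribute [local instance 5000] Classical.propDecidable

namespace Pool.Agent.J4H11.GQ

theorem rat_lift {a b : ℤ} (hDQ : Disc (a : ℚ) (b : ℚ)) (hD : Disc (a : ℂ) (b : ℂ))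
    (S : Pt (a : ℂ) (b : ℂ)) (hS : IsRatP S) :
    ∃ R0 : Pt (a : ℚ) (b : ℚ), pm (Rat.castHom ℂ) hD R0 = S := by
  by_cases h0 : S = 0
  · exact ⟨0, by rw [map_zero, h0]⟩
  · obtain ⟨q, hq⟩ := hS
    have h1 := crd_eqn' S h0
    rw [hq] at h1
    have h2 : q.2 ^ 2 = q.1 ^ 3 + (a : ℚ) * q.1 + (b : ℚ) := by
      have h3 : ((q.2 ^ 2 : ℚ) : ℂ) = ((q.1 ^ 3 + (a : ℚ) * q.1 + (b : ℚ) : ℚ) : ℂ) := by
        push_cast
        exact h1
      exact_mod_cast h3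
    refine ⟨Affine.Point.some _ _ ((nonsingular_iff hDQ).2 h2), ?_⟩
    refine pt_ext (pm_ne _ _ (some_ne _)) h0 ?_
    rw [pm_crd, hq]
    rfl

section
variable {a b : ℕ → ℤ} {r : ℕ}

theorem k0_lin (hDQ : ∀ j, Disc (a j : ℚ) (b j : ℚ))
    (P R S : (j : ℕ) → Pt (a j : ℂ) (b j : ℂ)) (n : ℕ)
    (h : ∀ j < r, linC n (R j) (S j) = P j ∧ IsRatP (S j)) :
    k0 (cx P) (cy P) r ≤ k0 (cx R) (cy R) r := by
  have hD : ∀ j, Disc (a j : ℂ) (b j : ℂ) := fun j => disc_of (Rat.castHom ℂ) _ _ (hDQ j)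
  apply k0_le
  intro j hj
  obtain ⟨h1, h2⟩ := h j hj
  obtain ⟨R0, hR0⟩ := rat_lift (hDQ j) (hD j) (S j) h2
  have h3 := crd_field (k0 (cx R) (cy R) r) (hD j) (R j) (k0_x _ _ r j hj)
    (k0_y _ _ r j hj) n R0
  rw [hR0, ← lin_cl (fun a b => Classical.propDecidable (a = b)), linC_lin, h1] at h3
  exact h3

theorem bad_box (hDQ : ∀ j, Disc (a j : ℚ) (b j : ℚ)) (hnt : ∀ j, NT (a j) (b j))
    (P : (j : ℕ) → Pt (a j : ℂ) (b j : ℂ))
    (hP : ∀ j < r, NCr (Kb (cx P) (cy P) j).subtype (P j))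
    (s : MvPolynomial (Fin r × Fin 2) ℤ) (hs : eR r (cx P) (cy P) s ≠ 0)
    (f : (j : Fin r) → Fin 3 → Pt (a j : ℚ) (b j : ℚ)) (hf : Ind3 f) :
    BoxG (a := fun j : Fin r => a j) (b := fun j : Fin r => b j) f (fun Q => eQ Q s = 0) := by
  have hD : ∀ j, Disc (a j : ℂ) (b j : ℂ) := fun j => disc_of (Rat.castHom ℂ) _ _ (hDQ j)
  obtain ⟨A0, _, ι0, X0, Y0, hι0, hXY0, -, htws, full0⟩ := triv_tower hDQ hnt hD P r
    (fun j hj => ncr_mono _ _ (k0_le_kb _ _ j) _ (hP j hj)) r le_rfl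
  have hs0 : evp (fun j : Fin r => X0 j) (fun j : Fin r => Y0 j) s ≠ 0 := by
    intro h0
    apply hs
    have h1 : eR r (cx P) (cy P) = ι0.comp (evp (fun j : Fin r => X0 j)
        (fun j : Fin r => Y0 j)) := by
      rw [evp_comp]
      unfold eR
      congr 1
      · funext j
        exact (hXY0 j j.2).1.symm
      · funext j
        exact (hXY0 j j.2).2.symm
    rw [h1, RingHom.comp_apply, h0, map_zero]
  exact box_bad' htws full0 s hs0 (fun j => hDQ j) f hf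

end

end Pool.Agent.J4H11.GQ
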