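import Pool.Agent.J4H11.GQ.T5

/-!
# Few rational points on algebraic sets over the product: the theorem
-/

set_option autoImplicit false

open Finset Module Pool.Agent.J4H11.RC Pool.Agent.J4H11.SC Pool.Agent.H901R3.MS
  WeierstrassCurve Pool.Agent.J4H11.GN Pool.Agent.J4H11.GP

namespace Pool.Agent.J4H11.GQ

theorem ind3_exists {r : ℕ} (a b : Fin r → ℤ)
    (hrk : ∀ j, 3 ≤ finrank ℤ (Pt (a j : ℚ) (b j : ℚ))) :
    ∃ f : (j : Fin r) → Fin 3 → Pt (a j : ℚ) (b j : ℚ), Ind3 f := by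
  have hf0 : ∀ j : Fin r, ∃ f : Fin 3 → Pt (a j : ℚ) (b j : ℚ),
      ∀ m : Fin 3 → ℤ, m ≠ 0 → ∑ t, m t • f t ≠ 0 := by
    intro j
    obtain ⟨f, hf⟩ := exists_linearIndependent_of_le_finrank (hrk j)
    refine ⟨f, fun m hm h0 => ?_⟩
    rw [linearIndependent_iff'] at hf
    apply hm
    funext t
    exact hf univ m h0 t (mem_univ t)
  choose f hf using hf0
  exact ⟨f, hf⟩

theorem pt_ne {r : ℕ} {a b : ℕ → ℤ} (P : (j : ℕ) → Pt (a j : ℂ) (b j : ℂ))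
    (hind : AlgebraicIndependent ℚ (fun j : Fin r => cx P j)) : ∀ j < r, P j ≠ 0 := by
  intro j hj h0
  have h1 := hind.transcendental ⟨j, hj⟩
  apply h1
  have h2 : cx P j = 0 := by
    rw [cx_def, h0]
    rfl
  change IsAlgebraic ℚ (cx P j)
  rw [h2]
  exact isAlgebraic_zero

theorem ball_bad {r : ℕ} (a b : ℕ → ℤ) (hDQ : ∀ j, Disc (a j : ℚ) (b j : ℚ))
    (hrk : ∀ j, 3 ≤ finrank ℤ (Pt (a j : ℚ) (b j : ℚ)))
    (P : (j : ℕ) → Pt (a j : ℂ) (b j : ℂ))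
    (hind : AlgebraicIndependent ℚ (fun j : Fin r => cx P j))
    (s : MvPolynomial (Fin r × Fin 2) ℤ) (hs : eR r (cx P) (cy P) s ≠ 0) :
    BallG (a := fun j : Fin r => a j) (b := fun j : Fin r => b j) (fun Q => eQ Q s = 0) := by
  have hnt : ∀ j, NT (a j) (b j) := fun j => nt_of_rank (a j) (b j) (by
    have := hrk j
    omega)
  obtain ⟨f, hf⟩ := ind3_exists (fun j : Fin r => a j) (fun j : Fin r => b j) (fun j => hrk j)
  have h := ball_of_box (fun j => hDQ j) f (fun _ => 1) (fun _ => 0) (fun Q => eQ Q s = 0)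
    (fun Q => eQ Q s = 0) (bad_box hDQ hnt P (ncr_ind P hind (pt_ne P hind)) s hs f hf)
    (fun Q hQ => by
      have h1 : (fun j : Fin r => 1 • Q j + 0) = Q := by
        funext j
        rw [one_smul, add_zero]
      rwa [h1] at hQ)
  refine ballG_mono (fun Q hQ => ⟨hQ, Q, fun j => ?_⟩) h
  rw [one_smul, add_zero]

theorem ball_set {r s : ℕ} (a b : ℕ → ℤ) (hDQ : ∀ j, Disc (a j : ℚ) (b j : ℚ))
    (hrk : ∀ j, 3 ≤ finrank ℤ (Pt (a j : ℚ) (b j : ℚ)))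
    (P : (j : ℕ) → Pt (a j : ℂ) (b j : ℂ))
    (hind : AlgebraicIndependent ℚ (fun j : Fin r => cx P j))
    (𝒢 : Set (MvPolynomial (Fin s) (MvPolynomial (Fin r × Fin 2) ℤ)))
    (hF : {ζ : Fin s → ℂ | ∀ G ∈ 𝒢,
      MvPolynomial.eval₂ (eR r (cx P) (cy P)) ζ G = 0}.Finite)
    (hyp : ∀ n : ℕ, 1 ≤ n → ∀ R S : (j : ℕ) → Pt (a j : ℂ) (b j : ℂ),
      (∀ j < r, linC n (R j) (S j) = P j ∧ IsRatP (S j)) → ∀ ζ : Fin s → ℂ,
      (∀ G ∈ 𝒢, MvPolynomial.eval₂ (eR r (cx P) (cy P)) ζ G = 0) →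
      ∃ t, ζ t ∉ k0 (cx R) (cy R) r) :
    BallG (a := fun j : Fin r => a j) (b := fun j : Fin r => b j)
      (fun Q => (∀ j, Q j ≠ 0) → ∃ z : Fin s → ℚ, ∀ G ∈ 𝒢,
        MvPolynomial.eval₂ (eQ Q) z G = 0) := by
  obtain ⟨Φ, d, hΦ, hd, h1, h2⟩ := red_set (eR r (cx P) (cy P)) (k0 (cx P) (cy P) r)
    (eR_mem _ _ r) (k0_eR _ _) 𝒢 hF
  have hno : NoDiv P r Φ := by
    intro n hn R S hRS w hw hwR
    obtain ⟨ζ, hζ1, hζ2⟩ := h2 w hw
    obtain ⟨t, ht⟩ := hyp n hn R S hRS ζ hζ1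
    exact ht ((ad1_le _ _ _ (k0_lin hDQ P R S n hRS) hwR) (hζ2 t))
  have hb1 := ball_main a b hDQ hrk P hind Φ hΦ hno
  have hb2 := ball_bad a b hDQ hrk P hind d hd
  have hnt : ∀ j, NT (a j) (b j) := fun j => nt_of_rank (a j) (b j) (by
    have := hrk j
    omega)
  refine ballG_mono (fun Q hQ => ?_) (ballG_or hb1 hb2)
  by_cases h0 : ∀ j, Q j ≠ 0
  · by_cases hdQ : eQ Q d = 0
    · exact Or.inr hdQ
    · left
      intro _
      obtain ⟨z, hz⟩ := hQ h0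
      obtain ⟨L, hL⟩ := loc_one hDQ hnt P (ncr_ind P hind (pt_ne P hind)) Q h0
      exact h1 L (eQ Q) hL hdQ z hz
  · exact Or.inl fun h => absurd h h0

end Pool.Agent.J4H11.GQ
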