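import Pool.Agent.J4H11.GQ.T6

/-!
# Lower bound for the number of the multiples
-/

set_option autoImplicit false

open Finset Module Pool.Agent.J4H11.RC Pool.Agent.J4H11.SC Pool.Agent.H901R3.MS
  WeierstrassCurve Pool.Agent.J4H11.GN Pool.Agent.J4H11.GP

namespace Pool.Agent.J4H11.GQ

theorem log_small (C γ ε : ℝ) (hγ : 0 < γ) (hε : 0 < ε) : ∃ T0 : ℝ, ∀ T : ℝ, T0 ≤ T →
    C * Real.log T ^ (-γ) ≤ ε := by
  have h1 : Filter.Tendsto (fun T : ℝ => C * Real.log T ^ (-γ)) Filter.atTop (nhds (C * 0)) :=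
    ((tendsto_rpow_neg_atTop hγ).comp Real.tendsto_log_atTop).const_mul C
  rw [mul_zero] at h1
  have h2 := (h1.eventually (gt_mem_nhds hε)).exists_forall_of_atTop
  obtain ⟨T0, hT0⟩ := h2
  exact ⟨T0, fun T hT => (hT0 T hT).le⟩

theorem tors_fin (a b : ℤ) (hD : Disc (a : ℚ) (b : ℚ)) (n : ℕ) (hn : 1 ≤ n) :
    {x : Pt (a : ℚ) (b : ℚ) | n • x = 0}.Finite := by
  obtain ⟨m, ψ, C, hC0, hC⟩ := embE a b hD
  refine (northcott (a : ℚ) (b : ℚ) C).subset fun x hx0 => ?_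
  have h1 : n • ψ x = 0 := by
    rw [← map_nsmul]
    have h2 : n • x = 0 := hx0
    rw [h2, map_zero]
  have h2 : ψ x = 0 := by
    rw [← Nat.cast_smul_eq_nsmul ℝ, smul_eq_zero] at h1
    rcases h1 with h1 | h1
    · have : n = 0 := by exact_mod_cast h1
      omega
    · exact h1
  have h3 := hC x
  rw [h2, norm_zero, zero_pow two_ne_zero, zero_sub, abs_neg] at h3
  exact (le_abs_self _).trans h3

theorem height_lin (a b : ℤ) (hD : Disc (a : ℚ) (b : ℚ)) (n : ℕ) (R0 : Pt (a : ℚ) (b : ℚ)) :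
    ∃ K : ℝ, 1 ≤ K ∧ ∀ T : ℝ, 1 ≤ T → ∀ Q : Pt (a : ℚ) (b : ℚ), hx Q ≤ T ^ 2 →
      hx (n • Q + R0) ≤ (K * T) ^ 2 := by
  obtain ⟨m, ψ, C, hC0, hC⟩ := embE a b hD
  set s := Real.sqrt (1 + C) with hs
  have hs0 : 0 ≤ s := Real.sqrt_nonneg _
  have hs2 : s ^ 2 = 1 + C := Real.sq_sqrt (by linarith)
  refine ⟨n * s + ‖ψ R0‖ + s, ?_, fun T hT Q hQ => ?_⟩
  · have h1 : 1 ≤ s := by
      rw [hs]
      apply Real.le_sqrt_of_sq_le
      linarith
    have h2 : 0 ≤ (n : ℝ) * s := mul_nonneg (Nat.cast_nonneg _) hs0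
    have h3 := norm_nonneg (ψ R0)
    linarith
  · have h1 : ‖ψ Q‖ ≤ s * T := by
      have h2 := (abs_le.1 (hC Q)).2
      have h3 : ‖ψ Q‖ ^ 2 ≤ (s * T) ^ 2 := by
        rw [mul_pow, hs2]
        have hT2 : 1 ≤ T ^ 2 := one_le_pow₀ hT
        have : C ≤ C * T ^ 2 := le_mul_of_one_le_right hC0 hT2
        linarith
      exact le_of_sq_le_sq h3 (by positivity)
    have h2 : ‖ψ (n • Q + R0)‖ ≤ n * (s * T) + ‖ψ R0‖ := by
      rw [map_add, map_nsmul]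
      refine (norm_add_le _ _).trans ?_
      rw [← Nat.cast_smul_eq_nsmul ℝ, norm_smul, Real.norm_natCast]
      have := mul_le_mul_of_nonneg_left h1 (Nat.cast_nonneg (α := ℝ) n)
      linarith
    have h3 := (abs_le.1 (hC (n • Q + R0))).1
    have h4 : ‖ψ (n • Q + R0)‖ ^ 2 ≤ (n * (s * T) + ‖ψ R0‖) ^ 2 :=
      pow_le_pow_left₀ (norm_nonneg _) h2 2
    have h5 : (n * (s * T) + ‖ψ R0‖) ^ 2 + C ≤ ((n * s + ‖ψ R0‖ + s) * T) ^ 2 := by
      have hA : 0 ≤ (n : ℝ) * s := mul_nonneg (Nat.cast_nonneg _) hs0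
      have hB := norm_nonneg (ψ R0)
      have e1 : (n * (s * T) + ‖ψ R0‖) ≤ (n * s + ‖ψ R0‖) * T := by nlinarith
      have e2 : (n * (s * T) + ‖ψ R0‖) ^ 2 ≤ ((n * s + ‖ψ R0‖) * T) ^ 2 :=
        pow_le_pow_left₀ (by positivity) e1 2
      have e3 : C ≤ (s * T) ^ 2 := by
        rw [mul_pow, hs2]
        have hT2 : 1 ≤ T ^ 2 := one_le_pow₀ hT
        nlinarith
      have e4 : ((n * s + ‖ψ R0‖) * T) ^ 2 + (s * T) ^ 2 ≤ ((n * s + ‖ψ R0‖ + s) * T) ^ 2 := by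
        have e5 : 0 ≤ 2 * ((n * s + ‖ψ R0‖) * T) * (s * T) := by positivity
        nlinarith
      linarith
    linarith

section
variable {r : ℕ} {a b : Fin r → ℤ}

theorem card_filter_real {α : Type} (s : Finset α) (p : α → Prop) (i1 : DecidablePred p) :
    ((s.filter p).card : ℝ) ≤ (s.card : ℝ) := by
  exact_mod_cast card_filter_le s p

/-- the number of the points of bounded height -/
theorem up_all (hD : ∀ j, Disc (a j : ℚ) (b j : ℚ)) : ∃ C : ℝ, 0 ≤ C ∧ ∀ T : ℝ, 2 ≤ T →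
    ({P : (j : Fin r) → Pt (a j : ℚ) (b j : ℚ) | ∀ j, hx (P j) ≤ T ^ 2}.ncard : ℝ) ≤
      C * T ^ (∑ j, finrank ℤ (Pt (a j : ℚ) (b j : ℚ))) := by
  classical
  obtain ⟨C, hC, h⟩ := avgQ hD (fun _ => True) (fun _ _ => 0) 0 le_rfl 1 zero_le_one 3 le_rfl
    (fun L hL c => by
      rw [neg_zero, Real.rpow_zero, mul_one, one_mul]
      refine (card_filter_real _ _ _).trans (le_of_eq ?_)
      rw [Fintype.card_piFinset, prod_const, card_univ, Fintype.card_fin, card_range]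
      push_cast
      rfl)
  refine ⟨C, hC, fun T hT => ?_⟩
  have h1 := (h T hT (fun _ => 0)).2
  rw [neg_zero, Real.rpow_zero, mul_one] at h1
  have h2 : {P : (j : Fin r) → Pt (a j : ℚ) (b j : ℚ) | ∀ j, hx (P j) ≤ T ^ 2} =
      {P : (j : Fin r) → Pt (a j : ℚ) (b j : ℚ) | (∀ j, hx (P j - 0) ≤ T ^ 2) ∧ True} := by
    ext P
    simp only [sub_zero, and_true]
  rw [h2]
  exact h1

end

end Pool.Agent.J4H11.GQ
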