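import Pool.Agent.J4H11.GQ.T7

/-!
# Many points on the image of a multiple
-/

set_option autoImplicit false

open Finset Module Pool.Agent.J4H11.RC Pool.Agent.J4H11.SC Pool.Agent.H901R3.MS
  WeierstrassCurve Pool.Agent.J4H11.GN Pool.Agent.J4H11.GP

namespace Pool.Agent.J4H11.GQ

/-- an arithmetic lemma -/
theorem arith_low (N Bd κ0 C1 C2 t X Z A A' l1 l2 : ℝ) (hA : 0 ≤ A)
    (h1 : κ0 * A ≤ N) (h2 : N - Bd ≤ t * (X + Z)) (h3 : Bd ≤ C1 * A * l1)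
    (h4 : Z ≤ C2 * A' * l2) (ht : 0 ≤ t) (h5 : C1 * l1 ≤ κ0 / 4)
    (h6 : t * C2 * A' * l2 ≤ A * (κ0 / 4)) : κ0 / 2 * A ≤ t * X := by
  have g1 : C1 * A * l1 ≤ A * (κ0 / 4) := by
    calc C1 * A * l1 = A * (C1 * l1) := by ring
      _ ≤ A * (κ0 / 4) := mul_le_mul_of_nonneg_left h5 hA
  have g2 : t * Z ≤ t * (C2 * A' * l2) := mul_le_mul_of_nonneg_left h4 ht
  have g3 : t * (C2 * A' * l2) = t * C2 * A' * l2 := by ring
  have g4 : t * (X + Z) = t * X + t * Z := by ring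
  linarith

section
variable {r : ℕ} {a b : Fin r → ℤ}

theorem low_conv (hD : ∀ j, Disc (a j : ℚ) (b j : ℚ))
    (f : (j : Fin r) → Fin 3 → Pt (a j : ℚ) (b j : ℚ)) (hf : Ind3 f) (n : ℕ) (hn : 1 ≤ n)
    (R0 : (j : Fin r) → Pt (a j : ℚ) (b j : ℚ))
    (Bad Xs : ((j : Fin r) → Pt (a j : ℚ) (b j : ℚ)) → Prop) (hBad : BallG Bad)
    (hgood : ∀ Q : (j : Fin r) → Pt (a j : ℚ) (b j : ℚ), ¬ Bad Q →
      (∀ j, n • Q j + R0 j ≠ 0) → Xs (fun j => n • Q j + R0 j)) :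
    ∃ κ : ℝ, 0 < κ ∧ ∃ T0 : ℝ, ∀ T : ℝ, T0 ≤ T →
      κ * T ^ (∑ j, finrank ℤ (Pt (a j : ℚ) (b j : ℚ))) ≤
        ({P : (j : Fin r) → Pt (a j : ℚ) (b j : ℚ) | (∀ j, hx (P j) ≤ T ^ 2) ∧ Xs P}.ncard : ℝ) := by
  classical
  set ρ := ∑ j, finrank ℤ (Pt (a j : ℚ) (b j : ℚ)) with hρ
  obtain ⟨κ0, hκ0, hlow⟩ := low_all (a := a) (b := b) hD
  have hKj := fun j => height_lin (a j) (b j) (hD j) n (R0 j)
  choose Kj hKj1 hKj2 using hKj
  set K : ℝ := 1 + ∑ j, Kj j with hK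
  have hKs : 0 ≤ ∑ j, Kj j := sum_nonneg fun j _ => by
    have := hKj1 j
    linarith
  have hK1 : 1 ≤ K := by linarith
  have hKle : ∀ j, Kj j ≤ K := fun j => by
    have := single_le_sum (f := Kj) (fun l _ => (zero_le_one.trans (hKj1 l))) (mem_univ j)
    linarith
  have htf := fun j => tors_fin (a j) (b j) (hD j) n hn
  set Tor : Finset ((j : Fin r) → Pt (a j : ℚ) (b j : ℚ)) :=
    Fintype.piFinset (fun j => (htf j).toFinset) with hTor
  set t : ℝ := (Tor.card : ℝ) with ht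
  have ht1 : 1 ≤ t := by
    have : 0 < Tor.card := by
      rw [card_pos]
      refine ⟨fun _ => 0, ?_⟩
      rw [hTor, Fintype.mem_piFinset]
      intro j
      rw [Set.Finite.mem_toFinset]
      exact smul_zero n
    rw [ht]
    exact_mod_cast this
  have ht0 : 0 < t := by linarith
  obtain ⟨γ1, hγ1, hB1⟩ := hBad
  obtain ⟨C1, hC1, hB1⟩ := hB1 γ1 hγ1 le_rfl
  obtain ⟨γ2, hγ2, hB2⟩ := ball_zero hD f hf
  obtain ⟨C2, hC2, hB2⟩ := hB2 γ2 hγ2 le_rfl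
  have hKρ : 0 < K ^ ρ := by positivity
  obtain ⟨T1, hT1⟩ := log_small C1 γ1 (κ0 / 4) hγ1 (by linarith)
  obtain ⟨T2, hT2⟩ := log_small (t * C2 * K ^ ρ) γ2 (κ0 / 4) hγ2 (by linarith)
  refine ⟨κ0 / 2 / (t * K ^ ρ), by positivity, max (K * max 2 T1) (max 2 T2), fun T hT => ?_⟩
  have hTa : K * max 2 T1 ≤ T := (le_max_left _ _).trans hT
  have hTb : max 2 T2 ≤ T := (le_max_right _ _).trans hT
  have hTc : (2 : ℝ) ≤ T := (le_max_left _ _).trans hTb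
  have hTd : T2 ≤ T := (le_max_right _ _).trans hTb
  have hK0 : 0 < K := by linarith
  set T' := T / K with hT'
  have hTK : K * T' = T := by
    rw [hT']
    field_simp
  have hT'1 : max 2 T1 ≤ T' := by
    rw [hT', le_div_iff₀ hK0, mul_comm]
    exact hTa
  have hT'2 : (2 : ℝ) ≤ T' := (le_max_left _ _).trans hT'1
  have hT'3 : T1 ≤ T' := (le_max_right _ _).trans hT'1
  -- the finite sets
  obtain ⟨hfin', hN⟩ := hlow T' (by linarith)
  obtain ⟨hfinT, -⟩ := hlow T (by linarith)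
  obtain ⟨hfb, hb⟩ := hB1 T' hT'2 (fun _ => 0)
  obtain ⟨hfz, hz⟩ := hB2 T hTc (fun _ => 0)
  set B := hfin'.toFinset with hB
  set Bb := hfb.toFinset with hBb
  set Zs := hfz.toFinset with hZs
  have hfX : {P : (j : Fin r) → Pt (a j : ℚ) (b j : ℚ) |
      (∀ j, hx (P j) ≤ T ^ 2) ∧ Xs P}.Finite := hfinT.subset fun P hP => hP.1
  set XX := hfX.toFinset with hXX
  set φ : ((j : Fin r) → Pt (a j : ℚ) (b j : ℚ)) → ((j : Fin r) → Pt (a j : ℚ) (b j : ℚ)) :=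
    fun Q j => n • Q j + R0 j with hφ
  have himg : (B \ Bb).image φ ⊆ XX ∪ Zs := by
    intro Q hQ
    rw [mem_image] at hQ
    obtain ⟨Q', hQ', rfl⟩ := hQ
    rw [mem_sdiff, hB, hBb, Set.Finite.mem_toFinset, Set.Finite.mem_toFinset] at hQ'
    obtain ⟨h1, h2⟩ := hQ'
    have h1' : ∀ j, hx (Q' j) ≤ T' ^ 2 := h1
    have hnb : ¬ Bad Q' := by
      intro hb'
      apply h2
      refine ⟨fun j => ?_, hb'⟩
      rw [sub_zero]
      exact h1' j
    have hht : ∀ j, hx (φ Q' j) ≤ T ^ 2 := by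
      intro j
      have h3 := hKj2 j T' (by linarith) (Q' j) (h1' j)
      refine h3.trans ?_
      rw [← hTK]
      have hKj0 : 0 ≤ Kj j := zero_le_one.trans (hKj1 j)
      apply pow_le_pow_left₀ (by positivity)
      exact mul_le_mul_of_nonneg_right (hKle j) (by linarith)
    rw [mem_union]
    by_cases h0 : ∀ j, φ Q' j ≠ 0
    · left
      rw [hXX, Set.Finite.mem_toFinset]
      exact ⟨hht, hgood Q' hnb h0⟩
    · right
      push Not at h0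
      rw [hZs, Set.Finite.mem_toFinset]
      refine ⟨fun j => ?_, h0⟩
      rw [sub_zero]
      exact hht j
  have hfib : ∀ Q ∈ (B \ Bb).image φ, ((B \ Bb).filter (fun Q' => φ Q' = Q)).card ≤ Tor.card := by
    intro Q hQ
    rw [mem_image] at hQ
    obtain ⟨Q0, -, hQ0⟩ := hQ
    refine card_le_card_of_injOn (fun Q' => Q' - Q0) ?_ (fun x _ y _ h => sub_left_injective h)
    intro Q' hQ'
    rw [mem_coe, mem_filter] at hQ'
    rw [mem_coe, hTor, Fintype.mem_piFinset]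
    intro j
    rw [Set.Finite.mem_toFinset]
    change n • (Q' j - Q0 j) = 0
    have h1 : φ Q' j = φ Q0 j := by rw [hQ'.2, hQ0]
    have h2 : n • Q' j + R0 j = n • Q0 j + R0 j := h1
    rw [smul_sub, sub_eq_zero]
    exact add_right_cancel h2
  have hcard : (B \ Bb).card ≤ Tor.card * (XX.card + Zs.card) := by
    refine (card_le_mul_card_image (s := B \ Bb) (f := φ) Tor.card hfib).trans ?_
    apply Nat.mul_le_mul_left
    exact (card_le_card himg).trans (card_union_le _ _)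
  have hcard2 : B.card ≤ (B \ Bb).card + Bb.card := by
    have h1 : B ⊆ (B \ Bb) ∪ Bb := by
      intro x hx
      rw [mem_union, mem_sdiff]
      by_cases h : x ∈ Bb
      · exact Or.inr h
      · exact Or.inl ⟨hx, h⟩
    exact (card_le_card h1).trans (card_union_le _ _)
  have e1 : ({P : (j : Fin r) → Pt (a j : ℚ) (b j : ℚ) | ∀ j, hx (P j) ≤ T' ^ 2}.ncard : ℝ) =
      B.card := by rw [Set.ncard_eq_toFinset_card _ hfin']
  have e2 : ({P : (j : Fin r) → Pt (a j : ℚ) (b j : ℚ) | (∀ j, hx (P j - 0) ≤ T' ^ 2) ∧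
      Bad P}.ncard : ℝ) = Bb.card := by rw [Set.ncard_eq_toFinset_card _ hfb]
  have e3 : ({P : (j : Fin r) → Pt (a j : ℚ) (b j : ℚ) | (∀ j, hx (P j - 0) ≤ T ^ 2) ∧
      ∃ j, P j = 0}.ncard : ℝ) = Zs.card := by rw [Set.ncard_eq_toFinset_card _ hfz]
  have e4 : ({P : (j : Fin r) → Pt (a j : ℚ) (b j : ℚ) | (∀ j, hx (P j) ≤ T ^ 2) ∧
      Xs P}.ncard : ℝ) = XX.card := by rw [Set.ncard_eq_toFinset_card _ hfX]
  rw [e4]
  have hN' : κ0 * T' ^ ρ ≤ (B.card : ℝ) := e1 ▸ hN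
  have hb' : (Bb.card : ℝ) ≤ C1 * T' ^ ρ * Real.log T' ^ (-γ1) := e2 ▸ hb
  have hz' : (Zs.card : ℝ) ≤ C2 * T ^ ρ * Real.log T ^ (-γ2) := e3 ▸ hz
  have hT'0 : 0 < T' := by linarith
  have hT'ρ : 0 ≤ T' ^ ρ := by positivity
  have hTρ : T ^ ρ = K ^ ρ * T' ^ ρ := by rw [← hTK, mul_pow]
  have hmain := arith_low (B.card : ℝ) (Bb.card : ℝ) κ0 C1 C2 t (XX.card : ℝ) (Zs.card : ℝ)
    (T' ^ ρ) (T ^ ρ) (Real.log T' ^ (-γ1)) (Real.log T ^ (-γ2)) hT'ρ hN' (by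
      have h1 : (B.card : ℝ) ≤ ((B \ Bb).card : ℝ) + Bb.card := by exact_mod_cast hcard2
      have h2 : ((B \ Bb).card : ℝ) ≤ (Tor.card : ℝ) * ((XX.card : ℝ) + Zs.card) := by
        exact_mod_cast hcard
      rw [← ht] at h2
      linarith) hb' hz' ht0.le (hT1 T' hT'3) (by
      have h1 := hT2 T hTd
      rw [hTρ]
      calc t * C2 * (K ^ ρ * T' ^ ρ) * Real.log T ^ (-γ2) =
          T' ^ ρ * (t * C2 * K ^ ρ * Real.log T ^ (-γ2)) := by ring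
        _ ≤ T' ^ ρ * (κ0 / 4) := mul_le_mul_of_nonneg_left h1 hT'ρ)
  rw [hTρ]
  have h9 : κ0 / 2 / (t * K ^ ρ) * (K ^ ρ * T' ^ ρ) = κ0 / 2 * T' ^ ρ / t := by
    field_simp
  rw [h9, div_le_iff₀ ht0, mul_comm (XX.card : ℝ)]
  exact hmain

end

end Pool.Agent.J4H11.GQ
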