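import Pool.Agent.J4H11.GQ.T8

/-!
# Covers dominated by a multiplication have many rational points
-/

set_option autoImplicit false
set_option linter.unusedSectionVars false

open Polynomial Pool.Agent.J4H11.RC Pool.Agent.J4H11.SC Pool.Agent.H901R3.MS WeierstrassCurve
  Pool.Agent.J4H11.GP Pool.Agent.J4H11.GN

attribute [local instance 5000] Classical.propDecidable

namespace Pool.Agent.J4H11.GQ

section
variable {a b : ℕ → ℤ} {r s : ℕ}

theorem bad_box' (hDQ : ∀ j, Disc (a j : ℚ) (b j : ℚ)) (hnt : ∀ j, NT (a j) (b j))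
    (P : (j : ℕ) → Pt (a j : ℂ) (b j : ℂ))
    (hP : ∀ j < r, NCr (k0 (cx P) (cy P) j).subtype (P j))
    (s : MvPolynomial (Fin r × Fin 2) ℤ) (hs : eR r (cx P) (cy P) s ≠ 0)
    (f : (j : Fin r) → Fin 3 → Pt (a j : ℚ) (b j : ℚ)) (hf : Ind3 f) :
    BoxG (a := fun j : Fin r => a j) (b := fun j : Fin r => b j) f (fun Q => eQ Q s = 0) := by
  have hD : ∀ j, Disc (a j : ℂ) (b j : ℂ) := fun j => disc_of (Rat.castHom ℂ) _ _ (hDQ j)
  obtain ⟨A0, _, ι0, X0, Y0, hι0, hXY0, -, htws, full0⟩ := triv_tower hDQ hnt hD P r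
    hP r le_rfl
  have hs0 : evp (fun j : Fin r => X0 j) (fun j : Fin r => Y0 j) s ≠ 0 := by
    intro h0
    apply hs
    have h1 : eR r (cx P) (cy P) = ι0.comp (evp (fun j : Fin r => X0 j)
        (fun j : Fin r => Y0 j)) := by
      rw [evp_comp]
      unfold eR
      congr 1
      · funext j
        exact (hXY0 j j.2).1.symm
      · funext j
        exact (hXY0 j j.2).2.symm
    rw [h1, RingHom.comp_apply, h0, map_zero]
  exact box_bad' htws full0 s hs0 (fun j => hDQ j) f hf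

theorem conv_pts (hDQ : ∀ j, Disc (a j : ℚ) (b j : ℚ)) (hnt : ∀ j, NT (a j) (b j))
    (P : (j : ℕ) → Pt (a j : ℂ) (b j : ℂ))
    (hP : ∀ j < r, NCr (Kb (cx P) (cy P) j).subtype (P j))
    (𝒢 : Set (MvPolynomial (Fin s) (MvPolynomial (Fin r × Fin 2) ℤ)))
    (n : ℕ) (hn : 1 ≤ n) (R S : (j : ℕ) → Pt (a j : ℂ) (b j : ℂ))
    (hRS : ∀ j < r, linC n (R j) (S j) = P j ∧ IsRatP (S j)) (ζ : Fin s → ℂ)
    (hζ : ∀ G ∈ 𝒢, MvPolynomial.eval₂ (eR r (cx P) (cy P)) ζ G = 0)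
    (hζR : ∀ t, ζ t ∈ k0 (cx R) (cy R) r) :
    (∀ j < r, NCr (k0 (cx R) (cy R) j).subtype (R j)) ∧
    ∃ (R0 : (j : Fin r) → Pt (a j : ℚ) (b j : ℚ)) (d : MvPolynomial (Fin r × Fin 2) ℤ),
      eR r (cx R) (cy R) d ≠ 0 ∧ ∀ Q : (j : Fin r) → Pt (a j : ℚ) (b j : ℚ), (∀ j, Q j ≠ 0) →
      (∀ j, linQ n (Q j) (R0 j) ≠ 0) → eQ Q d ≠ 0 →
      ∃ z : Fin s → ℚ, ∀ G ∈ 𝒢,
        MvPolynomial.eval₂ (eQ (fun j : Fin r => linQ n (Q j) (R0 j))) z G = 0 := by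
  have hD : ∀ j, Disc (a j : ℂ) (b j : ℂ) := fun j => disc_of (Rat.castHom ℂ) _ _ (hDQ j)
  have hR0 : ∀ j, ∃ R0 : Pt (a j : ℚ) (b j : ℚ), j < r → pm (Rat.castHom ℂ) (hD j) R0 = S j := by
    intro j
    by_cases hj : j < r
    · obtain ⟨R0, h⟩ := rat_lift (hDQ j) (hD j) (S j) (hRS j hj).2
      exact ⟨R0, fun _ => h⟩
    · exact ⟨0, fun h => absurd h hj⟩
  choose R0 hR0 using hR0
  have hlin : ∀ j < r, n • R j + pm (Rat.castHom ℂ) (hD j) (R0 j) = P j := by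
    intro j hj
    rw [hR0 j hj, ← lin_cl (fun a b => Classical.propDecidable (a = b)), linC_lin]
    exact (hRS j hj).1
  have hR : ∀ j < r, R j ≠ 0 ∧ (fun _ : ℕ => n) j • R j + pm (Rat.castHom ℂ) (hD j) (R0 j) =
      P j := by
    intro j hj
    refine ⟨?_, hlin j hj⟩
    have hcl : IsAlgClosed (Kb (cx P) (cy P) j) := kb_closed _ _ j
    obtain ⟨c, hc⟩ := pm_rat (Kb (cx P) (cy P) j) (hD j) (R0 j)
    have h1 := hlin j hj
    rw [← hc] at h1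
    have h2 := (adR_cmp (Kb (cx P) (cy P) j) (hnt j) (hD j) (P j) (P j) (R j) 1 n le_rfl
      (hP j hj) 0 c (by rw [one_smul, map_zero, add_zero]) (by rw [one_mul]; exact h1)).1
    exact h2.1
  have hRn := ncr_div hnt hD P R (fun _ => n) R0 (fun _ _ => hn) hR hP
  refine ⟨hRn, fun j => R0 j, ?_⟩
  obtain ⟨d, hd, hd2⟩ := den_set (eR r (cx R) (cy R)) (Set.range ζ) (Set.finite_range ζ) (by
    rintro _ ⟨t, rfl⟩
    exact k0_eR _ _ (hζR t))
  refine ⟨d, hd, fun Q hQ hnQ hdQ => ?_⟩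
  have hfun : (fun j : Fin r => (fun _ : ℕ => n) j • Q j + R0 j) =
      (fun j : Fin r => linQ n (Q j) (R0 j)) := by
    funext j
    rw [← linQ_lin n (Q j) (R0 j) (fun a b => Classical.propDecidable (a = b))]
    rfl
  obtain ⟨L, hL1, hL2⟩ := loc_two hDQ hnt hD P R (fun _ => n) R0 hR hRn Q hQ (fun j => by
    have h2 := congrFun hfun j
    exact fun h3 => hnQ j (h2.symm.trans h3))
  rw [hfun] at hL2
  have hζW : ∀ t, ζ t ∈ L.W := by
    intro t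
    obtain ⟨u, hu⟩ := hd2 (ζ t) ⟨t, rfl⟩
    exact L.div_mem hL1 d u hdQ (ζ t) hu.symm
  refine ⟨fun t => L.ρ ⟨ζ t, hζW t⟩, fun G hG => ?_⟩
  have hmem : ∀ G, eR r (cx P) (cy P) G ∈ L.W := fun G => (hL2 G).1
  have h1 : MvPolynomial.eval₂ ((eR r (cx P) (cy P)).codRestrict L.W hmem)
      (fun t => (⟨ζ t, hζW t⟩ : L.W)) G = 0 := by
    apply Subtype.ext
    have h2 := MvPolynomial.eval₂_comp_left L.W.subtype
      ((eR r (cx P) (cy P)).codRestrict L.W hmem) (fun t => (⟨ζ t, hζW t⟩ : L.W)) G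
    exact h2.trans (hζ G hG)
  have h2 := MvPolynomial.eval₂_comp_left L.ρ
      ((eR r (cx P) (cy P)).codRestrict L.W hmem) (fun t => (⟨ζ t, hζW t⟩ : L.W)) G
  rw [h1, map_zero] at h2
  have h3 : L.ρ.comp ((eR r (cx P) (cy P)).codRestrict L.W hmem) =
      eQ (fun j : Fin r => linQ n (Q j) (R0 j)) := by
    refine RingHom.ext fun G => ?_
    exact (hL2 G).2
  rw [h3] at h2
  exact h2.symm

end

end Pool.Agent.J4H11.GQ
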