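import Pool.Agent.J4H11.GN.LocA3
import Pool.Agent.J4H11.GN.Inj2

/-!
# The ring of functions of a cover of a curve over a ring, and its homomorphisms
-/

set_option autoImplicit false

open Polynomial Finset Pool.Agent.J4H11.RC Pool.Agent.J4H11.SC Pool.Agent.H901R3.MS
  WeierstrassCurve Pool.Agent.J4H11.GN

namespace Pool.Agent.J4H11.GQ

section
variable {A : Type} [CommRing A] (a b : ℤ) (φ : (MvPolynomial (Fin 2) A)[X])

/-- the polynomial over the ring of functions of the curve -/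
noncomputable def φ1 : (A1 A a b)[X] := φ.map (ev (c1 A a b) (x1 A a b) (y1 A a b))

/-- the ring of functions of the cover -/
abbrev AT : Type := AdjoinRoot (φ1 a b φ)

/-- the constants -/
noncomputable def iT : A →+* AT a b φ := (AdjoinRoot.of (φ1 a b φ)).comp (c1 A a b)

/-- the function `x` -/
noncomputable def xT : AT a b φ := AdjoinRoot.of (φ1 a b φ) (x1 A a b)

/-- the function `y` -/
noncomputable def yT : AT a b φ := AdjoinRoot.of (φ1 a b φ) (y1 A a b)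

/-- the root -/
noncomputable def wT : AT a b φ := AdjoinRoot.root (φ1 a b φ)

theorem hom1_ev {S : Type} [CommRing S] (ψ : A →+* S) (x0 y0 : S)
    (h : y0 ^ 2 = x0 ^ 3 + (a : S) * x0 + (b : S)) :
    (hom1 ψ x0 y0 h).comp (ev (c1 A a b) (x1 A a b) (y1 A a b)) = ev ψ x0 y0 := by
  rw [ev_comp, hom1_x, hom1_y]
  congr 1
  exact RingHom.ext fun c => hom1_c ψ x0 y0 h c

theorem phi1_eval {S : Type} [CommRing S] (g : A1 A a b →+* S) (w : S) :
    (φ1 a b φ).eval₂ g w = (φ.map (g.comp (ev (c1 A a b) (x1 A a b) (y1 A a b)))).eval w := by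
  unfold φ1
  rw [eval₂_map, ← eval_map]

/-- the homomorphism given by a point of the cover -/
noncomputable def homT {S : Type} [CommRing S] (ψ : A →+* S) (x0 y0 w0 : S)
    (h : y0 ^ 2 = x0 ^ 3 + (a : S) * x0 + (b : S)) (hw : (φ.map (ev ψ x0 y0)).IsRoot w0) :
    AT a b φ →+* S :=
  AdjoinRoot.lift (hom1 ψ x0 y0 h) w0 (by
    rw [phi1_eval, hom1_ev]
    exact hw)

section
variable {S : Type} [CommRing S] (ψ : A →+* S) (x0 y0 w0 : S)
    (h : y0 ^ 2 = x0 ^ 3 + (a : S) * x0 + (b : S)) (hw : (φ.map (ev ψ x0 y0)).IsRoot w0)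

theorem homT_of (s : A1 A a b) : homT a b φ ψ x0 y0 w0 h hw (AdjoinRoot.of (φ1 a b φ) s) =
    hom1 ψ x0 y0 h s := AdjoinRoot.lift_of _

theorem homT_i : (homT a b φ ψ x0 y0 w0 h hw).comp (iT a b φ) = ψ := by
  ext c
  exact (homT_of a b φ ψ x0 y0 w0 h hw (c1 A a b c)).trans (hom1_c ψ x0 y0 h c)

theorem homT_x : homT a b φ ψ x0 y0 w0 h hw (xT a b φ) = x0 :=
  (homT_of a b φ ψ x0 y0 w0 h hw (x1 A a b)).trans (hom1_x ψ x0 y0 h)

theorem homT_y : homT a b φ ψ x0 y0 w0 h hw (yT a b φ) = y0 :=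
  (homT_of a b φ ψ x0 y0 w0 h hw (y1 A a b)).trans (hom1_y ψ x0 y0 h)

theorem homT_w : homT a b φ ψ x0 y0 w0 h hw (wT a b φ) = w0 := AdjoinRoot.lift_root _

end

theorem a1_ext {S : Type} [CommRing S] (g g' : A1 A a b →+* S)
    (h1 : g.comp (c1 A a b) = g'.comp (c1 A a b)) (h2 : g (x1 A a b) = g' (x1 A a b))
    (h3 : g (y1 A a b) = g' (y1 A a b)) : g = g' := by
  apply AdjoinRoot.ringHom_ext
  · apply Polynomial.ringHom_ext
    · intro c
      exact DFunLike.congr_fun h1 c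
    · exact h2
  · exact h3

theorem at_ext {S : Type} [CommRing S] (g g' : AT a b φ →+* S)
    (h1 : g.comp (iT a b φ) = g'.comp (iT a b φ)) (h2 : g (xT a b φ) = g' (xT a b φ))
    (h3 : g (yT a b φ) = g' (yT a b φ)) (h4 : g (wT a b φ) = g' (wT a b φ)) : g = g' := by
  apply AdjoinRoot.ringHom_ext
  · exact a1_ext a b _ _ h1 h2 h3
  · exact h4

theorem a1_eqn : (y1 A a b) ^ 2 = (x1 A a b) ^ 3 + (a : A1 A a b) * x1 A a b + (b : A1 A a b) := by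
  rw [y1_sq]
  unfold GN.cub x1
  simp only [map_add, map_mul, map_pow, map_intCast]
  ring

theorem at_eqn : (yT a b φ) ^ 2 = (xT a b φ) ^ 3 + (a : AT a b φ) * xT a b φ + (b : AT a b φ) := by
  have h := congrArg (AdjoinRoot.of (φ1 a b φ)) (a1_eqn (A := A) a b)
  simp only [map_add, map_mul, map_pow, map_intCast] at h
  exact h

theorem at_root {S : Type} [CommRing S] (g : AT a b φ →+* S) :
    (φ.map (ev (g.comp (iT a b φ)) (g (xT a b φ)) (g (yT a b φ)))).IsRoot (g (wT a b φ)) := by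
  have h1 := AdjoinRoot.eval₂_root (φ1 a b φ)
  have h2 := congrArg g h1
  rw [map_zero, hom_eval₂, phi1_eval, ev_comp] at h2
  exact h2

/-- **the number of homomorphisms** -/
theorem card_gen {F : Type} [Field F] [Finite F] [DecidableEq F]
    (𝒮 : Finset (A →+* F)) (𝒬 : (A →+* F) → Finset (Pt (a : F) (b : F))) :
    {ψ : AT a b φ →+* F | ψ.comp (iT a b φ) ∈ 𝒮 ∧ ∃ Q ∈ 𝒬 (ψ.comp (iT a b φ)), Q ≠ 0 ∧
      crd Q = (ψ (xT a b φ), ψ (yT a b φ))}.Finite ∧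
    ({ψ : AT a b φ →+* F | ψ.comp (iT a b φ) ∈ 𝒮 ∧ ∃ Q ∈ 𝒬 (ψ.comp (iT a b φ)), Q ≠ 0 ∧
      crd Q = (ψ (xT a b φ), ψ (yT a b φ))}.ncard : ℝ) = ∑ ψ0 ∈ 𝒮, ∑ Q ∈ 𝒬 ψ0, M0 (NE φ ψ0) Q := by
  classical
  set V := {ψ : AT a b φ →+* F | ψ.comp (iT a b φ) ∈ 𝒮 ∧ ∃ Q ∈ 𝒬 (ψ.comp (iT a b φ)), Q ≠ 0 ∧
      crd Q = (ψ (xT a b φ), ψ (yT a b φ))} with hV
  let Z := Σ ψ0 : 𝒮, Σ Q : {Q : Pt (a : F) (b : F) // Q ∈ (𝒬 ψ0.1).filter (fun Q => Q ≠ 0)},
    {w : F // (φ.map (ev ψ0.1 (crd Q.1).1 (crd Q.1).2)).IsRoot w}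
  have hne : ∀ (ψ0 : A →+* F) (Q : {Q : Pt (a : F) (b : F) // Q ∈ (𝒬 ψ0).filter
      (fun Q => Q ≠ 0)}), Q.1 ≠ 0 := fun ψ0 Q => (Finset.mem_filter.1 Q.2).2
  let f : Z → V := fun z => ⟨homT a b φ z.1.1 (crd z.2.1.1).1 (crd z.2.1.1).2 z.2.2.1
    (crd_eqn _ (hne _ z.2.1)) z.2.2.2, by
      refine ⟨?_, z.2.1.1, ?_, hne _ z.2.1, ?_⟩
      · rw [homT_i]
        exact z.1.2
      · rw [homT_i]
        exact (Finset.mem_filter.1 z.2.1.2).1
      · rw [homT_x, homT_y]⟩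
  have hfi : Function.Injective f := by
    rintro ⟨⟨ψ0, h1⟩, ⟨⟨Q, h2⟩, ⟨w, h3⟩⟩⟩ ⟨⟨ψ0', h1'⟩, ⟨⟨Q', h2'⟩, ⟨w', h3'⟩⟩⟩ hf
    have hQ := (Finset.mem_filter.1 h2).2
    have hQ' := (Finset.mem_filter.1 h2').2
    have e : homT a b φ ψ0 (crd Q).1 (crd Q).2 w (crd_eqn Q hQ) h3 =
      homT a b φ ψ0' (crd Q').1 (crd Q').2 w' (crd_eqn Q' hQ') h3' := congrArg Subtype.val hf
    have e1 : ψ0 = ψ0' := by
      have := congrArg (fun g => g.comp (iT a b φ)) e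
      simp only [homT_i] at this
      exact this
    subst e1
    have e2 : Q = Q' := by
      have e3 := congrArg (fun g => (g (xT a b φ), g (yT a b φ))) e
      simp only [homT_x, homT_y] at e3
      rcases Q with _ | ⟨x, y, g1⟩
      · exact absurd rfl hQ
      · rcases Q' with _ | ⟨x', y', g2⟩
        · exact absurd rfl hQ'
        · have e4 : (x, y) = (x', y') := e3
          obtain ⟨rfl, rfl⟩ := Prod.mk.inj e4
          rfl
    subst e2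
    have e3 : w = w' := by
      have := congrArg (fun g => g (wT a b φ)) e
      simp only [homT_w] at this
      exact this
    subst e3
    rfl
  have hfs : Function.Surjective f := by
    rintro ⟨ψ, h1, Q, hQ, hQ0, hc⟩
    have hc1 : (crd Q).1 = ψ (xT a b φ) := congrArg Prod.fst hc
    have hc2 : (crd Q).2 = ψ (yT a b φ) := congrArg Prod.snd hc
    have hr : (φ.map (ev (ψ.comp (iT a b φ)) (crd Q).1 (crd Q).2)).IsRoot (ψ (wT a b φ)) := by
      rw [hc1, hc2]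
      exact at_root a b φ ψ
    refine ⟨⟨⟨ψ.comp (iT a b φ), h1⟩, ⟨⟨Q, Finset.mem_filter.2 ⟨hQ, hQ0⟩⟩, ⟨ψ (wT a b φ), hr⟩⟩⟩, ?_⟩
    apply Subtype.ext
    apply at_ext
    · exact homT_i a b φ (ψ.comp (iT a b φ)) (crd Q).1 (crd Q).2 (ψ (wT a b φ)) (crd_eqn Q hQ0) hr
    · exact (homT_x a b φ (ψ.comp (iT a b φ)) (crd Q).1 (crd Q).2 (ψ (wT a b φ))
        (crd_eqn Q hQ0) hr).trans hc1
    · exact (homT_y a b φ (ψ.comp (iT a b φ)) (crd Q).1 (crd Q).2 (ψ (wT a b φ))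
        (crd_eqn Q hQ0) hr).trans hc2
    · exact homT_w a b φ (ψ.comp (iT a b φ)) (crd Q).1 (crd Q).2 (ψ (wT a b φ)) (crd_eqn Q hQ0) hr
  have e := Equiv.ofBijective f ⟨hfi, hfs⟩
  have hZfin : Finite Z := inferInstance
  have hVfin : Finite V := Finite.of_equiv Z e
  refine ⟨hVfin, ?_⟩
  have h1 : V.ncard = Nat.card Z := by
    rw [← Nat.card_coe_set_eq]
    exact (Nat.card_congr e).symm
  rw [h1, Nat.card_sigma]
  push_cast
  rw [← Finset.sum_coe_sort 𝒮]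
  refine Finset.sum_congr rfl fun ψ0 _ => ?_
  rw [Nat.card_sigma]
  push_cast
  have h2 : ∑ Q ∈ 𝒬 ψ0.1, M0 (NE φ ψ0.1) Q =
      ∑ Q ∈ (𝒬 ψ0.1).filter (fun Q => Q ≠ 0), ((NE φ ψ0.1 Q : ℕ) : ℝ) := by
    rw [Finset.sum_filter]
    rfl
  rw [h2, ← Finset.sum_coe_sort ((𝒬 ψ0.1).filter (fun Q => Q ≠ 0))]
  rfl

end

end Pool.Agent.J4H11.GQ
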