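import Pool.Agent.J4H11.GQ.U1

/-!
# The homomorphisms of a tower of rings above a product of sets of points
-/

set_option autoImplicit false

open Polynomial Finset Pool.Agent.J4H11.RC Pool.Agent.J4H11.SC Pool.Agent.H901R3.MS
  WeierstrassCurve Pool.Agent.J4H11.GN

namespace Pool.Agent.J4H11.GQ

section
variable {A : Type} [CommRing A] (a b : ℕ → ℤ)

/-- the homomorphisms above a product of sets of points -/
def HomS (t : ℕ) (X Y : ℕ → A) {F : Type} [Field F] (𝒬 : (j : ℕ) → Set (Pt (a j : F) (b j : F))) :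
    Set (A →+* F) :=
  {ψ | ∀ j < t, ∃ Q ∈ 𝒬 j, Q ≠ 0 ∧ crd Q = (ψ (X j), ψ (Y j))}

/-- the coset as a set -/
def cs {E : Type} [AddCommGroup E] (c : E) (H : AddSubgroup E) : Set E := {Q | ∃ h ∈ H, c + h = Q}

/-- the number of the roots modulo `p` -/
noncomputable def e0 (f : ℤ[X]) (p : ℕ) : ℕ :=
  Nat.card {z : ZMod p // (f.map (Int.castRingHom (ZMod p))).IsRoot z}

/-- the counting properties of the ring of functions of a tower -/
structure TwS (t : ℕ) (X Y : ℕ → A) (f0 : ℤ[X]) : Prop where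
  cnt : ∀ κ ε : ℝ, 0 < κ → 0 < ε → ∃ T0 : ℕ, ∀ p : ℕ, T0 ≤ p → ∀ (_ : Fact p.Prime)
    (c : (j : ℕ) → Pt (a j : ZMod p) (b j : ZMod p))
    (H : (j : ℕ) → AddSubgroup (Pt (a j : ZMod p) (b j : ZMod p))),
    (∀ j < t, (p : ℝ) ^ (1 / 2 + κ) ≤ (Nat.card (H j) : ℝ)) →
    |((HomS a b t X Y (fun j => cs (c j) (H j))).ncard : ℝ) -
      (e0 f0 p : ℝ) * ∏ j ∈ range t, (Nat.card (H j) : ℝ)| ≤
        ε * ∏ j ∈ range t, (Nat.card (H j) : ℝ)
  bad : ∀ s : A, s ≠ 0 → ∀ κ ε : ℝ, 0 < κ → 0 < ε → ∃ T0 : ℕ, ∀ p : ℕ, T0 ≤ p →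
    ∀ (_ : Fact p.Prime) (c : (j : ℕ) → Pt (a j : ZMod p) (b j : ZMod p))
    (H : (j : ℕ) → AddSubgroup (Pt (a j : ZMod p) (b j : ZMod p))),
    (∀ j < t, (p : ℝ) ^ (1 / 2 + κ) ≤ (Nat.card (H j) : ℝ)) →
    (({ψ | ψ ∈ HomS a b t X Y (fun j => cs (c j) (H j)) ∧ ψ s = 0}).ncard : ℝ) ≤
        ε * ∏ j ∈ range t, (Nat.card (H j) : ℝ)
  fib : ∃ B0 : ℕ, ∀ (p : ℕ) (_ : Fact p.Prime) (Q : (j : ℕ) → Pt (a j : ZMod p) (b j : ZMod p)),
    (HomS a b t X Y (fun j => {Q j})).ncard ≤ B0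
  int : ∀ (K : Type) [Field K] (v : ValuationSubring K) (χ : A →+* K),
    (∀ j < t, χ (X j) ∈ v ∧ χ (Y j) ∈ v) → ∀ c, χ c ∈ v
  root : ∃ z : A, aeval z f0 = 0
  mon : f0.Monic
  ft : ∃ G : Set A, G.Finite ∧ Subring.closure G = ⊤

theorem homs_finite (G : Set A) (hG : G.Finite) (hcl : Subring.closure G = ⊤) (F : Type) [Field F]
    [Finite F] : Finite (A →+* F) := by
  have : Finite G := hG
  refine Finite.of_injective (fun (ψ : A →+* F) (g : G) => ψ g) ?_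
  intro ψ ψ' h
  exact RingHom.eq_of_eqOn_set_dense hcl (fun g hg => congrFun h ⟨g, hg⟩)

theorem homS_mono (t : ℕ) (X Y : ℕ → A) {F : Type} [Field F]
    (𝒬 𝒬' : (j : ℕ) → Set (Pt (a j : F) (b j : F))) (h : ∀ j, 𝒬 j ⊆ 𝒬' j) :
    HomS a b t X Y 𝒬 ⊆ HomS a b t X Y 𝒬' := by
  intro ψ hψ j hj
  obtain ⟨Q, hQ, h1⟩ := hψ j hj
  exact ⟨Q, h j hQ, h1⟩

variable (t : ℕ) (φ : (MvPolynomial (Fin 2) A)[X])

/-- the functions of the tower -/
noncomputable def XT (X : ℕ → A) : ℕ → AT (a t) (b t) φ :=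
  Function.update (fun j => iT (a t) (b t) φ (X j)) t (xT (a t) (b t) φ)

/-- the functions of the tower -/
noncomputable def YT (Y : ℕ → A) : ℕ → AT (a t) (b t) φ :=
  Function.update (fun j => iT (a t) (b t) φ (Y j)) t (yT (a t) (b t) φ)

theorem XT_t (X : ℕ → A) : XT a b t φ X t = xT (a t) (b t) φ := by
  unfold XT
  exact Function.update_self _ _ _

theorem YT_t (Y : ℕ → A) : YT a b t φ Y t = yT (a t) (b t) φ := by
  unfold YT
  exact Function.update_self _ _ _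

theorem XT_lt (X : ℕ → A) (j : ℕ) (hj : j < t) : XT a b t φ X j = iT (a t) (b t) φ (X j) := by
  unfold XT
  exact Function.update_of_ne (by omega) _ _

theorem YT_lt (Y : ℕ → A) (j : ℕ) (hj : j < t) : YT a b t φ Y j = iT (a t) (b t) φ (Y j) := by
  unfold YT
  exact Function.update_of_ne (by omega) _ _

theorem homS_succ (X Y : ℕ → A) {F : Type} [Field F] (𝒬 : (j : ℕ) → Set (Pt (a j : F) (b j : F))) :
    HomS a b (t + 1) (XT a b t φ X) (YT a b t φ Y) 𝒬 =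
      {ψ | ψ.comp (iT (a t) (b t) φ) ∈ HomS a b t X Y 𝒬 ∧ ∃ Q ∈ 𝒬 t, Q ≠ 0 ∧
        crd Q = (ψ (xT (a t) (b t) φ), ψ (yT (a t) (b t) φ))} := by
  ext ψ
  constructor
  · intro h
    refine ⟨fun j hj => ?_, ?_⟩
    · have h1 := h j (by omega)
      rw [XT_lt a b t φ X j hj, YT_lt a b t φ Y j hj] at h1
      exact h1
    · have h1 := h t (by omega)
      rw [XT_t, YT_t] at h1
      exact h1
  · rintro ⟨h1, h2⟩ j hj
    by_cases h : j = t
    · subst h
      rw [XT_t, YT_t]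
      exact h2
    · rw [XT_lt a b t φ X j (by omega), YT_lt a b t φ Y j (by omega)]
      exact h1 j (by omega)

theorem at_dense {G : Set A} (hcl : Subring.closure G = ⊤) (a' b' : ℤ) :
    Subring.closure (iT a' b' φ '' G ∪ {xT a' b' φ, yT a' b' φ, wT a' b' φ}) = ⊤ := by
  set S := Subring.closure (iT a' b' φ '' G ∪ {xT a' b' φ, yT a' b' φ, wT a' b' φ}) with hS
  have hi : ∀ c, iT a' b' φ c ∈ S := by
    have h1 : Subring.closure G ≤ S.comap (iT a' b' φ) := by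
      rw [Subring.closure_le]
      intro g hg
      exact Subring.subset_closure (Or.inl ⟨g, hg, rfl⟩)
    intro c
    have h2 : c ∈ Subring.closure G := by
      rw [hcl]
      trivial
    exact h1 h2
  have hx : xT a' b' φ ∈ S := Subring.subset_closure (Or.inr (Or.inl rfl))
  have hy : yT a' b' φ ∈ S := Subring.subset_closure (Or.inr (Or.inr (Or.inl rfl)))
  have hw : wT a' b' φ ∈ S := Subring.subset_closure (Or.inr (Or.inr (Or.inr rfl)))
  have hev : ∀ (g : MvPolynomial (Fin 2) A),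
      (ev ((iT a' b' φ).codRestrict S hi) ⟨xT a' b' φ, hx⟩ ⟨yT a' b' φ, hy⟩ g : AT a' b' φ) =
      ev (iT a' b' φ) (xT a' b' φ) (yT a' b' φ) g := by
    intro g
    have h1 := ev_comp S.subtype ((iT a' b' φ).codRestrict S hi) ⟨xT a' b' φ, hx⟩
      ⟨yT a' b' φ, hy⟩
    exact DFunLike.congr_fun h1 g
  have hE : (⟨yT a' b' φ, hy⟩ : S) ^ 2 = ⟨xT a' b' φ, hx⟩ ^ 3 + (a' : S) * ⟨xT a' b' φ, hx⟩ +
      (b' : S) := by
    apply Subtype.ext
    push_cast
    exact at_eqn a' b' φ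
  have hr : (φ.map (ev ((iT a' b' φ).codRestrict S hi) ⟨xT a' b' φ, hx⟩
      ⟨yT a' b' φ, hy⟩)).IsRoot (⟨wT a' b' φ, hw⟩ : S) := by
    have h0 := at_root a' b' φ (RingHom.id _)
    rw [IsRoot.def, eval_map] at h0 ⊢
    apply Subtype.ext
    have h1 := hom_eval₂ φ (ev ((iT a' b' φ).codRestrict S hi) ⟨xT a' b' φ, hx⟩
      ⟨yT a' b' φ, hy⟩) S.subtype ⟨wT a' b' φ, hw⟩
    rw [ev_comp] at h1
    exact h1.trans h0
  set g := homT a' b' φ ((iT a' b' φ).codRestrict S hi) ⟨xT a' b' φ, hx⟩ ⟨yT a' b' φ, hy⟩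
    ⟨wT a' b' φ, hw⟩ hE hr with hg
  have hid : S.subtype.comp g = RingHom.id _ := by
    apply at_ext
    · refine RingHom.ext fun c => ?_
      have h1 := DFunLike.congr_fun (homT_i a' b' φ ((iT a' b' φ).codRestrict S hi)
        ⟨xT a' b' φ, hx⟩ ⟨yT a' b' φ, hy⟩ ⟨wT a' b' φ, hw⟩ hE hr) c
      exact congrArg Subtype.val h1
    · exact congrArg Subtype.val (homT_x a' b' φ ((iT a' b' φ).codRestrict S hi)
        ⟨xT a' b' φ, hx⟩ ⟨yT a' b' φ, hy⟩ ⟨wT a' b' φ, hw⟩ hE hr)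
    · exact congrArg Subtype.val (homT_y a' b' φ ((iT a' b' φ).codRestrict S hi)
        ⟨xT a' b' φ, hx⟩ ⟨yT a' b' φ, hy⟩ ⟨wT a' b' φ, hw⟩ hE hr)
    · exact congrArg Subtype.val (homT_w a' b' φ ((iT a' b' φ).codRestrict S hi)
        ⟨xT a' b' φ, hx⟩ ⟨yT a' b' φ, hy⟩ ⟨wT a' b' φ, hw⟩ hE hr)
  rw [eq_top_iff]
  intro c _
  have h1 := DFunLike.congr_fun hid c
  have h2 : ((g c : S) : AT a' b' φ) = c := h1
  rw [← h2]
  exact (g c).2

theorem at_int (a' b' : ℤ) (hφ : φ.Monic) {K : Type} [Field K] (v : ValuationSubring K)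
    (χ : AT a' b' φ →+* K)
    (h : ∀ c, χ (iT a' b' φ c) ∈ v) (hx : χ (xT a' b' φ) ∈ v) (hy : χ (yT a' b' φ) ∈ v)
    (c : AT a' b' φ) : χ c ∈ v := by
  have hev : ∀ g, ev (χ.comp (iT a' b' φ)) (χ (xT a' b' φ)) (χ (yT a' b' φ)) g ∈ v := by
    intro g
    induction g using MvPolynomial.induction_on with
    | C c =>
      have : ev (χ.comp (iT a' b' φ)) (χ (xT a' b' φ)) (χ (yT a' b' φ)) (MvPolynomial.C c) =
          χ (iT a' b' φ c) := by simp [GN.ev]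
      rw [this]
      exact h c
    | add p q hp hq =>
      rw [map_add]
      exact v.add_mem _ _ hp hq
    | mul_X p n hp =>
      rw [map_mul]
      refine v.mul_mem _ _ hp ?_
      rcases fin2 n with rfl | rfl
      · have : ev (χ.comp (iT a' b' φ)) (χ (xT a' b' φ)) (χ (yT a' b' φ)) (MvPolynomial.X 0) =
          χ (xT a' b' φ) := by simp [GN.ev]
        rw [this]
        exact hx
      · have : ev (χ.comp (iT a' b' φ)) (χ (xT a' b' φ)) (χ (yT a' b' φ)) (MvPolynomial.X 1) =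
          χ (yT a' b' φ) := by simp [GN.ev]
        rw [this]
        exact hy
  have hw : χ (wT a' b' φ) ∈ v := by
    have hr := at_root a' b' φ χ
    set q := φ.map (ev (χ.comp (iT a' b' φ)) (χ (xT a' b' φ)) (χ (yT a' b' φ))) with hq
    obtain ⟨q0, hq0, hqd, hqm⟩ := lifts_and_natDegree_eq_and_monic (f := v.subtype) (p := q) (by
      rw [lifts_iff_coeff_lifts]
      intro n
      rw [hq, coeff_map]
      exact ⟨⟨_, hev _⟩, rfl⟩) (hφ.map _)
    have hint : IsIntegral v (χ (wT a' b' φ)) := by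
      refine ⟨q0, hqm, ?_⟩
      have h1 : eval₂ (algebraMap v K) (χ (wT a' b' φ)) q0 = (q0.map v.subtype).eval _ :=
        (eval_map _ _).symm
      rw [h1, hq0]
      exact hr
    obtain ⟨y, hy'⟩ := IsIntegrallyClosed.isIntegral_iff.1 hint
    rw [← hy']
    exact y.2
  have hcl := at_dense (G := Set.univ) φ (by
    rw [eq_top_iff]
    intro x _
    exact Subring.subset_closure (Set.mem_univ x)) a' b'
  have h1 : Subring.closure (iT a' b' φ '' Set.univ ∪ {xT a' b' φ, yT a' b' φ, wT a' b' φ}) ≤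
      v.toSubring.comap χ := by
    rw [Subring.closure_le]
    rintro _ (⟨c, -, rfl⟩ | rfl | rfl | rfl)
    · exact h c
    · exact hx
    · exact hy
    · exact hw
  rw [hcl] at h1
  exact h1 (Subring.mem_top c)

end

end Pool.Agent.J4H11.GQ
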