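import Pool.Agent.J4H11.GQ.V1
import Pool.Agent.J4H11.GC.Tow4

/-!
# The sums over the cosets, asymptotically
-/

set_option autoImplicit false

open Polynomial Finset Pool.Agent.J4H11.RC Pool.Agent.J4H11.GC Pool.Agent.J4H11.SC
  Pool.Agent.H901R3.MS WeierstrassCurve Pool.Agent.J4H11.GN

namespace Pool.Agent.J4H11.GQ

section
variable {A : Type} [CommRing A] (a b : ℤ)

theorem m0_nonneg {E : Type} [AddCommGroup E] [DecidableEq E] (N : E → ℕ) (R : E) : 0 ≤ M0 N R := by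
  unfold M0
  split_ifs
  · positivity
  · exact le_rfl

theorem m0_le {k : Type} [Field k] [DecidableEq k] (φ : (MvPolynomial (Fin 2) A)[X]) (hφ : φ.Monic)
    (ψ0 : A →+* k) {a' b' : k} (D : ℕ) (hD : φ.natDegree ≤ D) (R : Pt a' b') :
    M0 (NE φ ψ0) R ≤ D := by
  unfold M0
  split_ifs
  · exact_mod_cast (ne_le φ hφ ψ0 R).trans hD
  · positivity

theorem cs_card {E : Type} [AddCommGroup E] (c : E) (H : AddSubgroup E) (𝒬 : Finset E)
    (h𝒬 : ∀ Q, Q ∈ 𝒬 ↔ Q ∈ cs c H) : 𝒬.card = Nat.card H := by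
  have e : {Q // Q ∈ 𝒬} ≃ H :=
    { toFun := fun Q => ⟨Q.1 - c, by
        obtain ⟨h, hh, he⟩ := (h𝒬 Q.1).1 Q.2
        rw [← he, add_sub_cancel_left]
        exact hh⟩
      invFun := fun h => ⟨c + h.1, (h𝒬 _).2 ⟨h.1, h.2, rfl⟩⟩
      left_inv := fun Q => by
        apply Subtype.ext
        exact add_sub_cancel c Q.1
      right_inv := fun h => by
        apply Subtype.ext
        exact add_sub_cancel_left c h.1 }
  rw [← Nat.card_congr e]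
  simp

theorem coset_asym (hDQ : Disc (a : ℚ) (b : ℚ)) (φ : (MvPolynomial (Fin 2) A)[X]) (hφ : φ.Monic)
    (s1 s2 : A) (m1 m2 : ℕ) (C1 C2 : ℝ) (hC1 : 0 ≤ C1) (hC2 : 0 ≤ C2)
    (hF1 : FamP a b φ φ s1 m1 C1) (hF2 : FamP a b φ Polynomial.X s2 m2 C2)
    (κ ε : ℝ) (hκ : 0 < κ) (hε : 0 < ε) :
    ∃ T0 : ℕ, ∀ p : ℕ, T0 ≤ p → ∀ (_ : Fact p.Prime) (ψ0 : A →+* ZMod p), ψ0 s1 ≠ 0 →
      ψ0 s2 ≠ 0 → ∀ (c : Pt (a : ZMod p) (b : ZMod p)) (H : AddSubgroup (Pt (a : ZMod p) (b : ZMod p))),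
      (p : ℝ) ^ (1 / 2 + κ) ≤ (Nat.card H : ℝ) →
      ∀ 𝒬 : Finset (Pt (a : ZMod p) (b : ZMod p)), (∀ Q, Q ∈ 𝒬 ↔ Q ∈ cs c H) →
      |∑ Q ∈ 𝒬, M0 (NE φ ψ0) Q - Nat.card H| ≤ ε * Nat.card H := by
  set D := max 1 φ.natDegree with hD
  have hD1 : 1 ≤ D := le_max_left _ _
  have hφD : φ.natDegree ≤ D := le_max_right _ _
  set β : ℕ := 3 * (m1 + m2) + 5 with hβ
  obtain ⟨T0, hT0⟩ := asy_loc (4 * β * (D : ℝ) ^ 2) (4 * (C1 + C2 + D + 3)) (1 / ε) (β + 1) κ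
    (by positivity) (by positivity) (by positivity) hκ
  refine ⟨max T0 (max 3 ((2 * (4 * a ^ 3 + 27 * b ^ 2)).natAbs + 1)),
    fun p hp _ ψ0 h1 h2 c H hH 𝒬 h𝒬 => ?_⟩
  classical
  have hp0 : T0 ≤ p := (le_max_left _ _).trans hp
  have hp3 : 3 ≤ p := (le_max_left _ _).trans ((le_max_right _ _).trans hp)
  have hpD : (2 * (4 * a ^ 3 + 27 * b ^ 2)).natAbs < p := by
    have := (le_max_right _ _).trans ((le_max_right _ _).trans hp)
    omega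
  have hDp := disc_int a b hDQ hpD
  have hp2 : p ≠ 2 := by omega
  have hfin := finite_pt (a : ZMod p) (b : ZMod p)
  let _ := Fintype.ofFinite (Pt (a : ZMod p) (b : ZMod p))
  have key := hT0 p hp0 _ hH
  set q : ℝ := (Nat.card H : ℝ) with hq
  have hq0 : 0 ≤ q := Nat.cast_nonneg _
  have hs0 : 0 ≤ √(p : ℝ) := Real.sqrt_nonneg _
  have hs1 : 1 ≤ √(p : ℝ) := Real.one_le_sqrt.2 (by exact_mod_cast (by omega : 1 ≤ p))
  have hHcard : Nat.card H ≤ Fintype.card (Pt (a : ZMod p) (b : ZMod p)) := by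
    rw [← Nat.card_eq_fintype_card]
    exact Nat.card_le_card_of_injective _ Subtype.val_injective
  have hbq : (β : ℝ) + 1 ≤ q := by
    have h0 : 0 ≤ 1 / ε * √(4 * β * (D : ℝ) ^ 2 * p + q * (4 * (C1 + C2 + D + 3) * √(p : ℝ))) := by
      positivity
    linarith
  have hbig : 3 * (m1 + m2) + 5 < Fintype.card (Pt (a : ZMod p) (b : ZMod p)) := by
    have h3 : (β + 1 : ℕ) ≤ Nat.card H := by
      have : ((β + 1 : ℕ) : ℝ) ≤ Nat.card H := by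
        push_cast
        exact hbq
      exact_mod_cast this
    omega
  have main := coset_a a b ψ0 φ hφ D hD1 hφD s1 s2 m1 m2 C1 C2 hC1 hC2 hF1 hF2 hDp hp2 h1 h2 hbig
    H c
  have hcardH : (univ.filter (· ∈ H)).card = Nat.card H := by
    rw [Nat.card_eq_fintype_card, Fintype.card_subtype]
  rw [hcardH] at main
  have hsum : ∑ h ∈ univ.filter (· ∈ H), M0 (NE φ ψ0) (c + h) = ∑ Q ∈ 𝒬, M0 (NE φ ψ0) Q := by
    refine Finset.sum_bij (fun h _ => c + h) ?_ ?_ ?_ ?_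
    · intro h hh
      rw [h𝒬]
      exact ⟨h, (mem_filter.1 hh).2, rfl⟩
    · intro h _ h' _ e
      exact add_left_cancel e
    · intro Q hQ
      obtain ⟨h, hh, e⟩ := (h𝒬 Q).1 hQ
      exact ⟨h, mem_filter.2 ⟨mem_univ _, hh⟩, e⟩
    · intro h _
      rfl
  rw [hsum] at main
  refine main.trans ?_
  have hE : (Fintype.card (Pt (a : ZMod p) (b : ZMod p)) : ℝ) ≤ 4 * p := by
    have h3 := cnt_le a b p hDp hp2
    rw [cnt_eq, Nat.card_eq_fintype_card] at h3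
    exact_mod_cast h3
  have hle : ((β : ℕ) : ℝ) * (D : ℝ) ^ 2 * Fintype.card (Pt (a : ZMod p) (b : ZMod p)) +
        (Nat.card H : ℝ) * (4 * ((C1 + C2) * √(p : ℝ) + D + 2 * √(p : ℝ) + 1)) ≤
      4 * β * (D : ℝ) ^ 2 * p + q * (4 * (C1 + C2 + D + 3) * √(p : ℝ)) := by
    apply add_le_add
    · calc ((β : ℕ) : ℝ) * (D : ℝ) ^ 2 * Fintype.card (Pt (a : ZMod p) (b : ZMod p)) ≤
          ((β : ℕ) : ℝ) * (D : ℝ) ^ 2 * (4 * p) := mul_le_mul_of_nonneg_left hE (by positivity)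
        _ = _ := by ring
    · apply mul_le_mul_of_nonneg_left _ hq0
      have hD0 : (0 : ℝ) ≤ D := Nat.cast_nonneg _
      nlinarith
  have h3 := Real.sqrt_le_sqrt hle
  have h4 : √(4 * β * (D : ℝ) ^ 2 * p + q * (4 * (C1 + C2 + D + 3) * √(p : ℝ))) ≤ ε * q := by
    have h5 : 1 / ε * √(4 * β * (D : ℝ) ^ 2 * p + q * (4 * (C1 + C2 + D + 3) * √(p : ℝ))) ≤ q := by
      have : (0 : ℝ) ≤ (β : ℝ) + 1 := by positivity
      linarith
    rw [one_div, inv_mul_le_iff₀ hε] at h5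
    exact h5
  exact h3.trans h4

end

end Pool.Agent.J4H11.GQ
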