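import Pool.Agent.J4H11.GQ.V2

/-!
# The induction step for the number of homomorphisms
-/

set_option autoImplicit false

open Polynomial Finset Pool.Agent.J4H11.RC Pool.Agent.J4H11.GC Pool.Agent.J4H11.SC
  Pool.Agent.H901R3.MS WeierstrassCurve Pool.Agent.J4H11.GN

namespace Pool.Agent.J4H11.GQ

theorem e0_le (f : ℤ[X]) (hf : f.Monic) (p : ℕ) [Fact p.Prime] : e0 f p ≤ f.natDegree := by
  classical
  unfold e0
  set g := f.map (Int.castRingHom (ZMod p)) with hg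
  have hgm : g.Monic := hf.map _
  have e : {w : ZMod p // g.IsRoot w} ≃ (g.roots.toFinset : Set (ZMod p)) :=
    Equiv.subtypeEquivRight (fun w => by
      rw [Finset.mem_coe, Multiset.mem_toFinset, Polynomial.mem_roots hgm.ne_zero])
  rw [Nat.card_congr e, Nat.card_coe_set_eq, Set.ncard_coe_finset]
  refine (Multiset.toFinset_card_le _).trans ((Polynomial.card_roots' g).trans ?_)
  exact natDegree_map_le

/-- an arithmetic lemma -/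
theorem arith_cnt (S N e P q E D ε ε1 B1 B2 : ℝ) (hP0 : 0 ≤ P) (hq0 : 0 ≤ q) (hε0 : 0 ≤ ε1)
    (hD : 0 ≤ D) (hε12 : ε1 * (E + D + 3) ≤ ε) (k1 : |N - e * P| ≤ ε1 * P)
    (hsum : |S - N * q| ≤ N * (ε1 * q) + (B1 * (D * q) + B2 * (D * q)))
    (hb1 : B1 ≤ ε1 / 2 * P) (hb2 : B2 ≤ ε1 / 2 * P) (hN : N ≤ (E + 1) * P) :
    |S - e * (P * q)| ≤ ε * (P * q) := by
  have hDq0 : 0 ≤ D * q := mul_nonneg hD hq0
  have hεq : 0 ≤ ε1 * q := mul_nonneg hε0 hq0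
  have hPq : 0 ≤ P * q := mul_nonneg hP0 hq0
  have e0 : S - e * (P * q) = (S - N * q) + (N - e * P) * q := by ring
  rw [e0]
  have e2 := abs_add_le (S - N * q) ((N - e * P) * q)
  have e4 : |(N - e * P) * q| ≤ ε1 * P * q := by
    rw [abs_mul, abs_of_nonneg hq0]
    exact mul_le_mul_of_nonneg_right k1 hq0
  have e5 : N * (ε1 * q) ≤ (E + 1) * P * (ε1 * q) := mul_le_mul_of_nonneg_right hN hεq
  have e6 := mul_le_mul_of_nonneg_right hb1 hDq0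
  have e7 := mul_le_mul_of_nonneg_right hb2 hDq0
  have e8 : ε1 * (E + D + 3) * (P * q) ≤ ε * (P * q) := mul_le_mul_of_nonneg_right hε12 hPq
  have e9 : 0 ≤ ε1 * (P * q) := mul_nonneg hε0 hPq
  have e10 : (E + 1) * P * (ε1 * q) + (ε1 / 2 * P * (D * q) + ε1 / 2 * P * (D * q)) + ε1 * P * q =
      ε1 * (E + D + 3) * (P * q) - ε1 * (P * q) := by ring
  linarith

theorem card_filter_set {α : Type} [DecidableEq α] (S : Set α) (hS : S.Finite) (P : α → Prop)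
    [DecidablePred P] : ((hS.toFinset.filter P).card : ℝ) = ({x | x ∈ S ∧ P x}).ncard := by
  rw [← Set.ncard_coe_finset]
  congr 2
  ext x
  simp

section
variable {A : Type} [CommRing A] (a b : ℕ → ℤ) (t : ℕ) (Xf Yf : ℕ → A)
  (φ : (MvPolynomial (Fin 2) A)[X])

theorem ncard_gen {F : Type} [Field F] [Finite F] [DecidableEq F] (S0 : Set (A →+* F)) (hS0 : S0.Finite)
    (𝒬' : (A →+* F) → Finset (Pt (a t : F) (b t : F))) :
    ({ψ : AT (a t) (b t) φ →+* F | ψ.comp (iT (a t) (b t) φ) ∈ S0 ∧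
      ∃ Q ∈ 𝒬' (ψ.comp (iT (a t) (b t) φ)), Q ≠ 0 ∧
        crd Q = (ψ (xT (a t) (b t) φ), ψ (yT (a t) (b t) φ))}.ncard : ℝ) =
      ∑ ψ0 ∈ hS0.toFinset, ∑ Q ∈ 𝒬' ψ0, M0 (NE φ ψ0) Q := by
  rw [← (card_gen (a t) (b t) φ hS0.toFinset 𝒬').2]
  congr 2
  ext ψ
  simp

variable {a b t Xf Yf} {f0 : ℤ[X]}

theorem step_cnt (h : TwS a b t Xf Yf f0) (hDQ : Disc (a t : ℚ) (b t : ℚ)) (hφ : φ.Monic)
    (s1 s2 : A) (hs1 : s1 ≠ 0) (hs2 : s2 ≠ 0) (m1 m2 : ℕ) (C1 C2 : ℝ) (hC1 : 0 ≤ C1) (hC2 : 0 ≤ C2)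
    (hF1 : GN.FamP (a t) (b t) φ φ s1 m1 C1) (hF2 : GN.FamP (a t) (b t) φ Polynomial.X s2 m2 C2)
    (κ ε : ℝ) (hκ : 0 < κ) (hε : 0 < ε) : ∃ T0 : ℕ, ∀ p : ℕ, T0 ≤ p → ∀ (_ : Fact p.Prime)
    (c : (j : ℕ) → Pt (a j : ZMod p) (b j : ZMod p))
    (H : (j : ℕ) → AddSubgroup (Pt (a j : ZMod p) (b j : ZMod p))),
    (∀ j < t + 1, (p : ℝ) ^ (1 / 2 + κ) ≤ (Nat.card (H j) : ℝ)) →
    |((HomS a b (t + 1) (XT a b t φ Xf) (YT a b t φ Yf) (fun j => cs (c j) (H j))).ncard : ℝ) -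
      (e0 f0 p : ℝ) * ∏ j ∈ range (t + 1), (Nat.card (H j) : ℝ)| ≤
        ε * ∏ j ∈ range (t + 1), (Nat.card (H j) : ℝ) := by
  obtain ⟨G, hG, hcl⟩ := h.ft
  set D := max 1 φ.natDegree with hD
  have hD1 : 1 ≤ D := le_max_left _ _
  have hφD : φ.natDegree ≤ D := le_max_right _ _
  set E := f0.natDegree with hE
  set ε1 : ℝ := min 1 (ε / (E + D + 3)) with hε1
  have hε10 : 0 < ε1 := lt_min one_pos (by positivity)
  have hε11 : ε1 ≤ 1 := min_le_left _ _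
  have hε12 : ε1 * (E + D + 3) ≤ ε := by
    have h1 : ε1 ≤ ε / (E + D + 3) := min_le_right _ _
    rwa [le_div_iff₀ (by positivity)] at h1
  obtain ⟨T1, hT1⟩ := h.cnt κ ε1 hκ hε10
  obtain ⟨T2, hT2⟩ := coset_asym (a t) (b t) hDQ φ hφ s1 s2 m1 m2 C1 C2 hC1 hC2 hF1 hF2 κ ε1 hκ
    hε10
  obtain ⟨T3, hT3⟩ := h.bad s1 hs1 κ (ε1 / 2) hκ (by positivity)
  obtain ⟨T4, hT4⟩ := h.bad s2 hs2 κ (ε1 / 2) hκ (by positivity)
  refine ⟨max T1 (max T2 (max T3 T4)), fun p hp _ c H hH => ?_⟩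
  classical
  have hp1 : T1 ≤ p := (le_max_left _ _).trans hp
  have hp2 : T2 ≤ p := (le_max_left _ _).trans ((le_max_right _ _).trans hp)
  have hp3 : T3 ≤ p := (le_max_left _ _).trans ((le_max_right _ _).trans
    ((le_max_right _ _).trans hp))
  have hp4 : T4 ≤ p := (le_max_right _ _).trans ((le_max_right _ _).trans
    ((le_max_right _ _).trans hp))
  have hHt : ∀ j < t, (p : ℝ) ^ (1 / 2 + κ) ≤ (Nat.card (H j) : ℝ) := fun j hj => hH j (by omega)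
  have k1 := hT1 p hp1 _ c H hHt
  have k3 := hT3 p hp3 _ c H hHt
  have k4 := hT4 p hp4 _ c H hHt
  have hfinA := homs_finite G hG hcl (ZMod p)
  have hfinP := finite_pt (a t : ZMod p) (b t : ZMod p)
  set S0 := HomS a b t Xf Yf (fun j => cs (c j) (H j)) with hS0
  have hS0f : S0.Finite := Set.toFinite _
  set Qf : Finset (Pt (a t : ZMod p) (b t : ZMod p)) := (Set.toFinite (cs (c t) (H t))).toFinset
    with hQf
  have hQfm : ∀ Q, Q ∈ Qf ↔ Q ∈ cs (c t) (H t) := fun Q => by rw [hQf, Set.Finite.mem_toFinset]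
  have hset : HomS a b (t + 1) (XT a b t φ Xf) (YT a b t φ Yf) (fun j => cs (c j) (H j)) =
      {ψ : AT (a t) (b t) φ →+* ZMod p | ψ.comp (iT (a t) (b t) φ) ∈ S0 ∧
      ∃ Q ∈ Qf, Q ≠ 0 ∧ crd Q = (ψ (xT (a t) (b t) φ), ψ (yT (a t) (b t) φ))} := by
    rw [homS_succ]
    ext ψ
    simp only [Set.mem_ofPred_eq, hQfm]
    rfl
  rw [hset, ncard_gen a b t φ S0 hS0f (fun _ => Qf), prod_range_succ]
  set P : ℝ := ∏ j ∈ range t, (Nat.card (H j) : ℝ) with hP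
  set q : ℝ := (Nat.card (H t) : ℝ) with hq
  have hP0 : 0 ≤ P := prod_nonneg fun _ _ => Nat.cast_nonneg _
  have hq0 : 0 ≤ q := Nat.cast_nonneg _
  have hQc : (Qf.card : ℝ) = q := by
    rw [cs_card (c t) (H t) Qf hQfm]
  set f : (A →+* ZMod p) → ℝ := fun ψ0 => ∑ Q ∈ Qf, M0 (NE φ ψ0) Q with hf
  set 𝒮 := hS0f.toFinset with h𝒮
  have h𝒮c : (𝒮.card : ℝ) = S0.ncard := by
    rw [Set.ncard_eq_toFinset_card S0 hS0f]
  have hb1 : ((𝒮.filter (fun ψ => ψ s1 = 0)).card : ℝ) ≤ ε1 / 2 * P := by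
    rw [card_filter_set]
    exact k3
  have hb2 : ((𝒮.filter (fun ψ => ψ s2 = 0)).card : ℝ) ≤ ε1 / 2 * P := by
    rw [card_filter_set]
    exact k4
  have hDq0 : 0 ≤ (D : ℝ) * q := mul_nonneg (Nat.cast_nonneg _) hq0
  have hfb : ∀ ψ0, |f ψ0 - q| ≤ D * q := by
    intro ψ0
    have h1 : 0 ≤ f ψ0 := sum_nonneg fun Q _ => m0_nonneg _ _
    have h2 : f ψ0 ≤ D * q := by
      rw [← hQc, mul_comm, ← nsmul_eq_mul]
      exact sum_le_card_nsmul _ _ _ fun Q _ => m0_le φ hφ ψ0 D hφD Q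
    have h3 : q ≤ D * q := le_mul_of_one_le_left hq0 (by exact_mod_cast hD1)
    rw [abs_le]
    constructor <;> linarith
  have hfs : ∀ ψ0 ∈ 𝒮, |f ψ0 - q| ≤ ε1 * q + ((if ψ0 s1 = 0 then (D : ℝ) * q else 0) +
      (if ψ0 s2 = 0 then (D : ℝ) * q else 0)) := by
    intro ψ0 _
    by_cases g1 : ψ0 s1 = 0
    · rw [if_pos g1]
      have h1 := hfb ψ0
      have h2 : 0 ≤ ε1 * q := mul_nonneg hε10.le hq0
      split_ifs <;> linarith
    · by_cases g2 : ψ0 s2 = 0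
      · rw [if_neg g1, if_pos g2]
        have h1 := hfb ψ0
        have h2 : 0 ≤ ε1 * q := mul_nonneg hε10.le hq0
        linarith
      · rw [if_neg g1, if_neg g2, add_zero, add_zero]
        exact hT2 p hp2 _ ψ0 g1 g2 (c t) (H t) (hH t (by omega)) Qf hQfm
  have hsum := sum_le_sum hfs
  rw [sum_add_distrib, sum_add_distrib, sum_const, nsmul_eq_mul, ← sum_filter, ← sum_filter,
    sum_const, sum_const, nsmul_eq_mul, nsmul_eq_mul, h𝒮c] at hsum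
  have hN : (S0.ncard : ℝ) ≤ (E + 1) * P := by
    have h1 := (abs_le.1 k1).2
    have h2 : (e0 f0 p : ℝ) * P ≤ E * P :=
      mul_le_mul_of_nonneg_right (by exact_mod_cast e0_le f0 h.mon p) hP0
    have h3 : ε1 * P ≤ 1 * P := mul_le_mul_of_nonneg_right hε11 hP0
    linarith
  have e3 : |∑ ψ0 ∈ 𝒮, (f ψ0 - q)| ≤ ∑ ψ0 ∈ 𝒮, |f ψ0 - q| := abs_sum_le_sum_abs _ _
  have e1 : ∑ ψ0 ∈ 𝒮, (f ψ0 - q) = ∑ ψ0 ∈ 𝒮, f ψ0 - (S0.ncard : ℝ) * q := by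
    rw [sum_sub_distrib, sum_const, nsmul_eq_mul, h𝒮c]
  rw [e1] at e3
  exact arith_cnt _ _ _ P q E D ε ε1 _ _ hP0 hq0 hε10.le (Nat.cast_nonneg _) hε12 k1
    (e3.trans hsum) hb1 hb2 hN

end

end Pool.Agent.J4H11.GQ
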