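import Pool.Agent.J4H11.GQ.V3

/-!
# The induction step for the bad homomorphisms and for the fibres
-/

set_option autoImplicit false

open Polynomial Finset Pool.Agent.J4H11.RC Pool.Agent.J4H11.GC Pool.Agent.J4H11.SC
  Pool.Agent.H901R3.MS WeierstrassCurve Pool.Agent.J4H11.GN

namespace Pool.Agent.J4H11.GQ

/-- an arithmetic lemma -/
theorem arith_bad (N B P q E D ε M : ℝ) (hP0 : 0 ≤ P) (hq0 : 0 ≤ q) (hε : 0 < ε)
    (hD : 1 ≤ D) (hM : 0 ≤ M) (k3 : 2 * D * (E + 1) * M / ε ≤ q) (hb : B ≤ ε / (2 * D) * P)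
    (hN : N ≤ (E + 1) * P) : B * (D * q) + N * (D * M) ≤ ε * (P * q) := by
  have hD0 : 0 < D := by linarith
  have e1 : B * (D * q) ≤ ε / (2 * D) * P * (D * q) :=
    mul_le_mul_of_nonneg_right hb (mul_nonneg hD0.le hq0)
  have e2 : N * (D * M) ≤ (E + 1) * P * (D * M) :=
    mul_le_mul_of_nonneg_right hN (mul_nonneg hD0.le hM)
  have e3 : ε / (2 * D) * P * (D * q) = ε * (P * q) / 2 := by
    field_simp
  have e4 : (E + 1) * P * (D * M) ≤ ε * (P * q) / 2 := by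
    rw [div_le_iff₀ hε] at k3
    have h5 := mul_le_mul_of_nonneg_right k3 hP0
    linarith
  linarith

section
variable {A : Type} [CommRing A] {a b : ℕ → ℤ} {t : ℕ} {Xf Yf : ℕ → A}
  (φ : (MvPolynomial (Fin 2) A)[X]) {f0 : ℤ[X]}

/-- an element which is not zero vanishes only above few points -/
theorem at_elim [IsDomain A] (a' b' : ℤ) (hφ : φ.Monic) [IsDomain (AT a' b' φ)]
    (s : AT a' b' φ) (hs : s ≠ 0) : ∃ (s0 : A) (m : ℕ), s0 ≠ 0 ∧ ∀ (K : Type) [Field K]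
    (ψ0 : A →+* K), ψ0 s0 ≠ 0 → ∃ S : Finset K, S.card ≤ m ∧
      ∀ ψ : AT a' b' φ →+* K, ψ.comp (iT a' b' φ) = ψ0 → ψ (xT a' b' φ) ∉ S → ψ s ≠ 0 := by
  have hm : (φ1 a' b' φ).Monic := hφ.map _
  have hnt : Nontrivial (A1 A a' b') := (AdjoinRoot.of (φ1 a' b' φ)).domain_nontrivial
  have hfin : Module.Finite (A1 A a' b') (AT a' b' φ) := hm.finite_adjoinRoot
  obtain ⟨r, u, hr, hru⟩ := down (R := A1 A a' b') s hs (Algebra.IsIntegral.isIntegral s)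
  obtain ⟨s0, m, hs0, h⟩ := elim1 r hr
  refine ⟨s0, m, hs0, fun K _ ψ0 h0 => ?_⟩
  obtain ⟨S, hS, hS2⟩ := h K ψ0 h0
  refine ⟨S, hS, fun ψ hψ hx h1 => ?_⟩
  refine hS2 _ hx (ψ.comp (AdjoinRoot.of (φ1 a' b' φ))) (fun c => ?_) rfl ?_
  · exact DFunLike.congr_fun hψ c
  · change ψ (algebraMap (A1 A a' b') (AT a' b' φ) r) = 0
    rw [hru, map_mul, h1, zero_mul]

theorem step_bad [IsDomain A] (h : TwS a b t Xf Yf f0) (hDQ : Disc (a t : ℚ) (b t : ℚ))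
    (hφ : φ.Monic) [IsDomain (AT (a t) (b t) φ)] (s : AT (a t) (b t) φ) (hs : s ≠ 0)
    (κ ε : ℝ) (hκ : 0 < κ) (hε : 0 < ε) : ∃ T0 : ℕ, ∀ p : ℕ, T0 ≤ p → ∀ (_ : Fact p.Prime)
    (c : (j : ℕ) → Pt (a j : ZMod p) (b j : ZMod p))
    (H : (j : ℕ) → AddSubgroup (Pt (a j : ZMod p) (b j : ZMod p))),
    (∀ j < t + 1, (p : ℝ) ^ (1 / 2 + κ) ≤ (Nat.card (H j) : ℝ)) →
    (({ψ | ψ ∈ HomS a b (t + 1) (XT a b t φ Xf) (YT a b t φ Yf) (fun j => cs (c j) (H j)) ∧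
      ψ s = 0}).ncard : ℝ) ≤ ε * ∏ j ∈ range (t + 1), (Nat.card (H j) : ℝ) := by
  obtain ⟨G, hG, hcl⟩ := h.ft
  obtain ⟨s0, m, hs0, hel⟩ := at_elim φ (a t) (b t) hφ s hs
  set D := max 1 φ.natDegree with hD
  have hD1 : 1 ≤ D := le_max_left _ _
  have hD1R : (1 : ℝ) ≤ D := by exact_mod_cast hD1
  have hφD : φ.natDegree ≤ D := le_max_right _ _
  set E := f0.natDegree with hE
  obtain ⟨T1, hT1⟩ := h.cnt κ 1 hκ one_pos
  obtain ⟨T2, hT2⟩ := h.bad s0 hs0 κ (ε / (2 * D)) hκ (by positivity)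
  obtain ⟨T3, hT3⟩ := asy_loc 0 0 0 (2 * D * (E + 1) * (3 * m + 5) / ε) κ le_rfl le_rfl le_rfl hκ
  refine ⟨max (max T1 (max T2 T3)) (max 3 ((2 * (4 * a t ^ 3 + 27 * b t ^ 2)).natAbs + 1)),
    fun p hp _ c H hH => ?_⟩
  classical
  have hp' := (le_max_left _ _).trans hp
  have hp'' := (le_max_right _ _).trans hp
  have hp1 : T1 ≤ p := (le_max_left _ _).trans hp'
  have hp2 : T2 ≤ p := (le_max_left _ _).trans ((le_max_right _ _).trans hp')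
  have hp3 : T3 ≤ p := (le_max_right _ _).trans ((le_max_right _ _).trans hp')
  have hp4 : 3 ≤ p := (le_max_left _ _).trans hp''
  have hpD : (2 * (4 * a t ^ 3 + 27 * b t ^ 2)).natAbs < p := by
    have := (le_max_right _ _).trans hp''
    omega
  have hDp := disc_int (a t) (b t) hDQ hpD
  have hpne : p ≠ 2 := by omega
  have hHt : ∀ j < t, (p : ℝ) ^ (1 / 2 + κ) ≤ (Nat.card (H j) : ℝ) := fun j hj => hH j (by omega)
  have k1 := hT1 p hp1 _ c H hHt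
  have k2 := hT2 p hp2 _ c H hHt
  have k3 := hT3 p hp3 _ (hH t (by omega))
  rw [zero_mul, zero_add] at k3
  have hfinA := homs_finite G hG hcl (ZMod p)
  have hfinP := finite_pt (a t : ZMod p) (b t : ZMod p)
  let _ := Fintype.ofFinite (Pt (a t : ZMod p) (b t : ZMod p))
  set S0 := HomS a b t Xf Yf (fun j => cs (c j) (H j)) with hS0
  have hS0f : S0.Finite := Set.toFinite _
  set Qf : Finset (Pt (a t : ZMod p) (b t : ZMod p)) := (Set.toFinite (cs (c t) (H t))).toFinset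
    with hQf
  have hQfm : ∀ Q, Q ∈ Qf ↔ Q ∈ cs (c t) (H t) := fun Q => by rw [hQf, Set.Finite.mem_toFinset]
  have hex : ∀ ψ0 : A →+* ZMod p, ∃ S : Finset (ZMod p), ψ0 s0 ≠ 0 → S.card ≤ m ∧
      ∀ ψ : AT (a t) (b t) φ →+* ZMod p, ψ.comp (iT (a t) (b t) φ) = ψ0 →
        ψ (xT (a t) (b t) φ) ∉ S → ψ s ≠ 0 := by
    intro ψ0
    by_cases h0 : ψ0 s0 = 0
    · exact ⟨∅, fun h1 => absurd h0 h1⟩
    · obtain ⟨S, hS⟩ := hel (ZMod p) ψ0 h0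
      exact ⟨S, fun _ => hS⟩
  choose Sx hSx using hex
  set Q2 : (A →+* ZMod p) → Finset (Pt (a t : ZMod p) (b t : ZMod p)) := fun ψ0 =>
    if ψ0 s0 = 0 then Qf else Qf.filter (fun Q => (crd Q).1 ∈ Sx ψ0) with hQ2
  have hsub : {ψ | ψ ∈ HomS a b (t + 1) (XT a b t φ Xf) (YT a b t φ Yf)
      (fun j => cs (c j) (H j)) ∧ ψ s = 0} ⊆
      {ψ : AT (a t) (b t) φ →+* ZMod p | ψ.comp (iT (a t) (b t) φ) ∈ S0 ∧
      ∃ Q ∈ Q2 (ψ.comp (iT (a t) (b t) φ)), Q ≠ 0 ∧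
        crd Q = (ψ (xT (a t) (b t) φ), ψ (yT (a t) (b t) φ))} := by
    rintro ψ ⟨h1, h2⟩
    rw [homS_succ] at h1
    obtain ⟨h1, Q, hQ, hQ0, hc⟩ := h1
    refine ⟨h1, Q, ?_, hQ0, hc⟩
    rw [hQ2]
    beta_reduce
    split_ifs with g
    · exact (hQfm Q).2 hQ
    · rw [mem_filter]
      refine ⟨(hQfm Q).2 hQ, ?_⟩
      rw [hc]
      by_contra hcon
      exact (hSx _ g).2 ψ rfl hcon h2
  have hfin2 : {ψ : AT (a t) (b t) φ →+* ZMod p | ψ.comp (iT (a t) (b t) φ) ∈ S0 ∧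
      ∃ Q ∈ Q2 (ψ.comp (iT (a t) (b t) φ)), Q ≠ 0 ∧
        crd Q = (ψ (xT (a t) (b t) φ), ψ (yT (a t) (b t) φ))}.Finite := by
    have h1 := (card_gen (a t) (b t) φ hS0f.toFinset Q2).1
    refine h1.subset ?_
    rintro ψ ⟨g1, g2⟩
    exact ⟨(Set.Finite.mem_toFinset _).2 g1, g2⟩
  have hle : (({ψ | ψ ∈ HomS a b (t + 1) (XT a b t φ Xf) (YT a b t φ Yf)
      (fun j => cs (c j) (H j)) ∧ ψ s = 0}).ncard : ℝ) ≤
      ∑ ψ0 ∈ hS0f.toFinset, ∑ Q ∈ Q2 ψ0, M0 (NE φ ψ0) Q := by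
    rw [← ncard_gen a b t φ S0 hS0f Q2]
    exact_mod_cast Set.ncard_le_ncard hsub hfin2
  refine hle.trans ?_
  rw [prod_range_succ]
  set P : ℝ := ∏ j ∈ range t, (Nat.card (H j) : ℝ) with hP
  set q : ℝ := (Nat.card (H t) : ℝ) with hq
  have hP0 : 0 ≤ P := prod_nonneg fun _ _ => Nat.cast_nonneg _
  have hq0 : 0 ≤ q := Nat.cast_nonneg _
  have hQc : (Qf.card : ℝ) = q := by
    rw [cs_card (c t) (H t) Qf hQfm]
  set 𝒮 := hS0f.toFinset with h𝒮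
  have h𝒮c : (𝒮.card : ℝ) = S0.ncard := by
    rw [Set.ncard_eq_toFinset_card S0 hS0f]
  have hb : ((𝒮.filter (fun ψ => ψ s0 = 0)).card : ℝ) ≤ ε / (2 * D) * P := by
    rw [card_filter_set]
    exact k2
  have hQ2c : ∀ ψ0, ((Q2 ψ0).card : ℝ) ≤ (if ψ0 s0 = 0 then q else 0) + (3 * m + 5) := by
    intro ψ0
    rw [hQ2]
    beta_reduce
    split_ifs with g
    · rw [hQc]
      have : (0 : ℝ) ≤ 3 * (m : ℝ) + 5 := add_nonneg (mul_nonneg (by norm_num) (Nat.cast_nonneg _))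
        (by norm_num)
      linarith
    · rw [zero_add]
      have h1 := bad_le hDp hpne (Sx ψ0)
      have h2 : (Qf.filter (fun Q => (crd Q).1 ∈ Sx ψ0)).card ≤ (univ.filter
          (fun h : Pt (a t : ZMod p) (b t : ZMod p) =>
            h = 0 ∨ (crd h).1 ∈ Sx ψ0 ∨ (crd h).2 = 0)).card := by
        apply card_le_card
        intro Q hQ
        rw [mem_filter] at hQ ⊢
        exact ⟨mem_univ _, Or.inr (Or.inl hQ.2)⟩
      have h3 := (hSx ψ0 g).1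
      have h4 : (Qf.filter (fun Q => (crd Q).1 ∈ Sx ψ0)).card ≤ 3 * m + 5 := by
        refine h2.trans (h1.trans ?_)
        omega
      exact_mod_cast h4
  have hterm : ∀ ψ0 ∈ 𝒮, ∑ Q ∈ Q2 ψ0, M0 (NE φ ψ0) Q ≤
      (if ψ0 s0 = 0 then (D : ℝ) * q else 0) + D * (3 * m + 5) := by
    intro ψ0 _
    have h1 : ∑ Q ∈ Q2 ψ0, M0 (NE φ ψ0) Q ≤ (Q2 ψ0).card • (D : ℝ) :=
      sum_le_card_nsmul _ _ _ fun Q _ => m0_le φ hφ ψ0 D hφD Q
    rw [nsmul_eq_mul] at h1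
    have h2 := mul_le_mul_of_nonneg_right (hQ2c ψ0) (Nat.cast_nonneg D : (0 : ℝ) ≤ D)
    refine h1.trans (h2.trans (le_of_eq ?_))
    split_ifs <;> ring
  refine (sum_le_sum hterm).trans ?_
  rw [sum_add_distrib, sum_const, nsmul_eq_mul, ← sum_filter, sum_const, nsmul_eq_mul, h𝒮c]
  have hN : (S0.ncard : ℝ) ≤ (E + 1) * P := by
    have h1 := (abs_le.1 k1).2
    have h2 : (e0 f0 p : ℝ) * P ≤ E * P :=
      mul_le_mul_of_nonneg_right (by exact_mod_cast e0_le f0 h.mon p) hP0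
    linarith
  exact arith_bad _ _ P q E D ε (3 * m + 5) hP0 hq0 hε hD1R (by positivity) k3 hb hN

theorem step_fib (h : TwS a b t Xf Yf f0) (hφ : φ.Monic) : ∃ B0 : ℕ, ∀ (p : ℕ)
    (_ : Fact p.Prime) (Q : (j : ℕ) → Pt (a j : ZMod p) (b j : ZMod p)),
    (HomS a b (t + 1) (XT a b t φ Xf) (YT a b t φ Yf) (fun j => {Q j})).ncard ≤ B0 := by
  obtain ⟨G, hG, hcl⟩ := h.ft
  obtain ⟨B0, hB0⟩ := h.fib
  refine ⟨B0 * φ.natDegree, fun p _ Q => ?_⟩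
  classical
  have hfinA := homs_finite G hG hcl (ZMod p)
  set S0 := HomS a b t Xf Yf (fun j => {Q j}) with hS0
  have hS0f : S0.Finite := Set.toFinite _
  have hset : HomS a b (t + 1) (XT a b t φ Xf) (YT a b t φ Yf) (fun j => {Q j}) =
      {ψ : AT (a t) (b t) φ →+* ZMod p | ψ.comp (iT (a t) (b t) φ) ∈ S0 ∧
      ∃ Q' ∈ ({Q t} : Finset (Pt (a t : ZMod p) (b t : ZMod p))), Q' ≠ 0 ∧
        crd Q' = (ψ (xT (a t) (b t) φ), ψ (yT (a t) (b t) φ))} := by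
    rw [homS_succ]
    ext ψ
    simp only [Set.mem_ofPred_eq, Finset.mem_singleton, Set.mem_singleton_iff]
    rfl
  have h1 := ncard_gen a b t φ S0 hS0f (fun _ => {Q t})
  rw [← hset] at h1
  have h2 : ((HomS a b (t + 1) (XT a b t φ Xf) (YT a b t φ Yf) (fun j => {Q j})).ncard : ℝ) ≤
      ((B0 * φ.natDegree : ℕ) : ℝ) := by
    rw [h1]
    have h3 : ∀ ψ0 ∈ hS0f.toFinset, ∑ Q' ∈ ({Q t} : Finset (Pt (a t : ZMod p) (b t : ZMod p))),
        M0 (NE φ ψ0) Q' ≤ (φ.natDegree : ℝ) := by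
      intro ψ0 _
      rw [sum_singleton]
      exact m0_le φ hφ ψ0 _ le_rfl _
    refine (sum_le_card_nsmul _ _ _ h3).trans ?_
    rw [nsmul_eq_mul]
    push_cast
    apply mul_le_mul_of_nonneg_right _ (by positivity)
    have h4 := hB0 p _ Q
    rw [← hS0, Set.ncard_eq_toFinset_card S0 hS0f] at h4
    exact_mod_cast h4
  exact_mod_cast h2

end

end Pool.Agent.J4H11.GQ
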