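import Pool.Agent.J4H11.GQ.V1
import Pool.Agent.J4H11.RC.Core1

/-!
# The beginning of the tower
-/

set_option autoImplicit false

open Polynomial Finset Pool.Agent.J4H11.RC Pool.Agent.J4H11.SC Pool.Agent.H901R3.MS
  WeierstrassCurve Pool.Agent.J4H11.GN

namespace Pool.Agent.J4H11.GQ

section
variable (a b : ℕ → ℤ) (f0 : ℤ[X]) (hf0 : f0.Monic)

theorem hom_card (p : ℕ) [Fact p.Prime] :
    Nat.card (AdjoinRoot f0 →+* ZMod p) = e0 f0 p := by
  unfold e0
  rw [← Nat.card_congr (adjE f0 (Int.castRingHom (ZMod p)))]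
  have e : (AdjoinRoot f0 →+* ZMod p) ≃
      {φ' : AdjoinRoot f0 →+* ZMod p // φ'.comp (AdjoinRoot.of f0) = Int.castRingHom (ZMod p)} :=
    { toFun := fun φ => ⟨φ, Subsingleton.elim _ _⟩
      invFun := fun φ => φ.1
      left_inv := fun _ => rfl
      right_inv := fun _ => rfl }
  exact Nat.card_congr e

include hf0 in
theorem e0_le' (p : ℕ) [Fact p.Prime] : e0 f0 p ≤ f0.natDegree := by
  classical
  unfold e0
  set g := f0.map (Int.castRingHom (ZMod p)) with hg
  have hgm : g.Monic := hf0.map _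
  have e : {w : ZMod p // g.IsRoot w} ≃ (g.roots.toFinset : Set (ZMod p)) :=
    Equiv.subtypeEquivRight (fun w => by
      rw [Finset.mem_coe, Multiset.mem_toFinset, Polynomial.mem_roots hgm.ne_zero])
  rw [Nat.card_congr e, Nat.card_coe_set_eq, Set.ncard_coe_finset]
  refine (Multiset.toFinset_card_le _).trans ((Polynomial.card_roots' g).trans ?_)
  exact natDegree_map_le

include hf0 in
theorem tws_base [IsDomain (AdjoinRoot f0)] (Xf Yf : ℕ → AdjoinRoot f0) :
    TwS a b 0 Xf Yf f0 := by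
  have huniv : ∀ {F : Type} [Field F] (𝒬 : (j : ℕ) → Set (Pt (a j : F) (b j : F))),
      HomS a b 0 Xf Yf 𝒬 = Set.univ := by
    intro F _ 𝒬
    ext ψ
    simp only [Set.mem_univ, iff_true]
    intro j hj
    omega
  have hfin : Module.Finite ℤ (AdjoinRoot f0) := hf0.finite_adjoinRoot
  refine ⟨?_, ?_, ?_, ?_, ?_, hf0, ?_⟩
  · intro κ ε _ hε
    refine ⟨0, fun p _ _ c H _ => ?_⟩
    rw [huniv, Set.ncard_univ, hom_card, range_zero, prod_empty, mul_one, mul_one, sub_self,
      abs_zero]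
    exact hε.le
  · intro s hs κ ε _ hε
    obtain ⟨n, u, hn, hnu⟩ := down (R := ℤ) s hs (Algebra.IsIntegral.isIntegral s)
    refine ⟨n.natAbs + 1, fun p hp _ c H _ => ?_⟩
    have h1 : {ψ | ψ ∈ HomS a b 0 Xf Yf (fun j => cs (c j) (H j)) ∧ ψ s = 0} = ∅ := by
      ext ψ
      simp only [Set.mem_empty_iff_false, iff_false]
      rintro ⟨-, h2⟩
      have h3 := congrArg ψ hnu
      rw [map_mul, h2, zero_mul, eq_intCast, map_intCast] at h3
      exact intCast_ne hn (by omega) h3
    rw [h1, Set.ncard_empty, range_zero, prod_empty, mul_one]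
    exact_mod_cast hε.le
  · refine ⟨f0.natDegree, fun p _ Q => ?_⟩
    rw [huniv, Set.ncard_univ, hom_card]
    exact e0_le' f0 hf0 p
  · intro K _ v χ _ c
    have h1 : IsIntegral ℤ (χ c) := (Algebra.IsIntegral.isIntegral (R := ℤ) c).map χ.toIntAlgHom
    have h2 : IsIntegral v (χ c) := h1.tower_top
    obtain ⟨y, hy⟩ := IsIntegrallyClosed.isIntegral_iff.1 h2
    rw [← hy]
    exact y.2
  · refine ⟨AdjoinRoot.root f0, ?_⟩
    rw [aeval_def]
    exact AdjoinRoot.eval₂_root f0
  · refine ⟨{AdjoinRoot.root f0}, Set.finite_singleton _, ?_⟩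
    set S : Subring (AdjoinRoot f0) := Subring.closure {AdjoinRoot.root f0} with hS
    have hr : AdjoinRoot.root f0 ∈ S := Subring.subset_closure rfl
    have hc : ∀ n : ℤ, AdjoinRoot.mk f0 (C n) ∈ S := by
      intro n
      have h1 : AdjoinRoot.mk f0 (C n) = ((n : ℤ) : AdjoinRoot f0) := by
        have h2 : (C n : ℤ[X]) = ((n : ℤ) : ℤ[X]) := rfl
        rw [h2, map_intCast]
      rw [h1]
      exact intCast_mem S n
    have key : ∀ g : ℤ[X], AdjoinRoot.mk f0 g ∈ S := by
      intro g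
      induction g using Polynomial.induction_on' with
      | add p q hp hq =>
        rw [map_add]
        exact S.add_mem hp hq
      | monomial n c =>
        rw [← C_mul_X_pow_eq_monomial, map_mul, map_pow, AdjoinRoot.mk_X]
        exact S.mul_mem (hc c) (S.pow_mem hr n)
    rw [eq_top_iff]
    intro x _
    obtain ⟨g, rfl⟩ := AdjoinRoot.mk_surjective x
    exact key g

end

end Pool.Agent.J4H11.GQ
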