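import Pool.Agent.J4H11.GQ.V4
import Pool.Agent.J4H11.GP.Inst

/-!
# The induction step
-/

set_option autoImplicit false

open Polynomial Finset Pool.Agent.J4H11.RC Pool.Agent.J4H11.GC Pool.Agent.J4H11.SC
  Pool.Agent.H901R3.MS WeierstrassCurve Pool.Agent.J4H11.GN Pool.Agent.J4H11.GP

namespace Pool.Agent.J4H11.GQ

section
variable {A : Type} [CommRing A] {a b : ℕ → ℤ} {t : ℕ} {Xf Yf : ℕ → A}
  (φ : (MvPolynomial (Fin 2) A)[X]) {f0 : ℤ[X]}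

theorem tws_next [IsDomain A] (h : TwS a b t Xf Yf f0) (hDQ : Disc (a t : ℚ) (b t : ℚ))
    (hφ : φ.Monic) [IsDomain (AT (a t) (b t) φ)]
    (s1 s2 : A) (hs1 : s1 ≠ 0) (hs2 : s2 ≠ 0) (m1 m2 : ℕ) (C1 C2 : ℝ) (hC1 : 0 ≤ C1) (hC2 : 0 ≤ C2)
    (hF1 : GN.FamP (a t) (b t) φ φ s1 m1 C1) (hF2 : GN.FamP (a t) (b t) φ Polynomial.X s2 m2 C2) :
    TwS a b (t + 1) (XT a b t φ Xf) (YT a b t φ Yf) f0 := by
  refine ⟨?_, ?_, ?_, ?_, ?_, h.mon, ?_⟩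
  · intro κ ε hκ hε
    exact step_cnt φ h hDQ hφ s1 s2 hs1 hs2 m1 m2 C1 C2 hC1 hC2 hF1 hF2 κ ε hκ hε
  · intro s hs κ ε hκ hε
    exact step_bad φ h hDQ hφ s hs κ ε hκ hε
  · exact step_fib φ h hφ
  · intro K _ v χ hχ
    have h1 := hχ t (by omega)
    rw [XT_t, YT_t] at h1
    refine at_int φ (a t) (b t) hφ v χ (fun c => ?_) h1.1 h1.2
    refine h.int K v (χ.comp (iT (a t) (b t) φ)) (fun j hj => ?_) c
    have h2 := hχ j (by omega)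
    rw [XT_lt a b t φ Xf j hj, YT_lt a b t φ Yf j hj] at h2
    exact h2
  · obtain ⟨z, hz⟩ := h.root
    refine ⟨iT (a t) (b t) φ z, ?_⟩
    have h1 := congrArg (iT (a t) (b t) φ) hz
    rw [map_zero, aeval_def, hom_eval₂] at h1
    have h2 : (iT (a t) (b t) φ).comp (algebraMap ℤ A) = algebraMap ℤ (AT (a t) (b t) φ) :=
      Subsingleton.elim _ _
    rw [h2] at h1
    rw [aeval_def]
    exact h1
  · obtain ⟨G, hG, hcl⟩ := h.ft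
    refine ⟨_, ?_, at_dense φ hcl (a t) (b t)⟩
    exact (hG.image _).union (by simp)

variable (ι : A →+* ℂ) (hι : Function.Injective ι)

include hι in
/-- the injectivity of the evaluation -/
theorem homT_inj [IsDomain A] (a' b' : ℤ) (hφ : φ.Monic) (hirr : Irreducible (GI ι a' b' φ))
    (xn yn w : ℂ) (hxn : ∀ p : A[X], p.eval₂ ι xn = 0 → p = 0)
    (hyn : yn ^ 2 = xn ^ 3 + (a' : ℂ) * xn + (b' : ℂ))
    (hw : (φ.map (GN.ev ι xn yn)).IsRoot w) :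
    Function.Injective (homT a' b' φ ι xn yn w hyn hw) := by
  have hdom : IsDomain (A1 A a' b') := a1_domain ι xn yn hxn hyn
  have hgE := g_onE (a' : ℂ) (b' : ℂ)
  unfold Pool.Agent.J4H11.SC.OnE at hgE
  rw [map_intCast, map_intCast] at hgE
  set jF := (algebraMap ℂ (FFd (a' : ℂ) (b' : ℂ))).comp ι with hjF
  have hgx : ∀ p : A[X], p.eval₂ jF (gX (a' : ℂ) (b' : ℂ)) = 0 → p = 0 := by
    intro p hp
    have h1 : aeval (gX (a' : ℂ) (b' : ℂ)) (p.map ι) = 0 := by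
      rw [aeval_def, eval₂_map]
      exact hp
    by_contra hne
    exact g_trans (a' : ℂ) (b' : ℂ) ⟨p.map ι, (Polynomial.map_ne_zero_iff hι).2 hne, h1⟩
  have hjinj : Function.Injective (hom1 jF (gX (a' : ℂ) (b' : ℂ)) (gY (a' : ℂ) (b' : ℂ)) hgE) :=
    hom1_inj jF _ _ hgx hgE
  refine inj2 (hom1 ι xn yn hyn) (hom1_inj ι xn yn hxn hyn)
    (hom1 jF (gX (a' : ℂ) (b' : ℂ)) (gY (a' : ℂ) (b' : ℂ)) hgE) hjinj (φ1 a' b' φ) (hφ.map _) ?_ w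
    ?_
  have h1 : (φ1 a' b' φ).map (hom1 jF (gX (a' : ℂ) (b' : ℂ)) (gY (a' : ℂ) (b' : ℂ)) hgE) =
      GI ι a' b' φ := by
    unfold φ1 GI
    rw [Polynomial.map_map, hom1_ev]
  rw [h1]
  exact hirr

include hι in
theorem tws_step [IsDomain A] (h : TwS a b t Xf Yf f0) (hDQ : Disc (a t : ℚ) (b t : ℚ))
    (hnt : NT (a t) (b t)) (hD : Disc (a t : ℂ) (b t : ℂ)) (hφ : φ.Monic)
    (hPB : ∀ n : ℕ, 1 ≤ n → Irreducible (φ.map
      (GN.ev ((algebraMap ℂ (FFd (a t : ℂ) (b t : ℂ))).comp ι) (crd (n • Rg hD)).1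
        (crd (n • Rg hD)).2)))
    (xn yn w : ℂ) (hxn : ∀ p : A[X], p.eval₂ ι xn = 0 → p = 0)
    (hyn : yn ^ 2 = xn ^ 3 + (a t : ℂ) * xn + (b t : ℂ))
    (hw : (φ.map (GN.ev ι xn yn)).IsRoot w) :
    Function.Injective (homT (a t) (b t) φ ι xn yn w hyn hw) ∧
    TwS a b (t + 1) (XT a b t φ Xf) (YT a b t φ Yf) f0 := by
  obtain ⟨xh, yh, hxh, hyn', hyh, hT⟩ := pb_gen' hnt hD ι hι φ hφ hPB xn yn hxn hyn
  have hinj := homT_inj φ ι hι (a t) (b t) hφ hT.1 xn yn w hxn hyn hw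
  have hdom : IsDomain (AT (a t) (b t) φ) := hinj.isDomain _
  have hX1 : GT ι (a t) (b t) xh yh (Polynomial.X : (MvPolynomial (Fin 2) A)[X]) = Polynomial.X := by
    unfold GT
    rw [Polynomial.map_X]
  obtain ⟨s1, m1, C1, h1, c1, f1⟩ := famT ι (a t) (b t) xh yh hxh hyn' hyh φ φ hφ hφ hT.1 hT.2
  obtain ⟨s2, m2, C2, h2, c2, f2⟩ := famT ι (a t) (b t) xh yh hxh hyn' hyh φ Polynomial.X hφ
    monic_X hT.1 (irr_X _ hT.1 _ hX1)
  exact ⟨hinj, tws_next φ h hDQ hφ s1 s2 h1 h2 m1 m2 C1 C2 c1 c2 f1 f2⟩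

end

end Pool.Agent.J4H11.GQ
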