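import Pool.Agent.J4H11.GQ.Q4
import Pool.Agent.J4H11.GQ.Q5

/-!
# The fields generated by the first coordinates and their algebraic closures
-/

set_option autoImplicit false
set_option linter.unusedSectionVars false

open Polynomial Pool.Agent.J4H11.RC Pool.Agent.J4H11.SC Pool.Agent.H901R3.MS WeierstrassCurve
  Pool.Agent.J4H11.GP Pool.Agent.J4H11.GN

namespace Pool.Agent.J4H11.GQ

/-- the field generated by the coordinates of the first points -/
noncomputable def k0 (x y : ℕ → ℂ) (t : ℕ) : Subfield ℂ :=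
  Subfield.closure {z | ∃ j < t, z = x j ∨ z = y j}

/-- its algebraic closure -/
noncomputable def Kb (x y : ℕ → ℂ) (t : ℕ) : Subfield ℂ :=
  (algebraicClosure (k0 x y t) ℂ).toSubfield

theorem kb_mem (x y : ℕ → ℂ) (t : ℕ) (z : ℂ) : z ∈ Kb x y t ↔ AlgS (k0 x y t) z := by
  rw [algS_iff]
  exact mem_algebraicClosure_iff

theorem kb_closed (x y : ℕ → ℂ) (t : ℕ) : IsAlgClosed (Kb x y t) :=
  (inferInstance : IsAlgClosure (k0 x y t) (algebraicClosure (k0 x y t) ℂ)).isAlgClosed

theorem algS_of_mem {S : Subfield ℂ} {z : ℂ} (h : z ∈ S) : AlgS S z := by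
  refine ⟨1, X - C z, monic_X_sub_C z, natDegree_X_sub_C z, fun i => ?_, by simp⟩
  rcases i with _ | i
  · simp only [coeff_sub, coeff_X_zero, coeff_C_zero, zero_sub]
    exact S.neg_mem h
  · rw [coeff_sub, coeff_C_succ, sub_zero, coeff_X]
    split_ifs
    · exact S.one_mem
    · exact S.zero_mem

theorem k0_le_kb (x y : ℕ → ℂ) (t : ℕ) : k0 x y t ≤ Kb x y t := fun _ hz =>
  (kb_mem x y t _).2 (algS_of_mem hz)

theorem k0_x (x y : ℕ → ℂ) (t j : ℕ) (hj : j < t) : x j ∈ k0 x y t :=
  Subfield.subset_closure ⟨j, hj, Or.inl rfl⟩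

theorem k0_y (x y : ℕ → ℂ) (t j : ℕ) (hj : j < t) : y j ∈ k0 x y t :=
  Subfield.subset_closure ⟨j, hj, Or.inr rfl⟩

theorem k0_le (x y : ℕ → ℂ) (t : ℕ) (S : Subfield ℂ) (h : ∀ j < t, x j ∈ S ∧ y j ∈ S) :
    k0 x y t ≤ S := by
  unfold k0
  rw [Subfield.closure_le]
  rintro z ⟨j, hj, rfl | rfl⟩
  · exact (h j hj).1
  · exact (h j hj).2

/-- transitivity of algebraicity -/
theorem algS_trans {S : Subfield ℂ} (S' : Subfield ℂ) (h : ∀ z ∈ S', AlgS S z) {z : ℂ}
    (hz : AlgS S' z) : AlgS S z := by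
  rw [algS_iff]
  have h1 : S' ≤ (algebraicClosure S ℂ).toSubfield := by
    intro u hu
    have := h u hu
    rw [algS_iff] at this
    exact mem_algebraicClosure_iff.2 this
  have h2 : AlgS (algebraicClosure S ℂ).toSubfield z := algS_mono h1 hz
  rw [algS_iff] at h2
  have h3 : IsAlgebraic (algebraicClosure S ℂ) z := h2
  exact h3.restrictScalars S

theorem prim (k : Subfield ℂ) (T : Set ℂ) (hT : T.Finite) (hTalg : ∀ z ∈ T, AlgS k z) :
    ∃ η, η ∈ Subfield.closure ((k : Set ℂ) ∪ T) ∧ T ⊆ ad1 k η ∧ AlgS k η := by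
  have hfin : FiniteDimensional k (IntermediateField.adjoin k T) := by
    have hTf : Finite T := hT
    exact IntermediateField.finiteDimensional_adjoin (fun z hz => (algS_iff.1 (hTalg z hz)).isIntegral)
  obtain ⟨α, hα⟩ := Field.exists_primitive_element k (IntermediateField.adjoin k T)
  refine ⟨(α : ℂ), ?_, ?_, ?_⟩
  · have h1 : (IntermediateField.adjoin k T).toSubfield ≤ Subfield.closure ((k : Set ℂ) ∪ T) := by
      rw [IntermediateField.adjoin_toSubfield]
      rw [Subfield.closure_le]
      rintro z (⟨c, rfl⟩ | hz)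
      · exact Subfield.subset_closure (Or.inl c.2)
      · exact Subfield.subset_closure (Or.inr hz)
    exact h1 α.2
  · intro z hz
    have hz' : z ∈ IntermediateField.adjoin k T := IntermediateField.subset_adjoin k T hz
    have h1 : (⟨z, hz'⟩ : IntermediateField.adjoin k T) ∈ IntermediateField.adjoin k {α} := by
      rw [hα]
      exact IntermediateField.mem_top
    have h2 : IntermediateField.adjoin k {α} ≤
        IntermediateField.comap (IntermediateField.adjoin k T).val
          (IntermediateField.adjoin k {(α : ℂ)}) := by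
      rw [IntermediateField.adjoin_le_iff]
      rintro u hu
      rw [Set.mem_singleton_iff.1 hu]
      exact IntermediateField.subset_adjoin k _ rfl
    have h3 : z ∈ IntermediateField.adjoin k {(α : ℂ)} := h2 h1
    have h4 : (IntermediateField.adjoin k {(α : ℂ)}).toSubfield ≤ ad1 k (α : ℂ) := by
      rw [IntermediateField.adjoin_toSubfield]
      unfold ad1
      rw [Subfield.closure_le]
      rintro u (⟨c, rfl⟩ | hu)
      · exact Subfield.subset_closure (Or.inl c.2)
      · exact Subfield.subset_closure (Or.inr hu)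
    exact h4 h3
  · rw [algS_iff]
    have h1 : IsAlgebraic k α := Algebra.IsAlgebraic.isAlgebraic α
    exact h1.algebraMap

end Pool.Agent.J4H11.GQ
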