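import Pool.Agent.J4H11.GQ.W1
import Pool.Agent.J4H11.GN.FamA

/-!
# Common denominators
-/

set_option autoImplicit false
set_option linter.unusedSectionVars false

open Polynomial Pool.Agent.J4H11.RC Pool.Agent.J4H11.SC Pool.Agent.H901R3.MS WeierstrassCurve
  Pool.Agent.J4H11.GP Pool.Agent.J4H11.GN

namespace Pool.Agent.J4H11.GQ

section
variable {A : Type} [CommRing A] (ι : A →+* ℂ) (xn yn : ℂ)

theorem ev_C (c : A) : GN.ev ι xn yn (MvPolynomial.C c) = ι c := by simp [GN.ev]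

theorem ev_X0 : GN.ev ι xn yn (MvPolynomial.X 0) = xn := by simp [GN.ev]

theorem ev_X1 : GN.ev ι xn yn (MvPolynomial.X 1) = yn := by simp [GN.ev]

theorem adR_frac (z : ℂ) (hz : z ∈ adR (Subfield.closure (Set.range ι)) (xn, yn)) :
    ∃ u v : MvPolynomial (Fin 2) A, GN.ev ι xn yn v ≠ 0 ∧
      GN.ev ι xn yn u = GN.ev ι xn yn v * z := by
  have h1 : adR (Subfield.closure (Set.range ι)) (xn, yn) ≤
      Subfield.closure (Set.range (GN.ev ι xn yn)) := by
    apply adR_le
    · rw [Subfield.closure_le]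
      rintro _ ⟨c, rfl⟩
      exact Subfield.subset_closure ⟨MvPolynomial.C c, ev_C ι xn yn c⟩
    · exact Subfield.subset_closure ⟨MvPolynomial.X 0, ev_X0 ι xn yn⟩
    · exact Subfield.subset_closure ⟨MvPolynomial.X 1, ev_X1 ι xn yn⟩
  have h2 := h1 hz
  have h3 : Subring.closure (Set.range (GN.ev ι xn yn)) = (GN.ev ι xn yn).range := by
    rw [← RingHom.coe_range]
    exact Subring.closure_eq _
  rw [Subfield.mem_closure_iff, h3] at h2
  obtain ⟨_, ⟨u, rfl⟩, _, ⟨v, rfl⟩, rfl⟩ := h2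
  by_cases hv : GN.ev ι xn yn v = 0
  · refine ⟨0, 1, ?_, ?_⟩
    · rw [map_one]
      exact one_ne_zero
    · rw [hv, div_zero, mul_zero, map_zero]
  · exact ⟨u, v, hv, by rw [mul_div_cancel₀ _ hv]⟩

theorem common_den (g : ℂ[X]) (hgc : ∀ i, g.coeff i ∈ adR (Subfield.closure (Set.range ι))
    (xn, yn)) (n : ℕ) : ∃ c : MvPolynomial (Fin 2) A, GN.ev ι xn yn c ≠ 0 ∧ ∀ i < n,
      ∃ N : MvPolynomial (Fin 2) A, GN.ev ι xn yn N = GN.ev ι xn yn c * g.coeff i := by
  induction n with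
  | zero => exact ⟨1, by rw [map_one]; exact one_ne_zero, fun i hi => absurd hi (by omega)⟩
  | succ n ih =>
    obtain ⟨c, hc, h⟩ := ih
    obtain ⟨u, v, hv, huv⟩ := adR_frac ι xn yn _ (hgc n)
    refine ⟨c * v, ?_, fun i hi => ?_⟩
    · rw [map_mul]
      exact mul_ne_zero hc hv
    · by_cases hin : i = n
      · subst hin
        refine ⟨c * u, ?_⟩
        rw [map_mul, map_mul, huv]
        ring
      · obtain ⟨N, hN⟩ := h i (by omega)
        refine ⟨N * v, ?_⟩
        rw [map_mul, map_mul, hN]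
        ring

theorem make_phi (g : ℂ[X]) (hg : g.Monic) (hgc : ∀ i, g.coeff i ∈
    adR (Subfield.closure (Set.range ι)) (xn, yn)) :
    ∃ (c : MvPolynomial (Fin 2) A) (φ : (MvPolynomial (Fin 2) A)[X]), GN.ev ι xn yn c ≠ 0 ∧
      φ.Monic ∧ φ.natDegree = g.natDegree ∧
      φ.map (GN.ev ι xn yn) = g.scaleRoots (GN.ev ι xn yn c) := by
  obtain ⟨c, hc, h⟩ := common_den ι xn yn g hgc g.natDegree
  obtain ⟨φ, h1, h2, h3⟩ := lifts_and_natDegree_eq_and_monic (f := GN.ev ι xn yn)
    (p := g.scaleRoots (GN.ev ι xn yn c)) (by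
      rw [lifts_iff_coeff_lifts]
      intro i
      rw [coeff_scaleRoots]
      by_cases hi : i < g.natDegree
      · obtain ⟨N, hN⟩ := h i hi
        refine ⟨c ^ (g.natDegree - i - 1) * N, ?_⟩
        rw [map_mul, map_pow, hN]
        have e1 : g.natDegree - i = (g.natDegree - i - 1) + 1 := by omega
        conv_rhs => rw [e1, pow_succ]
        ring
      · by_cases hi' : i = g.natDegree
        · refine ⟨1, ?_⟩
          rw [hi', map_one, Nat.sub_self, pow_zero, mul_one]
          exact hg.symm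
        · refine ⟨0, ?_⟩
          rw [map_zero, coeff_eq_zero_of_natDegree_lt (by omega), zero_mul])
    ((monic_scaleRoots_iff _).2 hg)
  exact ⟨c, φ, hc, h3, by rw [h2, natDegree_scaleRoots], h1⟩

end

end Pool.Agent.J4H11.GQ
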