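import Pool.Agent.J4H11.GQ.W2
import Pool.Agent.J4H11.GQ.V5
import Pool.Agent.J4H11.GQ.V6

/-!
# Towers over number fields and the induction step
-/

set_option autoImplicit false
set_option linter.unusedSectionVars false

open Polynomial Pool.Agent.J4H11.RC Pool.Agent.J4H11.SC Pool.Agent.H901R3.MS WeierstrassCurve
  Pool.Agent.J4H11.GP Pool.Agent.J4H11.GN

namespace Pool.Agent.J4H11.GQ

/-- a tower of curves with the given coordinates of the generic points, whose field of functions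
is generated by `θ` -/
def Tw (a b : ℕ → ℤ) (t : ℕ) (x y : ℕ → ℂ) (θ : ℂ) : Prop :=
  ∃ (A : Type) (_ : CommRing A) (ι : A →+* ℂ) (Xf Yf : ℕ → A) (f0 : ℤ[X]), Function.Injective ι ∧
   (∀ j < t, ι (Xf j) = x j ∧ ι (Yf j) = y j) ∧ θ ∈ Subfield.closure (Set.range ι) ∧
   (∀ c, ι c ∈ ad1 (k0 x y t) θ) ∧ TwS a b t Xf Yf f0 ∧ Irreducible f0

theorem tw_base (a b : ℕ → ℤ) (x y : ℕ → ℂ) (θ : ℂ) (hθ : AlgS (k0 x y 0) θ) :
    Tw a b 0 x y θ := by
  have h1 : IsAlgebraic ℚ θ := by
    have hle : k0 x y 0 ≤ (algebraMap ℚ ℂ).fieldRange :=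
      k0_le x y 0 _ (fun j hj => absurd hj (by omega))
    obtain ⟨n, g, h1, h2, h3, h4⟩ := hθ
    obtain ⟨g0, hg0⟩ : ∃ g0 : ℚ[X], g0.map (algebraMap ℚ ℂ) = g := by
      have : g ∈ lifts (algebraMap ℚ ℂ) := by
        rw [lifts_iff_coeff_lifts]
        exact fun n => hle (h3 n)
      exact this
    refine ⟨g0, ?_, ?_⟩
    · rintro rfl
      rw [Polynomial.map_zero] at hg0
      exact h1.ne_zero hg0.symm
    · rw [← eval_map_algebraMap, hg0, h4]
  have h2 : IsAlgebraic ℤ θ := (IsFractionRing.isAlgebraic_iff ℤ ℚ ℂ).2 h1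
  obtain ⟨n, hn, hint⟩ := h2.exists_integral_multiple
  set f0 := minpoly ℤ (n • θ) with hf0
  have hm : f0.Monic := minpoly.monic hint
  have h0 : f0.eval₂ (algebraMap ℤ ℂ) (n • θ) = 0 := minpoly.aeval ℤ (n • θ)
  set ι : AdjoinRoot f0 →+* ℂ := AdjoinRoot.lift (algebraMap ℤ ℂ) (n • θ) h0 with hι
  have hιr : ι (AdjoinRoot.root f0) = n • θ := AdjoinRoot.lift_root h0
  have hinj : Function.Injective ι := by
    rw [injective_iff_map_eq_zero]
    intro z hz
    obtain ⟨f, rfl⟩ := AdjoinRoot.mk_surjective z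
    rw [hι, AdjoinRoot.lift_mk] at hz
    rw [AdjoinRoot.mk_eq_zero]
    exact minpoly.isIntegrallyClosed_dvd hint hz
  have hdom : IsDomain (AdjoinRoot f0) := hinj.isDomain _
  refine ⟨AdjoinRoot f0, inferInstance, ι, fun _ => 0, fun _ => 0, f0, hinj,
    fun j hj => absurd hj (by omega), ?_, ?_, tws_base a b f0 hm _ _,
    (minpoly.prime_of_isIntegrallyClosed hint).irreducible⟩
  · have h3 : n • θ ∈ Subfield.closure (Set.range ι) := Subfield.subset_closure ⟨_, hιr⟩
    have h4 : ((n : ℤ) : ℂ) ∈ Subfield.closure (Set.range ι) := intCast_mem _ _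
    have h5 : θ = (n • θ) / ((n : ℤ) : ℂ) := by
      have hnc : ((n : ℤ) : ℂ) ≠ 0 := by exact_mod_cast hn
      rw [zsmul_eq_mul, mul_div_cancel_left₀ _ hnc]
    rw [h5]
    exact Subfield.div_mem _ h3 h4
  · intro c
    obtain ⟨f, rfl⟩ := AdjoinRoot.mk_surjective c
    rw [hι, AdjoinRoot.lift_mk, eval₂_eq_sum_range]
    refine Subfield.sum_mem _ fun i _ => Subfield.mul_mem _ ?_ (Subfield.pow_mem _ ?_ _)
    · rw [eq_intCast]
      exact intCast_mem _ _
    · rw [zsmul_eq_mul]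
      exact Subfield.mul_mem _ (intCast_mem _ _) (ad1_θ _ _)

end Pool.Agent.J4H11.GQ

attribute [local instance 5000] Classical.propDecidable

namespace Pool.Agent.J4H11.GQ

section
variable {a b : ℕ → ℤ} (t : ℕ) (px py x y : ℕ → ℂ)

theorem k0_update (u v : ℂ) : k0 x y t ≤ k0 (Function.update x t u) (Function.update y t v) (t + 1) := by
  apply k0_le
  intro j hj
  have h1 := k0_x (Function.update x t u) (Function.update y t v) (t + 1) j (by exact Nat.lt_succ_of_lt hj)
  have h2 := k0_y (Function.update x t u) (Function.update y t v) (t + 1) j (by exact Nat.lt_succ_of_lt hj)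
  rw [Function.update_of_ne (Nat.ne_of_lt hj)] at h1 h2
  exact ⟨h1, h2⟩

theorem adR_update (R : ℂ × ℂ) : adR (k0 x y t) R ≤
    k0 (Function.update x t R.1) (Function.update y t R.2) (t + 1) := by
  apply adR_le
  · exact k0_update t x y _ _
  · have h1 := k0_x (Function.update x t R.1) (Function.update y t R.2) (t + 1) t (Nat.lt_succ_self t)
    rwa [Function.update_self] at h1
  · have h1 := k0_y (Function.update x t R.1) (Function.update y t R.2) (t + 1) t (Nat.lt_succ_self t)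
    rwa [Function.update_self] at h1

theorem tw_step (hDQ : Disc (a t : ℚ) (b t : ℚ)) (hnt : NT (a t) (b t))
    (hD : Disc (a t : ℂ) (b t : ℂ)) (hPR : k0 px py t ≤ k0 x y t) (hRS : k0 x y t ≤ Kb px py t)
    (R : Pt (a t : ℂ) (b t : ℂ)) (hR : NCr (Kb px py t).subtype R) (θ : ℂ)
    (hθ : AlgS (adR (Kb px py t) (crd R)) θ) (T : Set ℂ) (hTS : T ⊆ Kb px py t)
    (hTθ : T ⊆ ad1 (adR (k0 px py t) (crd R)) θ) (g : ℂ[X]) (hg : g.Monic)
    (hgd : g.natDegree = Dg (adR (Kb px py t) (crd R)) θ) (hg0 : g.eval θ = 0)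
    (hgc : ∀ i, g.coeff i ∈ adR (Subfield.closure ((k0 px py t : Set ℂ) ∪ T)) (crd R))
    (η : ℂ) (hη : η ∈ Subfield.closure ((k0 px py t : Set ℂ) ∪ T)) (hTη : T ⊆ ad1 (k0 px py t) η)
    (hmin : ∀ n, 1 ≤ n → ∀ R', n • R' = R → NCr (Kb px py t).subtype R' ∧
      adR (Kb px py t) (crd R) ≤ adR (Kb px py t) (crd R') ∧
      Dg (adR (Kb px py t) (crd R')) θ = Dg (adR (Kb px py t) (crd R)) θ)
    (hTw : Tw a b t x y η) :
    Tw a b (t + 1) (Function.update x t (crd R).1) (Function.update y t (crd R).2) θ := by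
  obtain ⟨A, _, ι, Xf, Yf, f0, hinj, hXY, hηA, hιη, hTwS, hf0⟩ := hTw
  have hcl : IsAlgClosed (Kb px py t) := kb_closed px py t
  have hdomA : IsDomain A := hinj.isDomain _
  set S := Kb px py t with hS
  set KA := Subfield.closure (Set.range ι) with hKA
  have hxyA : k0 x y t ≤ KA := by
    apply k0_le
    intro j hj
    exact ⟨Subfield.subset_closure ⟨Xf j, (hXY j hj).1⟩,
      Subfield.subset_closure ⟨Yf j, (hXY j hj).2⟩⟩
  have hpA : k0 px py t ≤ KA := hPR.trans hxyA
  have hFA : Subfield.closure ((k0 px py t : Set ℂ) ∪ T) ≤ KA := by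
    rw [Subfield.closure_le]
    rintro z (hz | hz)
    · exact hpA hz
    · exact ad1_le _ _ _ hpA hηA (hTη hz)
  have hFS : Subfield.closure ((k0 px py t : Set ℂ) ∪ T) ≤ S := by
    rw [Subfield.closure_le]
    rintro z (hz | hz)
    · exact k0_le_kb px py t hz
    · exact hTS hz
  have hιS : ∀ c, ι c ∈ S := fun c => ad1_le _ _ _ hRS (hFS hη) (hιη c)
  obtain ⟨c, φ, hc, hφ, hφd, hφm⟩ := make_phi ι (crd R).1 (crd R).2 g hg
    (fun i => adR_mono _ _ _ hFA (hgc i))
  set C0 := GN.ev ι (crd R).1 (crd R).2 c with hC0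
  have hC0A : C0 ∈ adR KA (crd R) := by
    have h1 : ∀ m : MvPolynomial (Fin 2) A, GN.ev ι (crd R).1 (crd R).2 m ∈ adR KA (crd R) := by
      intro m
      induction m using MvPolynomial.induction_on with
      | C c =>
        rw [ev_C]
        exact adR_S _ _ (Subfield.subset_closure ⟨c, rfl⟩)
      | add p q hp hq =>
        rw [map_add]
        exact Subfield.add_mem _ hp hq
      | mul_X p n hp =>
        rw [map_mul]
        refine Subfield.mul_mem _ hp ?_
        rcases fin2 n with rfl | rfl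
        · rw [ev_X0]
          exact adR_1 _ _
        · rw [ev_X1]
          exact adR_2 _ _
    exact h1 c
  have hKAS : KA ≤ S := by
    rw [hKA, Subfield.closure_le]
    rintro _ ⟨c, rfl⟩
    exact hιS c
  have hC0S : C0 ∈ adR S (crd R) := adR_mono _ _ _ hKAS hC0A
  have hw : (φ.map (GN.ev ι (crd R).1 (crd R).2)).eval (C0 * θ) = 0 := by
    rw [hφm, scaleRoots_eval_mul, hg0, mul_zero]
  obtain ⟨hsc1, hsc2⟩ := dg_scale C0 hC0S hc hθ
  have hPB := pbC S hnt hD ι hιS φ hφ R (C0 * θ) hsc1 hw (by rw [hφd, hgd, hsc2]) (by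
    intro n hn R' hR'
    obtain ⟨g1, g2, g3⟩ := hmin n hn R' hR'
    refine ⟨g1, g2, ?_⟩
    rw [hsc2, ← g3]
    exact (dg_scale C0 (g2 hC0S) hc (algS_mono g2 hθ)).2)
  have hxn : ∀ p : A[X], p.eval₂ ι (crd R).1 = 0 → p = 0 := by
    intro p hp
    set ι' : A →+* S := ι.codRestrict S hιS with hι'
    have h1 : (p.map ι').eval₂ S.subtype (crd R).1 = 0 := by
      rw [eval₂_map]
      exact hp
    have h2 := hR.2 _ h1
    have hι'inj : Function.Injective ι' := fun u v huv => hinj (congrArg Subtype.val huv)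
    exact (Polynomial.map_eq_zero_iff hι'inj).1 h2
  have hyn := crd_eqn' R hR.1
  obtain ⟨hinj', hTwS'⟩ := tws_step φ ι hinj hTwS hDQ hnt hD hφ (fun n hn => by
    refine (congrArg (fun R => Irreducible (φ.map
      (GN.ev ((algebraMap ℂ (FFd (a t : ℂ) (b t : ℂ))).comp ι) (crd R).1
        (crd R).2))) ?_).mp (hPB n hn)
    exact nsmul_inst _ _ _ n (Rg hD)) (crd R).1 (crd R).2 (C0 * θ) hxn hyn hw
  set ι1 := homT (a t) (b t) φ ι (crd R).1 (crd R).2 (C0 * θ) hyn hw with hι1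
  have e1 : ∀ c, ι1 (iT (a t) (b t) φ c) = ι c := fun c =>
    DFunLike.congr_fun (homT_i (a t) (b t) φ ι (crd R).1 (crd R).2 (C0 * θ) hyn hw) c
  have e2 : ι1 (xT (a t) (b t) φ) = (crd R).1 := homT_x (a t) (b t) φ ι _ _ _ hyn hw
  have e3 : ι1 (yT (a t) (b t) φ) = (crd R).2 := homT_y (a t) (b t) φ ι _ _ _ hyn hw
  have e4 : ι1 (wT (a t) (b t) φ) = C0 * θ := homT_w (a t) (b t) φ ι _ _ _ hyn hw
  refine ⟨AT (a t) (b t) φ, inferInstance, ι1, XT a b t φ Xf, YT a b t φ Yf, f0, hinj', ?_, ?_, ?_,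
    hTwS', hf0⟩
  · intro j hj
    rcases Nat.lt_succ_iff_lt_or_eq.1 hj with h | rfl
    · rw [XT_lt a b t φ Xf j h, YT_lt a b t φ Yf j h, e1, e1,
        Function.update_of_ne (Nat.ne_of_lt h), Function.update_of_ne (Nat.ne_of_lt h)]
      exact hXY j h
    · rw [XT_t, YT_t, e2, e3, Function.update_self, Function.update_self]
      exact ⟨rfl, rfl⟩
  · have hKA1 : KA ≤ Subfield.closure (Set.range ι1) := by
      rw [hKA, Subfield.closure_le]
      rintro _ ⟨c, rfl⟩
      exact Subfield.subset_closure ⟨_, e1 c⟩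
    have h1 : C0 ∈ Subfield.closure (Set.range ι1) :=
      adR_le _ _ _ hKA1 (Subfield.subset_closure ⟨_, e2⟩) (Subfield.subset_closure ⟨_, e3⟩) hC0A
    have h2 : C0 * θ ∈ Subfield.closure (Set.range ι1) := Subfield.subset_closure ⟨_, e4⟩
    have h3 : θ = (C0 * θ) / C0 := by rw [mul_div_cancel_left₀ _ hc]
    rw [h3]
    exact Subfield.div_mem _ h2 h1
  · set F := ad1 (k0 (Function.update x t (crd R).1) (Function.update y t (crd R).2) (t + 1)) θ
      with hF
    have g1 : k0 x y t ≤ F := (k0_update t x y _ _).trans (ad1_S _ _)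
    have g2 : (crd R).1 ∈ F := ad1_S _ _ (adR_update t x y (crd R) (adR_1 _ _))
    have g3 : (crd R).2 ∈ F := ad1_S _ _ (adR_update t x y (crd R) (adR_2 _ _))
    have g4 : θ ∈ F := ad1_θ _ _
    have g5 : Subfield.closure ((k0 px py t : Set ℂ) ∪ T) ≤ F := by
      rw [Subfield.closure_le]
      rintro z (hz | hz)
      · exact g1 (hPR hz)
      · exact ad1_le _ _ _ (adR_le _ _ _ (hPR.trans g1) g2 g3) g4 (hTθ hz)
    have g6 : ∀ c, ι c ∈ F := fun c => ad1_le _ _ _ g1 (g5 hη) (hιη c)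
    have g7 : KA ≤ F := by
      rw [hKA, Subfield.closure_le]
      rintro _ ⟨c, rfl⟩
      exact g6 c
    have g8 : C0 ∈ F := adR_le _ _ _ g7 g2 g3 hC0A
    have hcl2 := at_dense (G := Set.univ) φ (by
      rw [eq_top_iff]
      intro z _
      exact Subring.subset_closure (Set.mem_univ z)) (a t) (b t)
    have h1 : Subring.closure (iT (a t) (b t) φ '' Set.univ ∪
        {xT (a t) (b t) φ, yT (a t) (b t) φ, wT (a t) (b t) φ}) ≤ F.toSubring.comap ι1 := by
      rw [Subring.closure_le]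
      rintro _ (⟨c, -, rfl⟩ | rfl | rfl | rfl)
      · change ι1 _ ∈ F
        rw [e1]
        exact g6 c
      · change ι1 _ ∈ F
        rw [e2]
        exact g2
      · change ι1 _ ∈ F
        rw [e3]
        exact g3
      · change ι1 _ ∈ F
        rw [e4]
        exact F.mul_mem g8 g4
    rw [hcl2] at h1
    exact fun c => h1 (Subring.mem_top c)

end

end Pool.Agent.J4H11.GQ
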