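import Pool.Agent.J4H11.GQ.W3

/-!
# The choice of the divisions of the generic points
-/

set_option autoImplicit false
set_option linter.unusedSectionVars false

open Polynomial Pool.Agent.J4H11.RC Pool.Agent.J4H11.SC Pool.Agent.H901R3.MS WeierstrassCurve
  Pool.Agent.J4H11.GP Pool.Agent.J4H11.GN

namespace Pool.Agent.J4H11.GQ

theorem lt_succ_cases {j t : ℕ} (h : j < t + 1) : j < t ∨ j = t := by omega

end Pool.Agent.J4H11.GQ

attribute [local instance 5000] Classical.propDecidable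

namespace Pool.Agent.J4H11.GQ

section
variable {a b : ℤ}

theorem lift_pt (K' : Subfield ℂ) (hD : Disc (a : ℂ) (b : ℂ)) (R : Pt (a : ℂ) (b : ℂ))
    (h1 : (crd R).1 ∈ K') (h2 : (crd R).2 ∈ K') :
    ∃ R' : Pt (a : K') (b : K'), pm K'.subtype hD R' = R := by
  by_cases hR : R = 0
  · exact ⟨0, by rw [map_zero, hR]⟩
  · have hDS := disc_sub K' hD
    have hE : (⟨(crd R).2, h2⟩ : K') ^ 2 = ⟨(crd R).1, h1⟩ ^ 3 + (a : K') * ⟨(crd R).1, h1⟩ +
        (b : K') := by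
      apply Subtype.ext
      push_cast
      exact crd_eqn' R hR
    refine ⟨Affine.Point.some _ _ ((nonsingular_iff hDS).2 hE), ?_⟩
    refine pt_ext (pm_ne _ _ (some_ne _)) hR ?_
    rw [pm_crd]
    rfl

theorem crd_field (K' : Subfield ℂ) (hD : Disc (a : ℂ) (b : ℂ)) (R : Pt (a : ℂ) (b : ℂ))
    (h1 : (crd R).1 ∈ K') (h2 : (crd R).2 ∈ K') (m : ℕ) (R0 : Pt (a : ℚ) (b : ℚ)) :
    (crd (m • R + pm (Rat.castHom ℂ) hD R0)).1 ∈ K' ∧
      (crd (m • R + pm (Rat.castHom ℂ) hD R0)).2 ∈ K' := by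
  obtain ⟨R', hR'⟩ := lift_pt K' hD R h1 h2
  obtain ⟨c, hc⟩ : ∃ c : Pt (a : K') (b : K'), pm K'.subtype hD c =
      pm (Rat.castHom ℂ) hD R0 := by
    refine ⟨pm (Rat.castHom K') (disc_sub K' hD) R0, ?_⟩
    rw [pm_comp]
    congr 1
  have h3 : m • R + pm (Rat.castHom ℂ) hD R0 = pm K'.subtype hD (m • R' + c) := by
    rw [map_add, map_nsmul, hR', hc]
  rw [h3, pm_crd]
  exact ⟨Subtype.property _, Subtype.property _⟩

theorem crd_div (S : Subfield ℂ) [IsAlgClosed S] (hnt : NT a b) (hD : Disc (a : ℂ) (b : ℂ))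
    (P R : Pt (a : ℂ) (b : ℂ)) (h1 : (crd P).1 ∈ S) (h2 : (crd P).2 ∈ S) (m : ℕ) (hm : 1 ≤ m)
    (R0 : Pt (a : ℚ) (b : ℚ)) (h : m • R + pm (Rat.castHom ℂ) hD R0 = P) :
    (crd R).1 ∈ S ∧ (crd R).2 ∈ S := by
  obtain ⟨P', hP'⟩ := lift_pt S hD P h1 h2
  obtain ⟨c, hc⟩ := pm_rat S hD R0
  obtain ⟨t, ht⟩ := const_of_mul S hnt hD R m hm (P' - c) (by
    rw [map_sub, hP', hc, ← h, add_sub_cancel_right])
  rw [← ht, pm_crd]
  exact ⟨Subtype.property _, Subtype.property _⟩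

end

section
variable {a b : ℕ → ℤ}

theorem k0_succ (px py : ℕ → ℂ) (t : ℕ) (S : Subfield ℂ) (h : k0 px py t ≤ S) (h1 : px t ∈ S)
    (h2 : py t ∈ S) : k0 px py (t + 1) ≤ S := by
  apply k0_le
  intro j hj
  rcases lt_succ_cases hj with hj | rfl
  · exact ⟨h (k0_x px py t j hj), h (k0_y px py t j hj)⟩
  · exact ⟨h1, h2⟩

/-- the first coordinates -/
noncomputable def cx {F : Type} [Field F] (P : (j : ℕ) → Pt (a j : F) (b j : F)) (j : ℕ) : F :=
  (crd (P j)).1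

/-- the second coordinates -/
noncomputable def cy {F : Type} [Field F] (P : (j : ℕ) → Pt (a j : F) (b j : F)) (j : ℕ) : F :=
  (crd (P j)).2

theorem cx_update {F : Type} [Field F] (P : (j : ℕ) → Pt (a j : F) (b j : F)) (t : ℕ)
    (R : Pt (a t : F) (b t : F)) :
    cx (Function.update P t R) = Function.update (cx P) t (crd R).1 := by
  funext j
  unfold cx
  by_cases hj : j = t
  · subst hj
    rw [Function.update_self, Function.update_self]
  · rw [Function.update_of_ne hj, Function.update_of_ne hj]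

theorem cy_update {F : Type} [Field F] (P : (j : ℕ) → Pt (a j : F) (b j : F)) (t : ℕ)
    (R : Pt (a t : F) (b t : F)) :
    cy (Function.update P t R) = Function.update (cy P) t (crd R).2 := by
  funext j
  unfold cy
  by_cases hj : j = t
  · subst hj
    rw [Function.update_self, Function.update_self]
  · rw [Function.update_of_ne hj, Function.update_of_ne hj]

variable (hDQ : ∀ j, Disc (a j : ℚ) (b j : ℚ)) (hnt : ∀ j, NT (a j) (b j))
  (hD : ∀ j, Disc (a j : ℂ) (b j : ℂ))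
  (hmw : ∀ j, ∀ m : ℕ, 1 ≤ m → ∃ 𝒯 : Set (Pt (a j : ℚ) (b j : ℚ)), 𝒯.Finite ∧
    ∀ Q, ∃ R0 ∈ 𝒯, ∃ Q', m • Q' + R0 = Q)
  (P : (j : ℕ) → Pt (a j : ℂ) (b j : ℂ)) (r : ℕ)
  (hP : ∀ j < r, NCr (Kb (cx P) (cy P) j).subtype (P j))

include hDQ hnt hmw hP in
theorem tlemma (t : ℕ) : t ≤ r → ∀ Θ : Set ℂ, Θ.Finite → (∀ θ ∈ Θ, AlgS (k0 (cx P) (cy P) t) θ) →
    ∃ 𝒮 : Set (((j : ℕ) → ℕ) × ((j : ℕ) → Pt (a j : ℚ) (b j : ℚ))), 𝒮.Finite ∧
      (∀ s ∈ 𝒮, ∀ j < t, 1 ≤ s.1 j) ∧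
      (∀ Q : (j : ℕ) → Pt (a j : ℚ) (b j : ℚ), ∃ s ∈ 𝒮, ∀ j < t, ∃ Q', s.1 j • Q' + s.2 j = Q j) ∧
      ∀ s ∈ 𝒮, ∃ R : (j : ℕ) → Pt (a j : ℂ) (b j : ℂ),
        (∀ j < t, R j ≠ 0 ∧ s.1 j • R j + pm (Rat.castHom ℂ) (hD j) (s.2 j) = P j) ∧
        ∀ θ ∈ Θ, Tw a b t (cx R) (cy R) θ := by
  induction t with
  | zero =>
    intro _ Θ hΘ hΘa
    refine ⟨{(fun _ => 1, fun _ => 0)}, Set.finite_singleton _, fun s _ j hj => ?_, fun Q => ?_,
      fun s _ => ?_⟩
    · exact absurd hj (Nat.not_lt_zero j)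
    · exact ⟨_, rfl, fun j hj => absurd hj (Nat.not_lt_zero j)⟩
    · refine ⟨P, fun j hj => absurd hj (Nat.not_lt_zero j), fun θ hθ => ?_⟩
      exact tw_base a b _ _ θ (hΘa θ hθ)
  | succ t ih =>
    intro ht Θ hΘ hΘa
    have htr : t < r := ht
    set px := cx P with hpx
    set py := cy P with hpy
    have hcl : IsAlgClosed (Kb px py t) := kb_closed px py t
    have hPt := hP t htr
    obtain ⟨N, f, hf⟩ := hΘ.fin_embedding
    have hk1 : k0 px py (t + 1) ≤ adR (Kb px py t) (crd (P t)) :=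
      k0_succ px py t _ ((k0_le_kb px py t).trans (adR_S _ _)) (adR_1 _ _) (adR_2 _ _)
    have hfa : ∀ i, f i ∈ Θ := by
      intro i
      rw [← hf]
      exact ⟨i, rfl⟩
    obtain ⟨m, hm, hmain⟩ := exists_m (Kb px py t) (hnt t) (hD t) (P t) hPt (fun i => f i)
      (fun i => algS_mono hk1 (hΘa _ (hfa i)))
    obtain ⟨𝒯, h𝒯f, h𝒯⟩ := hmw t m hm
    have hdv : ∀ R0 : Pt (a t : ℚ) (b t : ℚ), ∃ R : Pt (a t : ℂ) (b t : ℂ),
        m • R + pm (Rat.castHom ℂ) (hD t) R0 = P t := by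
      intro R0
      obtain ⟨R, hR⟩ := div_pt (hnt t) (hD t) m hm (P t - pm (Rat.castHom ℂ) (hD t) R0)
      exact ⟨R, by rw [hR, sub_add_cancel]⟩
    choose RR hRR using hdv
    have hex : ∀ (θ : ℂ) (R0 : Pt (a t : ℚ) (b t : ℚ)), ∃ η : ℂ, θ ∈ Θ →
        AlgS (k0 px py t) η ∧ ∀ x y : ℕ → ℂ, k0 px py t ≤ k0 x y t → k0 x y t ≤ Kb px py t →
          Tw a b t x y η → Tw a b (t + 1) (Function.update x t (crd (RR R0)).1)
            (Function.update y t (crd (RR R0)).2) θ := by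
      intro θ R0
      by_cases hθ : θ ∈ Θ
      swap
      · exact ⟨0, fun h => absurd h hθ⟩
      obtain ⟨i, hi⟩ : ∃ i, f i = θ := by
        rw [← hf] at hθ
        exact hθ
      obtain ⟨g1, g2, g3⟩ := hmain R0 (RR R0) (hRR R0)
      have hk2 : k0 px py (t + 1) ≤ adR (k0 px py t) (crd (RR R0)) := by
        have h1 := crd_field (adR (k0 px py t) (crd (RR R0))) (hD t) (RR R0) (adR_1 _ _)
          (adR_2 _ _) m R0
        rw [hRR R0] at h1
        exact k0_succ px py t _ (adR_S _ _) h1.1 h1.2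
      obtain ⟨T, hTf, hTS, hTθ, g, hg, hgd, hg0, hgc⟩ := consts (k0 px py t) (Kb px py t)
        (k0_le_kb px py t) (kb_mem px py t) (hD t) (RR R0) g1 θ (algS_mono hk2 (hΘa θ hθ))
      obtain ⟨η, hη1, hη2, hη3⟩ := prim (k0 px py t) T hTf (fun z hz =>
        (kb_mem px py t z).1 (hTS hz))
      refine ⟨η, fun _ => ⟨hη3, fun x y hPR hRS hTw => ?_⟩⟩
      refine tw_step t px py x y (hDQ t) (hnt t) (hD t) hPR hRS (RR R0) g1 θ
        (algS_mono g2 (algS_mono hk1 (hΘa θ hθ))) T hTS hTθ g hg hgd hg0 hgc η hη1 hη2 ?_ hTw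
      intro n hn R' hR'
      obtain ⟨e1, e2, e3⟩ := g3 n hn R' hR'
      refine ⟨e1, e2, ?_⟩
      have := e3 i
      rwa [hi] at this
    choose η hη using hex
    obtain ⟨𝒮, h𝒮f, h𝒮1, h𝒮2, h𝒮3⟩ := ih (Nat.le_of_succ_le ht)
      (Set.image2 η Θ 𝒯) (hΘ.image2 _ h𝒯f) (by
        rintro z ⟨θ, hθ, R0, hR0, rfl⟩
        exact (hη θ R0 hθ).1)
    refine ⟨Set.image2 (fun s R0 => (Function.update s.1 t m, Function.update s.2 t R0)) 𝒮 𝒯,
      h𝒮f.image2 _ h𝒯f, ?_, ?_, ?_⟩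
    · rintro _ ⟨s, hs, R0, hR0, rfl⟩ j hj
      rcases lt_succ_cases hj with h | rfl
      · change 1 ≤ Function.update s.1 t m j
        rw [Function.update_of_ne (Nat.ne_of_lt h)]
        exact h𝒮1 s hs j h
      · change 1 ≤ Function.update s.1 j m j
        rw [Function.update_self]
        exact hm
    · intro Q
      obtain ⟨s, hs, hsQ⟩ := h𝒮2 Q
      obtain ⟨R0, hR0, Q', hQ'⟩ := h𝒯 (Q t)
      refine ⟨_, ⟨s, hs, R0, hR0, rfl⟩, fun j hj => ?_⟩
      rcases lt_succ_cases hj with h | rfl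
      · change ∃ Q', Function.update s.1 t m j • Q' + Function.update s.2 t R0 j = Q j
        rw [Function.update_of_ne (Nat.ne_of_lt h), Function.update_of_ne (Nat.ne_of_lt h)]
        exact hsQ j h
      · change ∃ Q', Function.update s.1 j m j • Q' + Function.update s.2 j R0 j = Q j
        rw [Function.update_self, Function.update_self]
        exact ⟨Q', hQ'⟩
    · rintro _ ⟨s, hs, R0, hR0, rfl⟩
      obtain ⟨R, hR1, hR2⟩ := h𝒮3 s hs
      refine ⟨Function.update R t (RR R0), fun j hj => ?_, fun θ hθ => ?_⟩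
      · rcases lt_succ_cases hj with h | rfl
        · change Function.update R t (RR R0) j ≠ 0 ∧ Function.update s.1 t m j •
            Function.update R t (RR R0) j + pm (Rat.castHom ℂ) (hD j)
              (Function.update s.2 t R0 j) = P j
          rw [Function.update_of_ne (Nat.ne_of_lt h), Function.update_of_ne (Nat.ne_of_lt h),
            Function.update_of_ne (Nat.ne_of_lt h)]
          exact hR1 j h
        · change Function.update R j (RR R0) j ≠ 0 ∧ Function.update s.1 j m j •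
            Function.update R j (RR R0) j + pm (Rat.castHom ℂ) (hD j)
              (Function.update s.2 j R0 j) = P j
          rw [Function.update_self, Function.update_self, Function.update_self]
          exact ⟨(hmain R0 (RR R0) (hRR R0)).1.1, hRR R0⟩
      · rw [cx_update, cy_update]
        refine (hη θ R0 hθ).2 (cx R) (cy R) ?_ ?_ (hR2 _ ⟨θ, hθ, R0, hR0, rfl⟩)
        · apply k0_le
          intro j hj
          obtain ⟨-, h1⟩ := hR1 j hj
          have h2 := crd_field (k0 (cx R) (cy R) t) (hD j) (R j) (k0_x _ _ t j hj)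
            (k0_y _ _ t j hj) (s.1 j) (s.2 j)
          rw [h1] at h2
          exact h2
        · apply k0_le
          intro j hj
          obtain ⟨-, h1⟩ := hR1 j hj
          exact crd_div (Kb px py t) (hnt j) (hD j) (P j) (R j)
            (k0_le_kb px py t (k0_x px py t j hj)) (k0_le_kb px py t (k0_y px py t j hj))
            (s.1 j) (h𝒮1 s hs j hj) (s.2 j) h1

end

end Pool.Agent.J4H11.GQ
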