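import Mathlib

/-!
# Two homomorphisms from two embeddings into a field of fractions
-/

set_option autoImplicit false

open Polynomial

namespace Pool.Agent.J4H11.GQ

section
variable {A1 A2 K : Type} [CommRing A1] [CommRing A2] [IsDomain A2] [Field K] (ι : A2 →+* K)

omit [IsDomain A2] in
theorem frac_mem (z : K) (hz : z ∈ Subfield.closure (Set.range ι)) :
    ∃ u v : A2, ι v ≠ 0 ∧ ι u = ι v * z := by
  have h3 : Subring.closure (Set.range ι) = ι.range := by
    rw [← RingHom.coe_range]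
    exact Subring.closure_eq _
  rw [Subfield.mem_closure_iff, h3] at hz
  obtain ⟨_, ⟨u, rfl⟩, _, ⟨v, rfl⟩, rfl⟩ := hz
  by_cases hv : ι v = 0
  · refine ⟨0, 1, ?_, ?_⟩
    · rw [map_one]
      exact one_ne_zero
    · rw [hv, div_zero, mul_zero, map_zero]
  · exact ⟨u, v, hv, by rw [mul_div_cancel₀ _ hv]⟩

theorem den_set (Z : Set K) (hZ : Z.Finite) (hmem : ∀ z ∈ Z, z ∈ Subfield.closure (Set.range ι)) :
    ∃ s : A2, ι s ≠ 0 ∧ ∀ z ∈ Z, ∃ u, ι u = ι s * z := by
  induction Z, hZ using Set.Finite.induction_on with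
  | empty => exact ⟨1, by rw [map_one]; exact one_ne_zero, fun z hz => absurd hz (by simp)⟩
  | insert ha hs ih =>
    obtain ⟨s, hs0, hs1⟩ := ih (fun z hz => hmem z (Set.mem_insert_of_mem _ hz))
    obtain ⟨u, v, hv, huv⟩ := frac_mem ι _ (hmem _ (Set.mem_insert _ _))
    refine ⟨s * v, ?_, fun z hz => ?_⟩
    · rw [map_mul]
      exact mul_ne_zero hs0 hv
    · rcases Set.mem_insert_iff.1 hz with rfl | hz
      · refine ⟨s * u, ?_⟩
        rw [map_mul, map_mul, huv]
        ring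
      · obtain ⟨u', hu'⟩ := hs1 z hz
        refine ⟨u' * v, ?_⟩
        rw [map_mul, map_mul, hu']
        ring

theorem two_homs (hι : Function.Injective ι) (g1 g2 : A1 →+* K) (hne : g1 ≠ g2) (G : Set A1)
    (hG : G.Finite) (hcl : Subring.closure G = ⊤)
    (hg1 : ∀ c, g1 c ∈ Subfield.closure (Set.range ι))
    (hg2 : ∀ c, g2 c ∈ Subfield.closure (Set.range ι)) :
    ∃ s : A2, s ≠ 0 ∧ ∀ (F : Type) [Field F] (ψ : A2 →+* F), ψ s ≠ 0 →
      ∃ ψ1 ψ2 : A1 →+* F, ψ1 ≠ ψ2 ∧ (∀ c c', g1 c = ι c' → ψ1 c = ψ c') ∧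
        ∀ c c', g2 c = ι c' → ψ2 c = ψ c' := by
  obtain ⟨s, hs, hsZ⟩ := den_set ι (g1 '' G ∪ g2 '' G) ((hG.image _).union (hG.image _)) (by
    rintro _ (⟨c, -, rfl⟩ | ⟨c, -, rfl⟩)
    · exact hg1 c
    · exact hg2 c)
  let D := Localization.Away s
  have hsu : IsUnit (ι s) := isUnit_iff_ne_zero.2 hs
  let j : D →+* K := IsLocalization.Away.lift s hsu
  have hjc : ∀ c, j (algebraMap A2 D c) = ι c := fun c => IsLocalization.Away.lift_eq s hsu c
  have hs0 : s ≠ 0 := by
    rintro rfl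
    exact hs (map_zero _)
  have hsD : IsUnit (algebraMap A2 D s) := IsLocalization.Away.algebraMap_isUnit s
  have hjinj : Function.Injective j := by
    rw [injective_iff_map_eq_zero]
    intro z hz
    obtain ⟨n, u, hu⟩ := IsLocalization.Away.surj s z
    have h1 := congrArg j hu
    rw [map_mul, hz, zero_mul, hjc] at h1
    have h2 : u = 0 := hι (by rw [← h1, map_zero])
    rw [h2, map_zero] at hu
    exact (hsD.pow n).mul_left_eq_zero.1 hu |> id
  have hfac : ∀ g : A1 →+* K, (∀ γ ∈ G, ∃ u, ι u = ι s * g γ) →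
      ∃ h : A1 →+* D, ∀ c, j (h c) = g c := by
    intro g hg
    have hr : ∀ c, g c ∈ j.range := by
      have h1 : Subring.closure G ≤ j.range.comap g := by
        rw [Subring.closure_le]
        intro γ hγ
        obtain ⟨u, hu⟩ := hg γ hγ
        obtain ⟨v, hv⟩ := hsD
        refine ⟨algebraMap A2 D u * ((v⁻¹ : Dˣ) : D), ?_⟩
        have h2 : j ((v⁻¹ : Dˣ) : D) * ι s = 1 := by
          rw [← hjc s, ← hv, ← map_mul, Units.inv_mul, map_one]
        rw [map_mul, hjc, hu]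
        linear_combination (g γ) * h2
      intro c
      have h2 : c ∈ Subring.closure G := by
        rw [hcl]
        trivial
      exact h1 h2
    choose h hh using hr
    exact ⟨{ toFun := h
             map_one' := hjinj (by rw [hh, map_one, map_one])
             map_mul' := fun x y => hjinj (by rw [hh, map_mul, map_mul, hh, hh])
             map_zero' := hjinj (by rw [hh, map_zero, map_zero])
             map_add' := fun x y => hjinj (by rw [hh, map_add, map_add, hh, hh]) }, hh⟩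
  obtain ⟨h1, hh1⟩ := hfac g1 (fun γ hγ => hsZ _ (Or.inl ⟨γ, hγ, rfl⟩))
  obtain ⟨h2, hh2⟩ := hfac g2 (fun γ hγ => hsZ _ (Or.inr ⟨γ, hγ, rfl⟩))
  obtain ⟨c0, hc0⟩ : ∃ c0, h1 c0 - h2 c0 ≠ 0 := by
    by_contra hcon
    push Not at hcon
    apply hne
    refine RingHom.ext fun c => ?_
    rw [← hh1, ← hh2, sub_eq_zero.1 (hcon c)]
  obtain ⟨n, u, hu⟩ := IsLocalization.Away.surj s (h1 c0 - h2 c0)
  have hu0 : u ≠ 0 := by
    rintro rfl
    rw [map_zero] at hu
    apply hc0
    exact (hsD.pow n).mul_left_eq_zero.1 hu |> id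
  refine ⟨s * u, mul_ne_zero hs0 hu0, fun F _ ψ hψ => ?_⟩
  rw [map_mul] at hψ
  have hψs : ψ s ≠ 0 := left_ne_zero_of_mul hψ
  have hψu : ψ u ≠ 0 := right_ne_zero_of_mul hψ
  let ψD : D →+* F := IsLocalization.Away.lift s (isUnit_iff_ne_zero.2 hψs)
  have hψD : ∀ c, ψD (algebraMap A2 D c) = ψ c := fun c =>
    IsLocalization.Away.lift_eq s (isUnit_iff_ne_zero.2 hψs) c
  refine ⟨ψD.comp h1, ψD.comp h2, ?_, ?_, ?_⟩
  · intro h
    apply hψu
    have h3 := DFunLike.congr_fun h c0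
    have h4 : ψD (h1 c0 - h2 c0) = 0 := by
      rw [map_sub]
      exact sub_eq_zero.2 h3
    rw [← hψD, ← hu, map_mul, h4, zero_mul]
  · intro c c' h
    have h3 : h1 c = algebraMap A2 D c' := hjinj (by rw [hh1, hjc, h])
    change ψD (h1 c) = _
    rw [h3, hψD]
  · intro c c' h
    have h3 : h2 c = algebraMap A2 D c' := hjinj (by rw [hh2, hjc, h])
    change ψD (h2 c) = _
    rw [h3, hψD]

end

end Pool.Agent.J4H11.GQ
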