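import Pool.Agent.J4H11.GQ.V1

/-!
# The points with a homomorphism: combinatorics
-/

set_option autoImplicit false

open Polynomial Finset Pool.Agent.J4H11.RC Pool.Agent.J4H11.SC Pool.Agent.H901R3.MS
  WeierstrassCurve Pool.Agent.J4H11.GN

namespace Pool.Agent.J4H11.GQ

theorem comb {Ω1 Ω2 Q : Type} [DecidableEq Ω1] [DecidableEq Ω2] [DecidableEq Q]
    (U1 : Finset Ω1) (U2 Bad : Finset Ω2) (π1 : Ω1 → Q) (π2 : Ω2 → Q) (B0 : ℕ)
    (hB : ∀ q, (U2.filter (fun ψ => π2 ψ = q)).card ≤ B0)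
    (hpair : ∀ ψ ∈ U2, ψ ∉ Bad → 2 ≤ (U1.filter (fun ψ1 => π1 ψ1 = π2 ψ)).card) :
    U2.card + B0 * (U1.image π1).card ≤ B0 * U1.card + Bad.card := by
  set J := (U2 \ Bad).image π2 with hJ
  have h1 : (U2 \ Bad).card ≤ B0 * J.card := by
    refine Finset.card_le_mul_card_image (s := U2 \ Bad) (f := π2) B0 (fun q _ => ?_)
    refine le_trans (card_le_card ?_) (hB q)
    intro ψ hψ
    rw [mem_filter, mem_sdiff] at hψ
    rw [mem_filter]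
    exact ⟨hψ.1.1, hψ.2⟩
  have hJ1 : J ⊆ U1.image π1 := by
    intro q hq
    rw [hJ, mem_image] at hq
    obtain ⟨ψ, hψ, rfl⟩ := hq
    rw [mem_sdiff] at hψ
    have h2 := hpair ψ hψ.1 hψ.2
    have h3 : (U1.filter (fun ψ1 => π1 ψ1 = π2 ψ)).Nonempty := by
      rw [← card_pos]
      omega
    obtain ⟨ψ1, hψ1⟩ := h3
    rw [mem_filter] at hψ1
    exact mem_image.2 ⟨ψ1, hψ1.1, hψ1.2⟩
  have h2 : (U1.image π1).card + J.card ≤ U1.card := by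
    rw [card_eq_sum_card_image π1 U1]
    have h3 : (U1.image π1).card + J.card =
        ∑ q ∈ U1.image π1, (1 + if q ∈ J then 1 else 0) := by
      rw [sum_add_distrib, sum_const, smul_eq_mul, mul_one, ← sum_filter, sum_const, smul_eq_mul,
        mul_one]
      congr 2
      ext q
      rw [mem_filter]
      exact ⟨fun h => ⟨hJ1 h, h⟩, fun h => h.2⟩
    rw [h3]
    refine sum_le_sum fun q hq => ?_
    by_cases hqJ : q ∈ J
    · rw [if_pos hqJ]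
      rw [hJ, mem_image] at hqJ
      obtain ⟨ψ, hψ, rfl⟩ := hqJ
      rw [mem_sdiff] at hψ
      exact hpair ψ hψ.1 hψ.2
    · rw [if_neg hqJ, add_zero, Nat.one_le_iff_ne_zero, ← Nat.pos_iff_ne_zero, card_pos]
      rw [mem_image] at hq
      obtain ⟨ψ1, h4, h5⟩ := hq
      exact ⟨ψ1, mem_filter.2 ⟨h4, h5⟩⟩
  have h3 : U2.card ≤ (U2 \ Bad).card + Bad.card := by
    have := card_sdiff_add_card U2 Bad
    have h4 : U2.card ≤ (U2 ∪ Bad).card := card_le_card subset_union_left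
    omega
  have h4 : B0 * ((U1.image π1).card + J.card) ≤ B0 * U1.card := Nat.mul_le_mul_left _ h2
  rw [mul_add] at h4
  omega

section
variable {r : ℕ} {A F : Type} [CommRing A] [Field F]

theorem pt_uniq {a' b' : F} {P Q : Pt a' b'} (hP : P ≠ 0) (hQ : Q ≠ 0) (h : crd P = crd Q) :
    P = Q := by
  rcases P with _ | ⟨x, y, h1⟩
  · exact absurd rfl hP
  · rcases Q with _ | ⟨x', y', h2⟩
    · exact absurd rfl hQ
    · have h3 : (x, y) = (x', y') := h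
      obtain ⟨rfl, rfl⟩ := Prod.mk.inj h3
      rfl

/-- the homomorphisms above a point -/
def Ab {a b : Fin r → ℤ} (X Y : Fin r → A) (Q : (j : Fin r) → Pt (a j : F) (b j : F)) :
    Set (A →+* F) := {ψ | ∀ j, Q j ≠ 0 ∧ crd (Q j) = (ψ (X j), ψ (Y j))}

open Classical in
/-- the point below a homomorphism -/
noncomputable def ptOf (a b : Fin r → ℤ) (X Y : Fin r → A) (ψ : A →+* F) :
    (j : Fin r) → Pt (a j : F) (b j : F) := fun j =>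
  if h : ∃ Q : Pt (a j : F) (b j : F), Q ≠ 0 ∧ crd Q = (ψ (X j), ψ (Y j)) then h.choose else 0

theorem ptOf_eq {a b : Fin r → ℤ} (X Y : Fin r → A) (ψ : A →+* F) (j : Fin r)
    (Q : Pt (a j : F) (b j : F)) (hQ : Q ≠ 0) (hc : crd Q = (ψ (X j), ψ (Y j))) :
    ptOf a b X Y ψ j = Q := by
  have h : ∃ Q : Pt (a j : F) (b j : F), Q ≠ 0 ∧ crd Q = (ψ (X j), ψ (Y j)) := ⟨Q, hQ, hc⟩
  unfold ptOf
  rw [dif_pos h]
  exact pt_uniq h.choose_spec.1 hQ (h.choose_spec.2.trans hc.symm)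

theorem ab_ptOf {a b : Fin r → ℤ} (X Y : Fin r → A) (ψ : A →+* F)
    (Q : (j : Fin r) → Pt (a j : F) (b j : F)) (h : ψ ∈ Ab X Y Q) : ptOf a b X Y ψ = Q := by
  funext j
  exact ptOf_eq X Y ψ j (Q j) (h j).1 (h j).2

end

section
variable {A : Type} [CommRing A] (a b : ℕ → ℤ) (r : ℕ) (Xf Yf : ℕ → A)

theorem homS_iff {F : Type} [Field F] (𝒬 : (j : ℕ) → Set (Pt (a j : F) (b j : F))) (ψ : A →+* F) :
    ψ ∈ HomS a b r Xf Yf 𝒬 ↔ ∃ Q : (j : Fin r) → Pt (a j : F) (b j : F),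
      (∀ j : Fin r, Q j ∈ 𝒬 j) ∧ ψ ∈ Ab (fun j : Fin r => Xf j) (fun j : Fin r => Yf j) Q := by
  constructor
  · intro h
    have h1 : ∀ j : Fin r, ∃ Q ∈ 𝒬 j, Q ≠ 0 ∧ crd Q = (ψ (Xf j), ψ (Yf j)) := fun j => h j j.2
    choose Q hQ1 hQ2 hQ3 using h1
    exact ⟨Q, hQ1, fun j => ⟨hQ2 j, hQ3 j⟩⟩
  · rintro ⟨Q, hQ, h⟩ j hj
    exact ⟨Q ⟨j, hj⟩, hQ ⟨j, hj⟩, h ⟨j, hj⟩⟩

end

/-- the local condition -/
def LocC {r : ℕ} (a b : Fin r → ℤ) (sp : ℕ → Prop) (N : ℕ)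
    (S : (p : ℕ) → [Fact p.Prime] → Set ((j : Fin r) → Pt (a j : ZMod p) (b j : ZMod p))) : Prop :=
  ∀ κ : ℝ, 0 < κ → ∃ T0 : ℕ, ∀ p : ℕ, T0 ≤ p → ∀ (_ : Fact p.Prime), sp p →
    ∀ (c : (j : Fin r) → Pt (a j : ZMod p) (b j : ZMod p))
    (H : (j : Fin r) → AddSubgroup (Pt (a j : ZMod p) (b j : ZMod p))),
    (∀ j, (p : ℝ) ^ (1 / 2 + κ) ≤ (Nat.card (H j) : ℝ)) →
    N * ({Q | Q ∈ S p ∧ ∀ j, Q j ∈ cs (c j) (H j)} :
      Set ((j : Fin r) → Pt (a j : ZMod p) (b j : ZMod p))).ncard ≤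
      (N - 1) * ∏ j, Nat.card (H j)

end Pool.Agent.J4H11.GQ
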