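import Pool.Agent.J4H11.GQ.X1
import Pool.Agent.J4H11.GQ.X2
import Pool.Agent.J4H11.GQ.V3

/-!
# The local conditions
-/

set_option autoImplicit false

open Polynomial Finset Pool.Agent.J4H11.RC Pool.Agent.J4H11.SC Pool.Agent.H901R3.MS
  WeierstrassCurve Pool.Agent.J4H11.GN

namespace Pool.Agent.J4H11.GQ

section
variable {a b : ℕ → ℤ} {r : ℕ}

/-- extension by zero of a family of points -/
def exP {F : Type} [Field F] (c : (j : Fin r) → Pt (a j : F) (b j : F)) (j : ℕ) :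
    Pt (a j : F) (b j : F) := if h : j < r then c ⟨j, h⟩ else 0

/-- extension by zero of a family of subgroups -/
def exH {F : Type} [Field F] [DecidableEq F]
    (H : (j : Fin r) → AddSubgroup (Pt (a j : F) (b j : F))) (j : ℕ) :
    AddSubgroup (Pt (a j : F) (b j : F)) := if h : j < r then H ⟨j, h⟩ else ⊥

theorem exP_fin {F : Type} [Field F] (c : (j : Fin r) → Pt (a j : F) (b j : F)) (j : Fin r) :
    exP c (j : ℕ) = c j := by
  unfold exP
  rw [dif_pos j.2]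

theorem exH_fin {F : Type} [Field F] [DecidableEq F]
    (H : (j : Fin r) → AddSubgroup (Pt (a j : F) (b j : F))) (j : Fin r) :
    exH H (j : ℕ) = H j := by
  unfold exH
  rw [dif_pos j.2]

theorem prod_exH {F : Type} [Field F] [DecidableEq F]
    (H : (j : Fin r) → AddSubgroup (Pt (a j : F) (b j : F))) :
    ∏ j ∈ range r, (Nat.card (exH H j) : ℝ) = ∏ j : Fin r, (Nat.card (H j) : ℝ) := by
  rw [Finset.prod_range]
  refine prod_congr rfl fun j _ => ?_
  rw [exH_fin]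

variable {A : Type} [CommRing A] {Xf Yf : ℕ → A} {f0 : ℤ[X]}

/-- the image of the homomorphisms above a product of cosets -/
theorem img_homs {p : ℕ} [Fact p.Prime] (c : (j : Fin r) → Pt (a j : ZMod p) (b j : ZMod p))
    (H : (j : Fin r) → AddSubgroup (Pt (a j : ZMod p) (b j : ZMod p)))
    (U : Finset (A →+* ZMod p))
    (hU : ∀ ψ, ψ ∈ U ↔ ψ ∈ HomS a b r Xf Yf (fun j => cs (exP c j) (exH H j)))
    [DecidableEq ((j : Fin r) → Pt (a j : ZMod p) (b j : ZMod p))]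
    (P : (A →+* ZMod p) → Prop) [DecidablePred P] :
    ({Q | (∃ ψ, ψ ∈ Ab (fun j : Fin r => Xf j) (fun j : Fin r => Yf j) Q ∧ P ψ) ∧
      ∀ j, Q j ∈ cs (c j) (H j)} :
      Set ((j : Fin r) → Pt (a j : ZMod p) (b j : ZMod p))) =
      ((U.filter P).image (ptOf (fun j : Fin r => a j) (fun j : Fin r => b j)
        (fun j : Fin r => Xf j) (fun j : Fin r => Yf j)) : Set _) := by
  ext Q
  rw [Finset.mem_coe, mem_image]
  constructor
  · rintro ⟨⟨ψ, hψ, hP⟩, hQ⟩
    refine ⟨ψ, mem_filter.2 ⟨?_, hP⟩, ab_ptOf _ _ ψ Q hψ⟩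
    rw [hU, homS_iff]
    refine ⟨Q, fun j => ?_, hψ⟩
    beta_reduce
    rw [exP_fin, exH_fin]
    exact hQ j
  · rintro ⟨ψ, hψ, rfl⟩
    rw [mem_filter, hU, homS_iff] at hψ
    obtain ⟨⟨Q, hQ, hψQ⟩, hP⟩ := hψ
    have h1 := ab_ptOf _ _ ψ Q hψQ
    rw [h1]
    refine ⟨⟨ψ, hψQ, hP⟩, fun j => ?_⟩
    have h2 := hQ j
    beta_reduce at h2
    rw [exP_fin, exH_fin] at h2
    exact h2

/-- the local condition for the points where a function vanishes -/
theorem loc_bad (h : TwS a b r Xf Yf f0) (s : A) (hs : s ≠ 0) (sp : ℕ → Prop) :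
    LocC (fun j : Fin r => a j) (fun j : Fin r => b j) sp 2 (fun p _ =>
      {Q | ∃ ψ, ψ ∈ Ab (F := ZMod p) (fun j : Fin r => Xf j) (fun j : Fin r => Yf j) Q ∧
        ψ s = 0}) := by
  intro κ hκ
  obtain ⟨G, hG, hcl⟩ := h.ft
  obtain ⟨T0, hT0⟩ := h.bad s hs κ (1 / 2) hκ (by norm_num)
  refine ⟨T0, fun p hp _ _ c H hH => ?_⟩
  classical
  have hfinA := homs_finite G hG hcl (ZMod p)
  have k1 := hT0 p hp _ (exP c) (exH H) (fun j hj => by
    have := hH ⟨j, hj⟩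
    have h1 := exH_fin H ⟨j, hj⟩
    rw [h1]
    exact this)
  set U0 := HomS a b r Xf Yf (fun j => cs (exP c j) (exH H j)) with hU0
  have hU0f : U0.Finite := Set.toFinite _
  have h1 := img_homs c H hU0f.toFinset (fun ψ => Set.Finite.mem_toFinset _) (fun ψ => ψ s = 0)
  have h2 : ({Q | Q ∈ {Q | ∃ ψ, ψ ∈ Ab (F := ZMod p) (fun j : Fin r => Xf j)
      (fun j : Fin r => Yf j) Q ∧ ψ s = 0} ∧ ∀ j, Q j ∈ cs (c j) (H j)} :
      Set ((j : Fin r) → Pt (a j : ZMod p) (b j : ZMod p))).ncard ≤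
      (hU0f.toFinset.filter (fun ψ => ψ s = 0)).card := by
    refine le_trans (le_of_eq ?_) (card_image_le (f := ptOf (fun j : Fin r => a j)
      (fun j : Fin r => b j) (fun j : Fin r => Xf j) (fun j : Fin r => Yf j)))
    rw [← Set.ncard_coe_finset, ← h1]
    rfl
  have h3 : ((hU0f.toFinset.filter (fun ψ => ψ s = 0)).card : ℝ) ≤
      1 / 2 * ∏ j : Fin r, (Nat.card (H j) : ℝ) := by
    rw [card_filter_set, ← prod_exH]
    exact k1
  have h4 : 2 * ((hU0f.toFinset.filter (fun ψ => ψ s = 0)).card : ℝ) ≤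
      ((∏ j : Fin r, Nat.card (H j) : ℕ) : ℝ) := by
    push_cast
    linarith
  have h5 : 2 * (hU0f.toFinset.filter (fun ψ => ψ s = 0)).card ≤
      ∏ j : Fin r, Nat.card (H j) := by exact_mod_cast h4
  rw [show (2 : ℕ) - 1 = 1 from rfl, one_mul]
  exact (Nat.mul_le_mul_left 2 h2).trans h5

end

end Pool.Agent.J4H11.GQ
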