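import Pool.Agent.J4H11.GQ.X3

/-!
# The local condition for a cover, from two embeddings into a splitting field
-/

set_option autoImplicit false

open Polynomial Finset Pool.Agent.J4H11.RC Pool.Agent.J4H11.SC Pool.Agent.H901R3.MS
  WeierstrassCurve Pool.Agent.J4H11.GN

namespace Pool.Agent.J4H11.GQ

/-- an arithmetic lemma -/
theorem arith_pair (B u1 u2 I b Pr ε e1 e2 : ℝ) (hB : 0 ≤ B) (hPr : 0 ≤ Pr)
    (h : u2 + B * I ≤ B * u1 + b) (hu1 : |u1 - e1 * Pr| ≤ ε * Pr) (hu2 : |u2 - e2 * Pr| ≤ ε * Pr)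
    (hb : b ≤ ε * Pr) (he1 : e1 ≤ 1) (he2 : 1 ≤ e2) (hε : 2 * ε * (B + 2) = 1) :
    2 * B * I ≤ (2 * B - 1) * Pr := by
  have g1 := (abs_le.1 hu1).2
  have g2 := (abs_le.1 hu2).1
  have g3 : e1 * Pr ≤ 1 * Pr := mul_le_mul_of_nonneg_right he1 hPr
  have g4 : 1 * Pr ≤ e2 * Pr := mul_le_mul_of_nonneg_right he2 hPr
  have g5 : B * u1 ≤ B * ((1 + ε) * Pr) := mul_le_mul_of_nonneg_left (by linarith) hB
  have g6 : 2 * (B * ((1 + ε) * Pr) + ε * Pr - (1 - ε) * Pr) =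
      (2 * B - 2 + 2 * ε * (B + 2)) * Pr := by ring
  rw [hε] at g6
  linarith

section
variable {a b : ℕ → ℤ} {r : ℕ} {A1 A2 : Type} [CommRing A1] [CommRing A2]
  {X1 Y1 : ℕ → A1} {X2 Y2 : ℕ → A2} {f1 f2 : ℤ[X]}

theorem loc_pair (h1 : TwS a b r X1 Y1 f1) (h2 : TwS a b r X2 Y2 f2)
    (hf1 : f1.natDegree = 1) (hf2 : 1 ≤ f2.natDegree) (s : A2) (hs : s ≠ 0)
    (hpair : ∀ (F : Type) [Field F] (ψ : A2 →+* F), ψ s ≠ 0 → ∃ ψ1 ψ2 : A1 →+* F, ψ1 ≠ ψ2 ∧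
      (∀ j < r, ψ1 (X1 j) = ψ (X2 j) ∧ ψ1 (Y1 j) = ψ (Y2 j)) ∧
      (∀ j < r, ψ2 (X1 j) = ψ (X2 j) ∧ ψ2 (Y1 j) = ψ (Y2 j))) :
    ∃ N : ℕ, 2 ≤ N ∧ LocC (fun j : Fin r => a j) (fun j : Fin r => b j)
      (fun p => (f2.map (Int.castRingHom (ZMod p))).Splits) N (fun p _ =>
      {Q | ∃ ψ, ψ ∈ Ab (F := ZMod p) (fun j : Fin r => X1 j) (fun j : Fin r => Y1 j) Q}) := by
  obtain ⟨G1, hG1, hcl1⟩ := h1.ft
  obtain ⟨G2, hG2, hcl2⟩ := h2.ft
  obtain ⟨B0, hB0⟩ := h2.fib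
  set B := B0 + 1 with hB
  refine ⟨2 * B, by omega, fun κ hκ => ?_⟩
  set ε : ℝ := 1 / (2 * ((B : ℝ) + 2)) with hε
  have hε0 : 0 < ε := by positivity
  have hεB : 2 * ε * ((B : ℝ) + 2) = 1 := by
    rw [hε]
    field_simp
  obtain ⟨T1, hT1⟩ := h1.cnt κ ε hκ hε0
  obtain ⟨T2, hT2⟩ := h2.cnt κ ε hκ hε0
  obtain ⟨T3, hT3⟩ := h2.bad s hs κ ε hκ hε0
  refine ⟨max T1 (max T2 T3), fun p hp hpp hsp c H hH => ?_⟩
  classical
  have hp1 : T1 ≤ p := (le_max_left _ _).trans hp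
  have hp2 : T2 ≤ p := (le_max_left _ _).trans ((le_max_right _ _).trans hp)
  have hp3 : T3 ≤ p := (le_max_right _ _).trans ((le_max_right _ _).trans hp)
  have hHj : ∀ j < r, (p : ℝ) ^ (1 / 2 + κ) ≤ (Nat.card (exH H j) : ℝ) := fun j hj => by
    have h3 := exH_fin H ⟨j, hj⟩
    rw [h3]
    exact hH ⟨j, hj⟩
  have k1 := hT1 p hp1 hpp (exP c) (exH H) hHj
  have k2 := hT2 p hp2 hpp (exP c) (exH H) hHj
  have k3 := hT3 p hp3 hpp (exP c) (exH H) hHj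
  have hfin1 := homs_finite G1 hG1 hcl1 (ZMod p)
  have hfin2 := homs_finite G2 hG2 hcl2 (ZMod p)
  set V1 := HomS a b r X1 Y1 (fun j => cs (exP c j) (exH H j)) with hV1
  set V2 := HomS a b r X2 Y2 (fun j => cs (exP c j) (exH H j)) with hV2
  have hV1f : V1.Finite := Set.toFinite _
  have hV2f : V2.Finite := Set.toFinite _
  set U1 := hV1f.toFinset with hU1
  set U2 := hV2f.toFinset with hU2
  have hm1 : ∀ ψ, ψ ∈ U1 ↔ ψ ∈ V1 := fun ψ => Set.Finite.mem_toFinset _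
  have hm2 : ∀ ψ, ψ ∈ U2 ↔ ψ ∈ V2 := fun ψ => Set.Finite.mem_toFinset _
  set π1 := ptOf (F := ZMod p) (fun j : Fin r => a j) (fun j : Fin r => b j)
    (fun j : Fin r => X1 j) (fun j : Fin r => Y1 j) with hπ1
  set π2 := ptOf (F := ZMod p) (fun j : Fin r => a j) (fun j : Fin r => b j)
    (fun j : Fin r => X2 j) (fun j : Fin r => Y2 j) with hπ2
  have hcomb := comb U1 U2 (U2.filter (fun ψ => ψ s = 0)) π1 π2 B (by
    intro Q
    have h3 := hB0 p hpp (exP Q)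
    have hf : (HomS a b r X2 Y2 (fun j => {exP Q j})).Finite := Set.toFinite _
    have h4 : ((U2.filter (fun ψ => π2 ψ = Q) : Finset _) : Set (A2 →+* ZMod p)) ⊆
        HomS a b r X2 Y2 (fun j => {exP Q j}) := by
      intro ψ hψ
      rw [mem_coe, mem_filter, hm2, hV2, homS_iff] at hψ
      obtain ⟨⟨Q', -, hQ'⟩, h5⟩ := hψ
      have h6 := ab_ptOf _ _ ψ Q' hQ'
      rw [← hπ2, h5] at h6
      subst h6
      rw [homS_iff]
      exact ⟨Q, fun j => (exP_fin Q j).symm, hQ'⟩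
    have h5 := Set.ncard_le_ncard h4 hf
    rw [Set.ncard_coe_finset] at h5
    omega) (by
    intro ψ hψ hbad
    have hψs : ψ s ≠ 0 := fun h => hbad (mem_filter.2 ⟨hψ, h⟩)
    obtain ⟨ψ1, ψ2, hne, e1, e2⟩ := hpair (ZMod p) ψ hψs
    rw [hm2, hV2, homS_iff] at hψ
    obtain ⟨Q, hQ1, hQ2⟩ := hψ
    have h5 : π2 ψ = Q := ab_ptOf _ _ ψ Q hQ2
    have key : ∀ ψ' : A1 →+* ZMod p, (∀ j < r, ψ' (X1 j) = ψ (X2 j) ∧ ψ' (Y1 j) = ψ (Y2 j)) →
        ψ' ∈ U1.filter (fun ψ1 => π1 ψ1 = π2 ψ) := by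
      intro ψ' hψ'
      have h6 : ψ' ∈ Ab (F := ZMod p) (fun j : Fin r => X1 j) (fun j : Fin r => Y1 j) Q := by
        intro j
        refine ⟨(hQ2 j).1, (hQ2 j).2.trans ?_⟩
        rw [(hψ' j j.2).1, (hψ' j j.2).2]
      rw [mem_filter, hm1, hV1, homS_iff, h5]
      exact ⟨⟨Q, hQ1, h6⟩, ab_ptOf _ _ ψ' Q h6⟩
    have h7 : ({ψ1, ψ2} : Finset (A1 →+* ZMod p)) ⊆ U1.filter (fun ψ1 => π1 ψ1 = π2 ψ) := by
      intro ψ' hψ'
      rcases mem_insert.1 hψ' with rfl | h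
      · exact key _ e1
      · rw [mem_singleton.1 h]
        exact key _ e2
    have h8 := card_le_card h7
    rwa [card_pair hne] at h8)
  have himg := img_homs c H U1 hm1 (fun _ => True)
  have hI : ({Q | Q ∈ {Q | ∃ ψ, ψ ∈ Ab (F := ZMod p) (fun j : Fin r => X1 j)
      (fun j : Fin r => Y1 j) Q} ∧ ∀ j, Q j ∈ cs (c j) (H j)} :
      Set ((j : Fin r) → Pt (a j : ZMod p) (b j : ZMod p))).ncard = (U1.image π1).card := by
    rw [← Set.ncard_coe_finset]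
    congr 1
    rw [filter_true] at himg
    rw [← himg]
    ext Q
    simp
  rw [hI]
  set Pr : ℝ := ∏ j : Fin r, (Nat.card (H j) : ℝ) with hPr
  rw [prod_exH, ← hPr] at k1 k2 k3
  have hPr0 : 0 ≤ Pr := prod_nonneg fun _ _ => Nat.cast_nonneg _
  have hc1 : (U1.card : ℝ) = V1.ncard := by rw [Set.ncard_eq_toFinset_card V1 hV1f]
  have hc2 : (U2.card : ℝ) = V2.ncard := by rw [Set.ncard_eq_toFinset_card V2 hV2f]
  have hc3 : ((U2.filter (fun ψ => ψ s = 0)).card : ℝ) ≤ ε * Pr := by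
    rw [card_filter_set]
    exact k3
  rw [← hc1] at k1
  rw [← hc2] at k2
  have he1 : (e0 f1 p : ℝ) ≤ 1 := by
    have := e0_le f1 h1.mon p
    rw [hf1] at this
    exact_mod_cast this
  have he2 : (1 : ℝ) ≤ (e0 f2 p : ℝ) := by
    have h3 : 1 ≤ e0 f2 p := by
      unfold e0
      set g := f2.map (Int.castRingHom (ZMod p)) with hg
      have hgd : g.natDegree = f2.natDegree := h2.mon.natDegree_map _
      obtain ⟨z, hz⟩ := hsp.exists_eval_eq_zero (by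
        rw [Polynomial.degree_eq_natDegree (h2.mon.map _).ne_zero, hgd]
        exact_mod_cast (by omega : f2.natDegree ≠ 0))
      have : Nonempty {z : ZMod p // g.IsRoot z} := ⟨⟨z, hz⟩⟩
      exact Nat.card_pos
    exact_mod_cast h3
  have hcombR : (U2.card : ℝ) + B * ((U1.image π1).card : ℝ) ≤
      B * (U1.card : ℝ) + ((U2.filter (fun ψ => ψ s = 0)).card : ℝ) := by exact_mod_cast hcomb
  have hfin := arith_pair B _ _ _ _ Pr ε _ _ (Nat.cast_nonneg _) hPr0 hcombR k1 k2 hc3 he1 he2 hεB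
  have hfin2 : ((2 * B * (U1.image π1).card : ℕ) : ℝ) ≤
      (((2 * B - 1) * ∏ j : Fin r, Nat.card (H j) : ℕ) : ℝ) := by
    push_cast [Nat.cast_sub (by omega : 1 ≤ 2 * B)]
    exact hfin
  exact_mod_cast hfin2

end

end Pool.Agent.J4H11.GQ
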