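import Pool.Agent.J4H11.GQ.X1
import Pool.Agent.J4H11.GQ.W1

/-!
# Two embeddings of the field of a cover into a splitting field
-/

set_option autoImplicit false
set_option linter.unusedSectionVars false

open Polynomial

namespace Pool.Agent.J4H11.GQ

section
variable {A1 A2 : Type} [CommRing A1] [CommRing A2] [IsDomain A2]
  {X1 Y1 : ℕ → A1} {X2 Y2 : ℕ → A2}

theorem pair_exists (x y : ℕ → ℂ) (r : ℕ) (w θ : ℂ) (ι1 : A1 →+* ℂ) (ι2 : A2 →+* ℂ)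
    (hι2 : Function.Injective ι2) (G : Set A1) (hG : G.Finite) (hcl : Subring.closure G = ⊤)
    (hXY1 : ∀ j < r, ι1 (X1 j) = x j ∧ ι1 (Y1 j) = y j)
    (hXY2 : ∀ j < r, ι2 (X2 j) = x j ∧ ι2 (Y2 j) = y j)
    (hw1 : w ∈ Subfield.closure (Set.range ι1)) (hι1w : ∀ c, ι1 c ∈ ad1 (k0 x y r) w)
    (hθ2 : θ ∈ Subfield.closure (Set.range ι2))
    (hwalg : w ∈ algebraicClosure (k0 x y r) ℂ) (hw : w ∉ k0 x y r)
    (hσ : ∀ σ : algebraicClosure (k0 x y r) ℂ →ₐ[k0 x y r] ℂ, σ ⟨w, hwalg⟩ ∈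
      ad1 (k0 x y r) θ) :
    ∃ s : A2, s ≠ 0 ∧ ∀ (F : Type) [Field F] (ψ : A2 →+* F), ψ s ≠ 0 →
      ∃ ψ1 ψ2 : A1 →+* F, ψ1 ≠ ψ2 ∧
      (∀ j < r, ψ1 (X1 j) = ψ (X2 j) ∧ ψ1 (Y1 j) = ψ (Y2 j)) ∧
      (∀ j < r, ψ2 (X1 j) = ψ (X2 j) ∧ ψ2 (Y1 j) = ψ (Y2 j)) := by
  set K := k0 x y r with hK
  set L2 := Subfield.closure (Set.range ι2) with hL2
  have hKL : K ≤ L2 := by
    apply k0_le
    intro j hj
    exact ⟨Subfield.subset_closure ⟨X2 j, (hXY2 j hj).1⟩,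
      Subfield.subset_closure ⟨Y2 j, (hXY2 j hj).2⟩⟩
  have hKθ : ad1 K θ ≤ L2 := ad1_le _ _ _ hKL hθ2
  have hKF : ∀ z ∈ K, z ∈ algebraicClosure K ℂ := fun z hz =>
    (algebraicClosure K ℂ).algebraMap_mem ⟨z, hz⟩
  have hwF : ad1 K w ≤ (algebraicClosure K ℂ).toSubfield := ad1_le _ _ _ hKF hwalg
  obtain ⟨σ, hσw⟩ : ∃ σ : algebraicClosure K ℂ →ₐ[K] ℂ, σ ⟨w, hwalg⟩ ≠ w := by
    by_contra hcon
    push Not at hcon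
    exact hw (fix_mem K ⟨w, hwalg⟩ hcon)
  have hι1F : ∀ c, ι1 c ∈ algebraicClosure K ℂ := fun c => hwF (hι1w c)
  set g2 : A1 →+* ℂ := (σ : algebraicClosure K ℂ →+* ℂ).comp
    (ι1.codRestrict (algebraicClosure K ℂ) hι1F) with hg2
  have hg2c : ∀ c, g2 c = σ ⟨ι1 c, hι1F c⟩ := fun c => rfl
  have hσK : ∀ z (hz : z ∈ K), σ ⟨z, hKF z hz⟩ = z := fun z hz => σ.commutes ⟨z, hz⟩
  have hne : ι1 ≠ g2 := by
    intro h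
    obtain ⟨u, v, hv, huv⟩ := frac_mem ι1 w hw1
    have h1 : ∀ c, σ ⟨ι1 c, hι1F c⟩ = ι1 c := fun c => (DFunLike.congr_fun h c).symm
    have h2 : (⟨ι1 u, hι1F u⟩ : algebraicClosure K ℂ) = ⟨ι1 v, hι1F v⟩ * ⟨w, hwalg⟩ :=
      Subtype.ext huv
    have h3 := congrArg σ h2
    rw [map_mul, h1, h1, huv] at h3
    exact hσw (mul_left_cancel₀ hv h3).symm
  have hwθ : w ∈ ad1 K θ := hσ (algebraicClosure K ℂ).val
  have hr1 : ∀ c, ι1 c ∈ L2 := fun c => ad1_le _ _ _ hKL (hKθ hwθ) (hι1w c)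
  have hr2 : ∀ c, g2 c ∈ L2 := by
    have h1 : ad1 K w ≤ (L2.comap (σ : algebraicClosure K ℂ →+* ℂ)).map
        ((algebraicClosure K ℂ).val : algebraicClosure K ℂ →+* ℂ) := by
      apply ad1_le
      · intro z hz
        refine ⟨⟨z, hKF z hz⟩, ?_, rfl⟩
        change σ ⟨z, hKF z hz⟩ ∈ L2
        rw [hσK z hz]
        exact hKL hz
      · exact ⟨⟨w, hwalg⟩, hKθ (hσ σ), rfl⟩
    intro c
    obtain ⟨z, hz, hzc⟩ := h1 (hι1w c)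
    have h2 : z = ⟨ι1 c, hι1F c⟩ := Subtype.ext hzc
    rw [hg2c, ← h2]
    exact hz
  obtain ⟨s, hs, hmain⟩ := two_homs ι2 hι2 ι1 g2 hne G hG hcl hr1 hr2
  refine ⟨s, hs, fun F _ ψ hψ => ?_⟩
  obtain ⟨ψ1, ψ2, h12, e1, e2⟩ := hmain F ψ hψ
  refine ⟨ψ1, ψ2, h12, fun j hj => ⟨?_, ?_⟩, fun j hj => ⟨?_, ?_⟩⟩
  · exact e1 _ _ ((hXY1 j hj).1.trans (hXY2 j hj).1.symm)
  · exact e1 _ _ ((hXY1 j hj).2.trans (hXY2 j hj).2.symm)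
  · apply e2
    have h3 : (⟨ι1 (X1 j), hι1F _⟩ : algebraicClosure K ℂ) = ⟨x j, hKF _ (k0_x x y r j hj)⟩ :=
      Subtype.ext (hXY1 j hj).1
    rw [hg2c, h3, hσK _ (k0_x x y r j hj), (hXY2 j hj).1]
  · apply e2
    have h3 : (⟨ι1 (Y1 j), hι1F _⟩ : algebraicClosure K ℂ) = ⟨y j, hKF _ (k0_y x y r j hj)⟩ :=
      Subtype.ext (hXY1 j hj).2
    rw [hg2c, h3, hσK _ (k0_y x y r j hj), (hXY2 j hj).2]

end

end Pool.Agent.J4H11.GQ
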