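import Pool.Agent.J4H11.GQ.W4

/-!
# The trivial tower
-/

set_option autoImplicit false
set_option linter.unusedSectionVars false

open Polynomial Pool.Agent.J4H11.RC Pool.Agent.J4H11.SC Pool.Agent.H901R3.MS WeierstrassCurve
  Pool.Agent.J4H11.GP Pool.Agent.J4H11.GN

namespace Pool.Agent.J4H11.GQ

theorem lift_zero_inj : Function.Injective (AdjoinRoot.lift (algebraMap ℤ ℂ) 0
    (by rw [eval₂_X] : (X : ℤ[X]).eval₂ (algebraMap ℤ ℂ) 0 = 0)) := by
  rw [injective_iff_map_eq_zero]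
  intro z hz
  obtain ⟨f, rfl⟩ := AdjoinRoot.mk_surjective z
  rw [AdjoinRoot.lift_mk, eval₂_at_zero] at hz
  rw [AdjoinRoot.mk_eq_zero, X_dvd_iff]
  have h1 : ((f.coeff 0 : ℤ) : ℂ) = 0 := hz
  exact_mod_cast h1

theorem ncr_mono {a b : ℤ} (S S' : Subfield ℂ) (h : S ≤ S') (R : Pt (a : ℂ) (b : ℂ))
    (hR : NCr S'.subtype R) : NCr S.subtype R := by
  refine ⟨hR.1, fun p hp => ?_⟩
  have h1 : (p.map (Subfield.inclusion h)).eval₂ S'.subtype (crd R).1 = 0 := by
    rw [eval₂_map]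
    exact hp
  exact (Polynomial.map_eq_zero_iff (Subfield.inclusion h).injective).1 (hR.2 _ h1)

end Pool.Agent.J4H11.GQ

attribute [local instance 5000] Classical.propDecidable

namespace Pool.Agent.J4H11.GQ

section
variable {a b : ℕ → ℤ}
  (hDQ : ∀ j, Disc (a j : ℚ) (b j : ℚ)) (hnt : ∀ j, NT (a j) (b j))
  (hD : ∀ j, Disc (a j : ℂ) (b j : ℂ))
  (R : (j : ℕ) → Pt (a j : ℂ) (b j : ℂ)) (r : ℕ)
  (hR : ∀ j < r, NCr (k0 (cx R) (cy R) j).subtype (R j))

include hDQ hnt hD hR in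
theorem triv_tower (t : ℕ) : t ≤ r → ∃ (A : Type) (_ : CommRing A) (ι : A →+* ℂ)
    (Xf Yf : ℕ → A), Function.Injective ι ∧
    (∀ j < t, ι (Xf j) = cx R j ∧ ι (Yf j) = cy R j) ∧
    (∀ c, ι c ∈ k0 (cx R) (cy R) t) ∧ TwS a b t Xf Yf (X : ℤ[X]) ∧
    ∀ (F : Type) [Field F] (Q : (j : ℕ) → Pt (a j : F) (b j : F)), (∀ j < t, Q j ≠ 0) →
      ∃ ψ : A →+* F, ∀ j < t, crd (Q j) = (ψ (Xf j), ψ (Yf j)) := by
  induction t with
  | zero =>
    intro _
    have hdom : IsDomain (AdjoinRoot (X : ℤ[X])) := lift_zero_inj.isDomain _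
    refine ⟨AdjoinRoot (X : ℤ[X]), inferInstance, _, fun _ => 0, fun _ => 0, lift_zero_inj,
      fun j hj => absurd hj (Nat.not_lt_zero j), fun c => ?_, tws_base a b X monic_X _ _,
      fun F _ Q _ => ⟨AdjoinRoot.lift (Int.castRingHom F) 0 (by rw [eval₂_X]),
        fun j hj => absurd hj (Nat.not_lt_zero j)⟩⟩
    obtain ⟨f, rfl⟩ := AdjoinRoot.mk_surjective c
    rw [AdjoinRoot.lift_mk, eval₂_at_zero]
    exact intCast_mem _ _
  | succ t ih =>
    intro ht
    obtain ⟨A, _, ι, Xf, Yf, hinj, hXY, hιk, hTwS, hfull⟩ := ih (Nat.le_of_succ_le ht)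
    have hRt := hR t ht
    have hdomA : IsDomain A := hinj.isDomain _
    set S := k0 (cx R) (cy R) t with hS
    have hxn : ∀ p : A[X], p.eval₂ ι (crd (R t)).1 = 0 → p = 0 := by
      intro p hp
      set ι' : A →+* S := ι.codRestrict S hιk with hι'
      have h1 : (p.map ι').eval₂ S.subtype (crd (R t)).1 = 0 := by
        rw [eval₂_map]
        exact hp
      have h2 := hRt.2 _ h1
      have hι'inj : Function.Injective ι' := fun u v huv => hinj (congrArg Subtype.val huv)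
      exact (Polynomial.map_eq_zero_iff hι'inj).1 h2
    have hyn := crd_eqn' (R t) hRt.1
    set φ : (MvPolynomial (Fin 2) A)[X] := X with hφ
    have hw : ∀ {F : Type} [Field F] (g : MvPolynomial (Fin 2) A →+* F), (φ.map g).IsRoot 0 := by
      intro F _ g
      rw [hφ, Polynomial.map_X, IsRoot.def, eval_X]
    obtain ⟨hinj', hTwS'⟩ := tws_step φ ι hinj hTwS (hDQ t) (hnt t) (hD t) monic_X (fun n _ => by
      rw [hφ, Polynomial.map_X]
      exact irreducible_X) (crd (R t)).1 (crd (R t)).2 0 hxn hyn (hw _)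
    set ι1 := homT (a t) (b t) φ ι (crd (R t)).1 (crd (R t)).2 0 hyn (hw _) with hι1
    have e1 : ∀ c, ι1 (iT (a t) (b t) φ c) = ι c := fun c =>
      DFunLike.congr_fun (homT_i (a t) (b t) φ ι (crd (R t)).1 (crd (R t)).2 0 hyn (hw _)) c
    have e2 : ι1 (xT (a t) (b t) φ) = (crd (R t)).1 := homT_x (a t) (b t) φ ι _ _ _ hyn (hw _)
    have e3 : ι1 (yT (a t) (b t) φ) = (crd (R t)).2 := homT_y (a t) (b t) φ ι _ _ _ hyn (hw _)
    have e4 : ι1 (wT (a t) (b t) φ) = 0 := homT_w (a t) (b t) φ ι _ _ _ hyn (hw _)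
    refine ⟨AT (a t) (b t) φ, inferInstance, ι1, XT a b t φ Xf, YT a b t φ Yf, hinj', ?_, ?_,
      hTwS', ?_⟩
    · intro j hj
      rcases Nat.lt_succ_iff_lt_or_eq.1 hj with h | rfl
      · rw [XT_lt a b t φ Xf j h, YT_lt a b t φ Yf j h, e1, e1]
        exact hXY j h
      · rw [XT_t, YT_t, e2, e3]
        exact ⟨rfl, rfl⟩
    · set F := k0 (cx R) (cy R) (t + 1) with hF
      have g1 : S ≤ F := k0_le _ _ _ _ (fun j hj => ⟨k0_x _ _ _ j (Nat.lt_succ_of_lt hj),
        k0_y _ _ _ j (Nat.lt_succ_of_lt hj)⟩)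
      have hcl2 := at_dense (G := Set.univ) φ (by
        rw [eq_top_iff]
        intro z _
        exact Subring.subset_closure (Set.mem_univ z)) (a t) (b t)
      have h1 : Subring.closure (iT (a t) (b t) φ '' Set.univ ∪
          {xT (a t) (b t) φ, yT (a t) (b t) φ, wT (a t) (b t) φ}) ≤ F.toSubring.comap ι1 := by
        rw [Subring.closure_le]
        rintro _ (⟨c, -, rfl⟩ | rfl | rfl | rfl)
        · change ι1 _ ∈ F
          rw [e1]
          exact g1 (hιk c)
        · change ι1 _ ∈ F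
          rw [e2]
          exact k0_x _ _ _ t (Nat.lt_succ_self t)
        · change ι1 _ ∈ F
          rw [e3]
          exact k0_y _ _ _ t (Nat.lt_succ_self t)
        · change ι1 _ ∈ F
          rw [e4]
          exact F.zero_mem
      rw [hcl2] at h1
      exact fun c => h1 (Subring.mem_top c)
    · intro F _ Q hQ
      obtain ⟨ψ0, hψ0⟩ := hfull F Q (fun j hj => hQ j (Nat.lt_succ_of_lt hj))
      have hQt := crd_eqn' (Q t) (hQ t (Nat.lt_succ_self t))
      refine ⟨homT (a t) (b t) φ ψ0 (crd (Q t)).1 (crd (Q t)).2 0 hQt (hw _), fun j hj => ?_⟩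
      rcases Nat.lt_succ_iff_lt_or_eq.1 hj with h | rfl
      · rw [XT_lt a b t φ Xf j h, YT_lt a b t φ Yf j h]
        have h1 := fun c => DFunLike.congr_fun (homT_i (a t) (b t) φ ψ0 (crd (Q t)).1
          (crd (Q t)).2 0 hQt (hw _)) c
        have h2 := h1 (Xf j)
        have h3 := h1 (Yf j)
        rw [RingHom.comp_apply] at h2 h3
        rw [h2, h3]
        exact hψ0 j h
      · rw [XT_t, YT_t, homT_x, homT_y]

end

end Pool.Agent.J4H11.GQ
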