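import Pool.Agent.J4H11.GQ.X1
import Pool.Agent.J4H11.GQ.W1
import Pool.Agent.J4H11.SC.Fam

/-!
# Denominators of the elements of the field generated by a root
-/

set_option autoImplicit false
set_option linter.unusedSectionVars false

open Polynomial Pool.Agent.J4H11.SC

namespace Pool.Agent.J4H11.GQ

section
variable {r : ℕ} (x y : ℕ → ℂ)

/-- the evaluation at the point -/
noncomputable def eR (r : ℕ) (x y : ℕ → ℂ) : MvPolynomial (Fin r × Fin 2) ℤ →+* ℂ :=
  evp (fun j : Fin r => x j) (fun j : Fin r => y j)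

theorem evp_x {S : Type} [CommRing S] (u v : Fin r → S) (j : Fin r) :
    evp u v (MvPolynomial.X (j, 0)) = u j := by
  change MvPolynomial.aeval (Pool.Agent.J4H11.RC.pv u v) (MvPolynomial.X (j, 0)) = _
  rw [MvPolynomial.aeval_X]
  rfl

theorem evp_y {S : Type} [CommRing S] (u v : Fin r → S) (j : Fin r) :
    evp u v (MvPolynomial.X (j, 1)) = v j := by
  change MvPolynomial.aeval (Pool.Agent.J4H11.RC.pv u v) (MvPolynomial.X (j, 1)) = _
  rw [MvPolynomial.aeval_X]
  rfl

theorem k0_eR : k0 x y r ≤ Subfield.closure (Set.range (eR r x y)) := by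
  apply k0_le
  intro j hj
  constructor
  · exact Subfield.subset_closure ⟨MvPolynomial.X (⟨j, hj⟩, 0), evp_x _ _ _⟩
  · exact Subfield.subset_closure ⟨MvPolynomial.X (⟨j, hj⟩, 1), evp_y _ _ _⟩

theorem ad1_poly (K : Subfield ℂ) (w : ℂ) (hw : AlgS K w) (z : ℂ) (hz : z ∈ ad1 K w) :
    ∃ p : K[X], p.eval₂ K.subtype w = z := by
  have hint : IsIntegral K w := (algS_iff.1 hw).isIntegral
  have h1 : ad1 K w ≤ (IntermediateField.adjoin K {w}).toSubfield := by
    apply ad1_le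
    · intro c hc
      exact (IntermediateField.adjoin K {w}).algebraMap_mem ⟨c, hc⟩
    · exact IntermediateField.subset_adjoin K _ rfl
  have h2 : z ∈ IntermediateField.adjoin K {w} := h1 hz
  have h3 : z ∈ (IntermediateField.adjoin K {w}).toSubalgebra := h2
  rw [IntermediateField.adjoin_simple_toSubalgebra_of_isAlgebraic hint.isAlgebraic,
    Algebra.adjoin_singleton_eq_range_aeval] at h3
  obtain ⟨p, hp⟩ := h3
  exact ⟨p, hp⟩

theorem ad1_den (w : ℂ) (hw : AlgS (k0 x y r) w) (z : ℂ) (hz : z ∈ ad1 (k0 x y r) w) :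
    ∃ s : MvPolynomial (Fin r × Fin 2) ℤ, eR r x y s ≠ 0 ∧
      ∃ g : (MvPolynomial (Fin r × Fin 2) ℤ)[X], g.eval₂ (eR r x y) w = eR r x y s * z := by
  obtain ⟨p, rfl⟩ := ad1_poly _ w hw z hz
  obtain ⟨s, hs, hsZ⟩ := den_set (eR r x y) ((fun c : k0 x y r => (c : ℂ)) '' (p.coeffs : Set _))
    ((Finset.finite_toSet _).image _) (by
      rintro _ ⟨c, -, rfl⟩
      exact k0_eR x y c.2)
  have hu : ∀ i, ∃ u, eR r x y u = eR r x y s * ((p.coeff i : k0 x y r) : ℂ) := by
    intro i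
    by_cases h0 : p.coeff i = 0
    · refine ⟨0, ?_⟩
      rw [h0, map_zero]
      simp
    · exact hsZ _ ⟨_, coeff_mem_coeffs h0, rfl⟩
  choose u hu using hu
  refine ⟨s, hs, ∑ i ∈ Finset.range (p.natDegree + 1), C (u i) * X ^ i, ?_⟩
  rw [eval₂_finsetSum, eval₂_eq_sum_range, Finset.mul_sum]
  refine Finset.sum_congr rfl fun i _ => ?_
  rw [eval₂_mul, eval₂_C, eval₂_pow, eval₂_X, hu]
  change _ = _ * (((p.coeff i : k0 x y r) : ℂ) * w ^ i)
  ring

end

end Pool.Agent.J4H11.GQ
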