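import Pool.Agent.J4H11.GQ.Y1
import Pool.Agent.J4H11.GQ.Y2
import Pool.Agent.J4H11.GQ.Y3
import Pool.Agent.J4H11.GQ.X2

/-!
# Rational points of the cover and homomorphisms to `ℚ`
-/

set_option autoImplicit false
set_option linter.unusedSectionVars false

open Polynomial Pool.Agent.J4H11.RC Pool.Agent.J4H11.SC Pool.Agent.H901R3.MS WeierstrassCurve
  Pool.Agent.J4H11.GP Pool.Agent.J4H11.GN

namespace Pool.Agent.J4H11.GQ

/-- the data of a tower -/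
structure TwD (a b : ℕ → ℤ) (t : ℕ) (x y : ℕ → ℂ) (θ : ℂ) : Type 1 where
  A : Type
  [cr : CommRing A]
  ι : A →+* ℂ
  Xf : ℕ → A
  Yf : ℕ → A
  f0 : ℤ[X]
  inj : Function.Injective ι
  hXY : ∀ j < t, ι (Xf j) = x j ∧ ι (Yf j) = y j
  gen : θ ∈ Subfield.closure (Set.range ι)
  le : ∀ c, ι c ∈ ad1 (k0 x y t) θ
  tws : TwS a b t Xf Yf f0
  irr : Irreducible f0

attribute [instance] TwD.cr

theorem twD_of {a b : ℕ → ℤ} {t : ℕ} {x y : ℕ → ℂ} {θ : ℂ} (h : Tw a b t x y θ) :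
    Nonempty (TwD a b t x y θ) := by
  obtain ⟨A, _, ι, Xf, Yf, f0, h1, h2, h3, h4, h5, h6⟩ := h
  exact ⟨⟨A, ι, Xf, Yf, f0, h1, h2, h3, h4, h5, h6⟩⟩

theorem r_rat {K Ω : Type} [Field K] [CharZero K] [Field Ω] [CharZero Ω] (V : Place K Ω) (c : ℚ) :
    ((c : ℚ) : K) ∈ V.A ∧ V.r ((c : ℚ) : K) = ((c : ℚ) : Ω) := by
  have hd : ((c.den : ℕ) : Ω) ≠ 0 := by exact_mod_cast c.den_nz
  have hdK : ((c.den : ℕ) : K) ≠ 0 := by exact_mod_cast c.den_nz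
  have h1 : ((c.den : ℕ) : K)⁻¹ ∈ V.A := V.inv_mem (by rw [V.r_nat]; exact hd)
  have h2 : ((c : ℚ) : K) = (c.num : K) * ((c.den : ℕ) : K)⁻¹ := by
    rw [Rat.cast_def, div_eq_mul_inv]
  have h3 : ((c : ℚ) : K) ∈ V.A := by
    rw [h2]
    exact V.A.mul_mem (V.int_mem _) h1
  refine ⟨h3, ?_⟩
  rw [Rat.cast_def (K := Ω), eq_div_iff hd, ← V.r_nat c.den, ← V.r_mul h3 (V.nat_mem _),
    ← V.r_int c.num]
  congr 1
  rw [h2, mul_assoc, inv_mul_cancel₀ hdK, mul_one]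

section
variable {a b : ℕ → ℤ} {r : ℕ} {x y : ℕ → ℂ} {w : ℂ}

/-- extension by zero of a family of points -/
def exPt {F : Type} [Field F] (c : (j : Fin r) → Pt (a j : F) (b j : F)) (j : ℕ) :
    Pt (a j : F) (b j : F) := if h : j < r then c ⟨j, h⟩ else 0

/-- the coordinates of a point, for the evaluation -/
noncomputable def eQ {F : Type} [Field F] (Q : (j : Fin r) → Pt (a j : F) (b j : F)) :
    MvPolynomial (Fin r × Fin 2) ℤ →+* F :=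
  evp (fun j => (crd (Q j)).1) (fun j => (crd (Q j)).2)

theorem val_hom (D : TwD a b r x y w) (hw : AlgS (k0 x y r) w) :
    ∃ s : MvPolynomial (Fin r × Fin 2) ℤ, eR r x y s ≠ 0 ∧
      ∀ (Q : (j : Fin r) → Pt (a j : ℚ) (b j : ℚ)), (∀ j, Q j ≠ 0) → ∀ (u : ℚ) (Ω : Type)
      [Field Ω] [CharZero Ω] (V : Place ℂ Ω), (∀ G, eR r x y G ∈ V.A ∧
        V.r (eR r x y G) = ((eQ Q G : ℚ) : Ω)) → w ∈ V.A → V.r w = (u : Ω) → eQ Q s ≠ 0 →
      ∃ χ : D.A →+* ℚ, χ ∈ Ab (fun j : Fin r => D.Xf j) (fun j : Fin r => D.Yf j) Q := by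
  obtain ⟨G, hG, hcl⟩ := D.tws.ft
  have hden : ∀ γ : D.A, ∃ s : MvPolynomial (Fin r × Fin 2) ℤ, eR r x y s ≠ 0 ∧
      ∃ g : (MvPolynomial (Fin r × Fin 2) ℤ)[X], g.eval₂ (eR r x y) w = eR r x y s * D.ι γ :=
    fun γ => ad1_den x y w hw _ (D.le γ)
  choose s hs g hg using hden
  refine ⟨∏ γ ∈ hG.toFinset, s γ, ?_, ?_⟩
  · rw [map_prod]
    exact Finset.prod_ne_zero_iff.2 fun γ _ => hs γ
  intro Q hQ u Ω _ _ V hV hwA hwu hsQ
  rw [map_prod, Finset.prod_ne_zero_iff] at hsQ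
  have hXYV : ∀ j (hj : j < r), (D.ι (D.Xf j) ∈ V.A ∧ V.r (D.ι (D.Xf j)) =
      (((crd (Q ⟨j, hj⟩)).1 : ℚ) : Ω)) ∧ (D.ι (D.Yf j) ∈ V.A ∧ V.r (D.ι (D.Yf j)) =
      (((crd (Q ⟨j, hj⟩)).2 : ℚ) : Ω)) := by
    intro j hj
    have h1 := hV (MvPolynomial.X (⟨j, hj⟩, 0))
    have h2 := hV (MvPolynomial.X (⟨j, hj⟩, 1))
    unfold eR eQ at h1 h2
    rw [evp_x, evp_x] at h1
    rw [evp_y, evp_y] at h2
    rw [(D.hXY j hj).1, (D.hXY j hj).2]
    exact ⟨h1, h2⟩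
  have hint : ∀ c, D.ι c ∈ V.A := by
    intro c
    rw [← mem_vsP]
    refine D.tws.int ℂ (vsP V) D.ι (fun j hj => ?_) c
    rw [mem_vsP, mem_vsP]
    exact ⟨(hXYV j hj).1.1, (hXYV j hj).2.1⟩
  set ρ : D.A →+* Ω := V.ρ.comp (D.ι.codRestrict V.A hint) with hρ
  have hρc : ∀ c, ρ c = V.r (D.ι c) := fun c => (V.r_of (hint c)).symm
  -- values of polynomials
  have hval : ∀ g : (MvPolynomial (Fin r × Fin 2) ℤ)[X], ∃ q : ℚ,
      g.eval₂ (eR r x y) w ∈ V.A ∧ V.r (g.eval₂ (eR r x y) w) = (q : Ω) := by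
    intro g
    set e' : MvPolynomial (Fin r × Fin 2) ℤ →+* V.A := (eR r x y).codRestrict V.A
      (fun G => (hV G).1) with he'
    have h1 : g.eval₂ (eR r x y) w = ((g.eval₂ e' ⟨w, hwA⟩ : V.A) : ℂ) :=
      (hom_eval₂ g e' V.A.subtype ⟨w, hwA⟩).symm
    refine ⟨g.eval₂ (eQ Q) u, ?_, ?_⟩
    · rw [h1]
      exact (g.eval₂ e' ⟨w, hwA⟩).2
    · have h2 : V.r (g.eval₂ (eR r x y) w) = V.ρ (g.eval₂ e' ⟨w, hwA⟩) := by
        rw [h1, V.r_of (g.eval₂ e' ⟨w, hwA⟩).2]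
      rw [h2, hom_eval₂]
      have h3 : V.ρ.comp e' = (Rat.castHom Ω).comp (eQ Q) := by
        refine RingHom.ext fun G => ?_
        have h4 := (hV G).2
        rw [V.r_of (hV G).1] at h4
        exact h4
      have h4 : V.ρ ⟨w, hwA⟩ = Rat.castHom Ω u := by
        rw [← V.r_of hwA, hwu]
        rfl
      rw [h3, h4, ← hom_eval₂]
      rfl
  have hrange : ∀ γ ∈ G, ρ γ ∈ (Rat.castHom Ω).range := by
    intro γ hγ
    have hsγ := hsQ γ (hG.mem_toFinset.2 hγ)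
    obtain ⟨q, hq1, hq2⟩ := hval (g γ)
    rw [hg γ, V.r_mul (hV _).1 (hint γ), (hV _).2, ← hρc] at hq2
    have hne : ((eQ Q (s γ) : ℚ) : Ω) ≠ 0 := by exact_mod_cast hsγ
    refine ⟨q / eQ Q (s γ), ?_⟩
    change ((q / eQ Q (s γ) : ℚ) : Ω) = _
    rw [Rat.cast_div, ← hq2, mul_div_cancel_left₀ _ hne]
  have hall : ∀ c, ρ c ∈ (Rat.castHom Ω).range := by
    have h1 : Subring.closure G ≤ (Rat.castHom Ω).range.comap ρ := by
      rw [Subring.closure_le]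
      exact fun γ hγ => hrange γ hγ
    intro c
    rw [hcl] at h1
    exact h1 (Subring.mem_top c)
  have hinj : Function.Injective (Rat.castHom Ω) := (Rat.castHom Ω).injective
  choose f hf using hall
  refine ⟨{ toFun := f
            map_one' := hinj (by rw [hf, map_one, map_one])
            map_mul' := fun u v => hinj (by rw [hf, map_mul, map_mul, hf, hf])
            map_zero' := hinj (by rw [hf, map_zero, map_zero])
            map_add' := fun u v => hinj (by rw [hf, map_add, map_add, hf, hf]) }, fun j => ?_⟩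
  refine ⟨hQ j, Prod.ext ?_ ?_⟩
  · apply hinj
    change _ = Rat.castHom Ω (f (D.Xf j))
    rw [hf, hρc, (hXYV j j.2).1.2]
    rfl
  · apply hinj
    change _ = Rat.castHom Ω (f (D.Yf j))
    rw [hf, hρc, (hXYV j j.2).2.2]
    rfl

end

end Pool.Agent.J4H11.GQ
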