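import Pool.Agent.J4H11.GQ.Y4

/-!
# Rational points of the cover and homomorphisms to `ℚ`: conclusion
-/

set_option autoImplicit false
set_option linter.unusedSectionVars false

open Polynomial Pool.Agent.J4H11.RC Pool.Agent.J4H11.SC Pool.Agent.H901R3.MS WeierstrassCurve
  Pool.Agent.J4H11.GP Pool.Agent.J4H11.GN

namespace Pool.Agent.J4H11.GQ

section
variable {Ω : Type} [Field Ω] [CharZero Ω] (V : Place ℂ Ω)

theorem r_prod (s : Multiset ℂ) (hs : ∀ z ∈ s, z ∈ V.A) : s.prod ∈ V.A ∧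
    V.r s.prod = (s.map V.r).prod := by
  induction s using Multiset.induction_on with
  | empty => exact ⟨by rw [Multiset.prod_zero]; exact V.A.one_mem, by simp⟩
  | cons z s ih =>
    obtain ⟨h1, h2⟩ := ih (fun u hu => hs u (Multiset.mem_cons_of_mem hu))
    have hz := hs z (Multiset.mem_cons_self z s)
    rw [Multiset.prod_cons, Multiset.map_cons, Multiset.prod_cons, V.r_mul hz h1, h2]
    exact ⟨V.A.mul_mem hz h1, rfl⟩

/-- a root of the reduction of a polynomial is the reduction of a root -/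
theorem root_lift (F : ℂ[X]) (hF : F.Monic) (hc : ∀ i, F.coeff i ∈ V.A) (u : ℚ)
    (hu : V.r (F.eval (u : ℂ)) = 0) : ∃ w, F.IsRoot w ∧ w ∈ V.A ∧ V.r w = (u : Ω) := by
  have hw : ∀ w ∈ F.roots, w ∈ V.A := by
    intro w hw
    rw [mem_roots hF.ne_zero] at hw
    obtain ⟨q0, hq0, hqd, hqm⟩ := lifts_and_natDegree_eq_and_monic (f := (vsP V).subtype) (p := F)
      (by
        rw [lifts_iff_coeff_lifts]
        intro n
        exact ⟨⟨_, (mem_vsP V _).2 (hc n)⟩, rfl⟩) hF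
    have hint : IsIntegral (vsP V) w := by
      refine ⟨q0, hqm, ?_⟩
      have h1 : eval₂ (algebraMap (vsP V) ℂ) w q0 = (q0.map (vsP V).subtype).eval _ :=
        (eval_map _ _).symm
      rw [h1, hq0]
      exact hw
    obtain ⟨y, hy'⟩ := IsIntegrallyClosed.isIntegral_iff.1 hint
    rw [← hy', ← mem_vsP]
    exact y.2
  have huA := (r_rat V u).1
  have h1 := (IsAlgClosed.splits F).eval_eq_prod_roots_of_monic hF (u : ℂ)
  rw [h1] at hu
  have h2 := (r_prod V (F.roots.map (fun a => (u : ℂ) - a)) (by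
    intro z hz
    obtain ⟨w, hw', rfl⟩ := Multiset.mem_map.1 hz
    exact V.A.sub_mem huA (hw w hw'))).2
  rw [h2, Multiset.prod_eq_zero_iff, Multiset.map_map] at hu
  obtain ⟨w, hw', h3⟩ := Multiset.mem_map.1 hu
  refine ⟨w, (mem_roots hF.ne_zero).1 hw', hw w hw', ?_⟩
  rw [Function.comp_apply, V.r_sub huA (hw w hw'), (r_rat V u).2, sub_eq_zero] at h3
  exact h3.symm

end

end Pool.Agent.J4H11.GQ

attribute [local instance 5000] Classical.propDecidable

namespace Pool.Agent.J4H11.GQ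

section
variable {K Ω : Type} [Field K] [Field Ω]

theorem red_eq {a b : ℤ} (v : Place K Ω) (red : Pt (a : K) (b : K) →+ Pt (a : Ω) (b : Ω))
    (hred : IsRed v a b red) (Q : Pt (a : K) (b : K)) (hQ : Q ≠ 0) (c : Pt (a : Ω) (b : Ω))
    (hc : c ≠ 0) (hx : (crd Q).1 ∈ v.A ∧ v.r (crd Q).1 = (crd c).1)
    (hy : v.r (crd Q).2 = (crd c).2) : red Q = c := by
  rcases Q with _ | ⟨x, y, h⟩
  · exact absurd rfl hQ
  · obtain ⟨-, g, e3⟩ := hred.2.2 x y h hx.1
    rw [e3]
    refine pt_ext (some_ne g) hc ?_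
    exact Prod.ext hx.2 hy

end

section
variable {a b : ℕ → ℤ} {r : ℕ}

theorem rat_hom (hDQ : ∀ j, Disc (a j : ℚ) (b j : ℚ)) (hD : ∀ j, Disc (a j : ℂ) (b j : ℂ))
    (P R : (j : ℕ) → Pt (a j : ℂ) (b j : ℂ)) (m : ℕ → ℕ)
    (R0 : (j : ℕ) → Pt (a j : ℚ) (b j : ℚ))
    (hR : ∀ j < r, R j ≠ 0 ∧ m j • R j + pm (Rat.castHom ℂ) (hD j) (R0 j) = P j)
    {A0 : Type} [CommRing A0] (ι0 : A0 →+* ℂ) (hι0 : Function.Injective ι0) (X0 Y0 : ℕ → A0)
    (hXY0 : ∀ j < r, ι0 (X0 j) = cx R j ∧ ι0 (Y0 j) = cy R j)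
    (full0 : ∀ Q : (j : ℕ) → Pt (a j : ℚ) (b j : ℚ), (∀ j < r, Q j ≠ 0) →
      ∃ ψ : A0 →+* ℚ, ∀ j < r, crd (Q j) = (ψ (X0 j), ψ (Y0 j)))
    (Φ : (MvPolynomial (Fin r × Fin 2) ℤ)[X]) (hΦ : Φ.Monic)
    (D : ∀ w : {w : ℂ // (Φ.map (eR r (cx P) (cy P))).IsRoot w},
      TwD a b r (cx R) (cy R) w.1)
    (halg : ∀ w : {w : ℂ // (Φ.map (eR r (cx P) (cy P))).IsRoot w},
      AlgS (k0 (cx R) (cy R) r) w.1) :
    ∃ s : MvPolynomial (Fin r × Fin 2) ℤ, eR r (cx R) (cy R) s ≠ 0 ∧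
      ∀ Q : (j : Fin r) → Pt (a j : ℚ) (b j : ℚ), (∀ j, Q j ≠ 0) →
      (∀ j : Fin r, m j • Q j + R0 j ≠ 0) → eQ Q s ≠ 0 → ∀ u : ℚ,
      (Φ.map (eQ (fun j : Fin r => m j • Q j + R0 j))).IsRoot u →
      ∃ (w : {w : ℂ // (Φ.map (eR r (cx P) (cy P))).IsRoot w}) (χ : (D w).A →+* ℚ),
        χ ∈ Ab (fun j : Fin r => (D w).Xf j) (fun j : Fin r => (D w).Yf j) Q := by
  have hval := fun w => val_hom (D w) (halg w)
  choose s hs hmain using hval
  have hFm : (Φ.map (eR r (cx P) (cy P))).Monic := hΦ.map _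
  have hfin : Finite {w : ℂ // (Φ.map (eR r (cx P) (cy P))).IsRoot w} := by
    have h1 : {w : ℂ | (Φ.map (eR r (cx P) (cy P))).IsRoot w} ⊆
        ((Φ.map (eR r (cx P) (cy P))).roots.toFinset : Set ℂ) := by
      intro w hw
      rw [Finset.mem_coe, Multiset.mem_toFinset, mem_roots hFm.ne_zero]
      exact hw
    exact (Finset.finite_toSet _).subset h1
  let _ := Fintype.ofFinite {w : ℂ // (Φ.map (eR r (cx P) (cy P))).IsRoot w}
  refine ⟨∏ w, s w, ?_, fun Q hQ hmQ hsQ u hu => ?_⟩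
  · rw [map_prod]
    exact Finset.prod_ne_zero_iff.2 fun w _ => hs w
  rw [map_prod, Finset.prod_ne_zero_iff] at hsQ
  have hdom : IsDomain A0 := hι0.isDomain _
  obtain ⟨ψ, hψ⟩ := full0 (exPt Q) (fun j hj => by
    have : exPt Q j = Q ⟨j, hj⟩ := dif_pos hj
    rw [this]
    exact hQ _)
  obtain ⟨Ω, _, _, V, hV⟩ := place_ext ι0 hι0 ψ
  have hDΩ : ∀ j, Disc (a j : Ω) (b j : Ω) := fun j =>
    disc_of (Rat.castHom Ω) (a j) (b j) (hDQ j)
  -- the values at `R`
  have hVR : ∀ G, eR r (cx R) (cy R) G ∈ V.A ∧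
      V.r (eR r (cx R) (cy R) G) = ((eQ Q G : ℚ) : Ω) := by
    intro G
    have h1 : eR r (cx R) (cy R) = ι0.comp (evp (fun j : Fin r => X0 j) (fun j : Fin r => Y0 j)) := by
      rw [evp_comp]
      unfold eR
      congr 1
      · funext j
        exact (hXY0 j j.2).1.symm
      · funext j
        exact (hXY0 j j.2).2.symm
    have h2 : eQ Q = ψ.comp (evp (fun j : Fin r => X0 j) (fun j : Fin r => Y0 j)) := by
      rw [evp_comp]
      unfold eQ
      congr 1
      · funext j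
        have h3 := hψ j j.2
        have h4 : exPt Q (j : ℕ) = Q j := dif_pos j.2
        rw [h4] at h3
        exact congrArg Prod.fst h3
      · funext j
        have h3 := hψ j j.2
        have h4 : exPt Q (j : ℕ) = Q j := dif_pos j.2
        rw [h4] at h3
        exact congrArg Prod.snd h3
    rw [h1, h2]
    exact hV _
  -- the values at `P`
  have hcoord : ∀ j : Fin r, ((cx P j ∈ V.A ∧ V.r (cx P j) =
      (((crd (m j • Q j + R0 j)).1 : ℚ) : Ω)) ∧ (cy P j ∈ V.A ∧ V.r (cy P j) =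
      (((crd (m j • Q j + R0 j)).2 : ℚ) : Ω))) := by
    intro j
    obtain ⟨hRj, hRP⟩ := hR j j.2
    obtain ⟨red, hred⟩ := exists_red V (a j) (b j) (hDΩ j)
    have hx := hVR (MvPolynomial.X (j, 0))
    have hy := hVR (MvPolynomial.X (j, 1))
    unfold eR eQ at hx hy
    rw [evp_x, evp_x] at hx
    rw [evp_y, evp_y] at hy
    have h1 : red (R j) = pm (Rat.castHom Ω) (hDΩ j) (Q j) := by
      apply red_eq V red hred (R j) hRj _ (pm_ne _ _ (hQ j))
      · rw [pm_crd]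
        exact hx
      · rw [pm_crd]
        exact hy.2
    have h2 : red (pm (Rat.castHom ℂ) (hD j) (R0 j)) = pm (Rat.castHom Ω) (hDΩ j) (R0 j) :=
      red_pm V (hD j) (hDΩ j) red hred (Rat.castHom ℂ) (Rat.castHom Ω) (fun c => r_rat V c) (R0 j)
    have h3 : red (P j) = pm (Rat.castHom Ω) (hDΩ j) (m j • Q j + R0 j) := by
      rw [← hRP, map_add, map_nsmul, h1, h2, map_add, map_nsmul]
    have h4 : red (P j) ≠ 0 := by
      rw [h3]
      exact pm_ne _ _ (hmQ j)
    have h5 := red_crd V red hred (P j) h4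
    rw [h3, pm_crd] at h5
    exact h5
  have hVP : ∀ G, eR r (cx P) (cy P) G ∈ V.A ∧ V.r (eR r (cx P) (cy P) G) =
      ((eQ (fun j : Fin r => m j • Q j + R0 j) G : ℚ) : Ω) := by
    have hmem : ∀ G, eR r (cx P) (cy P) G ∈ V.A := by
      intro G
      induction G using MvPolynomial.induction_on with
      | C c =>
        have : eR r (cx P) (cy P) (MvPolynomial.C c) = (c : ℂ) := by
          simp [eR, evp]
        rw [this]
        exact V.int_mem c
      | add p q hp hq =>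
        rw [map_add]
        exact V.A.add_mem hp hq
      | mul_X p n hp =>
        rw [map_mul]
        refine V.A.mul_mem hp ?_
        obtain ⟨j, e⟩ := n
        rcases fin2 e with rfl | rfl
        · unfold eR
          rw [evp_x]
          exact (hcoord j).1.1
        · unfold eR
          rw [evp_y]
          exact (hcoord j).2.1
    intro G
    refine ⟨hmem G, ?_⟩
    have h1 : V.ρ.comp ((eR r (cx P) (cy P)).codRestrict V.A hmem) =
        (Rat.castHom Ω).comp (eQ (fun j : Fin r => m j • Q j + R0 j)) := by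
      apply MvPolynomial.ringHom_ext
      · intro n
        change V.ρ ((eR r (cx P) (cy P)).codRestrict V.A hmem (MvPolynomial.C n)) = _
        have e1 : (MvPolynomial.C n : MvPolynomial (Fin r × Fin 2) ℤ) = ((n : ℤ) : _) := by
          simp
        rw [e1, map_intCast, map_intCast, map_intCast]
      · rintro ⟨j, e⟩
        change V.ρ ⟨eR r (cx P) (cy P) (MvPolynomial.X (j, e)), hmem _⟩ = _
        rw [← V.r_of (hmem _)]
        rcases fin2 e with rfl | rfl
        · unfold eR eQ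
          rw [RingHom.comp_apply, evp_x, evp_x]
          exact (hcoord j).1.2
        · unfold eR eQ
          rw [RingHom.comp_apply, evp_y, evp_y]
          exact (hcoord j).2.2
    have h2 := DFunLike.congr_fun h1 G
    rw [V.r_of (hmem G)]
    exact h2
  -- the root
  obtain ⟨w, hw1, hw2, hw3⟩ := root_lift V (Φ.map (eR r (cx P) (cy P))) hFm (fun i => by
    rw [coeff_map]
    exact (hVP _).1) u (by
    set e' : MvPolynomial (Fin r × Fin 2) ℤ →+* V.A := (eR r (cx P) (cy P)).codRestrict V.A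
      (fun G => (hVP G).1) with he'
    have huA := (r_rat V u).1
    have h1 : (Φ.map (eR r (cx P) (cy P))).eval (u : ℂ) = ((Φ.eval₂ e' ⟨(u : ℂ), huA⟩ : V.A) : ℂ) := by
      rw [eval_map]
      exact (hom_eval₂ Φ e' V.A.subtype ⟨(u : ℂ), huA⟩).symm
    have h2 : V.r ((Φ.map (eR r (cx P) (cy P))).eval (u : ℂ)) = V.ρ (Φ.eval₂ e' ⟨(u : ℂ), huA⟩) := by
      rw [h1, V.r_of (Φ.eval₂ e' ⟨(u : ℂ), huA⟩).2]
    rw [h2, hom_eval₂]
    have h3 : V.ρ.comp e' = (Rat.castHom Ω).comp (eQ (fun j : Fin r => m j • Q j + R0 j)) := by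
      refine RingHom.ext fun G => ?_
      have h4 := (hVP G).2
      rw [V.r_of (hVP G).1] at h4
      exact h4
    have h4 : V.ρ ⟨(u : ℂ), huA⟩ = Rat.castHom Ω u := by
      rw [← V.r_of huA, (r_rat V u).2]
      rfl
    rw [h3, h4, ← hom_eval₂]
    have h5 : Φ.eval₂ (eQ (fun j : Fin r => m j • Q j + R0 j)) u = 0 := by
      rw [← eval_map]
      exact hu
    rw [h5, map_zero])
  obtain ⟨χ, hχ⟩ := hmain ⟨w, hw1⟩ Q hQ u Ω V hVR hw2 hw3 (hsQ _ (Finset.mem_univ _))
  exact ⟨⟨w, hw1⟩, χ, hχ⟩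

end

end Pool.Agent.J4H11.GQ
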