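import Pool.Agent.J4H11.GQ.Z9

/-!
# Few rational points on ramified covers
-/

set_option autoImplicit false

open Polynomial Finset Module Pool.Agent.J4H11.RC Pool.Agent.J4H11.SC Pool.Agent.H901R3.MS
  WeierstrassCurve Pool.Agent.J4H11.GN Pool.Agent.J4H11.GP

namespace Pool.Agent.J4H11.GQ

theorem ball_zero {r : ℕ} {a b : Fin r → ℤ} (hD : ∀ j, Disc (a j : ℚ) (b j : ℚ))
    (f : (j : Fin r) → Fin 3 → Pt (a j : ℚ) (b j : ℚ)) (hf : Ind3 f) :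
    BallG (a := a) (b := b) (fun Q => ∃ j, Q j = 0) := by
  have h := ball_of_box hD f (fun _ => 1) (fun _ => 0) (fun Q => ∃ j, Q j = 0)
    (fun Q => ∃ j, Q j = 0) (box_zero hD f hf) (fun Q hQ => by
      obtain ⟨j, hj⟩ := hQ
      refine ⟨j, ?_⟩
      beta_reduce at hj
      rwa [one_smul, add_zero] at hj)
  refine ballG_mono (fun Q hQ => ⟨hQ, Q, fun j => ?_⟩) h
  rw [one_smul, add_zero]

theorem ball_main {r : ℕ} (a b : ℕ → ℤ) (hDQ : ∀ j, Disc (a j : ℚ) (b j : ℚ))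
    (hrk : ∀ j, 3 ≤ finrank ℤ (Pt (a j : ℚ) (b j : ℚ)))
    (P : (j : ℕ) → Pt (a j : ℂ) (b j : ℂ))
    (hind : AlgebraicIndependent ℚ (fun j : Fin r => cx P j))
    (Φ : (MvPolynomial (Fin r × Fin 2) ℤ)[X]) (hΦ : Φ.Monic) (hyp : NoDiv P r Φ) :
    BallG (a := fun j : Fin r => a j) (b := fun j : Fin r => b j)
      (fun Q => (∀ j, Q j ≠ 0) → ∃ u : ℚ, (Φ.map (eQ Q)).IsRoot u) := by
  have hf0 : ∀ j : Fin r, ∃ f : Fin 3 → Pt (a j : ℚ) (b j : ℚ),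
      ∀ m : Fin 3 → ℤ, m ≠ 0 → ∑ t, m t • f t ≠ 0 := by
    intro j
    obtain ⟨f, hf⟩ := exists_linearIndependent_of_le_finrank (hrk j)
    refine ⟨f, fun m hm h0 => ?_⟩
    rw [linearIndependent_iff'] at hf
    apply hm
    funext t
    exact hf univ m h0 t (mem_univ t)
  choose f hf using hf0
  have hfI : Ind3 (a := fun j : Fin r => a j) (b := fun j : Fin r => b j) f := hf
  have hnt : ∀ j, NT (a j) (b j) := fun j => nt_of_rank (a j) (b j) (by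
    have := hrk j
    omega)
  have hP0 : ∀ j < r, P j ≠ 0 := by
    intro j hj h0
    have h1 := hind.transcendental ⟨j, hj⟩
    apply h1
    have h2 : cx P j = 0 := by
      rw [cx_def, h0]
      rfl
    change IsAlgebraic ℚ (cx P j)
    rw [h2]
    exact isAlgebraic_zero
  have hmw : ∀ j, ∀ m : ℕ, 1 ≤ m → ∃ 𝒯 : Set (Pt (a j : ℚ) (b j : ℚ)), 𝒯.Finite ∧
      ∀ Q, ∃ R0 ∈ 𝒯, ∃ Q', linQ m Q' R0 = Q := fun j m hm => finite_quot (a j) (b j) (hDQ j) m hm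
  obtain ⟨𝒮, h𝒮f, h𝒮1, h𝒮2⟩ := core1 hDQ hnt hmw P (ncr_ind P hind hP0) Φ hΦ hyp f hfI
  have hball : ∀ s ∈ 𝒮, BallG (a := fun j : Fin r => a j) (b := fun j : Fin r => b j)
      (fun Q => ((∀ j, Q j ≠ 0) ∧ ∃ u : ℚ, (Φ.map (eQ Q)).IsRoot u) ∧
        ∃ Q' : (j : Fin r) → Pt (a j : ℚ) (b j : ℚ), ∀ j : Fin r,
          s.1 j • Q' j + s.2 j = Q j) := by
    intro s hs
    refine ball_of_box (fun j => hDQ j) f (fun j => s.1 j) (fun j => s.2 j)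
      (fun Q => (∃ j, Q j = 0) ∨ ((∀ j, Q j ≠ 0) ∧
        (∀ j : Fin r, linQ (s.1 j) (Q j) (s.2 j) ≠ 0) ∧
          ∃ u : ℚ, (Φ.map (eQ (fun j : Fin r => linQ (s.1 j) (Q j) (s.2 j)))).IsRoot u)) _
      (boxG_or f (box_zero (fun j => hDQ j) f hfI) (h𝒮2 s hs)) ?_
    rintro Q ⟨hQ1, hQ2⟩
    by_cases h : ∀ j, Q j ≠ 0
    · exact Or.inr ⟨h, hQ1, hQ2⟩
    · push Not at h
      exact Or.inl h
  have hU := ballG_or (ball_zero (fun j => hDQ j) f hfI) (ballG_iUnion 𝒮 h𝒮f _ hball)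
  refine ballG_mono (fun Q hQ => ?_) hU
  by_cases h : ∀ j, Q j ≠ 0
  · right
    obtain ⟨s, hs, h1⟩ := h𝒮1 (exPt Q)
    refine ⟨s, hs, ⟨h, hQ h⟩, ?_⟩
    have h2 : ∀ j : Fin r, ∃ Q' : Pt (a j : ℚ) (b j : ℚ), s.1 j • Q' + s.2 j = Q j := by
      intro j
      obtain ⟨Q', hQ'⟩ := h1 j j.2
      have h3 : exPt Q (j : ℕ) = Q j := dif_pos j.2
      rw [h3] at hQ'
      exact ⟨Q', hQ'⟩
    choose Q' hQ' using h2
    exact ⟨Q', hQ'⟩
  · push Not at h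
    exact Or.inl h

end Pool.Agent.J4H11.GQ
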