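import Pool.Agent.J4H11.GQ.Z10
import Pool.Agent.J4H11.RC.Low

/-!
# Few rational points on ramified covers: finite families of curves
-/

set_option autoImplicit false

open Polynomial Finset Module Pool.Agent.J4H11.RC Pool.Agent.J4H11.SC Pool.Agent.H901R3.MS
  WeierstrassCurve Pool.Agent.J4H11.GN Pool.Agent.J4H11.GP

namespace Pool.Agent.J4H11.GQ

theorem ext_fam {r : ℕ} (hr : 1 ≤ r) (a b : Fin r → ℤ) : ∃ a' b' : ℕ → ℤ,
    (a = fun j : Fin r => a' j) ∧ (b = fun j : Fin r => b' j) ∧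
    ∀ j, ∃ i : Fin r, a' j = a i ∧ b' j = b i := by
  refine ⟨fun j => if h : j < r then a ⟨j, h⟩ else a ⟨0, hr⟩,
    fun j => if h : j < r then b ⟨j, h⟩ else b ⟨0, hr⟩, ?_, ?_, fun j => ?_⟩
  · funext j
    beta_reduce
    rw [dif_pos j.2]
  · funext j
    beta_reduce
    rw [dif_pos j.2]
  · by_cases h : j < r
    · exact ⟨⟨j, h⟩, dif_pos h, dif_pos h⟩
    · exact ⟨⟨0, hr⟩, dif_neg h, dif_neg h⟩

theorem ball_fin {r : ℕ} (hr : 1 ≤ r) (a b : Fin r → ℤ) (hDQ : ∀ j, Disc (a j : ℚ) (b j : ℚ))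
    (hrk : ∀ j, 3 ≤ finrank ℤ (Pt (a j : ℚ) (b j : ℚ)))
    (P : (j : Fin r) → Pt (a j : ℂ) (b j : ℂ))
    (hind : AlgebraicIndependent ℚ (fun j => (crd (P j)).1))
    (Φ : (MvPolynomial (Fin r × Fin 2) ℤ)[X]) (hΦ : Φ.Monic)
    (hyp : ∀ n : ℕ, 1 ≤ n → ∀ R S : (j : Fin r) → Pt (a j : ℂ) (b j : ℂ),
      (∀ j, n • R j + S j = P j) → (∀ j, IsRatP (S j)) → ∀ w : ℂ,
      (Φ.map (evp (fun j => (crd (P j)).1) (fun j => (crd (P j)).2))).IsRoot w →
      w ∉ Subfield.closure (Set.range (fun j => (crd (R j)).1) ∪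
        Set.range (fun j => (crd (R j)).2))) :
    BallG (a := a) (b := b) (fun Q => (∀ j, Q j ≠ 0) →
      ∃ u : ℚ, (Φ.map (evp (fun j => (crd (Q j)).1) (fun j => (crd (Q j)).2))).IsRoot u) := by
  obtain ⟨a', b', rfl, rfl, hext⟩ := ext_fam hr a b
  have hDQ' : ∀ j, Disc (a' j : ℚ) (b' j : ℚ) := by
    intro j
    obtain ⟨i, h1, h2⟩ := hext j
    rw [h1, h2]
    exact hDQ i
  have hrk' : ∀ j, 3 ≤ finrank ℤ (Pt (a' j : ℚ) (b' j : ℚ)) := by
    intro j
    obtain ⟨i, h1, h2⟩ := hext j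
    rw [h1, h2]
    exact hrk i
  have hx : ∀ j : Fin r, cx (a := a') (b := b') (exPt (a := a') (b := b') P) j =
      (crd (P j)).1 := by
    intro j
    rw [cx_def]
    have h : exPt (a := a') (b := b') P (j : ℕ) = P j := dif_pos j.2
    rw [h]
  have hy : ∀ j : Fin r, cy (a := a') (b := b') (exPt (a := a') (b := b') P) j =
      (crd (P j)).2 := by
    intro j
    rw [cy_def]
    have h : exPt (a := a') (b := b') P (j : ℕ) = P j := dif_pos j.2
    rw [h]
  have hxf : (fun j : Fin r => cx (a := a') (b := b') (exPt (a := a') (b := b') P) j) =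
      fun j => (crd (P j)).1 := funext hx
  have hyf : (fun j : Fin r => cy (a := a') (b := b') (exPt (a := a') (b := b') P) j) =
      fun j => (crd (P j)).2 := funext hy
  refine ball_main a' b' hDQ' hrk' (exPt P) (by rw [hxf]; exact hind) Φ hΦ ?_
  intro n hn R S hRS w hw hwR
  have heR : eR r (cx (a := a') (b := b') (exPt (a := a') (b := b') P))
      (cy (a := a') (b := b') (exPt (a := a') (b := b') P)) =
      evp (fun j => (crd (P j)).1) (fun j => (crd (P j)).2) := by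
    unfold eR
    rw [hxf, hyf]
  rw [heR] at hw
  refine hyp n hn (fun j => R j) (fun j => S j) (fun j => ?_) (fun j => (hRS j j.2).2) w hw ?_
  · have h1 := (hRS j j.2).1
    have h2 : exPt (a := a') (b := b') P (j : ℕ) = P j := dif_pos j.2
    rw [h2] at h1
    exact h1
  · refine k0_le _ _ _ _ (fun j hj => ?_) hwR
    exact ⟨Subfield.subset_closure (Or.inl ⟨⟨j, hj⟩, rfl⟩),
      Subfield.subset_closure (Or.inr ⟨⟨j, hj⟩, rfl⟩)⟩

end Pool.Agent.J4H11.GQ
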