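import Pool.Agent.J4H11.GQ.Z1
import Pool.Agent.J4H11.GC.Tow4

/-!
# The tower of primes
-/

set_option autoImplicit false

namespace Pool.Agent.J4H11.GQ

open Finset MvPolynomial WeierstrassCurve Pool.Agent.H901R3.MS Pool.Agent.J4H11.RC
  Pool.Agent.J4H11.GC

/-- the exponents of the products of the group orders -/
def EQ (r : ℕ) : ℕ → ℕ
  | 0 => 0
  | m + 1 => EQ r m + r * (1 + (200 * r + 1) ^ m)

theorem eq_le (r m : ℕ) : 100 * EQ r m ≤ (200 * r + 1) ^ m := by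
  induction m with
  | zero => simp [EQ]
  | succ m ih =>
    have h1 : EQ r (m + 1) = EQ r m + r * (1 + (200 * r + 1) ^ m) := rfl
    have h2 : 1 ≤ (200 * r + 1) ^ m := Nat.one_le_pow _ _ (by omega)
    rw [h1, pow_succ]
    nlinarith

section
variable {r : ℕ} {a b : Fin r → ℤ}

/-- the product of the numbers of points modulo `p` -/
noncomputable def cntQ (a b : Fin r → ℤ) (p : ℕ) : ℕ := ∏ j, cnt (a j) (b j) p

theorem cnt_pos (a b : ℤ) (p : ℕ) [Fact p.Prime] : 1 ≤ cnt a b p := by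
  rw [cnt_eq]
  have := finite_pt (a : ZMod p) (b : ZMod p)
  exact Nat.card_pos

theorem tower_primesQ (sp : ℕ → Prop) [DecidablePred sp] (c : ℝ) (T : ℕ) (hc : 0 < c)
    (hT : ∀ y : ℕ, T ≤ y → c * ((y : ℝ) / Real.log y) ≤
      (((Icc 1 y).filter (fun p => p.Prime ∧ sp p)).card : ℝ))
    (hD : ∀ j, Disc (a j : ℚ) (b j : ℚ))
    (f : (j : Fin r) → Fin 3 → Pt (a j : ℚ) (b j : ℚ))
    (hf : ∀ j, ∀ m : Fin 3 → ℤ, m ≠ 0 → ∑ t, m t • f j t ≠ 0) (N1 : ℕ)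
    (hN1 : ∀ p : ℕ, N1 < p → ∀ [Fact p.Prime], ∀ j, Disc (a j : ZMod p) (b j : ZMod p) ∧ p ≠ 2) :
    ∃ B : ℕ, 2 ≤ B ∧ ∃ (pr : ℕ → ℕ) (_ : ∀ m, Fact (pr m).Prime),
      ∀ m, GoodQ sp f N1 (B ^ (200 * r + 1) ^ m) (∏ l ∈ range m, cntQ a b (pr l)) (pr m) ∧
        ∏ l ∈ range m, cntQ a b (pr l) ≤ B ^ (200 * r + 1) ^ m := by
  classical
  obtain ⟨Y, hY⟩ := good_towerQ sp c T hc hT hD f hf N1
  set D := 200 * r + 1 with hDD
  set B := max Y 4 with hB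
  have hBY : Y ≤ B := le_max_left _ _
  have hB4 : 4 ≤ B := le_max_right _ _
  have hB1 : 1 ≤ B := by omega
  refine ⟨B, by omega, ?_⟩
  have hnx : ∀ y M : ℕ, ∃ p : ℕ, (∃ p' : ℕ, GoodQ sp f N1 y M p') → GoodQ sp f N1 y M p := by
    intro y M
    by_cases h : ∃ p' : ℕ, GoodQ sp f N1 y M p'
    · obtain ⟨p, hp⟩ := h
      exact ⟨p, fun _ => hp⟩
    · exact ⟨0, fun h' => absurd h' h⟩
  choose nx hnx using hnx
  obtain ⟨Mq, hMq0, hMqS⟩ : ∃ Mq : ℕ → ℕ, Mq 0 = 1 ∧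
      ∀ m, Mq (m + 1) = Mq m * cntQ a b (nx (B ^ D ^ m) (Mq m)) :=
    ⟨fun m => Nat.rec 1 (fun m M => M * cntQ a b (nx (B ^ D ^ m) M)) m, rfl, fun _ => rfl⟩
  have hDpos : 0 < D := by omega
  have hpw : ∀ m, B ≤ B ^ D ^ m := fun m => by
    calc B = B ^ 1 := (pow_one B).symm
      _ ≤ B ^ D ^ m := Nat.pow_le_pow_right hB1 (Nat.one_le_pow _ _ hDpos)
  have hgood : ∀ m, 1 ≤ Mq m → Mq m ≤ B ^ EQ r m →
      GoodQ sp f N1 (B ^ D ^ m) (Mq m) (nx (B ^ D ^ m) (Mq m)) := by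
    intro m h1 h2
    refine hnx _ _ (hY _ (hBY.trans (hpw m)) _ h1 ?_)
    have h3 : (Mq m) ^ 100 ≤ B ^ D ^ m := by
      calc (Mq m) ^ 100 ≤ (B ^ EQ r m) ^ 100 := Nat.pow_le_pow_left h2 100
        _ = B ^ (100 * EQ r m) := by rw [← pow_mul, mul_comm]
        _ ≤ B ^ D ^ m := Nat.pow_le_pow_right hB1 (eq_le r m)
    have h4 : ((Mq m : ℝ)) ^ 100 ≤ ((B ^ D ^ m : ℕ) : ℝ) := by exact_mod_cast h3
    have h5 : ((Mq m : ℝ) ^ 100) ^ (1 / 100 : ℝ) = Mq m := by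
      rw [← Real.rpow_natCast, ← Real.rpow_mul (Nat.cast_nonneg _)]
      norm_num
    rw [← h5]
    exact Real.rpow_le_rpow (by positivity) h4 (by norm_num)
  have main : ∀ m, 1 ≤ Mq m ∧ Mq m ≤ B ^ EQ r m := by
    intro m
    induction m with
    | zero => rw [hMq0]; exact ⟨le_refl _, by simp [EQ]⟩
    | succ m ih =>
      obtain ⟨ih1, ih2⟩ := ih
      have hg := hgood m ih1 ih2
      have : Fact (nx (B ^ D ^ m) (Mq m)).Prime := ⟨hg.1⟩
      have hN := fun j => hN1 (nx (B ^ D ^ m) (Mq m)) hg.2.2.1 j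
      rw [hMqS]
      constructor
      · have h1 : 1 ≤ cntQ a b (nx (B ^ D ^ m) (Mq m)) :=
          Nat.one_le_iff_ne_zero.2 (prod_ne_zero_iff.2 fun j _ => by
            have := cnt_pos (a j) (b j) (nx (B ^ D ^ m) (Mq m))
            omega)
        exact Nat.one_le_iff_ne_zero.2 (Nat.mul_ne_zero (by omega) (by omega))
      · have h2 : cntQ a b (nx (B ^ D ^ m) (Mq m)) ≤ (B * B ^ D ^ m) ^ r := by
          unfold cntQ
          calc ∏ j, cnt (a j) (b j) (nx (B ^ D ^ m) (Mq m)) ≤ ∏ _j : Fin r, B * B ^ D ^ m := by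
                apply prod_le_prod'
                intro j _
                exact (cnt_le (a j) (b j) _ (hN j).1 (hN j).2).trans (Nat.mul_le_mul hB4 hg.2.1)
            _ = _ := by rw [prod_const, card_univ, Fintype.card_fin]
        calc Mq m * cntQ a b (nx (B ^ D ^ m) (Mq m))
            ≤ B ^ EQ r m * (B * B ^ D ^ m) ^ r := Nat.mul_le_mul ih2 h2
          _ = B ^ EQ r (m + 1) := by
            have : EQ r (m + 1) = EQ r m + r * (1 + D ^ m) := rfl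
            rw [this, pow_add, mul_comm r, pow_mul, pow_add, pow_one]
  have hG := fun m => hgood m (main m).1 (main m).2
  refine ⟨fun m => nx (B ^ D ^ m) (Mq m), fun m => ⟨(hG m).1⟩, fun m => ?_⟩
  have hprod : ∀ m, (∏ l ∈ range m, cntQ a b (nx (B ^ D ^ l) (Mq l))) = Mq m := by
    intro m
    induction m with
    | zero => rw [hMq0]; simp
    | succ m ih => rw [prod_range_succ, ih, hMqS]
  rw [hprod m]
  refine ⟨hG m, (main m).2.trans (Nat.pow_le_pow_right hB1 ?_)⟩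
  have h9 : 100 * EQ r m ≤ D ^ m := eq_le r m
  omega

end

/-- the asymptotic choice of the number of primes -/
theorem asyQ (θ : ℝ) (hθ0 : 0 ≤ θ) (hθ1 : θ < 1) (D B : ℕ) (hD : 1 ≤ D) (hB : 2 ≤ B) :
    ∃ γ0 : ℝ, 0 < γ0 ∧ ∀ γ : ℝ, 0 < γ → γ ≤ γ0 → ∃ C : ℝ, 0 ≤ C ∧ ∃ L0 : ℕ, 3 ≤ L0 ∧ ∀ L : ℕ,
      L0 ≤ L → ∃ K : ℕ, B ^ D ^ K ≤ L ∧ θ ^ K ≤ C * Real.log L ^ (-γ) := by
  obtain ⟨D1, hD1, hDD1⟩ : ∃ D1 : ℕ, 2 ≤ D1 ∧ D ≤ D1 := ⟨D + 1, by omega, by omega⟩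
  have hD1R : (1 : ℝ) < D1 := by exact_mod_cast (by omega : 1 < D1)
  have hD0 : (0 : ℝ) < D1 := by linarith
  -- the exponent
  obtain ⟨γ0, hγ0, hγθ⟩ : ∃ γ0 : ℝ, 0 < γ0 ∧ θ ≤ (D1 : ℝ) ^ (-γ0) := by
    have h1 : Filter.Tendsto (fun g : ℝ => (D1 : ℝ) ^ (-g)) (nhdsWithin 0 (Set.Ioi 0))
        (nhds ((D1 : ℝ) ^ (-(0 : ℝ)))) := by
      apply Filter.Tendsto.mono_left _ nhdsWithin_le_nhds
      have : Continuous (fun g : ℝ => (D1 : ℝ) ^ (-g)) := by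
        apply Continuous.rpow continuous_const continuous_neg
        intro x
        exact Or.inl hD0.ne'
      exact this.tendsto 0
    rw [neg_zero, Real.rpow_zero] at h1
    have h2 := (h1.eventually (lt_mem_nhds hθ1)).and self_mem_nhdsWithin
    obtain ⟨g, hg1, hg2⟩ := h2.exists
    exact ⟨g, hg2, hg1.le⟩
  refine ⟨γ0, hγ0, fun γ hγ hγ1 => ?_⟩
  have hBR : (1 : ℝ) < B := by exact_mod_cast (by omega : 1 < B)
  have hlB : 0 < Real.log B := Real.log_pos hBR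
  refine ⟨(D1 * Real.log B) ^ γ, Real.rpow_nonneg (by positivity) _,
    max 3 B, le_max_left _ _, fun L hL => ?_⟩
  have hL3 : 3 ≤ L := (le_max_left _ _).trans hL
  have hLB : B ≤ L := (le_max_right _ _).trans hL
  have hLR : (3 : ℝ) ≤ L := by exact_mod_cast hL3
  have hL0 : (0 : ℝ) < L := by linarith
  have hlL : 0 < Real.log L := Real.log_pos (by linarith)
  obtain ⟨K, hK1, hK2⟩ : ∃ K : ℕ, B ^ D1 ^ K ≤ L ∧ L < B ^ D1 ^ (K + 1) := by
    have hex : ∃ K : ℕ, L < B ^ D1 ^ K := by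
      refine ⟨L, ?_⟩
      calc L < 2 ^ L := Nat.lt_two_pow_self
        _ ≤ B ^ L := Nat.pow_le_pow_left hB L
        _ ≤ B ^ D1 ^ L := Nat.pow_le_pow_right (by omega) (Nat.lt_pow_self (by omega)).le
    classical
    have h1 := Nat.find_spec hex
    have h2 : Nat.find hex ≠ 0 := by
      intro h0
      rw [h0, pow_zero, pow_one] at h1
      omega
    obtain ⟨K, hK⟩ := Nat.exists_eq_succ_of_ne_zero h2
    refine ⟨K, ?_, ?_⟩
    · by_contra h3
      have := Nat.find_min' hex (not_le.1 h3)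
      omega
    · rw [hK] at h1
      exact h1
  refine ⟨K, ?_, ?_⟩
  · refine le_trans (Nat.pow_le_pow_right (by omega) ?_) hK1
    exact Nat.pow_le_pow_left hDD1 K
  · have h1 : θ ^ K ≤ ((D1 : ℝ) ^ (-γ)) ^ K := by
      apply pow_le_pow_left₀ hθ0
      exact hγθ.trans (Real.rpow_le_rpow_of_exponent_le hD1R.le (by linarith))
    have h2 : ((D1 : ℝ) ^ (-γ)) ^ K = ((D1 : ℝ) ^ K) ^ (-γ) := by
      rw [← Real.rpow_natCast, ← Real.rpow_mul hD0.le, ← Real.rpow_natCast,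
        ← Real.rpow_mul hD0.le, mul_comm]
    have h3 : Real.log L / (D1 * Real.log B) ≤ (D1 : ℝ) ^ K := by
      rw [div_le_iff₀ (by positivity)]
      have h4 : Real.log L ≤ Real.log ((B : ℝ) ^ D1 ^ (K + 1)) := by
        apply Real.log_le_log hL0
        exact_mod_cast hK2.le
      rw [Real.log_pow] at h4
      push_cast at h4
      rw [pow_succ] at h4
      linarith
    have h4 : ((D1 : ℝ) ^ K) ^ (-γ) ≤ (Real.log L / (D1 * Real.log B)) ^ (-γ) := by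
      apply Real.rpow_le_rpow_of_nonpos (by positivity) h3 (by linarith)
    have h5 : (Real.log L / (D1 * Real.log B)) ^ (-γ) =
        (D1 * Real.log B) ^ γ * Real.log L ^ (-γ) := by
      rw [Real.div_rpow hlL.le (by positivity), Real.rpow_neg (by positivity : 0 ≤ D1 * Real.log B)]
      rw [div_inv_eq_mul, mul_comm]
    rw [h2] at h1
    exact h1.trans (h4.trans (le_of_eq h5))

end Pool.Agent.J4H11.GQ
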