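import Pool.Agent.J4H11.GQ.Z2
import Pool.Agent.J4H11.GQ.X2
import Pool.Agent.J4H11.GC.Tow2

/-!
# The count of the points of a box
-/

set_option autoImplicit false

namespace Pool.Agent.J4H11.GQ

open Finset WeierstrassCurve Pool.Agent.H901R3.MS Pool.Agent.J4H11.RC Pool.Agent.J4H11.GC

section
variable {r : ℕ} {E : Fin r → Type} [∀ j, AddCommGroup (E j)] (x : (j : Fin r) → Fin 3 → E j)

/-- the generators of the product -/
def gS (s : Fin (r * 3)) : (j : Fin r) → E j :=
  Pi.single (finProdFinEquiv.symm s).1 (x (finProdFinEquiv.symm s).1 (finProdFinEquiv.symm s).2)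

theorem gS_sum (z : Fin (r * 3) → ℕ) (j : Fin r) :
    (∑ s, z s • gS x s) j = ∑ t, z (finProdFinEquiv (j, t)) • x j t := by
  rw [← Equiv.sum_comp finProdFinEquiv, Fintype.sum_prod_type, Finset.sum_apply,
    Finset.sum_eq_single j]
  · rw [Finset.sum_apply]
    refine sum_congr rfl fun t _ => ?_
    rw [Pi.smul_apply]
    unfold gS
    rw [Equiv.symm_apply_apply, Pi.single_eq_same]
  · intro j' _ hj
    rw [Finset.sum_apply]
    refine sum_eq_zero fun t _ => ?_
    rw [Pi.smul_apply]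
    unfold gS
    rw [Equiv.symm_apply_apply, Pi.single_eq_of_ne (Ne.symm hj), smul_zero]
  · intro h
    exact absurd (mem_univ j) h

theorem gS_mem (v : (j : Fin r) → E j) : v ∈ AddSubgroup.closure (Set.range (gS x)) ↔
    ∀ j, v j ∈ AddSubgroup.closure (Set.range (x j)) := by
  constructor
  · intro h j
    have h1 : AddSubgroup.closure (Set.range (gS x)) ≤
        (AddSubgroup.closure (Set.range (x j))).comap (Pi.evalAddMonoidHom E j) := by
      rw [AddSubgroup.closure_le]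
      rintro _ ⟨s, rfl⟩
      change gS x s j ∈ AddSubgroup.closure (Set.range (x j))
      unfold gS
      generalize finProdFinEquiv.symm s = js
      obtain ⟨j', t⟩ := js
      by_cases hj : j' = j
      · subst hj
        rw [Pi.single_eq_same]
        exact AddSubgroup.subset_closure ⟨t, rfl⟩
      · rw [Pi.single_eq_of_ne (Ne.symm hj)]
        exact AddSubgroup.zero_mem _
    exact h1 h
  · intro h
    rw [← Finset.univ_sum_single v]
    refine AddSubgroup.sum_mem _ fun j _ => ?_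
    have h1 : AddSubgroup.closure (Set.range (x j)) ≤
        (AddSubgroup.closure (Set.range (gS x))).comap (AddMonoidHom.single E j) := by
      rw [AddSubgroup.closure_le]
      rintro _ ⟨t, rfl⟩
      change Pi.single j (x j t) ∈ AddSubgroup.closure (Set.range (gS x))
      refine AddSubgroup.subset_closure ⟨finProdFinEquiv (j, t), ?_⟩
      unfold gS
      rw [Equiv.symm_apply_apply]
    exact h1 (h j)

theorem gS_card : Nat.card (AddSubgroup.closure (Set.range (gS x))) =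
    ∏ j, Nat.card (AddSubgroup.closure (Set.range (x j))) := by
  rw [← Nat.card_pi]
  refine Nat.card_congr
    { toFun := fun v j => ⟨v.1 j, (gS_mem x v.1).1 v.2 j⟩
      invFun := fun v => ⟨fun j => v j, (gS_mem x _).2 fun j => (v j).2⟩
      left_inv := fun v => rfl
      right_inv := fun v => rfl }

end

section
variable {r : ℕ} {a b : Fin r → ℤ}

theorem disc_large (hD : ∀ j, Disc (a j : ℚ) (b j : ℚ)) : ∃ N0 : ℕ, ∀ p : ℕ, N0 < p →
    ∀ [Fact p.Prime], ∀ j, Disc (a j : ZMod p) (b j : ZMod p) ∧ p ≠ 2 := by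
  refine ⟨2 + ∑ j, (2 * (4 * a j ^ 3 + 27 * b j ^ 2)).natAbs, fun p hp _ j => ⟨?_, by omega⟩⟩
  apply disc_int (a j) (b j) (hD j)
  have := single_le_sum (f := fun j => (2 * (4 * a j ^ 3 + 27 * b j ^ 2)).natAbs)
    (fun _ _ => Nat.zero_le _) (mem_univ j)
  omega

open Classical in
theorem boxQ (sp : ℕ → Prop) (c0 : ℝ) (T : ℕ) (hc : 0 < c0)
    (hT : ∀ y : ℕ, T ≤ y → c0 * ((y : ℝ) / Real.log y) ≤
      (((Icc 1 y).filter (fun p => p.Prime ∧ sp p)).card : ℝ))
    (hD : ∀ j, Disc (a j : ℚ) (b j : ℚ))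
    (f : (j : Fin r) → Fin 3 → Pt (a j : ℚ) (b j : ℚ))
    (hf : ∀ j, ∀ m : Fin 3 → ℤ, m ≠ 0 → ∑ t, m t • f j t ≠ 0)
    (N : ℕ) (hN : 2 ≤ N)
    (S : (p : ℕ) → [Fact p.Prime] → Set ((j : Fin r) → Pt (a j : ZMod p) (b j : ZMod p)))
    (hLoc : LocC a b sp N S) (Lf : ((j : Fin r) → Pt (a j : ℚ) (b j : ℚ)) → Prop) (p0 : ℕ)
    (hLf : ∀ p : ℕ, p0 ≤ p → ∀ (_ : Fact p.Prime) (ld : LD a b p) (Q), Lf Q →
      (fun j => ld.red j (Q j)) ∈ S p) :
    ∃ γ0 : ℝ, 0 < γ0 ∧ ∀ γ : ℝ, 0 < γ → γ ≤ γ0 → ∃ C : ℝ, 0 ≤ C ∧ ∃ L0 : ℕ, 3 ≤ L0 ∧ ∀ L : ℕ,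
      L0 ≤ L → ∀ c : (j : Fin r) → Pt (a j : ℚ) (b j : ℚ),
      (((Fintype.piFinset (fun _ : Fin (r * 3) => range L)).filter
        (fun z => Lf (fun j => c j + ∑ t, z (finProdFinEquiv (j, t)) • f j t))).card : ℝ) ≤
        C * (L : ℝ) ^ (r * 3) * Real.log L ^ (-γ) := by
  obtain ⟨T0, hT0⟩ := hLoc (1 / 20) (by norm_num)
  obtain ⟨N0, hN0⟩ := disc_large hD
  set N1 := max T0 (max p0 N0) with hN1
  obtain ⟨B, hB2, pr, hp, hpr⟩ := tower_primesQ sp c0 T hc hT hD f hf N1 (fun p hp' _ => by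
    apply hN0
    exact lt_of_le_of_lt ((le_max_right _ _).trans (le_max_right _ _)) hp')
  have hNR : (2 : ℝ) ≤ N := by exact_mod_cast hN
  have hθ0 : 0 ≤ 1 - 1 / (N : ℝ) := by
    rw [sub_nonneg, div_le_one (by linarith)]
    linarith
  have hθ1 : 1 - 1 / (N : ℝ) < 1 := by
    have : 0 < 1 / (N : ℝ) := by positivity
    linarith
  obtain ⟨γ0, hγ0, hγ⟩ := asyQ (1 - 1 / (N : ℝ)) hθ0 hθ1 (200 * r + 1) B (by omega) hB2
  refine ⟨γ0, hγ0, fun γ g1 g2 => ?_⟩
  obtain ⟨C, hC, L0, hL03, hL0⟩ := hγ γ g1 g2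
  refine ⟨C * 2 ^ (r * 3), by positivity, L0, hL03, fun L hL c => ?_⟩
  obtain ⟨K, hK1, hK2⟩ := hL0 L hL
  have hlarge : ∀ m, N1 < pr m := fun m => (hpr m).1.2.2.1
  have hdisc : ∀ m j, Disc (a j : ZMod (pr m)) (b j : ZMod (pr m)) := fun m j =>
    (hN0 (pr m) (lt_of_le_of_lt ((le_max_right _ _).trans (le_max_right _ _)) (hlarge m)) j).1
  have hldm : ∀ m, Nonempty (LD a b (pr m)) := fun m => exists_LD (pr m) (hdisc m)
  obtain ⟨ld⟩ : Nonempty (∀ m, LD a b (pr m)) := ⟨fun m => (hldm m).some⟩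
  have hfin : ∀ m j, Finite (Pt (a j : ZMod (pr m)) (b j : ZMod (pr m))) := fun m j =>
    finite_pt _ _
  have hkill : ∀ m j (v : Pt (a j : ZMod (pr m)) (b j : ZMod (pr m))),
      cntQ a b (pr m) • v = 0 := by
    intro m j v
    have h1 : Nat.card (Pt (a j : ZMod (pr m)) (b j : ZMod (pr m))) ∣ cntQ a b (pr m) := by
      rw [← cnt_eq]
      exact dvd_prod_of_mem (fun j => cnt (a j) (b j) (pr m)) (mem_univ j)
    obtain ⟨d, hd⟩ := h1
    rw [hd, mul_comm, mul_smul, card_nsmul_eq_zero', smul_zero]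
  have hmodk : ∀ m j (v : Pt (a j : ZMod (pr m)) (b j : ZMod (pr m))) (n : ℕ),
      n • v = (n % cntQ a b (pr m)) • v := by
    intro m j v n
    conv_lhs => rw [← Nat.mod_add_div n (cntQ a b (pr m))]
    rw [add_smul, mul_comm, mul_smul, hkill, smul_zero, add_zero]
  have hred : ∀ m j (z : Fin (r * 3) → ℕ), (ld m).red j
      (c j + ∑ t, z (finProdFinEquiv (j, t)) • f j t) =
      (ld m).red j (c j) + ∑ t, z (finProdFinEquiv (j, t)) • (ld m).red j (f j t) := by
    intro m j z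
    rw [map_add, map_sum]
    congr 1
    exact sum_congr rfl fun t _ => map_nsmul _ _ _
  have key := tower (k := r * 3) (fun m => cntQ a b (pr m)) (fun m =>
    Nat.one_le_iff_ne_zero.2 (prod_ne_zero_iff.2 fun j _ => by
      have := cnt_pos (a j) (b j) (pr m)
      omega))
    (fun m z => (fun j => (ld m).red j (c j + ∑ t, z (finProdFinEquiv (j, t)) • f j t)) ∈ S (pr m))
    N K ?_ ?_ L
  · -- the conclusion
    have hsub : (Fintype.piFinset (fun _ : Fin (r * 3) => range L)).filter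
        (fun z => Lf (fun j => c j + ∑ t, z (finProdFinEquiv (j, t)) • f j t)) ⊆
        (Fintype.piFinset (fun _ : Fin (r * 3) => range L)).filter (fun z => ∀ m < K,
          (fun j => (ld m).red j (c j + ∑ t, z (finProdFinEquiv (j, t)) • f j t)) ∈ S (pr m)) := by
      intro z hz
      rw [mem_filter] at hz ⊢
      refine ⟨hz.1, fun m _ => hLf (pr m) ?_ (hp m) (ld m) _ hz.2⟩
      exact (((le_max_left _ _).trans (le_max_right _ _)).trans (hlarge m).le)
    have h1 := card_le_card hsub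
    have h2 : N ^ K * ((Fintype.piFinset (fun _ : Fin (r * 3) => range L)).filter
        (fun z => Lf (fun j => c j + ∑ t, z (finProdFinEquiv (j, t)) • f j t))).card ≤
        (N - 1) ^ K * (L + ∏ j ∈ range K, cntQ a b (pr j)) ^ (r * 3) :=
      (Nat.mul_le_mul_left _ h1).trans key
    have h3 : L + ∏ j ∈ range K, cntQ a b (pr j) ≤ 2 * L := by
      have := (hpr K).2.trans hK1
      omega
    have h4 := h2.trans (Nat.mul_le_mul_left _ (Nat.pow_le_pow_left h3 (r * 3)))
    set W := ((Fintype.piFinset (fun _ : Fin (r * 3) => range L)).filter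
        (fun z => Lf (fun j => c j + ∑ t, z (finProdFinEquiv (j, t)) • f j t))).card with hW
    have h5 : (N : ℝ) ^ K * (W : ℝ) ≤ ((N : ℝ) - 1) ^ K * (2 * (L : ℝ)) ^ (r * 3) := by
      have h6 : ((N ^ K * W : ℕ) : ℝ) ≤ (((N - 1) ^ K * (2 * L) ^ (r * 3) : ℕ) : ℝ) := by
        exact_mod_cast h4
      push_cast [Nat.cast_sub (by omega : 1 ≤ N)] at h6
      exact h6
    have hNK : (0 : ℝ) < (N : ℝ) ^ K := by positivity
    have h7 : (W : ℝ) ≤ (1 - 1 / (N : ℝ)) ^ K * (2 * (L : ℝ)) ^ (r * 3) := by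
      have h8 : (1 - 1 / (N : ℝ)) ^ K = ((N : ℝ) - 1) ^ K / (N : ℝ) ^ K := by
        rw [← div_pow]
        congr 1
        field_simp
      rw [h8, div_mul_eq_mul_div, le_div_iff₀ hNK, mul_comm]
      exact h5
    refine h7.trans ?_
    have h9 : (0 : ℝ) ≤ (2 * (L : ℝ)) ^ (r * 3) := by positivity
    refine (mul_le_mul_of_nonneg_right hK2 h9).trans (le_of_eq ?_)
    rw [mul_pow]
    ring
  · -- periodicity
    intro m _ z z' hzz hS
    have h1 : (fun j => (ld m).red j (c j + ∑ t, z (finProdFinEquiv (j, t)) • f j t)) =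
        (fun j => (ld m).red j (c j + ∑ t, z' (finProdFinEquiv (j, t)) • f j t)) := by
      funext j
      rw [hred, hred]
      congr 1
      refine sum_congr rfl fun t _ => ?_
      rw [hmodk m j _ (z _), hmodk m j _ (z' _), hzz]
    rw [← h1]
    exact hS
  · -- the local condition
    intro m _ u
    set M := ∏ j ∈ range m, cntQ a b (pr j) with hM
    obtain ⟨hpm, hpy, hN1p, hspp, s, hs1, hs2⟩ := (hpr m).1
    let x : (j : Fin r) → Fin 3 → Pt (a j : ZMod (pr m)) (b j : ZMod (pr m)) :=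
      fun j t => M • (ld m).red j (f j t)
    let c' : (j : Fin r) → Pt (a j : ZMod (pr m)) (b j : ZMod (pr m)) := fun j =>
      (ld m).red j (c j) + ∑ t, u (finProdFinEquiv (j, t)) • (ld m).red j (f j t)
    let H : (j : Fin r) → AddSubgroup (Pt (a j : ZMod (pr m)) (b j : ZMod (pr m))) :=
      fun j => AddSubgroup.closure (Set.range (x j))
    let S' : Set ((j : Fin r) → Pt (a j : ZMod (pr m)) (b j : ZMod (pr m))) :=
      {v | (fun j => c' j + v j) ∈ S (pr m)}
    have hHc : ∀ j, ((pr m : ℕ) : ℝ) ^ (1 / 2 + 1 / 20 : ℝ) ≤ (Nat.card (H j) : ℝ) := by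
      intro j
      have h1 : (s + 1) ^ 3 ≤ Nat.card (H j) := by
        apply range_card
        intro v hv hv0
        exact hs2 (hp m) (ld m) j v hv hv0
      have h2 : ((pr m : ℕ) : ℝ) ^ (1 / 2 + 1 / 20 : ℝ) ≤
          ((B ^ (200 * r + 1) ^ m : ℕ) : ℝ) ^ (1 / 2 + 1 / 20 : ℝ) :=
        Real.rpow_le_rpow (Nat.cast_nonneg _) (by exact_mod_cast hpy) (by norm_num)
      refine h2.trans (hs1.trans ?_)
      exact_mod_cast h1
    have hloc1 := hT0 (pr m) ((le_max_left _ _).trans hN1p.le) (hp m) hspp c' H hHc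
    have hfinE : Finite ((j : Fin r) → Pt (a j : ZMod (pr m)) (b j : ZMod (pr m))) :=
      Pi.finite
    have hfu := fib_unif (gS x) (cntQ a b (pr m)) (Nat.one_le_iff_ne_zero.2
      (prod_ne_zero_iff.2 fun j _ => by
        have := cnt_pos (a j) (b j) (pr m)
        omega)) (fun v => by
        funext j
        exact hkill m j (v j)) S' N (by
        rw [gS_card]
        refine le_trans (Nat.mul_le_mul_left _ ?_) hloc1
        refine Set.ncard_le_ncard_of_injOn (fun v j => c' j + v j) ?_ ?_ (Set.toFinite _)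
        · rintro v ⟨hv1, hv2⟩
          exact ⟨hv2, fun j => ⟨v j, (gS_mem x v).1 hv1 j, rfl⟩⟩
        · intro v _ v' _ h
          funext j
          exact add_left_cancel (congrFun h j))
    refine le_trans (Nat.mul_le_mul_left _ (card_le_card ?_)) hfu
    intro z hz
    rw [mem_filter] at hz ⊢
    refine ⟨hz.1, ?_⟩
    have h1 := hz.2
    have h2 : (fun j => (ld m).red j (c j + ∑ t, (u (finProdFinEquiv (j, t)) +
        M * z (finProdFinEquiv (j, t))) • f j t)) = (fun j => c' j + (∑ s, z s • gS x s) j) := by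
      funext j
      rw [gS_sum, map_add, map_sum]
      change _ = (ld m).red j (c j) + ∑ t, u (finProdFinEquiv (j, t)) • (ld m).red j (f j t) +
        ∑ t, z (finProdFinEquiv (j, t)) • (M • (ld m).red j (f j t))
      rw [add_assoc, ← sum_add_distrib]
      congr 1
      refine sum_congr rfl fun t _ => ?_
      rw [map_nsmul, add_smul, mul_comm M, mul_smul]
    rw [h2] at h1
    exact h1

end

end Pool.Agent.J4H11.GQ
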