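import Pool.Agent.J4H11.GQ.Z3
import Pool.Agent.J4H11.GQ.Z4

/-!
# Boxes and balls: unions, and the passage to the multiples
-/

set_option autoImplicit false

namespace Pool.Agent.J4H11.GQ

open Finset WeierstrassCurve Pool.Agent.H901R3.MS Pool.Agent.J4H11.RC Pool.Agent.J4H11.GC Module

theorem finite_quot (a b : ℤ) (hD : Disc (a : ℚ) (b : ℚ)) (m : ℕ) (hm : 1 ≤ m) :
    ∃ 𝒯 : Set (Pt (a : ℚ) (b : ℚ)), 𝒯.Finite ∧ ∀ Q, ∃ R0 ∈ 𝒯, ∃ Q', m • Q' + R0 = Q := by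
  have hfg : AddGroup.FG (Pt (a : ℚ) (b : ℚ)) := t_M1 a b hD
  have hfin : Module.Finite ℤ (Pt (a : ℚ) (b : ℚ)) := Module.Finite.iff_addGroup_fg.2 hfg
  obtain ⟨n, g, hg⟩ := Module.Finite.exists_fin (R := ℤ) (M := Pt (a : ℚ) (b : ℚ))
  refine ⟨Set.range (fun c : Fin n → Fin m => ∑ i, ((c i : ℕ) : ℤ) • g i), Set.finite_range _,
    fun Q => ?_⟩
  have hQ : Q ∈ Submodule.span ℤ (Set.range g) := by
    rw [hg]
    exact Submodule.mem_top
  rw [Submodule.mem_span_range_iff_exists_fun] at hQ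
  obtain ⟨c, rfl⟩ := hQ
  have hm0 : (0 : ℤ) < m := by exact_mod_cast hm
  have hlt : ∀ i, (c i % m).toNat < m := by
    intro i
    have h1 := Int.emod_lt_of_pos (c i) hm0
    have h2 := Int.emod_nonneg (c i) hm0.ne'
    omega
  refine ⟨_, ⟨fun i => ⟨(c i % m).toNat, hlt i⟩, rfl⟩, ∑ i, (c i / m) • g i, ?_⟩
  rw [← natCast_zsmul, smul_sum, ← sum_add_distrib]
  refine sum_congr rfl fun i _ => ?_
  rw [smul_smul, ← add_smul]
  congr 1
  have h2 := Int.emod_nonneg (c i) hm0.ne'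
  simp only
  rw [Int.toNat_of_nonneg h2]
  exact Int.mul_ediv_add_emod (c i) m

theorem card_imp {α : Type} (s : Finset α) (p q : α → Prop) (i1 : DecidablePred p)
    (i2 : DecidablePred q) (h : ∀ z ∈ s, p z → q z) :
    ((s.filter p).card : ℝ) ≤ ((s.filter q).card : ℝ) := by
  have h1 : (s.filter p).card ≤ (s.filter q).card := by
    apply card_le_card
    intro z hz
    rw [mem_filter] at hz ⊢
    exact ⟨hz.1, h z hz.1 hz.2⟩
  exact_mod_cast h1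

theorem card_imp_or {α : Type} (s : Finset α) (p q q' : α → Prop) (i1 : DecidablePred p)
    (i2 : DecidablePred q) (i3 : DecidablePred q') (h : ∀ z ∈ s, p z → q z ∨ q' z) :
    ((s.filter p).card : ℝ) ≤ ((s.filter q).card : ℝ) + ((s.filter q').card : ℝ) := by
  classical
  have h1 : (s.filter p).card ≤ (s.filter q).card + (s.filter q').card := by
    refine le_trans (card_le_card ?_) (card_union_le _ _)
    intro z hz
    rw [mem_filter] at hz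
    rw [mem_union, mem_filter, mem_filter]
    rcases h z hz.1 hz.2 with h2 | h2
    · exact Or.inl ⟨hz.1, h2⟩
    · exact Or.inr ⟨hz.1, h2⟩
  exact_mod_cast h1

theorem card_none {α : Type} (s : Finset α) (p : α → Prop) (i1 : DecidablePred p)
    (h : ∀ z ∈ s, ¬ p z) : ((s.filter p).card : ℝ) = 0 := by
  have h1 : (s.filter p).card = 0 := by
    rw [card_eq_zero]
    ext z
    rw [mem_filter]
    constructor
    · rintro ⟨h2, h3⟩
      exact absurd h3 (h z h2)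
    · intro h2
      exact absurd h2 (notMem_empty z)
  rw [h1, Nat.cast_zero]

section
variable {r : ℕ} {a b : Fin r → ℤ}

open Classical in
/-- few points in the boxes -/
def BoxG (f : (j : Fin r) → Fin 3 → Pt (a j : ℚ) (b j : ℚ))
    (Lf : ((j : Fin r) → Pt (a j : ℚ) (b j : ℚ)) → Prop) : Prop :=
  ∃ γ0 : ℝ, 0 < γ0 ∧ ∀ γ : ℝ, 0 < γ → γ ≤ γ0 → ∃ C : ℝ, 0 ≤ C ∧ ∃ L0 : ℕ, 3 ≤ L0 ∧ ∀ L : ℕ,
      L0 ≤ L → ∀ c : (j : Fin r) → Pt (a j : ℚ) (b j : ℚ),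
      (((Fintype.piFinset (fun _ : Fin (r * 3) => range L)).filter
        (fun z => Lf (fun j => c j + ∑ t, z (finProdFinEquiv (j, t)) • f j t))).card : ℝ) ≤
        C * (L : ℝ) ^ (r * 3) * Real.log L ^ (-γ)

/-- few points in the balls -/
def BallG (Lf : ((j : Fin r) → Pt (a j : ℚ) (b j : ℚ)) → Prop) : Prop :=
  ∃ γ0 : ℝ, 0 < γ0 ∧ ∀ γ : ℝ, 0 < γ → γ ≤ γ0 → ∃ C : ℝ, 0 ≤ C ∧ ∀ (T : ℝ), 2 ≤ T →
    ∀ c : (j : Fin r) → Pt (a j : ℚ) (b j : ℚ),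
      {P : (j : Fin r) → Pt (a j : ℚ) (b j : ℚ) | (∀ j, hx (P j - c j) ≤ T ^ 2) ∧ Lf P}.Finite ∧
      ({P : (j : Fin r) → Pt (a j : ℚ) (b j : ℚ) |
        (∀ j, hx (P j - c j) ≤ T ^ 2) ∧ Lf P}.ncard : ℝ) ≤
        C * T ^ (∑ j, finrank ℤ (Pt (a j : ℚ) (b j : ℚ))) * Real.log T ^ (-γ)

theorem boxG_mono (f : (j : Fin r) → Fin 3 → Pt (a j : ℚ) (b j : ℚ))
    {Lf Lf' : ((j : Fin r) → Pt (a j : ℚ) (b j : ℚ)) → Prop} (h : ∀ P, Lf' P → Lf P)
    (hB : BoxG f Lf) : BoxG f Lf' := by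
  classical
  obtain ⟨γ0, h0, h1⟩ := hB
  refine ⟨γ0, h0, fun γ g1 g2 => ?_⟩
  obtain ⟨C, hC, L0, hL0, h2⟩ := h1 γ g1 g2
  exact ⟨C, hC, L0, hL0, fun L hL c => le_trans (card_imp _ _ _ _ _ (fun z _ hz => h _ hz))
    (h2 L hL c)⟩

theorem boxG_or (f : (j : Fin r) → Fin 3 → Pt (a j : ℚ) (b j : ℚ))
    {Lf Lf' : ((j : Fin r) → Pt (a j : ℚ) (b j : ℚ)) → Prop} (hB : BoxG f Lf)
    (hB' : BoxG f Lf') : BoxG f (fun P => Lf P ∨ Lf' P) := by
  classical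
  obtain ⟨γ0, h0, h1⟩ := hB
  obtain ⟨γ0', h0', h1'⟩ := hB'
  refine ⟨min γ0 γ0', lt_min h0 h0', fun γ g1 g2 => ?_⟩
  obtain ⟨C, hC, L0, hL0, h2⟩ := h1 γ g1 (g2.trans (min_le_left _ _))
  obtain ⟨C', hC', L0', hL0', h2'⟩ := h1' γ g1 (g2.trans (min_le_right _ _))
  refine ⟨C + C', by positivity, max L0 L0', hL0.trans (le_max_left _ _), fun L hL c => ?_⟩
  have k1 := h2 L ((le_max_left _ _).trans hL) c
  have k2 := h2' L ((le_max_right _ _).trans hL) c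
  refine (card_imp_or _ _ _ _ _ _ _ (fun z _ hz => hz)).trans ((add_le_add k1 k2).trans
    (le_of_eq ?_))
  ring

theorem boxG_false (f : (j : Fin r) → Fin 3 → Pt (a j : ℚ) (b j : ℚ)) :
    BoxG f (fun _ => False) := by
  classical
  refine ⟨1, one_pos, fun γ _ _ => ⟨0, le_rfl, 3, le_rfl, fun L _ c => ?_⟩⟩
  simp

theorem boxG_iUnion {ι : Type} [Finite ι] (f : (j : Fin r) → Fin 3 → Pt (a j : ℚ) (b j : ℚ))
    (Lf : ι → ((j : Fin r) → Pt (a j : ℚ) (b j : ℚ)) → Prop) (h : ∀ i, BoxG f (Lf i)) :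
    BoxG f (fun P => ∃ i, Lf i P) := by
  classical
  let _ := Fintype.ofFinite ι
  have key : ∀ s : Finset ι, BoxG f (fun P => ∃ i ∈ s, Lf i P) := by
    intro s
    induction s using Finset.induction_on with
    | empty => exact boxG_mono f (fun P h => by simp at h) (boxG_false f)
    | insert i s _ ih =>
      refine boxG_mono f (fun P hP => ?_) (boxG_or f (h i) ih)
      obtain ⟨i', hi', hL⟩ := hP
      rcases mem_insert.1 hi' with rfl | hi'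
      · exact Or.inl hL
      · exact Or.inr ⟨i', hi', hL⟩
  exact boxG_mono f (fun P ⟨i, hi⟩ => ⟨i, mem_univ i, hi⟩) (key univ)

theorem ballG_mono {Lf Lf' : ((j : Fin r) → Pt (a j : ℚ) (b j : ℚ)) → Prop}
    (h : ∀ P, Lf' P → Lf P) (hB : BallG Lf) : BallG Lf' := by
  obtain ⟨γ0, h0, h1⟩ := hB
  refine ⟨γ0, h0, fun γ g1 g2 => ?_⟩
  obtain ⟨C, hC, h2⟩ := h1 γ g1 g2
  refine ⟨C, hC, fun T hT c => ?_⟩
  obtain ⟨k1, k2⟩ := h2 T hT c
  have hsub : {P : (j : Fin r) → Pt (a j : ℚ) (b j : ℚ) | (∀ j, hx (P j - c j) ≤ T ^ 2) ∧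
      Lf' P} ⊆ {P | (∀ j, hx (P j - c j) ≤ T ^ 2) ∧ Lf P} := fun P hP => ⟨hP.1, h P hP.2⟩
  refine ⟨k1.subset hsub, le_trans ?_ k2⟩
  exact_mod_cast Set.ncard_le_ncard hsub k1

theorem ballG_or {Lf Lf' : ((j : Fin r) → Pt (a j : ℚ) (b j : ℚ)) → Prop}
    (hB : BallG Lf) (hB' : BallG Lf') : BallG (fun P => Lf P ∨ Lf' P) := by
  obtain ⟨γ0, h0, h1⟩ := hB
  obtain ⟨γ0', h0', h1'⟩ := hB'
  refine ⟨min γ0 γ0', lt_min h0 h0', fun γ g1 g2 => ?_⟩
  obtain ⟨C, hC, h2⟩ := h1 γ g1 (g2.trans (min_le_left _ _))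
  obtain ⟨C', hC', h2'⟩ := h1' γ g1 (g2.trans (min_le_right _ _))
  refine ⟨C + C', by positivity, fun T hT c => ?_⟩
  obtain ⟨k1, k2⟩ := h2 T hT c
  obtain ⟨k1', k2'⟩ := h2' T hT c
  have hset : {P : (j : Fin r) → Pt (a j : ℚ) (b j : ℚ) | (∀ j, hx (P j - c j) ≤ T ^ 2) ∧
      (Lf P ∨ Lf' P)} = {P | (∀ j, hx (P j - c j) ≤ T ^ 2) ∧ Lf P} ∪
      {P | (∀ j, hx (P j - c j) ≤ T ^ 2) ∧ Lf' P} := by
    ext P
    simp only [Set.mem_union, Set.mem_ofPred_eq]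
    tauto
  rw [hset]
  refine ⟨k1.union k1', ?_⟩
  have h3 := Set.ncard_union_le {P : (j : Fin r) → Pt (a j : ℚ) (b j : ℚ) |
    (∀ j, hx (P j - c j) ≤ T ^ 2) ∧ Lf P} {P | (∀ j, hx (P j - c j) ≤ T ^ 2) ∧ Lf' P}
  have h4 : ((({P : (j : Fin r) → Pt (a j : ℚ) (b j : ℚ) |
    (∀ j, hx (P j - c j) ≤ T ^ 2) ∧ Lf P} ∪
      {P | (∀ j, hx (P j - c j) ≤ T ^ 2) ∧ Lf' P}) : Set _).ncard : ℝ) ≤
      ({P : (j : Fin r) → Pt (a j : ℚ) (b j : ℚ) |
        (∀ j, hx (P j - c j) ≤ T ^ 2) ∧ Lf P}.ncard : ℝ) +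
      ({P : (j : Fin r) → Pt (a j : ℚ) (b j : ℚ) |
        (∀ j, hx (P j - c j) ≤ T ^ 2) ∧ Lf' P}.ncard : ℝ) := by exact_mod_cast h3
  refine h4.trans ((add_le_add k2 k2').trans (le_of_eq ?_))
  ring

theorem ballG_false : BallG (r := r) (a := a) (b := b) (fun _ => False) := by
  refine ⟨1, one_pos, fun γ _ _ => ⟨0, le_rfl, fun T _ c => ?_⟩⟩
  have h : {P : (j : Fin r) → Pt (a j : ℚ) (b j : ℚ) | (∀ j, hx (P j - c j) ≤ T ^ 2) ∧
      False} = ∅ := by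
    ext P
    simp
  rw [h]
  refine ⟨Set.finite_empty, ?_⟩
  rw [Set.ncard_empty]
  simp

theorem ballG_iUnion {ι : Type} (s : Set ι) (hs : s.Finite)
    (Lf : ι → ((j : Fin r) → Pt (a j : ℚ) (b j : ℚ)) → Prop) (h : ∀ i ∈ s, BallG (Lf i)) :
    BallG (fun P => ∃ i ∈ s, Lf i P) := by
  classical
  have key : ∀ u : Finset ι, (∀ i ∈ u, i ∈ s) → BallG (fun P => ∃ i ∈ u, Lf i P) := by
    intro u
    induction u using Finset.induction_on with
    | empty => exact fun _ => ballG_mono (fun P h => by simp at h) ballG_false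
    | insert i u _ ih =>
      intro hu
      refine ballG_mono (fun P hP => ?_) (ballG_or (h i (hu i (mem_insert_self _ _)))
        (ih (fun i' hi' => hu i' (mem_insert_of_mem hi'))))
      obtain ⟨i', hi', hL⟩ := hP
      rcases mem_insert.1 hi' with rfl | hi'
      · exact Or.inl hL
      · exact Or.inr ⟨i', hi', hL⟩
  exact ballG_mono (fun P ⟨i, hi, hL⟩ => ⟨i, hs.mem_toFinset.2 hi, hL⟩)
    (key hs.toFinset (fun i hi => hs.mem_toFinset.1 hi))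

/-- the passage to the multiples -/
theorem ball_of_box (hD : ∀ j, Disc (a j : ℚ) (b j : ℚ))
    (f : (j : Fin r) → Fin 3 → Pt (a j : ℚ) (b j : ℚ)) (m : Fin r → ℕ)
    (R0 : (j : Fin r) → Pt (a j : ℚ) (b j : ℚ))
    (Lf' LfQ : ((j : Fin r) → Pt (a j : ℚ) (b j : ℚ)) → Prop) (hB : BoxG f Lf')
    (h : ∀ Q, LfQ (fun j => m j • Q j + R0 j) → Lf' Q) :
    BallG (fun P => LfQ P ∧ ∃ Q : (j : Fin r) → Pt (a j : ℚ) (b j : ℚ),
      ∀ j, m j • Q j + R0 j = P j) := by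
  classical
  obtain ⟨γ0, h0, h1⟩ := hB
  refine ⟨γ0, h0, fun γ g1 g2 => ?_⟩
  obtain ⟨C, hC, L0, hL0, h2⟩ := h1 γ g1 g2
  refine avgQ hD _ (fun j t => m j • f j t) γ g1.le C hC L0 hL0 (fun L hL c => ?_)
  by_cases hc : ∃ Q0 : (j : Fin r) → Pt (a j : ℚ) (b j : ℚ), ∀ j, m j • Q0 j + R0 j = c j
  · obtain ⟨Q0, hQ0⟩ := hc
    refine le_trans (card_imp _ _ _ _ _ (fun z _ hz => h _ ?_)) (h2 L hL Q0)
    have h4 : (fun j => m j • (Q0 j + ∑ t, z (finProdFinEquiv (j, t)) • f j t) + R0 j) =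
        (fun j => c j + ∑ t, z (finProdFinEquiv (j, t)) • (m j • f j t)) := by
      funext j
      rw [← hQ0 j, smul_add, smul_sum]
      have h5 : ∑ t, m j • z (finProdFinEquiv (j, t)) • f j t =
          ∑ t, z (finProdFinEquiv (j, t)) • (m j • f j t) :=
        sum_congr rfl fun t _ => smul_comm _ _ _
      rw [h5]
      abel
    rw [h4]
    exact hz.1
  · have h3 := card_none (Fintype.piFinset (fun _ : Fin (r * 3) => range L))
        (fun z => LfQ (fun j => c j + ∑ t, z (finProdFinEquiv (j, t)) • (m j • f j t)) ∧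
          ∃ Q : (j : Fin r) → Pt (a j : ℚ) (b j : ℚ), ∀ j, m j • Q j + R0 j =
            c j + ∑ t, z (finProdFinEquiv (j, t)) • (m j • f j t))
        (fun _ => Classical.propDecidable _) (by
      rintro z - ⟨-, Q, hQ⟩
      apply hc
      refine ⟨fun j => Q j - ∑ t, z (finProdFinEquiv (j, t)) • f j t, fun j => ?_⟩
      have h5 : ∑ t, m j • z (finProdFinEquiv (j, t)) • f j t =
          ∑ t, z (finProdFinEquiv (j, t)) • (m j • f j t) :=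
        sum_congr rfl fun t _ => smul_comm _ _ _
      rw [smul_sub, smul_sum, h5, sub_add_eq_add_sub, hQ j, add_sub_cancel_right])
    have h6 : 0 ≤ Real.log (L : ℝ) ^ (-γ) := Real.rpow_nonneg (Real.log_natCast_nonneg _) _
    exact (le_of_eq h3).trans (by positivity)

end

end Pool.Agent.J4H11.GQ
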