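import Pool.Agent.J4H11.GQ.X4
import Pool.Agent.J4H11.GQ.Y4
import Pool.Agent.J4H11.GQ.Z5
import Pool.Agent.J4H11.GN.Prm

/-!
# From the local conditions to the boxes
-/

set_option autoImplicit false

open Polynomial Finset Pool.Agent.J4H11.RC Pool.Agent.J4H11.SC Pool.Agent.H901R3.MS
  WeierstrassCurve Pool.Agent.J4H11.GN Pool.Agent.J4H11.GP

namespace Pool.Agent.J4H11.GQ

section
variable {r : ℕ} {E : Fin r → Type} [∀ j, AddCommGroup (E j)] [∀ j, Finite (E j)]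

theorem zero_cnt (c : (j : Fin r) → E j) (H : (j : Fin r) → AddSubgroup (E j)) (i : Fin r) :
    Nat.card (H i) * ({Q | Q i = 0 ∧ ∀ j, Q j ∈ cs (c j) (H j)} :
      Set ((j : Fin r) → E j)).ncard ≤ ∏ j, Nat.card (H j) := by
  classical
  let D : (j : Fin r) → Finset (E j) := fun j => (Set.toFinite (cs (c j) (H j))).toFinset
  have hD : ∀ j, (D j).card = Nat.card (H j) := fun j =>
    cs_card (c j) (H j) (D j) (fun Q => Set.Finite.mem_toFinset _)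
  let D' : (j : Fin r) → Finset (E j) := Function.update D i {0}
  have hsub : ({Q | Q i = 0 ∧ ∀ j, Q j ∈ cs (c j) (H j)} : Set ((j : Fin r) → E j)) ⊆
      (Fintype.piFinset D' : Set _) := by
    rintro Q ⟨hQ0, hQ⟩
    rw [Finset.mem_coe, Fintype.mem_piFinset]
    intro j
    by_cases hj : j = i
    · subst hj
      have h1 : D' j = {0} := Function.update_self _ _ _
      rw [h1, mem_singleton]
      exact hQ0
    · have h1 : D' j = D j := Function.update_of_ne hj _ _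
      rw [h1]
      exact (Set.Finite.mem_toFinset _).2 (hQ j)
  have h1 : ({Q | Q i = 0 ∧ ∀ j, Q j ∈ cs (c j) (H j)} : Set ((j : Fin r) → E j)).ncard ≤
      ∏ j, (D' j).card := by
    refine (Set.ncard_le_ncard hsub (Finset.finite_toSet _)).trans ?_
    rw [Set.ncard_coe_finset, Fintype.card_piFinset]
  have h2 : ∏ j, (D' j).card = ∏ j ∈ univ.erase i, Nat.card (H j) := by
    rw [← mul_prod_erase univ (fun j => (D' j).card) (mem_univ i)]
    have h3 : D' i = {0} := Function.update_self _ _ _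
    rw [h3, card_singleton, one_mul]
    refine prod_congr rfl fun j hj => ?_
    have h4 : D' j = D j := Function.update_of_ne (mem_erase.1 hj).1 _ _
    rw [h4, hD]
  rw [h2] at h1
  rw [← mul_prod_erase univ (fun j => Nat.card (H j)) (mem_univ i)]
  exact Nat.mul_le_mul_left _ h1

end

section
variable {r : ℕ} {a b : Fin r → ℤ}

theorem pow_large (K : ℕ) (κ : ℝ) (hκ : 0 < κ) (p : ℕ) (hp : K ^ 2 + 1 ≤ p) :
    (K : ℝ) ≤ (p : ℝ) ^ (1 / 2 + κ) := by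
  have hp1 : (1 : ℝ) ≤ p := by
    have : 1 ≤ p := by omega
    exact_mod_cast this
  have h1 : (K : ℝ) ≤ Real.sqrt p := by
    apply Real.le_sqrt_of_sq_le
    have : K ^ 2 ≤ p := by omega
    exact_mod_cast this
  have h2 : Real.sqrt p ≤ (p : ℝ) ^ (1 / 2 + κ) := by
    rw [Real.sqrt_eq_rpow]
    exact Real.rpow_le_rpow_of_exponent_le hp1 (by linarith)
  exact h1.trans h2

theorem loc_zero (sp : ℕ → Prop) (N : ℕ) (hN : 1 ≤ N)
    (S : (p : ℕ) → [Fact p.Prime] → Set ((j : Fin r) → Pt (a j : ZMod p) (b j : ZMod p)))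
    (h : LocC a b sp N S) :
    LocC a b sp (2 * N) (fun p _ => {Q | Q ∈ S p ∨ ∃ j, Q j = 0}) := by
  intro κ hκ
  obtain ⟨T0, hT0⟩ := h κ hκ
  set K := 2 * N * (r + 1) with hK
  refine ⟨max T0 (K ^ 2 + 1), fun p hp hpp hsp c H hH => ?_⟩
  have hp1 : T0 ≤ p := (le_max_left _ _).trans hp
  have hp2 : K ^ 2 + 1 ≤ p := (le_max_right _ _).trans hp
  have h1 := hT0 p hp1 hpp hsp c H hH
  have hKH : ∀ j, K ≤ Nat.card (H j) := fun j => by
    exact_mod_cast (pow_large K κ hκ p hp2).trans (hH j)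
  have hfinP : ∀ j, Finite (Pt (a j : ZMod p) (b j : ZMod p)) := fun j => finite_pt _ _
  classical
  set Z : Fin r → Set ((j : Fin r) → Pt (a j : ZMod p) (b j : ZMod p)) := fun i =>
    {Q | Q i = 0 ∧ ∀ j, Q j ∈ cs (c j) (H j)} with hZ
  set S0 : Set ((j : Fin r) → Pt (a j : ZMod p) (b j : ZMod p)) :=
    {Q | Q ∈ S p ∧ ∀ j, Q j ∈ cs (c j) (H j)} with hS0
  have hz : ∀ i, K * (Z i).ncard ≤ ∏ j, Nat.card (H j) := fun i =>
    (Nat.mul_le_mul_right _ (hKH i)).trans (zero_cnt c H i)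
  have hzs : K * ∑ i, (Z i).ncard ≤ r * ∏ j, Nat.card (H j) := by
    rw [mul_sum]
    refine (sum_le_sum fun i _ => hz i).trans ?_
    rw [sum_const, card_univ, Fintype.card_fin, smul_eq_mul]
  have hU : ({Q | Q ∈ {Q | Q ∈ S p ∨ ∃ j, Q j = 0} ∧ ∀ j, Q j ∈ cs (c j) (H j)} :
      Set ((j : Fin r) → Pt (a j : ZMod p) (b j : ZMod p))).ncard ≤
      S0.ncard + ∑ i, (Z i).ncard := by
    have h2 : ({Q | Q ∈ {Q | Q ∈ S p ∨ ∃ j, Q j = 0} ∧ ∀ j, Q j ∈ cs (c j) (H j)} :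
      Set ((j : Fin r) → Pt (a j : ZMod p) (b j : ZMod p))) ⊆
      ((S0.toFinite.toFinset ∪ univ.biUnion (fun i => (Z i).toFinite.toFinset) :
        Finset ((j : Fin r) → Pt (a j : ZMod p) (b j : ZMod p))) : Set _) := by
      rintro Q ⟨h3, h4⟩
      rw [Finset.mem_coe, mem_union, mem_biUnion]
      rcases h3 with h3 | ⟨i, hi⟩
      · exact Or.inl ((Set.Finite.mem_toFinset _).2 ⟨h3, h4⟩)
      · exact Or.inr ⟨i, mem_univ i, (Set.Finite.mem_toFinset _).2 ⟨hi, h4⟩⟩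
    refine (Set.ncard_le_ncard h2 (Finset.finite_toSet _)).trans ?_
    rw [Set.ncard_coe_finset]
    refine (card_union_le _ _).trans (add_le_add ?_ (card_biUnion_le.trans (sum_le_sum
      fun i _ => ?_)))
    · rw [Set.ncard_eq_toFinset_card _ S0.toFinite]
    · rw [Set.ncard_eq_toFinset_card _ (Z i).toFinite]
  have hfin : 2 * N * ∑ i, (Z i).ncard ≤ ∏ j, Nat.card (H j) := by
    have h5 : (r + 1) * (2 * N * ∑ i, (Z i).ncard) ≤ (r + 1) * ∏ j, Nat.card (H j) := by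
      calc (r + 1) * (2 * N * ∑ i, (Z i).ncard) = K * ∑ i, (Z i).ncard := by rw [hK]; ring
        _ ≤ r * ∏ j, Nat.card (H j) := hzs
        _ ≤ (r + 1) * ∏ j, Nat.card (H j) := Nat.mul_le_mul_right _ (Nat.le_succ r)
    exact Nat.le_of_mul_le_mul_left h5 (Nat.succ_pos r)
  have h6 : 2 * N * ({Q | Q ∈ {Q | Q ∈ S p ∨ ∃ j, Q j = 0} ∧ ∀ j, Q j ∈ cs (c j) (H j)} :
      Set ((j : Fin r) → Pt (a j : ZMod p) (b j : ZMod p))).ncard ≤
      2 * ((N - 1) * ∏ j, Nat.card (H j)) + ∏ j, Nat.card (H j) := by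
    calc _ ≤ 2 * N * (S0.ncard + ∑ i, (Z i).ncard) := Nat.mul_le_mul_left _ hU
      _ = 2 * (N * S0.ncard) + 2 * N * ∑ i, (Z i).ncard := by ring
      _ ≤ _ := add_le_add (Nat.mul_le_mul_left _ h1) hfin
  refine h6.trans (le_of_eq ?_)
  obtain ⟨n, rfl⟩ : ∃ n, N = n + 1 := ⟨N - 1, by omega⟩
  have e1 : n + 1 - 1 = n := rfl
  have e2 : 2 * (n + 1) - 1 = 2 * n + 1 := by omega
  rw [e1, e2]
  ring

theorem loc_empty (sp : ℕ → Prop) : LocC a b sp 1 (fun _ _ => ∅) := by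
  intro κ _
  refine ⟨0, fun p _ _ _ c H _ => ?_⟩
  have : ({Q | Q ∈ (∅ : Set ((j : Fin r) → Pt (a j : ZMod p) (b j : ZMod p))) ∧
      ∀ j, Q j ∈ cs (c j) (H j)} :
      Set ((j : Fin r) → Pt (a j : ZMod p) (b j : ZMod p))) = ∅ := by
    ext Q
    simp
  rw [this, Set.ncard_empty]
  simp

theorem box_of_loc (g : ℤ[X]) (hg : g.Monic)
    (hD : ∀ j, Disc (a j : ℚ) (b j : ℚ))
    (f : (j : Fin r) → Fin 3 → Pt (a j : ℚ) (b j : ℚ))
    (hf : ∀ j, ∀ m : Fin 3 → ℤ, m ≠ 0 → ∑ t, m t • f j t ≠ 0)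
    (N : ℕ) (hN : 1 ≤ N)
    (S : (p : ℕ) → [Fact p.Prime] → Set ((j : Fin r) → Pt (a j : ZMod p) (b j : ZMod p)))
    (hLoc : LocC a b (fun p => (g.map (Int.castRingHom (ZMod p))).Splits) N S)
    (Lf : ((j : Fin r) → Pt (a j : ℚ) (b j : ℚ)) → Prop)
    (hLf : ∀ (p : ℕ) (_ : Fact p.Prime) (ld : LD a b p) (Q), Lf Q →
      (∀ j, ld.red j (Q j) ≠ 0) → (fun j => ld.red j (Q j)) ∈ S p) :
    BoxG f Lf := by
  obtain ⟨c0, T, hc, hT⟩ := many_primes g hg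
  refine boxQ _ c0 T hc (fun y hy => ?_) hD f hf (2 * N) (by omega) _ (loc_zero _ N hN S hLoc) Lf
    0 (fun p _ hp ld Q hQ => ?_)
  · exact hT y hy
  · by_cases h : ∀ j, ld.red j (Q j) ≠ 0
    · exact Or.inl (hLf p hp ld Q hQ h)
    · push Not at h
      exact Or.inr h

/-- the points with a zero coordinate -/
theorem box_zero (hD : ∀ j, Disc (a j : ℚ) (b j : ℚ))
    (f : (j : Fin r) → Fin 3 → Pt (a j : ℚ) (b j : ℚ))
    (hf : ∀ j, ∀ m : Fin 3 → ℤ, m ≠ 0 → ∑ t, m t • f j t ≠ 0) :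
    BoxG f (fun Q => ∃ j, Q j = 0) := by
  refine box_of_loc X monic_X hD f hf 1 le_rfl _ (loc_empty _) _ (fun p _ ld Q hQ h => ?_)
  obtain ⟨j, hj⟩ := hQ
  exact absurd (by rw [hj, map_zero]) (h j)

end

theorem red_crd' {L M : Type} [Field L] [Field M] (v : Place L M) {a b : ℤ}
    (red : Pt (a : L) (b : L) → Pt (a : M) (b : M)) (hred : IsRed v a b red)
    (Q : Pt (a : L) (b : L)) (hQ : red Q ≠ 0) :
    ((crd Q).1 ∈ v.A ∧ v.r (crd Q).1 = (crd (red Q)).1) ∧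
      ((crd Q).2 ∈ v.A ∧ v.r (crd Q).2 = (crd (red Q)).2) := by
  rcases Q with _ | ⟨x, y, h1⟩
  · exact absurd hred.1 hQ
  · by_cases hx : x ∈ v.A
    · obtain ⟨hy, g, e⟩ := hred.2.2 x y h1 hx
      rw [e]
      exact ⟨⟨hx, rfl⟩, ⟨hy, rfl⟩⟩
    · exact absurd (hred.2.1 x y h1 hx) hQ

section
variable {r : ℕ} {a b : ℕ → ℤ}

/-- the homomorphism modulo `p` of a rational homomorphism -/
theorem red_ab {B : Type} [CommRing B] {X Y : ℕ → B} {f0 : ℤ[X]} (h : TwS a b r X Y f0) {p : ℕ}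
    [Fact p.Prime] (ld : LD (fun j : Fin r => a j) (fun j : Fin r => b j) p)
    (Q : (j : Fin r) → Pt (a j : ℚ) (b j : ℚ)) (χ : B →+* ℚ)
    (hχ : χ ∈ Ab (fun j : Fin r => X j) (fun j : Fin r => Y j) Q)
    (hred : ∀ j, ld.red j (Q j) ≠ 0) :
    ∃ ψ : B →+* ZMod p, ψ ∈ Ab (fun j : Fin r => X j) (fun j : Fin r => Y j)
      (fun j => ld.red j (Q j)) := by
  have h1 : ∀ j : Fin r, (χ (X j) ∈ ld.v.A ∧ ld.v.r (χ (X j)) = (crd (ld.red j (Q j))).1) ∧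
      (χ (Y j) ∈ ld.v.A ∧ ld.v.r (χ (Y j)) = (crd (ld.red j (Q j))).2) := by
    intro j
    have h2 := red_crd' ld.v (ld.red j) (ld.hred j) (Q j) (hred j)
    have h3 := (hχ j).2
    rw [h3] at h2
    exact h2
  have h2 : ∀ c, χ c ∈ ld.v.A := by
    intro c
    rw [← mem_vsP]
    refine h.int ℚ (vsP ld.v) χ (fun j hj => ?_) c
    rw [mem_vsP, mem_vsP]
    exact ⟨(h1 ⟨j, hj⟩).1.1, (h1 ⟨j, hj⟩).2.1⟩
  refine ⟨ld.v.ρ.comp (χ.codRestrict ld.v.A h2), fun j => ⟨hred j, Prod.ext ?_ ?_⟩⟩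
  · rw [← (h1 j).1.2, ld.v.r_of (h2 _)]
    rfl
  · rw [← (h1 j).2.2, ld.v.r_of (h2 _)]
    rfl

theorem eQ_red {p : ℕ} [Fact p.Prime] (ld : LD (fun j : Fin r => a j) (fun j : Fin r => b j) p)
    (Q : (j : Fin r) → Pt (a j : ℚ) (b j : ℚ)) (hred : ∀ j, ld.red j (Q j) ≠ 0)
    (s : MvPolynomial (Fin r × Fin 2) ℤ) (hs : eQ Q s = 0) :
    eQ (fun j => ld.red j (Q j)) s = 0 := by
  have h1 := fun j => red_crd' ld.v (ld.red j) (ld.hred j) (Q j) (hred j)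
  set e' : MvPolynomial (Fin r × Fin 2) ℤ →+* ld.v.A :=
    evp (fun j => ⟨(crd (Q j)).1, (h1 j).1.1⟩) (fun j => ⟨(crd (Q j)).2, (h1 j).2.1⟩) with he'
  have h2 : eQ Q = ld.v.A.subtype.comp e' := by
    rw [he', evp_comp]
    rfl
  have h3 : eQ (fun j => ld.red j (Q j)) = ld.v.ρ.comp e' := by
    rw [he', evp_comp]
    unfold eQ
    congr 1
    · funext j
      exact (h1 j).1.2.symm.trans (ld.v.r_of (h1 j).1.1)
    · funext j
      exact (h1 j).2.2.symm.trans (ld.v.r_of (h1 j).2.1)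
  have h4 : e' s = 0 := by
    rw [h2] at hs
    exact Subtype.ext hs
  rw [h3, RingHom.comp_apply, h4, map_zero]

/-- the points where a nonzero function vanishes -/
theorem box_bad {A0 : Type} [CommRing A0] {X0 Y0 : ℕ → A0} {f0 : ℤ[X]}
    (h : TwS a b r X0 Y0 f0)
    (full0 : ∀ (F : Type) [Field F] (Q : (j : ℕ) → Pt (a j : F) (b j : F)), (∀ j < r, Q j ≠ 0) →
      ∃ ψ : A0 →+* F, ∀ j < r, crd (Q j) = (ψ (X0 j), ψ (Y0 j)))
    (s : MvPolynomial (Fin r × Fin 2) ℤ)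
    (hs : evp (fun j : Fin r => X0 j) (fun j : Fin r => Y0 j) s ≠ 0)
    (hD : ∀ j : Fin r, Disc (a j : ℚ) (b j : ℚ))
    (f : (j : Fin r) → Fin 3 → Pt (a j : ℚ) (b j : ℚ))
    (hf : ∀ j, ∀ m : Fin 3 → ℤ, m ≠ 0 → ∑ t, m t • f j t ≠ 0) :
    BoxG (a := fun j : Fin r => a j) (b := fun j : Fin r => b j) f (fun Q => eQ Q s = 0) := by
  refine box_of_loc X monic_X hD f hf 2 (by norm_num) _ (loc_bad h _ hs _) _
    (fun p _ ld Q hQ hred => ?_)
  obtain ⟨ψ, hψ⟩ := full0 (ZMod p) (exPt (fun j => ld.red j (Q j))) (fun j hj => by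
    have h1 : exPt (fun j => ld.red j (Q j)) j = ld.red ⟨j, hj⟩ (Q ⟨j, hj⟩) := dif_pos hj
    rw [h1]
    exact hred _)
  have hψ' : ∀ j : Fin r, crd (ld.red j (Q j)) = (ψ (X0 j), ψ (Y0 j)) := by
    intro j
    have h1 := hψ j j.2
    have h2 : exPt (fun j => ld.red j (Q j)) (j : ℕ) = ld.red j (Q j) := dif_pos j.2
    rw [h2] at h1
    exact h1
  refine ⟨ψ, fun j => ⟨hred j, hψ' j⟩, ?_⟩
  have h3 : ψ.comp (evp (fun j : Fin r => X0 j) (fun j : Fin r => Y0 j)) =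
      eQ (fun j => ld.red j (Q j)) := by
    rw [evp_comp]
    unfold eQ
    congr 1
    · funext j
      rw [hψ' j]
    · funext j
      rw [hψ' j]
  have h4 := eQ_red ld Q hred s hQ
  rw [← h3] at h4
  exact h4

end

end Pool.Agent.J4H11.GQ
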