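import Pool.Agent.J4H11.GQ.X5
import Pool.Agent.J4H11.GQ.Z6

/-!
# Few points with a homomorphism to the rational numbers
-/

set_option autoImplicit false

open Polynomial Finset Pool.Agent.J4H11.RC Pool.Agent.J4H11.SC Pool.Agent.H901R3.MS
  WeierstrassCurve Pool.Agent.J4H11.GN Pool.Agent.J4H11.GP

namespace Pool.Agent.J4H11.GQ

theorem deg_pos {g : ℤ[X]} (hm : g.Monic) (hi : Irreducible g) : 1 ≤ g.natDegree := by
  by_contra h
  have h1 : g.natDegree = 0 := by omega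
  have h2 : g = 1 := hm.natDegree_eq_zero.1 h1
  exact hi.not_isUnit (h2 ▸ isUnit_one)

theorem deg_root {g : ℤ[X]} (hm : g.Monic) (hi : Irreducible g) (q : ℚ)
    (hq : g.eval₂ (Int.castRingHom ℚ) q = 0) : g.natDegree = 1 := by
  have h1 : aeval q g = 0 := hq
  obtain ⟨n, hn⟩ := isInteger_of_is_root_of_monic hm h1
  have hn' : (n : ℚ) = q := hn
  have h2 : g.IsRoot n := by
    rw [← hn'] at hq
    have h3 : ((g.eval n : ℤ) : ℚ) = 0 := by
      rw [← hq]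
      have := hom_eval₂ g (RingHom.id ℤ) (Int.castRingHom ℚ) n
      rw [RingHom.comp_id] at this
      exact this
    exact_mod_cast h3
  obtain ⟨q', hq'⟩ := dvd_iff_isRoot.2 h2
  rcases (hi.isUnit_or_isUnit hq') with h | h
  · exact absurd h (not_isUnit_X_sub_C n)
  · have h4 : q'.natDegree = 0 := natDegree_eq_zero_of_isUnit h
    have h5 : q' ≠ 0 := h.ne_zero
    rw [hq', natDegree_mul (X_sub_C_ne_zero n) h5, h4, natDegree_X_sub_C]

/-- three independent points on each curve -/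
def Ind3 {r : ℕ} {a b : Fin r → ℤ} (f : (j : Fin r) → Fin 3 → Pt (a j : ℚ) (b j : ℚ)) : Prop :=
  ∀ j, ∀ m : Fin 3 → ℤ, m ≠ 0 → ∑ t, m t • f j t ≠ 0

section
variable {r : ℕ} {a b : ℕ → ℤ}

theorem box_bad' {A0 : Type} [CommRing A0] {X0 Y0 : ℕ → A0} {f0 : ℤ[X]}
    (h : TwS a b r X0 Y0 f0)
    (full0 : ∀ (F : Type) [Field F] (Q : (j : ℕ) → Pt (a j : F) (b j : F)), (∀ j < r, Q j ≠ 0) →
      ∃ ψ : A0 →+* F, ∀ j < r, crd (Q j) = (ψ (X0 j), ψ (Y0 j)))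
    (s : MvPolynomial (Fin r × Fin 2) ℤ)
    (hs : evp (fun j : Fin r => X0 j) (fun j : Fin r => Y0 j) s ≠ 0)
    (hD : ∀ j : Fin r, Disc (a j : ℚ) (b j : ℚ))
    (f : (j : Fin r) → Fin 3 → Pt (a j : ℚ) (b j : ℚ)) (hf : Ind3 f) :
    BoxG (a := fun j : Fin r => a j) (b := fun j : Fin r => b j) f (fun Q => eQ Q s = 0) :=
  box_bad h full0 s hs hD f hf

theorem box_pair {x y : ℕ → ℂ} {w θ : ℂ} (D : TwD a b r x y w) (Dθ : TwD a b r x y θ)
    (hwalg : w ∈ algebraicClosure (k0 x y r) ℂ) (hw : w ∉ k0 x y r)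
    (hσ : ∀ σ : algebraicClosure (k0 x y r) ℂ →ₐ[k0 x y r] ℂ, σ ⟨w, hwalg⟩ ∈
      ad1 (k0 x y r) θ)
    (hD : ∀ j : Fin r, Disc (a j : ℚ) (b j : ℚ))
    (f : (j : Fin r) → Fin 3 → Pt (a j : ℚ) (b j : ℚ)) (hf : Ind3 f) :
    BoxG (a := fun j : Fin r => a j) (b := fun j : Fin r => b j) f (fun Q => ∃ χ : D.A →+* ℚ,
      χ ∈ Ab (fun j : Fin r => D.Xf j) (fun j : Fin r => D.Yf j) Q) := by
  by_cases hdeg : D.f0.natDegree = 1
  · obtain ⟨G, hG, hcl⟩ := D.tws.ft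
    have hdom2 : IsDomain Dθ.A := Dθ.inj.isDomain _
    obtain ⟨s, hs, hpair⟩ := pair_exists x y r w θ D.ι Dθ.ι Dθ.inj G hG hcl D.hXY Dθ.hXY D.gen
      D.le Dθ.gen hwalg hw hσ
    obtain ⟨N, hN, hLoc⟩ := loc_pair D.tws Dθ.tws hdeg (deg_pos Dθ.tws.mon Dθ.irr) s hs hpair
    refine box_of_loc Dθ.f0 Dθ.tws.mon hD f hf N (by omega) _ hLoc _ (fun p _ ld Q hQ hred => ?_)
    obtain ⟨χ, hχ⟩ := hQ
    exact red_ab D.tws ld Q χ hχ hred
  · refine boxG_mono f (fun Q hQ => ?_) (boxG_false f)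
    obtain ⟨χ, -⟩ := hQ
    obtain ⟨z, hz⟩ := D.tws.root
    apply hdeg
    apply deg_root D.tws.mon D.irr (χ z)
    have h1 : χ (aeval z D.f0) = 0 := by rw [hz, map_zero]
    have h2 := hom_eval₂ D.f0 (algebraMap ℤ D.A) χ z
    rw [aeval_def, h2] at h1
    have h3 : χ.comp (algebraMap ℤ D.A) = Int.castRingHom ℚ := RingHom.ext_int _ _
    rw [h3] at h1
    exact h1

end

end Pool.Agent.J4H11.GQ
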