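import Pool.Agent.J4H11.GQ.Y5
import Pool.Agent.J4H11.GQ.Z7

/-!
# Few points with a rational root, above the multiples
-/

set_option autoImplicit false
set_option linter.unusedSectionVars false

open Polynomial Pool.Agent.J4H11.RC Pool.Agent.J4H11.SC Pool.Agent.H901R3.MS WeierstrassCurve
  Pool.Agent.J4H11.GP Pool.Agent.J4H11.GN

namespace Pool.Agent.J4H11.GQ

/-- `m P + Q` -/
def lin {F : Type} [Field F] (d : DecidableEq F) {a b : F} (m : ℕ) (P Q : Pt a b) : Pt a b :=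
  letI := d
  m • P + Q

theorem lin_inst {F : Type} [Field F] (d d' : DecidableEq F) {a b : F} (m : ℕ) (P Q : Pt a b) :
    lin d m P Q = lin d' m P Q := by
  have h : d = d' := Subsingleton.elim _ _
  rw [h]

/-- `m P + Q` with the usual instance -/
def linQ {a b : ℚ} (m : ℕ) (P Q : Pt a b) : Pt a b := m • P + Q

theorem linQ_lin {a b : ℚ} (m : ℕ) (P Q : Pt a b) (d : DecidableEq ℚ) :
    lin d m P Q = linQ m P Q := lin_inst _ _ _ _ _

theorem eR_mem (x y : ℕ → ℂ) (r : ℕ) (g : MvPolynomial (Fin r × Fin 2) ℤ) :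
    eR r x y g ∈ k0 x y r := by
  have h : eR r x y = (k0 x y r).subtype.comp (evp (fun j : Fin r => ⟨x j, k0_x x y r j j.2⟩)
      (fun j : Fin r => ⟨y j, k0_y x y r j j.2⟩)) := by
    rw [evp_comp]
    rfl
  rw [h]
  exact Subtype.property _

theorem root_sub {r : ℕ} (x y : ℕ → ℂ) (S : Subfield ℂ) (hS : k0 x y r ≤ S)
    (Φ : (MvPolynomial (Fin r × Fin 2) ℤ)[X]) (hΦ : Φ.Monic) :
    ∃ g : S[X], g.Monic ∧ g.map S.subtype = Φ.map (eR r x y) := by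
  refine ⟨Φ.map ((eR r x y).codRestrict S (fun g => hS (eR_mem x y r g))), hΦ.map _, ?_⟩
  rw [Polynomial.map_map]
  congr 1

theorem root_algS {r : ℕ} (x y : ℕ → ℂ) (S : Subfield ℂ) (hS : k0 x y r ≤ S)
    (Φ : (MvPolynomial (Fin r × Fin 2) ℤ)[X]) (hΦ : Φ.Monic) (w : ℂ)
    (hw : (Φ.map (eR r x y)).IsRoot w) : AlgS S w := by
  obtain ⟨g, hg, hgm⟩ := root_sub x y S hS Φ hΦ
  rw [algS_iff]
  refine ⟨g, hg.ne_zero, ?_⟩
  rw [← hgm, IsRoot.def, eval_map] at hw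
  exact hw

theorem root_conj {r : ℕ} (x y : ℕ → ℂ) (S : Subfield ℂ) (hS : k0 x y r ≤ S)
    (Φ : (MvPolynomial (Fin r × Fin 2) ℤ)[X]) (hΦ : Φ.Monic) (w : algebraicClosure S ℂ)
    (hw : (Φ.map (eR r x y)).IsRoot (w : ℂ)) (σ : algebraicClosure S ℂ →ₐ[S] ℂ) :
    (Φ.map (eR r x y)).IsRoot (σ w) := by
  obtain ⟨g, hg, hgm⟩ := root_sub x y S hS Φ hΦ
  rw [← hgm, IsRoot.def, eval_map] at hw ⊢
  have h1 : aeval w g = 0 := by
    apply Subtype.ext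
    have h2 : ((aeval w g : algebraicClosure S ℂ) : ℂ) = aeval (w : ℂ) g :=
      (aeval_algebraMap_apply ℂ w g).symm
    rw [h2]
    exact hw
  have h2 : aeval (σ w) g = 0 := by
    rw [aeval_algHom_apply, h1, map_zero]
  exact h2

theorem roots_fin {r : ℕ} (x y : ℕ → ℂ) (Φ : (MvPolynomial (Fin r × Fin 2) ℤ)[X])
    (hΦ : Φ.Monic) : {w : ℂ | (Φ.map (eR r x y)).IsRoot w}.Finite := by
  have hFm : (Φ.map (eR r x y)).Monic := hΦ.map _
  have h1 : {w : ℂ | (Φ.map (eR r x y)).IsRoot w} ⊆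
      ((Φ.map (eR r x y)).roots.toFinset : Set ℂ) := by
    intro w hw
    rw [Finset.mem_coe, Multiset.mem_toFinset, mem_roots hFm.ne_zero]
    exact hw
  exact (Finset.finite_toSet _).subset h1

end Pool.Agent.J4H11.GQ

attribute [local instance 5000] Classical.propDecidable

namespace Pool.Agent.J4H11.GQ

section
variable {a b : ℕ → ℤ} {r : ℕ}

theorem lin_cl {F : Type} [Field F] {a' b' : F} (d : DecidableEq F) (m : ℕ) (P Q : Pt a' b') :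
    lin d m P Q = m • P + Q := lin_inst _ _ _ _ _

/-- the divisions of the generic points are generic -/
theorem ncr_div (hnt : ∀ j, NT (a j) (b j)) (hD : ∀ j, Disc (a j : ℂ) (b j : ℂ))
    (P R : (j : ℕ) → Pt (a j : ℂ) (b j : ℂ)) (m : ℕ → ℕ)
    (R0 : (j : ℕ) → Pt (a j : ℚ) (b j : ℚ)) (hm : ∀ j < r, 1 ≤ m j)
    (hR : ∀ j < r, R j ≠ 0 ∧ m j • R j + pm (Rat.castHom ℂ) (hD j) (R0 j) = P j)
    (hP : ∀ j < r, NCr (Kb (cx P) (cy P) j).subtype (P j)) :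
    ∀ j < r, NCr (k0 (cx R) (cy R) j).subtype (R j) := by
  intro j hj
  have hcl : IsAlgClosed (Kb (cx P) (cy P) j) := kb_closed _ _ j
  obtain ⟨c, hc⟩ := pm_rat (Kb (cx P) (cy P) j) (hD j) (R0 j)
  have h1 := hR j hj
  rw [← hc] at h1
  have h2 := (adR_cmp (Kb (cx P) (cy P) j) (hnt j) (hD j) (P j) (P j) (R j) 1 (m j) le_rfl
    (hP j hj) 0 c (by rw [one_smul, map_zero, add_zero]) (by rw [one_mul]; exact h1.2)).1
  refine ncr_mono _ _ ?_ _ h2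
  apply k0_le
  intro i hi
  obtain ⟨-, h3⟩ := hR i (hi.trans hj)
  exact crd_div (Kb (cx P) (cy P) j) (hnt i) (hD i) (P i) (R i)
    (k0_le_kb _ _ j (k0_x _ _ j i hi)) (k0_le_kb _ _ j (k0_y _ _ j i hi))
    (m i) (hm i (hi.trans hj)) (R0 i) h3

theorem k0_div (hD : ∀ j, Disc (a j : ℂ) (b j : ℂ))
    (P R : (j : ℕ) → Pt (a j : ℂ) (b j : ℂ)) (m : ℕ → ℕ)
    (R0 : (j : ℕ) → Pt (a j : ℚ) (b j : ℚ))
    (hR : ∀ j < r, R j ≠ 0 ∧ m j • R j + pm (Rat.castHom ℂ) (hD j) (R0 j) = P j) :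
    k0 (cx P) (cy P) r ≤ k0 (cx R) (cy R) r := by
  apply k0_le
  intro j hj
  have h2 := crd_field (k0 (cx R) (cy R) r) (hD j) (R j) (k0_x _ _ r j hj)
    (k0_y _ _ r j hj) (m j) (R0 j)
  rw [(hR j hj).2] at h2
  exact h2

theorem step_box (hDQ : ∀ j, Disc (a j : ℚ) (b j : ℚ)) (hnt : ∀ j, NT (a j) (b j))
    (hD : ∀ j, Disc (a j : ℂ) (b j : ℂ))
    (P R : (j : ℕ) → Pt (a j : ℂ) (b j : ℂ)) (m : ℕ → ℕ)
    (R0 : (j : ℕ) → Pt (a j : ℚ) (b j : ℚ)) (hm : ∀ j < r, 1 ≤ m j)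
    (hR : ∀ j < r, R j ≠ 0 ∧ m j • R j + pm (Rat.castHom ℂ) (hD j) (R0 j) = P j)
    (hP : ∀ j < r, NCr (Kb (cx P) (cy P) j).subtype (P j))
    (Φ : (MvPolynomial (Fin r × Fin 2) ℤ)[X]) (hΦ : Φ.Monic) (θ : ℂ)
    (hθ : ∀ w : ℂ, (Φ.map (eR r (cx P) (cy P))).IsRoot w → w ∈ ad1 (k0 (cx P) (cy P) r) θ)
    (hTw : ∀ w : ℂ, (Φ.map (eR r (cx P) (cy P))).IsRoot w → Tw a b r (cx R) (cy R) w)
    (hTθ : Tw a b r (cx R) (cy R) θ)
    (hyp : ∀ w : ℂ, (Φ.map (eR r (cx P) (cy P))).IsRoot w → w ∉ k0 (cx R) (cy R) r)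
    (f : (j : Fin r) → Fin 3 → Pt (a j : ℚ) (b j : ℚ)) (hf : Ind3 f) :
    BoxG (a := fun j : Fin r => a j) (b := fun j : Fin r => b j) f (fun Q => (∀ j, Q j ≠ 0) ∧
      (∀ j : Fin r, linQ (m j) (Q j) (R0 j) ≠ 0) ∧
      ∃ u : ℚ, (Φ.map (eQ (fun j : Fin r => linQ (m j) (Q j) (R0 j)))).IsRoot u) := by
  have hk := k0_div hD P R m R0 hR
  obtain ⟨A0, _, ι0, X0, Y0, hι0, hXY0, -, htws, full0⟩ := triv_tower hDQ hnt hD R r
    (ncr_div hnt hD P R m R0 hm hR hP) r le_rfl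
  obtain ⟨Dθ⟩ := twD_of hTθ
  have hDw : ∀ w : {w : ℂ // (Φ.map (eR r (cx P) (cy P))).IsRoot w},
      Nonempty (TwD a b r (cx R) (cy R) w.1) := fun w => twD_of (hTw w.1 w.2)
  have D := fun w => Classical.choice (hDw w)
  have halg : ∀ w : {w : ℂ // (Φ.map (eR r (cx P) (cy P))).IsRoot w},
      AlgS (k0 (cx R) (cy R) r) w.1 := fun w => root_algS _ _ _ hk Φ hΦ w.1 w.2
  obtain ⟨s, hs, hmain⟩ := rat_hom hDQ hD P R m R0 hR ι0 hι0 X0 Y0 hXY0 (full0 ℚ) Φ hΦ D halg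
  have hs0 : evp (fun j : Fin r => X0 j) (fun j : Fin r => Y0 j) s ≠ 0 := by
    intro h0
    apply hs
    have h1 : eR r (cx R) (cy R) = ι0.comp (evp (fun j : Fin r => X0 j)
        (fun j : Fin r => Y0 j)) := by
      rw [evp_comp]
      unfold eR
      congr 1
      · funext j
        exact (hXY0 j j.2).1.symm
      · funext j
        exact (hXY0 j j.2).2.symm
    rw [h1, RingHom.comp_apply, h0, map_zero]
  have hbad := box_bad' htws full0 s hs0 (fun j => hDQ j) f hf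
  have hfin : Finite {w : ℂ // (Φ.map (eR r (cx P) (cy P))).IsRoot w} :=
    roots_fin (cx P) (cy P) Φ hΦ
  have hpair : ∀ w : {w : ℂ // (Φ.map (eR r (cx P) (cy P))).IsRoot w},
      BoxG (a := fun j : Fin r => a j) (b := fun j : Fin r => b j) f
        (fun Q => ∃ χ : (D w).A →+* ℚ,
          χ ∈ Ab (fun j : Fin r => (D w).Xf j) (fun j : Fin r => (D w).Yf j) Q) := by
    intro w
    have hwalg : (w : ℂ) ∈ algebraicClosure (k0 (cx R) (cy R) r) ℂ :=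
      mem_algebraicClosure_iff.2 (algS_iff.1 (halg w))
    refine box_pair (D w) Dθ hwalg (hyp w.1 w.2) (fun σ => ?_) (fun j => hDQ j) f hf
    have h1 := root_conj (cx P) (cy P) (k0 (cx R) (cy R) r) hk Φ hΦ ⟨w, hwalg⟩ w.2 σ
    have h2 := hθ _ h1
    exact (ad1_le _ _ _ (hk.trans (ad1_S _ _)) (ad1_θ _ _)) h2
  refine boxG_mono f ?_ (boxG_or f hbad (boxG_iUnion f _ hpair))
  rintro Q ⟨hQ0, hmQ, u, hu⟩
  by_cases hsQ : eQ Q s = 0
  · exact Or.inl hsQ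
  · right
    have h1 : (fun j : Fin r => m j • Q j + R0 j) =
        (fun j : Fin r => linQ (m j) (Q j) (R0 j)) := by
      funext j
      rw [← linQ_lin (m j) (Q j) (R0 j) (fun a b => Classical.propDecidable (a = b))]
      rfl
    refine hmain Q hQ0 (fun j => ?_) hsQ u ?_
    · have h2 := congrFun h1 j
      exact fun h3 => hmQ j (h2.symm.trans h3)
    · rw [h1]
      exact hu

end

end Pool.Agent.J4H11.GQ
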