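import Pool.Agent.J4H11.GQ.Z8

/-!
# The points with a rational root: reduction to a finite number of divisions
-/

set_option autoImplicit false
set_option linter.unusedSectionVars false

open Polynomial Pool.Agent.J4H11.RC Pool.Agent.J4H11.SC Pool.Agent.H901R3.MS WeierstrassCurve
  Pool.Agent.J4H11.GP Pool.Agent.J4H11.GN

namespace Pool.Agent.J4H11.GQ

/-- `m P + Q` with the usual instance -/
noncomputable def linC {a b : ℂ} (m : ℕ) (P Q : Pt a b) : Pt a b := m • P + Q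

theorem linC_lin {a b : ℂ} (m : ℕ) (P Q : Pt a b) (d : DecidableEq ℂ) :
    lin d m P Q = linC m P Q := lin_inst _ _ _ _ _

/-- the point has rational coordinates -/
def IsRatP {a b : ℂ} (S : Pt a b) : Prop := ∃ q : ℚ × ℚ, crd S = ((q.1 : ℂ), (q.2 : ℂ))

section
variable {a b : ℕ → ℤ} {r : ℕ}

theorem kb_ind (P : (j : ℕ) → Pt (a j : ℂ) (b j : ℂ))
    (hind : AlgebraicIndependent ℚ (fun j : Fin r => cx P j))
    (heq : ∀ j < r, cy P j ^ 2 = cx P j ^ 3 + (a j : ℂ) * cx P j + (b j : ℂ))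
    (j : ℕ) (hj : j < r) : ¬ AlgS (Kb (cx P) (cy P) j) (cx P j) := by
  intro hA
  set K := IntermediateField.adjoin ℚ ((fun i : Fin r => cx P i) '' {i | (i : ℕ) < j}) with hK
  have htr : Transcendental K (cx P j) := by
    rw [hK, IntermediateField.transcendental_adjoin_iff]
    exact hind.transcendental_adjoin (s := {i : Fin r | (i : ℕ) < j}) (i := ⟨j, hj⟩)
      (by simp)
  have hx : ∀ i < j, cx P i ∈ K.toSubfield := fun i hi =>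
    IntermediateField.subset_adjoin ℚ _ ⟨⟨i, hi.trans hj⟩, hi, rfl⟩
  have h1 : ∀ z ∈ k0 (cx P) (cy P) j, AlgS K.toSubfield z := by
    have h2 : k0 (cx P) (cy P) j ≤ (algebraicClosure K.toSubfield ℂ).toSubfield := by
      apply k0_le
      intro i hi
      have h3 : cx P i ∈ (algebraicClosure K.toSubfield ℂ).toSubfield :=
        mem_algebraicClosure_iff.2 (algS_iff.1 (algS_of_mem (hx i hi)))
      refine ⟨h3, ?_⟩
      apply mem_algebraicClosure_iff.2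
      refine IsAlgebraic.of_pow (n := 2) (by norm_num) ?_
      have h4 : cy P i ^ 2 ∈ (algebraicClosure K.toSubfield ℂ).toSubfield := by
        rw [heq i (hi.trans hj)]
        exact Subfield.add_mem _ (Subfield.add_mem _ (Subfield.pow_mem _ h3 3)
          (Subfield.mul_mem _ (intCast_mem _ _) h3)) (intCast_mem _ _)
      exact mem_algebraicClosure_iff.1 h4
    intro z hz
    exact algS_iff.2 (mem_algebraicClosure_iff.1 (h2 hz))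
  have h2 : ∀ z ∈ Kb (cx P) (cy P) j, AlgS K.toSubfield z := fun z hz =>
    algS_trans _ h1 ((kb_mem _ _ _ z).1 hz)
  have h3 : AlgS K.toSubfield (cx P j) := algS_trans _ h2 hA
  rw [algS_iff] at h3
  have h4 : IsAlgebraic K (cx P j) := h3
  exact htr h4

theorem ncr_ind (P : (j : ℕ) → Pt (a j : ℂ) (b j : ℂ))
    (hind : AlgebraicIndependent ℚ (fun j : Fin r => cx P j)) (hP0 : ∀ j < r, P j ≠ 0) :
    ∀ j < r, NCr (Kb (cx P) (cy P) j).subtype (P j) := by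
  intro j hj
  refine ⟨hP0 j hj, fun p hp => ?_⟩
  by_contra hne
  apply kb_ind P hind (fun i hi => crd_eqn' (P i) (hP0 i hi)) j hj
  rw [algS_iff]
  exact ⟨p, hne, hp⟩

end

end Pool.Agent.J4H11.GQ

attribute [local instance 5000] Classical.propDecidable

namespace Pool.Agent.J4H11.GQ

theorem cx_def {a b : ℕ → ℤ} {F : Type} [Field F] (P : (j : ℕ) → Pt (a j : F) (b j : F)) (j : ℕ) :
    cx P j = (crd (P j)).1 := rfl

theorem cy_def {a b : ℕ → ℤ} {F : Type} [Field F] (P : (j : ℕ) → Pt (a j : F) (b j : F)) (j : ℕ) :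
    cy P j = (crd (P j)).2 := rfl

section
variable {a b : ℕ → ℤ} {r : ℕ}

/-- no root is defined over the field of a common division -/
def NoDiv (P : (j : ℕ) → Pt (a j : ℂ) (b j : ℂ)) (r : ℕ)
    (Φ : (MvPolynomial (Fin r × Fin 2) ℤ)[X]) : Prop :=
  ∀ n : ℕ, 1 ≤ n → ∀ R S : (j : ℕ) → Pt (a j : ℂ) (b j : ℂ),
    (∀ j < r, linC n (R j) (S j) = P j ∧ IsRatP (S j)) →
    ∀ w : ℂ, (Φ.map (eR r (cx P) (cy P))).IsRoot w → w ∉ k0 (cx R) (cy R) r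

theorem to_common (hnt : ∀ j, NT (a j) (b j)) (hD : ∀ j, Disc (a j : ℂ) (b j : ℂ))
    (P : (j : ℕ) → Pt (a j : ℂ) (b j : ℂ)) (Φ : (MvPolynomial (Fin r × Fin 2) ℤ)[X])
    (h : NoDiv P r Φ) (m : ℕ → ℕ) (R : (j : ℕ) → Pt (a j : ℂ) (b j : ℂ))
    (R0 : (j : ℕ) → Pt (a j : ℚ) (b j : ℚ)) (hm : ∀ j < r, 1 ≤ m j)
    (hR : ∀ j < r, R j ≠ 0 ∧ m j • R j + pm (Rat.castHom ℂ) (hD j) (R0 j) = P j) (w : ℂ)
    (hw : (Φ.map (eR r (cx P) (cy P))).IsRoot w) : w ∉ k0 (cx R) (cy R) r := by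
  intro hwR
  have hn : 1 ≤ ∏ j ∈ Finset.range r, m j := Finset.one_le_prod' fun j hj =>
    hm j (Finset.mem_range.1 hj)
  have hk : ∀ j, j < r → ∃ k, 1 ≤ k ∧ ∏ j ∈ Finset.range r, m j = m j * k := by
    intro j hj
    obtain ⟨k, hk⟩ := Finset.dvd_prod_of_mem m (Finset.mem_range.2 hj)
    refine ⟨k, ?_, hk⟩
    by_contra h0
    have h1 : k = 0 := Nat.eq_zero_of_not_pos h0
    rw [h1, mul_zero] at hk
    rw [hk] at hn
    exact absurd hn (by norm_num)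
  have hR' : ∀ j, ∃ R' : Pt (a j : ℂ) (b j : ℂ), j < r → ∃ k : ℕ, 1 ≤ k ∧
      ∏ j ∈ Finset.range r, m j = m j * k ∧ k • R' = R j := by
    intro j
    by_cases hj : j < r
    · obtain ⟨k, hk1, hk2⟩ := hk j hj
      obtain ⟨R', hR'⟩ := div_pt (hnt j) (hD j) k hk1 (R j)
      exact ⟨R', fun _ => ⟨k, hk1, hk2, hR'⟩⟩
    · exact ⟨0, fun h => absurd h hj⟩
  choose R' hR' using hR'
  refine h (∏ j ∈ Finset.range r, m j) hn R' (fun j => pm (Rat.castHom ℂ) (hD j) (R0 j))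
    (fun j hj => ?_) w hw ?_
  · obtain ⟨k, hk1, hk2, hk3⟩ := hR' j hj
    constructor
    · rw [← linC_lin _ _ _ (fun a b => Classical.propDecidable (a = b)), lin_cl, hk2, mul_smul,
        hk3]
      exact (hR j hj).2
    · exact ⟨crd (R0 j), pm_crd _ _ _⟩
  · refine k0_le _ _ _ _ (fun j hj => ?_) hwR
    obtain ⟨k, hk1, hk2, hk3⟩ := hR' j hj
    have h2 := crd_field (k0 (cx R') (cy R') r) (hD j) (R' j) (k0_x _ _ r j hj)
      (k0_y _ _ r j hj) k 0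
    rw [map_zero, add_zero, hk3] at h2
    exact h2

theorem core1 (hDQ : ∀ j, Disc (a j : ℚ) (b j : ℚ)) (hnt : ∀ j, NT (a j) (b j))
    (hmw : ∀ j, ∀ m : ℕ, 1 ≤ m → ∃ 𝒯 : Set (Pt (a j : ℚ) (b j : ℚ)), 𝒯.Finite ∧
      ∀ Q, ∃ R0 ∈ 𝒯, ∃ Q', linQ m Q' R0 = Q)
    (P : (j : ℕ) → Pt (a j : ℂ) (b j : ℂ))
    (hP : ∀ j < r, NCr (Kb (cx P) (cy P) j).subtype (P j))
    (Φ : (MvPolynomial (Fin r × Fin 2) ℤ)[X]) (hΦ : Φ.Monic) (hyp : NoDiv P r Φ)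
    (f : (j : Fin r) → Fin 3 → Pt (a j : ℚ) (b j : ℚ)) (hf : Ind3 f) :
    ∃ 𝒮 : Set ((ℕ → ℕ) × ((j : ℕ) → Pt (a j : ℚ) (b j : ℚ))), 𝒮.Finite ∧
      (∀ Q : (j : ℕ) → Pt (a j : ℚ) (b j : ℚ), ∃ s ∈ 𝒮, ∀ j < r, ∃ Q',
        linQ (s.1 j) Q' (s.2 j) = Q j) ∧
      ∀ s ∈ 𝒮, BoxG (a := fun j : Fin r => a j) (b := fun j : Fin r => b j) f
        (fun Q => (∀ j, Q j ≠ 0) ∧ (∀ j : Fin r, linQ (s.1 j) (Q j) (s.2 j) ≠ 0) ∧
          ∃ u : ℚ, (Φ.map (eQ (fun j : Fin r => linQ (s.1 j) (Q j) (s.2 j)))).IsRoot u) := by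
  have hD : ∀ j, Disc (a j : ℂ) (b j : ℂ) := fun j => disc_of (Rat.castHom ℂ) _ _ (hDQ j)
  have hmw' : ∀ j, ∀ m : ℕ, 1 ≤ m → ∃ 𝒯 : Set (Pt (a j : ℚ) (b j : ℚ)), 𝒯.Finite ∧
      ∀ Q, ∃ R0 ∈ 𝒯, ∃ Q', m • Q' + R0 = Q := by
    intro j m hm
    obtain ⟨𝒯, h1, h2⟩ := hmw j m hm
    refine ⟨𝒯, h1, fun Q => ?_⟩
    obtain ⟨R0, hR0, Q', hQ'⟩ := h2 Q
    refine ⟨R0, hR0, Q', ?_⟩
    rw [← linQ_lin _ _ _ (fun a b => Classical.propDecidable (a = b)), lin_cl] at hQ'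
    exact hQ'
  set T := {w : ℂ | (Φ.map (eR r (cx P) (cy P))).IsRoot w} with hT
  have hTf : T.Finite := roots_fin _ _ Φ hΦ
  have hTa : ∀ w ∈ T, AlgS (k0 (cx P) (cy P) r) w := fun w hw =>
    root_algS _ _ _ le_rfl Φ hΦ w hw
  obtain ⟨θ, -, hθ2, hθ3⟩ := prim (k0 (cx P) (cy P) r) T hTf hTa
  obtain ⟨𝒮, h𝒮f, h𝒮1, h𝒮2, h𝒮3⟩ := tlemma hDQ hnt hD hmw' P r hP r le_rfl (insert θ T)
    (hTf.insert θ) (by
      rintro z (rfl | hz)
      · exact hθ3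
      · exact hTa z hz)
  refine ⟨𝒮, h𝒮f, fun Q => ?_, fun s hs => ?_⟩
  · obtain ⟨s, hs, h1⟩ := h𝒮2 Q
    refine ⟨s, hs, fun j hj => ?_⟩
    obtain ⟨Q', hQ'⟩ := h1 j hj
    refine ⟨Q', ?_⟩
    rw [← linQ_lin _ _ _ (fun a b => Classical.propDecidable (a = b)), lin_cl]
    exact hQ'
  · obtain ⟨R, hR, hTw⟩ := h𝒮3 s hs
    exact step_box hDQ hnt hD P R s.1 s.2 (h𝒮1 s hs) hR hP Φ hΦ θ (fun w hw => hθ2 hw)
      (fun w hw => hTw w (Or.inr hw)) (hTw θ (Or.inl rfl))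
      (fun w hw => to_common hnt hD P Φ hyp s.1 R s.2 (h𝒮1 s hs) hR w hw) f hf

end

end Pool.Agent.J4H11.GQ
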